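import Mathlib

/-!
Definitions for the exponent of approximation from large domains (MP_594f4b_nt, Q2).
-/

namespace Pool.Agent.W789.TH

/-- The distance from a real number to the nearest integer. -/
noncomputable def distInt (y : ℝ) : ℝ := |y - round y|

/-- The model domain `Φ₀(ρ, τ)`. For `τ = 0` the second set is the strip `|x₁| ≤ 1`, because
`z ^ (0 : ℝ) = 1` for every real `z`. -/
def Phi0 (ρ τ : ℝ) : Set (ℝ × ℝ) :=
  {x | |x.2| ≤ |x.1| ^ ρ} ∪ {x | |x.1| ≤ |x.2| ^ τ}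

/-- The pair `(ρ, τ)` admits the exponent `s`. -/
def Admits (ρ τ s : ℝ) : Prop :=
  ∀ θ₁ θ₂ : ℝ, LinearIndependent ℤ ![1, θ₁, θ₂] →
    ∀ L : (ℝ × ℝ) ≃ₗ[ℝ] (ℝ × ℝ), ∃ c : ℝ, 0 < c ∧
      {x : ℤ × ℤ | ((x.1 : ℝ), (x.2 : ℝ)) ∈ L '' Phi0 ρ τ ∧
        distInt (θ₁ * x.1 + θ₂ * x.2) ≤ c * (max |(x.1 : ℝ)| |(x.2 : ℝ)|) ^ (-s)}.Infinite

/-- The lattice `ℤ³` with three real coordinates `l` (the linear form), `x`, `y`
(the coordinates of the plane). -/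
structure Sys where
  l : (Fin 3 → ℤ) →+ ℝ
  x : (Fin 3 → ℤ) →+ ℝ
  y : (Fin 3 → ℤ) →+ ℝ
  d : ℝ
  d_pos : 0 < d
  mink : ∀ c1 c2 c3 : ℝ, 0 < c1 → 0 < c2 → 0 < c3 → d < c1 * c2 * c3 →
    ∃ r : Fin 3 → ℤ, r ≠ 0 ∧ |l r| < c1 ∧ |x r| < c2 ∧ |y r| < c3
  detint : ∀ p q r : Fin 3 → ℤ,
    l p * (x q * y r - x r * y q) - l q * (x p * y r - x r * y p)
      + l r * (x p * y q - x q * y p) = 0 ∨
    d ≤ |l p * (x q * y r - x r * y q) - l q * (x p * y r - x r * y p)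
      + l r * (x p * y q - x q * y p)|
  inj : ∀ r, l r = 0 → r = 0
  fin : ∀ R : ℝ, {r : Fin 3 → ℤ | |l r| ≤ R ∧ |x r| ≤ R ∧ |y r| ≤ R}.Finite

/-- The norm of the plane part. -/
noncomputable def Sys.N (S : Sys) (r : Fin 3 → ℤ) : ℝ := max |S.x r| |S.y r|

/-- The determinant of three lattice vectors. -/
noncomputable def Sys.det (S : Sys) (p q r : Fin 3 → ℤ) : ℝ :=
  S.l p * (S.x q * S.y r - S.x r * S.y q) - S.l q * (S.x p * S.y r - S.x r * S.y p)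
      + S.l r * (S.x p * S.y q - S.x q * S.y p)

/-- In the domain the form is eventually larger than every multiple of `N ^ (-s)`. -/
def Sys.Bad (S : Sys) (ρ s : ℝ) : Prop :=
  ∀ C : ℝ, 0 < C → ∃ R : ℝ, ∀ r : Fin 3 → ℤ, R ≤ S.N r →
    (|S.y r| ≤ |S.x r| ^ ρ ∨ |S.x r| ≤ 1) → C * (S.N r) ^ (-s) < |S.l r|

/-- A sequence of minimal points. -/
structure Seq (S : Sys) where
  r : ℕ → (Fin 3 → ℤ)
  ne : ∀ k, r k ≠ 0
  Nmono : ∀ k, S.N (r k) < S.N (r (k + 1))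
  Lanti : ∀ k, |S.l (r (k + 1))| < |S.l (r k)|
  best : ∀ k q, q ≠ 0 → S.N q < S.N (r (k + 1)) → |S.l (r k)| ≤ |S.l q|

/-- `|l|` of the minimal point. -/
noncomputable def Seq.L {S : Sys} (m : Seq S) (k : ℕ) : ℝ := |S.l (m.r k)|
/-- `|x|` of the minimal point. -/
noncomputable def Seq.a {S : Sys} (m : Seq S) (k : ℕ) : ℝ := |S.x (m.r k)|
/-- `|y|` of the minimal point. -/
noncomputable def Seq.b {S : Sys} (m : Seq S) (k : ℕ) : ℝ := |S.y (m.r k)|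
/-- The area of two consecutive minimal points. -/
noncomputable def Seq.D {S : Sys} (m : Seq S) (k : ℕ) : ℝ :=
  |S.x (m.r k) * S.y (m.r (k + 1)) - S.x (m.r (k + 1)) * S.y (m.r k)|
/-- The minimal points `k, k+1, k+2` span space. -/
def Seq.New {S : Sys} (m : Seq S) (k : ℕ) : Prop :=
  S.det (m.r k) (m.r (k + 1)) (m.r (k + 2)) ≠ 0

/-- The value of the exponent: the conditions determining it. -/
def Val (ρ s β : ℝ) : Prop :=
  (1 + √5) / 2 < s ∧ s ≤ 2 ∧ 0 < β ∧ β ≤ 1 ∧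
    β * (1 + s * β) * (s - 1) = (s + 1) * (s ^ 2 - s - 1) ∧
    (ρ - 1) * ((s + 1) * s + (s - 1) * β) = ρ * (s + 1) * (s - 1) * β ^ 2

end Pool.Agent.W789.TH
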