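import Mathlib
import Pool.Agent.W789.TH.Defs

/-!
Statements of the lemmas for the lower bound.
-/

namespace Pool.Agent.W789.TH

/-- Everything that holds for a tail of the sequence of minimal points. -/
structure Env {S : Sys} (m : Seq S) (ρ s : ℝ) : Prop where
  hρ : 1 < ρ
  hs : 1 < s
  hs2 : s < 2
  bad : S.Bad ρ s
  a1 : ∀ k, 1 < m.a k
  aρ : ∀ k, (m.a k) ^ ρ < m.b k
  ab : ∀ k, m.a k < m.b k
  Nb : ∀ k, S.N (m.r k) = m.b k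
  bmono : StrictMono m.b
  Lanti : StrictAnti m.L
  Lpos : ∀ k, 0 < m.L k
  btop : ∀ R : ℝ, ∃ k0 : ℕ, ∀ k, k0 ≤ k → R ≤ m.b k
  dir : ∀ k, m.L k * (m.b (k + 1)) ^ 2 ≤ S.d

/-- `J` is the next index after `j` at which a new plane begins (or any index before it). -/
def Seq.Cons {S : Sys} (m : Seq S) (j J : ℕ) : Prop :=
  j < J ∧ ∀ i, j < i → i < J → ¬ m.New i

def MinkStm : Prop := ∀ (M : Matrix (Fin 3) (Fin 3) ℝ) (c : Fin 3 → ℝ), M.det ≠ 0 →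
  (∀ i, 0 < c i) → |M.det| < c 0 * c 1 * c 2 →
  ∃ r : Fin 3 → ℤ, r ≠ 0 ∧ ∀ i, |M.mulVec (fun j => (r j : ℝ)) i| < c i

def RedStm : Prop := ∀ ρ s : ℝ, 0 < s → ¬ Admits ρ 0 s → ∃ S : Sys, S.Bad ρ s

def SeqStm : Prop := ∀ S : Sys, Nonempty (Seq S)

def EnvStm : Prop := ∀ (S : Sys) (ρ s : ℝ), 1 < ρ → 1 < s → s < 2 → S.Bad ρ s →
  ∃ m : Seq S, Env m ρ s

def BasisStm : Prop := ∀ (S : Sys) (m : Seq S) (k : ℕ) (q : Fin 3 → ℤ),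
  S.det (m.r k) (m.r (k + 1)) q = 0 → ∃ u v : ℤ, q = u • m.r k + v • m.r (k + 1)

def PlaneStm : Prop := ∀ (S : Sys) (m : Seq S) (j J : ℕ), m.Cons j J →
  ∃ p q u v : ℤ, m.r J = p • m.r (j + 1) + q • m.r (j + 2) ∧
    m.r (J + 1) = u • m.r (j + 1) + v • m.r (j + 2) ∧
    (p * v - q * u = 1 ∨ p * v - q * u = -1)

def InfStm : Prop := ∀ (S : Sys) (m : Seq S) (ρ s : ℝ), Env m ρ s →
  ∀ k, ∃ j, k ≤ j ∧ m.New j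

def AStm : Prop := ∀ (S : Sys) (m : Seq S) (ρ s : ℝ), Env m ρ s → ∀ C : ℝ, 0 < C →
  ∃ k0 : ℕ, ∀ k, k0 ≤ k → C * (m.b (k + 1)) ^ (s / (s - 1)) * m.L k ≤ 1

def IStm : Prop := ∀ (S : Sys) (m : Seq S) (ρ s : ℝ), Env m ρ s → ∀ C : ℝ, 0 < C →
  ∃ k0 : ℕ, ∀ k, k0 ≤ k →
    C ≤ m.L k * (m.b k / (m.a k) ^ ρ) ^ ((s + 1) / (ρ - 1)) * (m.b k) ^ s

def DlowStm : Prop := ∀ (S : Sys) (m : Seq S) (ρ s : ℝ), Env m ρ s → ∀ C : ℝ, 0 < C →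
  ∃ k0 : ℕ, ∀ j, k0 ≤ j → m.New j → C * (m.b (j + 1)) ^ (s / (s - 1)) ≤ m.D (j + 1)

def TwoStm : Prop := ∀ (S : Sys) (m : Seq S) (ρ s : ℝ), Env m ρ s →
  ∃ k0 : ℕ, ∀ j, k0 ≤ j → m.New j → 2 * m.b (j + 1) ≤ m.b (j + 2)

def IIIStm : Prop := ∀ (S : Sys) (m : Seq S) (ρ s : ℝ), Env m ρ s → ∀ C : ℝ, 0 < C →
  ∃ k0 : ℕ, ∀ j, k0 ≤ j → m.New j →
    C * m.b (j + 1) ≤ m.L (j + 1) * m.b (j + 2) * (m.D (j + 1) / m.b (j + 1)) ^ s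

def DeltaStm : Prop := ∀ (S : Sys) (m : Seq S) (ρ s : ℝ), Env m ρ s →
  ∃ k0 : ℕ, ∀ j, k0 ≤ j → m.New j → ∀ J, m.Cons j J →
    m.L (j + 1) * m.b (j + 2) ≤ 4 * (m.b (J + 1) * m.L J) ∧ m.D J = m.D (j + 1)

def DupStm : Prop := ∀ (S : Sys) (m : Seq S) (ρ s : ℝ), Env m ρ s →
  ∃ k0 : ℕ, ∀ j, k0 ≤ j → m.New j → ∀ J, m.Cons j J →
    m.D (j + 1) * m.b (J + 1) ≤
      2 * m.b (j + 2) * (m.a (j + 1) * m.b (J + 1) + m.b (j + 1) * m.a (J + 1))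

def SStm : Prop := ∀ (S : Sys) (m : Seq S) (ρ s : ℝ), Env m ρ s → ∀ C : ℝ, 0 < C →
  ∃ k0 : ℕ, ∀ k, k0 ≤ k → 1 ≤ m.D k →
    C ≤ (m.D k) ^ s * ((m.a (k + 1) + m.b (k + 1) / m.D k) * m.L k + m.b (k + 1) * m.L (k + 1))

/-- The arithmetic core: logarithms of the sizes. -/
def ArithStm : Prop := ∀ (s β ρ : ℝ), 3 / 2 < s → s < 2 → 0 < β → β ≤ 1 → 1 < ρ →
  β * (1 + s * β) * (s - 1) = (s + 1) * (s ^ 2 - s - 1) →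
  ρ * (s + 1) * (s - 1) * β ^ 2 < (ρ - 1) * ((s + 1) * s + (s - 1) * β) →
  ∀ x y A : ℕ → ℝ, (∀ i, 0 < x i) → (∀ i, x i ≤ y i) → (∀ i, y i ≤ x (i + 1)) →
  (∀ i, 0 ≤ A i) → (∀ i, A i < x i) →
  (∀ i, (s / (s - 1) - 1) * x (i + 1) ≤
    - x i + s * (y i + max (A i) (x i + A (i + 1) - x (i + 1)) - x i)) →
  (∀ i, y i + (s / (s - 1) - 1) * x (i + 1) ≤
    (s + 1) / (ρ - 1) * (x i - ρ * A i) + s * x i) →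
  (∀ i, (s / (s - 1)) * x (i + 1) ≤
      A (i + 1) + s * (y i + max (A i) (x i + A (i + 1) - x (i + 1))) ∨
    (s / (s - 1)) * x (i + 1) ≤
      x (i + 1) + (s - 1) * (y i + max (A i) (x i + A (i + 1) - x (i + 1))) ∨
    (s / (s - 1)) * y (i + 1) ≤
      x (i + 1) + s * (y i + max (A i) (x i + A (i + 1) - x (i + 1)))) → False

/-- The lower bound. -/
def LowStm : Prop := ∀ (s β ρ : ℝ), 3 / 2 < s → s < 2 → 0 < β → β ≤ 1 → 1 < ρ →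
  β * (1 + s * β) * (s - 1) = (s + 1) * (s ^ 2 - s - 1) →
  ρ * (s + 1) * (s - 1) * β ^ 2 < (ρ - 1) * ((s + 1) * s + (s - 1) * β) →
  Admits ρ 0 s

end Pool.Agent.W789.TH
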