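import Mathlib
import Pool.Agent.W789.TH.Defs
import Pool.Agent.W789.TH.StmA
import Pool.Agent.Helper150.Lattice

set_option autoImplicit false

namespace Pool.Agent.W789.TH.A01

open Pool.Agent.W789.TH

theorem pf : MinkStm := by
  intro M c hM hc h
  refine Pool.Agent.Helper150.Lattice.linear_forms M hM c hc ?_
  rw [Fin.prod_univ_three]
  exact h

end Pool.Agent.W789.TH.A01
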