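import Mathlib
import Pool.Agent.W789.TH.Defs
import Pool.Agent.W789.TH.StmA

/-!
TH-A02: reduction of the original statement to a lattice system.
-/

namespace Pool.Agent.W789.TH.A02

open Pool.Agent.W789.TH

/-- additive map with three coefficients -/
noncomputable def lin (a b c : ℝ) : (Fin 3 → ℤ) →+ ℝ :=
  AddMonoidHom.mk' (fun r => a * (r 0 : ℝ) + b * (r 1 : ℝ) + c * (r 2 : ℝ)) (by
    intro p q
    simp only [Pi.add_apply, Int.cast_add]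
    ring)

theorem lin_apply (a b c : ℝ) (r : Fin 3 → ℤ) :
    lin a b c r = a * (r 0 : ℝ) + b * (r 1 : ℝ) + c * (r 2 : ℝ) := rfl

theorem lapply (L : (ℝ × ℝ) ≃ₗ[ℝ] (ℝ × ℝ)) (u v : ℝ) :
    L (u, v) = ((L (1, 0)).1 * u + (L (0, 1)).1 * v, (L (1, 0)).2 * u + (L (0, 1)).2 * v) := by
  have h : ((u, v) : ℝ × ℝ) = u • ((1, 0) : ℝ × ℝ) + v • ((0, 1) : ℝ × ℝ) := by simp
  rw [h, map_add, map_smul, map_smul]
  ext
  · simp only [Prod.fst_add, Prod.smul_fst, smul_eq_mul]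
    ring
  · simp only [Prod.snd_add, Prod.smul_snd, smul_eq_mul]
    ring

theorem ldet (L : (ℝ × ℝ) ≃ₗ[ℝ] (ℝ × ℝ)) :
    (L (1, 0)).1 * (L (0, 1)).2 - (L (0, 1)).1 * (L (1, 0)).2 ≠ 0 := by
  intro h
  have h1 : L ((L (0, 1)).2, -(L (1, 0)).2) = 0 := by
    rw [lapply]
    ext
    · show (L (1, 0)).1 * (L (0, 1)).2 + (L (0, 1)).1 * (-(L (1, 0)).2) = 0
      linarith
    · show (L (1, 0)).2 * (L (0, 1)).2 + (L (0, 1)).2 * (-(L (1, 0)).2) = 0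
      ring
  have h2 : L ((L (0, 1)).1, -(L (1, 0)).1) = 0 := by
    rw [lapply]
    ext
    · show (L (1, 0)).1 * (L (0, 1)).1 + (L (0, 1)).1 * (-(L (1, 0)).1) = 0
      ring
    · show (L (1, 0)).2 * (L (0, 1)).1 + (L (0, 1)).2 * (-(L (1, 0)).1) = 0
      linarith
  rw [LinearEquiv.map_eq_zero_iff] at h1 h2
  have h3 := congrArg Prod.snd h1
  have h4 := congrArg Prod.snd h2
  simp only [Prod.snd_zero, neg_eq_zero] at h3 h4
  have h5 : L (1, 0) = 0 := by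
    ext
    · exact h4
    · exact h3
  rw [LinearEquiv.map_eq_zero_iff] at h5
  have h6 := congrArg Prod.fst h5
  simp at h6

/-- bound for the entries -/
noncomputable def bK (L : (ℝ × ℝ) ≃ₗ[ℝ] (ℝ × ℝ)) : ℝ :=
  |(L (1, 0)).1| + |(L (0, 1)).1| + |(L (1, 0)).2| + |(L (0, 1)).2| + 1

theorem bK_pos (L : (ℝ × ℝ) ≃ₗ[ℝ] (ℝ × ℝ)) : 0 < bK L := by
  unfold bK
  positivity

theorem bK_le (L : (ℝ × ℝ) ≃ₗ[ℝ] (ℝ × ℝ)) (p : ℝ × ℝ) :
    max |(L p).1| |(L p).2| ≤ bK L * max |p.1| |p.2| := by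
  have h : L p = L (p.1, p.2) := rfl
  rw [h, lapply]
  set m := max |p.1| |p.2| with hm
  have h1 : |p.1| ≤ m := le_max_left _ _
  have h2 : |p.2| ≤ m := le_max_right _ _
  have m0 : 0 ≤ m := (abs_nonneg _).trans h1
  have a1 := abs_nonneg (L (1, 0)).1
  have a2 := abs_nonneg (L (0, 1)).1
  have a3 := abs_nonneg (L (1, 0)).2
  have a4 := abs_nonneg (L (0, 1)).2
  unfold bK
  apply max_le
  · show |(L (1, 0)).1 * p.1 + (L (0, 1)).1 * p.2| ≤ _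
    refine (abs_add_le _ _).trans ?_
    rw [abs_mul, abs_mul]
    nlinarith [mul_le_mul_of_nonneg_left h1 a1, mul_le_mul_of_nonneg_left h2 a2,
      mul_nonneg a3 m0, mul_nonneg a4 m0]
  · show |(L (1, 0)).2 * p.1 + (L (0, 1)).2 * p.2| ≤ _
    refine (abs_add_le _ _).trans ?_
    rw [abs_mul, abs_mul]
    nlinarith [mul_le_mul_of_nonneg_left h1 a3, mul_le_mul_of_nonneg_left h2 a4,
      mul_nonneg a1 m0, mul_nonneg a2 m0]

/-- the plane coordinates -/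
theorem plane (L : (ℝ × ℝ) ≃ₗ[ℝ] (ℝ × ℝ)) (r : Fin 3 → ℤ) :
    L.symm ((r 1 : ℝ), (r 2 : ℝ)) =
      (lin 0 (L.symm (1, 0)).1 (L.symm (0, 1)).1 r, lin 0 (L.symm (1, 0)).2 (L.symm (0, 1)).2 r) := by
  rw [lapply, lin_apply, lin_apply]
  ext
  · simp
  · simp

theorem plane' (L : (ℝ × ℝ) ≃ₗ[ℝ] (ℝ × ℝ)) (r : Fin 3 → ℤ) :
    L (lin 0 (L.symm (1, 0)).1 (L.symm (0, 1)).1 r, lin 0 (L.symm (1, 0)).2 (L.symm (0, 1)).2 r) =
      ((r 1 : ℝ), (r 2 : ℝ)) := by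
  rw [← plane, LinearEquiv.apply_symm_apply]

theorem finBox (L : (ℝ × ℝ) ≃ₗ[ℝ] (ℝ × ℝ)) (θ₁ θ₂ R : ℝ) :
    {r : Fin 3 → ℤ | |lin (-1) θ₁ θ₂ r| ≤ R ∧ |lin 0 (L.symm (1, 0)).1 (L.symm (0, 1)).1 r| ≤ R ∧
      |lin 0 (L.symm (1, 0)).2 (L.symm (0, 1)).2 r| ≤ R}.Finite := by
  set B : ℝ := (1 + |θ₁| + |θ₂|) * (bK L * |R|) + |R| with hB
  apply (Set.finite_Icc (fun _ : Fin 3 => -⌈B⌉) (fun _ : Fin 3 => ⌈B⌉)).subset
  rintro r ⟨h0, h1, h2⟩
  have hRR := le_abs_self R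
  have hm : max |lin 0 (L.symm (1, 0)).1 (L.symm (0, 1)).1 r|
      |lin 0 (L.symm (1, 0)).2 (L.symm (0, 1)).2 r| ≤ |R| := max_le (h1.trans hRR) (h2.trans hRR)
  have h3 := bK_le L (lin 0 (L.symm (1, 0)).1 (L.symm (0, 1)).1 r,
    lin 0 (L.symm (1, 0)).2 (L.symm (0, 1)).2 r)
  rw [plane'] at h3
  have h4 : max |(r 1 : ℝ)| |(r 2 : ℝ)| ≤ bK L * |R| :=
    h3.trans (mul_le_mul_of_nonneg_left hm (bK_pos L).le)
  have h5 : |(r 1 : ℝ)| ≤ bK L * |R| := (le_max_left _ _).trans h4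
  have h6 : |(r 2 : ℝ)| ≤ bK L * |R| := (le_max_right _ _).trans h4
  have t1 := abs_nonneg θ₁
  have t2 := abs_nonneg θ₂
  have q0 : 0 ≤ bK L * |R| := mul_nonneg (bK_pos L).le (abs_nonneg R)
  have h7 : |(r 0 : ℝ)| ≤ B := by
    rw [lin_apply] at h0
    have e : (r 0 : ℝ) = -(-1 * (r 0 : ℝ) + θ₁ * (r 1 : ℝ) + θ₂ * (r 2 : ℝ)) + θ₁ * (r 1 : ℝ)
        + θ₂ * (r 2 : ℝ) := by ring
    rw [e]
    refine (abs_add_le _ _).trans ?_
    have g1 : |-(-1 * (r 0 : ℝ) + θ₁ * (r 1 : ℝ) + θ₂ * (r 2 : ℝ)) + θ₁ * (r 1 : ℝ)| ≤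
        |R| + |θ₁| * (bK L * |R|) := by
      refine (abs_add_le _ _).trans (add_le_add ?_ ?_)
      · rw [abs_neg]
        exact h0.trans hRR
      · rw [abs_mul]
        exact mul_le_mul_of_nonneg_left h5 t1
    have g2 : |θ₂ * (r 2 : ℝ)| ≤ |θ₂| * (bK L * |R|) := by
      rw [abs_mul]
      exact mul_le_mul_of_nonneg_left h6 t2
    rw [hB]
    nlinarith
  have hB1 : bK L * |R| ≤ B := by
    rw [hB]
    nlinarith [mul_nonneg t1 q0, mul_nonneg t2 q0, abs_nonneg R]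
  have hall : ∀ i : Fin 3, |(r i : ℝ)| ≤ B := by
    intro i
    fin_cases i
    · exact h7
    · exact h5.trans hB1
    · exact h6.trans hB1
  rw [Set.mem_Icc]
  constructor
  · intro i
    have h8 := (abs_le.1 (hall i)).1
    have h9 : -(⌈B⌉ : ℝ) ≤ (r i : ℝ) := by
      have := Int.le_ceil B
      linarith
    exact_mod_cast h9
  · intro i
    have h8 := (abs_le.1 (hall i)).2
    have h9 : (r i : ℝ) ≤ (⌈B⌉ : ℝ) := h8.trans (Int.le_ceil B)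
    exact_mod_cast h9

/-- the lattice system -/
noncomputable def sys (hM : MinkStm) (θ₁ θ₂ : ℝ) (hlin : LinearIndependent ℤ ![1, θ₁, θ₂])
    (L : (ℝ × ℝ) ≃ₗ[ℝ] (ℝ × ℝ)) : Sys where
  l := lin (-1) θ₁ θ₂
  x := lin 0 (L.symm (1, 0)).1 (L.symm (0, 1)).1
  y := lin 0 (L.symm (1, 0)).2 (L.symm (0, 1)).2
  d := |(L.symm (1, 0)).1 * (L.symm (0, 1)).2 - (L.symm (0, 1)).1 * (L.symm (1, 0)).2|
  d_pos := abs_pos.2 (ldet L.symm)
  mink := by
    intro c1 c2 c3 h1 h2 h3 h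
    have hdet : (!![-1, θ₁, θ₂; 0, (L.symm (1, 0)).1, (L.symm (0, 1)).1;
        0, (L.symm (1, 0)).2, (L.symm (0, 1)).2] : Matrix (Fin 3) (Fin 3) ℝ).det =
        -((L.symm (1, 0)).1 * (L.symm (0, 1)).2 - (L.symm (0, 1)).1 * (L.symm (1, 0)).2) := by
      rw [Matrix.det_fin_three]
      simp
      ring
    obtain ⟨r, hr, hr2⟩ := hM !![-1, θ₁, θ₂; 0, (L.symm (1, 0)).1, (L.symm (0, 1)).1;
        0, (L.symm (1, 0)).2, (L.symm (0, 1)).2] ![c1, c2, c3]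
      (by rw [hdet]; exact neg_ne_zero.2 (ldet L.symm))
      (by intro i; fin_cases i; exacts [h1, h2, h3])
      (by rw [hdet, abs_neg]; exact h)
    refine ⟨r, hr, ?_, ?_, ?_⟩
    · have := hr2 0
      rw [lin_apply]
      simpa [Matrix.mulVec, dotProduct, Fin.sum_univ_three] using this
    · have := hr2 1
      rw [lin_apply]
      simpa [Matrix.mulVec, dotProduct, Fin.sum_univ_three] using this
    · have := hr2 2
      rw [lin_apply]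
      simpa [Matrix.mulVec, dotProduct, Fin.sum_univ_three] using this
  detint := by
    intro p q r
    set Z : ℤ := p 0 * (q 1 * r 2 - q 2 * r 1) - q 0 * (p 1 * r 2 - p 2 * r 1)
      + r 0 * (p 1 * q 2 - p 2 * q 1) with hZ
    set Δ : ℝ := (L.symm (1, 0)).1 * (L.symm (0, 1)).2 - (L.symm (0, 1)).1 * (L.symm (1, 0)).2
      with hΔ
    have e : lin (-1) θ₁ θ₂ p * (lin 0 (L.symm (1, 0)).1 (L.symm (0, 1)).1 q *
          lin 0 (L.symm (1, 0)).2 (L.symm (0, 1)).2 r -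
          lin 0 (L.symm (1, 0)).1 (L.symm (0, 1)).1 r *
          lin 0 (L.symm (1, 0)).2 (L.symm (0, 1)).2 q) -
        lin (-1) θ₁ θ₂ q * (lin 0 (L.symm (1, 0)).1 (L.symm (0, 1)).1 p *
          lin 0 (L.symm (1, 0)).2 (L.symm (0, 1)).2 r -
          lin 0 (L.symm (1, 0)).1 (L.symm (0, 1)).1 r *
          lin 0 (L.symm (1, 0)).2 (L.symm (0, 1)).2 p) +
        lin (-1) θ₁ θ₂ r * (lin 0 (L.symm (1, 0)).1 (L.symm (0, 1)).1 p *
          lin 0 (L.symm (1, 0)).2 (L.symm (0, 1)).2 q -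
          lin 0 (L.symm (1, 0)).1 (L.symm (0, 1)).1 q *
          lin 0 (L.symm (1, 0)).2 (L.symm (0, 1)).2 p) = -Δ * (Z : ℝ) := by
      simp only [lin_apply]
      rw [hΔ, hZ]
      push_cast
      ring
    rw [e]
    by_cases hz : Z = 0
    · left
      rw [hz]
      simp
    · right
      have h1 : (1 : ℝ) ≤ |(Z : ℝ)| := by
        have := Int.one_le_abs hz
        exact_mod_cast this
      rw [abs_mul, abs_neg]
      nlinarith [abs_nonneg Δ]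
  inj := by
    intro r hr
    rw [lin_apply] at hr
    have h := Fintype.linearIndependent_iff.1 hlin ![-(r 0), r 1, r 2] (by
      simp only [Fin.sum_univ_three, zsmul_eq_mul]
      simp
      linarith)
    funext i
    fin_cases i
    · have := h 0
      simpa using this
    · have := h 1
      simpa using this
    · have := h 2
      simpa using this
  fin := finBox L θ₁ θ₂

theorem pf (hM : MinkStm) : RedStm := by
  intro ρ s hs hA
  unfold Admits at hA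
  push Not at hA
  obtain ⟨θ₁, θ₂, hlin, L, hL⟩ := hA
  refine ⟨sys hM θ₁ θ₂ hlin L, ?_⟩
  intro C hC
  have hK := bK_pos L
  have hKs : 0 < (bK L) ^ s := Real.rpow_pos_of_pos hK s
  have hF := hL (C * (bK L) ^ s) (mul_pos hC hKs)
  obtain ⟨B, hB⟩ := (hF.image (fun x : ℤ × ℤ =>
    max |(L.symm ((x.1 : ℝ), (x.2 : ℝ))).1| |(L.symm ((x.1 : ℝ), (x.2 : ℝ))).2|)).bddAbove
  refine ⟨max 1 (B + 1), fun r hr hdom => ?_⟩
  by_contra hcon
  rw [not_lt] at hcon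
  have hN1 : 1 ≤ (sys hM θ₁ θ₂ hlin L).N r := (le_max_left _ _).trans hr
  have hNB : B + 1 ≤ (sys hM θ₁ θ₂ hlin L).N r := (le_max_right _ _).trans hr
  have hpl := plane L r
  have hpl' := plane' L r
  have hNe : (sys hM θ₁ θ₂ hlin L).N r =
      max |(L.symm ((r 1 : ℝ), (r 2 : ℝ))).1| |(L.symm ((r 1 : ℝ), (r 2 : ℝ))).2| := by
    rw [hpl]
    rfl
  set N := (sys hM θ₁ θ₂ hlin L).N r with hN
  have hN0 : 0 < N := by linarith
  have hX : max |(r 1 : ℝ)| |(r 2 : ℝ)| ≤ bK L * N := by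
    have h := bK_le L (L.symm ((r 1 : ℝ), (r 2 : ℝ)))
    rw [LinearEquiv.apply_symm_apply, ← hNe] at h
    exact h
  have hX0 : 0 < max |(r 1 : ℝ)| |(r 2 : ℝ)| := by
    by_contra hc
    rw [not_lt] at hc
    have g1 : (r 1 : ℝ) = 0 := abs_nonpos_iff.1 ((le_max_left _ _).trans hc)
    have g2 : (r 2 : ℝ) = 0 := abs_nonpos_iff.1 ((le_max_right _ _).trans hc)
    rw [g1, g2] at hNe
    have g3 : ((0 : ℝ), (0 : ℝ)) = (0 : ℝ × ℝ) := rfl
    rw [g3, map_zero] at hNe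
    simp at hNe
    linarith
  have hmem : ((r 1, r 2) : ℤ × ℤ) ∈ {x : ℤ × ℤ | ((x.1 : ℝ), (x.2 : ℝ)) ∈ L '' Phi0 ρ 0 ∧
      distInt (θ₁ * x.1 + θ₂ * x.2) ≤
        C * (bK L) ^ s * (max |(x.1 : ℝ)| |(x.2 : ℝ)|) ^ (-s)} := by
    refine ⟨⟨_, ?_, hpl'⟩, ?_⟩
    · rcases hdom with h | h
      · left
        exact h
      · right
        show |lin 0 (L.symm (1, 0)).1 (L.symm (0, 1)).1 r| ≤ _
        rw [Real.rpow_zero]
        exact h
    · have h1 : distInt (θ₁ * (r 1 : ℝ) + θ₂ * (r 2 : ℝ)) ≤ |(sys hM θ₁ θ₂ hlin L).l r| := by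
        have h2 := round_le (θ₁ * (r 1 : ℝ) + θ₂ * (r 2 : ℝ)) (r 0)
        have h3 : (sys hM θ₁ θ₂ hlin L).l r = θ₁ * (r 1 : ℝ) + θ₂ * (r 2 : ℝ) - (r 0 : ℝ) := by
          show lin (-1) θ₁ θ₂ r = _
          rw [lin_apply]
          ring
        rw [h3]
        exact h2
      refine h1.trans (hcon.trans ?_)
      show C * N ^ (-s) ≤ C * (bK L) ^ s * (max |(r 1 : ℝ)| |(r 2 : ℝ)|) ^ (-s)
      have h4 : (bK L * N) ^ (-s) ≤ (max |(r 1 : ℝ)| |(r 2 : ℝ)|) ^ (-s) :=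
        Real.rpow_le_rpow_of_nonpos hX0 hX (by linarith)
      have h5 : (bK L * N) ^ (-s) = ((bK L) ^ s)⁻¹ * N ^ (-s) := by
        rw [Real.mul_rpow hK.le hN0.le, Real.rpow_neg hK.le]
      calc C * N ^ (-s) = C * (bK L) ^ s * (((bK L) ^ s)⁻¹ * N ^ (-s)) := by
            field_simp
        _ ≤ _ := by
            rw [← h5]
            exact mul_le_mul_of_nonneg_left h4 (mul_pos hC hKs).le
  have h := hB (Set.mem_image_of_mem _ hmem)
  simp only at h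
  rw [← hNe] at h
  linarith

end Pool.Agent.W789.TH.A02
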