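import Mathlib
import Pool.Agent.W789.TH.Defs
import Pool.Agent.W789.TH.StmA

/-! TH-A03: existence of the sequence of minimal points. -/

set_option autoImplicit false

namespace Pool.Agent.W789.TH.A03

lemma pick (S : Sys) (ε : ℝ) (hε : 0 < ε) : ∃ r : Fin 3 → ℤ, r ≠ 0 ∧ |S.l r| < ε ∧
    ∀ q : Fin 3 → ℤ, q ≠ 0 → |S.l q| < ε →
      S.N r < S.N q ∨ (S.N r = S.N q ∧ |S.l r| ≤ |S.l q|) := by
  have hd := S.d_pos
  have hdε : 0 < S.d / ε := div_pos hd hε
  obtain ⟨r0, hr0, hl0, _, _⟩ := S.mink ε (S.d / ε + 1) (S.d / ε + 1) hε (by linarith)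
    (by linarith) (by
      have h1 : S.d = ε * (S.d / ε) := by field_simp
      have h2 : ε * (S.d / ε) < ε * (S.d / ε + 1) * 1 := by nlinarith
      have h3 : ε * (S.d / ε + 1) * 1 ≤ ε * (S.d / ε + 1) * (S.d / ε + 1) :=
        mul_le_mul_of_nonneg_left (by linarith) (by positivity)
      linarith)
  set T : Set (Fin 3 → ℤ) := {q | q ≠ 0 ∧ |S.l q| < ε ∧ S.N q ≤ S.N r0} with hT
  have hfin : T.Finite := by
    refine (S.fin (max ε (S.N r0))).subset ?_
    rintro q ⟨_, h1, h2⟩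
    refine ⟨h1.le.trans (le_max_left _ _), ?_, ?_⟩
    · exact (le_max_left _ _).trans (h2.trans (le_max_right _ _))
    · exact (le_max_right _ _).trans (h2.trans (le_max_right _ _))
  obtain ⟨r, hrT, hr⟩ := Set.exists_min_image T (fun q => toLex (S.N q, |S.l q|)) hfin
    ⟨r0, hr0, hl0, le_rfl⟩
  refine ⟨r, hrT.1, hrT.2.1, fun q hq hlq => ?_⟩
  rcases le_or_gt (S.N q) (S.N r0) with h | h
  · have h1 := hr q ⟨hq, hlq, h⟩
    rw [Prod.Lex.toLex_le_toLex] at h1
    exact h1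
  · exact Or.inl (lt_of_le_of_lt hrT.2.2 h)

theorem pf : SeqStm := by
  intro S
  choose f hf using fun ε : {ε : ℝ // 0 < ε} => pick S ε.1 ε.2
  have hpos : ∀ ε, 0 < |S.l (f ε)| := by
    intro ε
    rw [abs_pos]
    exact fun h => (hf ε).1 (S.inj _ h)
  let e : ℕ → {ε : ℝ // 0 < ε} := fun n => Nat.rec ⟨1, one_pos⟩ (fun _ ε => ⟨|S.l (f ε)|, hpos ε⟩) n
  have he : ∀ k, (e (k + 1)).1 = |S.l (f (e k))| := fun k => rfl
  have hanti : ∀ k, |S.l (f (e (k + 1)))| < |S.l (f (e k))| := by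
    intro k
    rw [← he k]
    exact (hf (e (k + 1))).2.1
  refine ⟨{ r := fun k => f (e k), ne := fun k => (hf (e k)).1, Nmono := ?_, Lanti := hanti,
            best := ?_ }⟩
  · intro k
    rcases (hf (e k)).2.2 (f (e (k + 1))) (hf (e (k + 1))).1
      ((hanti k).trans (hf (e k)).2.1) with h | h
    · exact h
    · exact absurd h.2 (not_le.2 (hanti k))
  · intro k q hq hN
    by_contra hcon
    push Not at hcon
    rw [← he k] at hcon
    rcases (hf (e (k + 1))).2.2 q hq hcon with h | h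
    · exact lt_asymm h hN
    · exact hN.ne h.1.symm

end Pool.Agent.W789.TH.A03
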