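import Mathlib
import Pool.Agent.W789.TH.Defs
import Pool.Agent.W789.TH.StmA

set_option autoImplicit false

/-!
A tail of the sequence of minimal points satisfies `Env`.
-/

namespace Pool.Agent.W789.TH.A04

open Pool.Agent.W789.TH

lemma tendN {S : Sys} (m : Seq S) (R : ℝ) : ∃ k0, ∀ k, k0 ≤ k → R ≤ S.N (m.r k) := by
  by_contra h
  push Not at h
  have hmono : StrictMono (fun k => S.N (m.r k)) := strictMono_nat_of_lt_succ m.Nmono
  have hb : ∀ k, S.N (m.r k) < R := by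
    intro k
    obtain ⟨k', hk', h'⟩ := h k
    exact lt_of_le_of_lt (hmono.monotone hk') h'
  have hl : StrictAnti (fun k => |S.l (m.r k)|) := strictAnti_nat_of_succ_lt m.Lanti
  have hfin := S.fin (max R |S.l (m.r 0)|)
  have hinj : Function.Injective m.r := by
    intro i j hij
    apply hmono.injective
    simp [hij]
  have hinf := Set.infinite_range_of_injective hinj
  apply hinf
  apply hfin.subset
  rintro _ ⟨k, rfl⟩
  refine ⟨(hl.antitone (Nat.zero_le k)).trans (le_max_right _ _), ?_, ?_⟩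
  · exact ((le_max_left _ _).trans (hb k).le).trans (le_max_left _ _)
  · exact ((le_max_right _ _).trans (hb k).le).trans (le_max_left _ _)

lemma Lpos' {S : Sys} (m : Seq S) (k : ℕ) : 0 < |S.l (m.r k)| := by
  rw [abs_pos]
  intro h
  exact m.ne k (S.inj _ h)

lemma dir' {S : Sys} (m : Seq S) (k : ℕ) :
    |S.l (m.r k)| * (S.N (m.r (k + 1))) ^ 2 ≤ S.d := by
  by_contra h
  push Not at h
  have hN : 0 < S.N (m.r (k + 1)) := by
    have h0 : 0 ≤ S.N (m.r k) := (abs_nonneg _).trans (le_max_left _ _)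
    exact h0.trans_lt (m.Nmono k)
  obtain ⟨r, hr, h1, h2, h3⟩ := S.mink |S.l (m.r k)| (S.N (m.r (k + 1))) (S.N (m.r (k + 1)))
    (Lpos' m k) hN hN (by rw [mul_assoc, ← sq]; exact h)
  have h4 : S.N r < S.N (m.r (k + 1)) := max_lt h2 h3
  exact absurd (m.best k r hr h4) (not_le.mpr h1)

lemma outside {S : Sys} (m : Seq S) (ρ s : ℝ) (hs2 : s < 2) (hB : S.Bad ρ s) :
    ∃ k0, ∀ k, k0 ≤ k → 1 < |S.x (m.r k)| ∧ |S.x (m.r k)| ^ ρ < |S.y (m.r k)| := by
  obtain ⟨R, hR⟩ := hB S.d S.d_pos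
  obtain ⟨k0, hk0⟩ := tendN m (max R 1)
  refine ⟨k0, fun k hk => ?_⟩
  have hNR := (le_max_left R 1).trans (hk0 k hk)
  have hN1 : 1 ≤ S.N (m.r k) := (le_max_right R 1).trans (hk0 k hk)
  by_contra hcon
  have hdom : |S.y (m.r k)| ≤ |S.x (m.r k)| ^ ρ ∨ |S.x (m.r k)| ≤ 1 := by
    by_contra h
    push Not at h
    exact hcon ⟨h.2, h.1⟩
  have h1 := hR (m.r k) hNR hdom
  have h2 := dir' m k
  have hNpos : 0 < S.N (m.r k) := by linarith
  have h3 : (S.N (m.r k)) ^ (-2 : ℝ) ≤ (S.N (m.r k)) ^ (-s) :=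
    Real.rpow_le_rpow_of_exponent_le hN1 (by linarith)
  have h4 : (S.N (m.r k)) ^ (-2 : ℝ) = ((S.N (m.r k)) ^ 2)⁻¹ := by
    rw [Real.rpow_neg hNpos.le, Real.rpow_two]
  rw [h4] at h3
  have h5 : S.d * ((S.N (m.r k)) ^ 2)⁻¹ < |S.l (m.r k)| :=
    (mul_le_mul_of_nonneg_left h3 S.d_pos.le).trans_lt h1
  have hsq : 0 < (S.N (m.r k)) ^ 2 := by positivity
  have h6 : S.d < |S.l (m.r k)| * (S.N (m.r k)) ^ 2 := by
    rw [← div_eq_mul_inv, div_lt_iff₀ hsq] at h5
    exact h5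
  have h7 : (S.N (m.r k)) ^ 2 ≤ (S.N (m.r (k + 1))) ^ 2 :=
    pow_le_pow_left₀ hNpos.le (m.Nmono k).le 2
  have h8 := mul_le_mul_of_nonneg_left h7 (Lpos' m k).le
  linarith

/-- The tail of a sequence. -/
def tail {S : Sys} (m : Seq S) (k0 : ℕ) : Seq S where
  r k := m.r (k + k0)
  ne k := m.ne _
  Nmono k := by
    rw [Nat.add_right_comm k 1 k0]
    exact m.Nmono _
  Lanti k := by
    rw [Nat.add_right_comm k 1 k0]
    exact m.Lanti _
  best k q hq h := by
    rw [Nat.add_right_comm k 1 k0] at h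
    exact m.best _ q hq h

theorem pf (hS : SeqStm) : EnvStm := by
  intro S ρ s hρ hs hs2 hB
  obtain ⟨m0⟩ := hS S
  obtain ⟨k0, hk0⟩ := outside m0 ρ s hs2 hB
  have ha1 : ∀ k, 1 < |S.x (m0.r (k + k0))| := fun k => (hk0 (k + k0) (Nat.le_add_left _ _)).1
  have haρ : ∀ k, |S.x (m0.r (k + k0))| ^ ρ < |S.y (m0.r (k + k0))| :=
    fun k => (hk0 (k + k0) (Nat.le_add_left _ _)).2
  have hab : ∀ k, |S.x (m0.r (k + k0))| < |S.y (m0.r (k + k0))| := fun k =>
    (Real.self_lt_rpow_of_one_lt (ha1 k) hρ).trans (haρ k)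
  have hNb : ∀ k, S.N (m0.r (k + k0)) = |S.y (m0.r (k + k0))| := fun k =>
    max_eq_right (hab k).le
  refine ⟨tail m0 k0, ?_⟩
  refine
    { hρ := hρ
      hs := hs
      hs2 := hs2
      bad := hB
      a1 := ha1
      aρ := haρ
      ab := hab
      Nb := hNb
      bmono := ?_
      Lanti := ?_
      Lpos := fun k => Lpos' (tail m0 k0) k
      btop := ?_
      dir := ?_ }
  · apply strictMono_nat_of_lt_succ
    intro k
    have h1 := (tail m0 k0).Nmono k
    have h2 : S.N ((tail m0 k0).r k) = (tail m0 k0).b k := hNb k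
    have h3 : S.N ((tail m0 k0).r (k + 1)) = (tail m0 k0).b (k + 1) := hNb (k + 1)
    rw [h2, h3] at h1
    exact h1
  · exact strictAnti_nat_of_succ_lt (fun k => (tail m0 k0).Lanti k)
  · intro R
    obtain ⟨k1, hk1⟩ := tendN (tail m0 k0) R
    refine ⟨k1, fun k hk => ?_⟩
    have h2 : S.N ((tail m0 k0).r k) = (tail m0 k0).b k := hNb k
    rw [← h2]
    exact hk1 k hk
  · intro k
    have h1 := dir' (tail m0 k0) k
    have h3 : S.N ((tail m0 k0).r (k + 1)) = (tail m0 k0).b (k + 1) := hNb (k + 1)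
    rw [h3] at h1
    exact h1

end Pool.Agent.W789.TH.A04
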