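import Mathlib
import Pool.Agent.W789.TH.Defs
import Pool.Agent.W789.TH.StmA

/-!
# Consecutive minimal points are a basis of their plane
-/

set_option autoImplicit false

namespace Pool.Agent.W789.TH.A05

open Pool.Agent.W789.TH

theorem cramer {l1 x1 y1 l2 x2 y2 l3 x3 y3 : ℝ}
    (hdet : l1 * (x2 * y3 - x3 * y2) - l2 * (x1 * y3 - x3 * y1) + l3 * (x1 * y2 - x2 * y1) = 0)
    (hm : x1 * y2 - x2 * y1 ≠ 0 ∨ l1 * y2 - l2 * y1 ≠ 0 ∨ l1 * x2 - l2 * x1 ≠ 0) :
    ∃ α β : ℝ, l3 = α * l1 + β * l2 ∧ x3 = α * x1 + β * x2 ∧ y3 = α * y1 + β * y2 := by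
  have key : ∀ A B m c u v : ℝ, m ≠ 0 → c * m = A * u + B * v → c = A / m * u + B / m * v := by
    intro A B m c u v hm h
    rw [div_mul_eq_mul_div, div_mul_eq_mul_div, ← add_div, eq_div_iff hm]
    exact h
  rcases hm with hm | hm | hm
  · refine ⟨(x3 * y2 - x2 * y3) / (x1 * y2 - x2 * y1), (x1 * y3 - x3 * y1) / (x1 * y2 - x2 * y1),
      key _ _ _ _ _ _ hm ?_, key _ _ _ _ _ _ hm ?_, key _ _ _ _ _ _ hm ?_⟩
    · linear_combination hdet
    · ring
    · ring
  · refine ⟨(l3 * y2 - l2 * y3) / (l1 * y2 - l2 * y1), (l1 * y3 - l3 * y1) / (l1 * y2 - l2 * y1),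
      key _ _ _ _ _ _ hm ?_, key _ _ _ _ _ _ hm ?_, key _ _ _ _ _ _ hm ?_⟩
    · ring
    · linear_combination -hdet
    · ring
  · refine ⟨(l3 * x2 - l2 * x3) / (l1 * x2 - l2 * x1), (l1 * x3 - l3 * x1) / (l1 * x2 - l2 * x1),
      key _ _ _ _ _ _ hm ?_, key _ _ _ _ _ _ hm ?_, key _ _ _ _ _ _ hm ?_⟩
    · ring
    · ring
    · linear_combination hdet

theorem half_bound {s t a b M N : ℝ} (hs : |s| ≤ 1 / 2) (ht : |t| ≤ 1 / 2) (ha : |a| ≤ M)
    (hb : |b| ≤ N) : |s * a + t * b| ≤ (M + N) / 2 := by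
  refine (abs_add_le _ _).trans ?_
  rw [abs_mul, abs_mul]
  have h1 := mul_le_mul hs ha (abs_nonneg _) (by norm_num)
  have h2 := mul_le_mul ht hb (abs_nonneg _) (by norm_num)
  linarith

theorem pf : BasisStm := by
  intro S m k q hdet
  set p := m.r k with hp
  set r := m.r (k + 1) with hr
  have hlp : S.l p ≠ 0 := fun h => m.ne k (S.inj _ h)
  have hL : |S.l r| < |S.l p| := m.Lanti k
  have hN : S.N p < S.N r := m.Nmono k
  have hm : S.x p * S.y r - S.x r * S.y p ≠ 0 ∨ S.l p * S.y r - S.l r * S.y p ≠ 0 ∨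
      S.l p * S.x r - S.l r * S.x p ≠ 0 := by
    by_contra hcon
    push Not at hcon
    obtain ⟨-, h2, h3⟩ := hcon
    have hLp : 0 < |S.l p| := abs_pos.2 hlp
    have h2' : S.l p * S.y r = S.l r * S.y p := by linarith
    have h3' : S.l p * S.x r = S.l r * S.x p := by linarith
    have hx : |S.x r| ≤ |S.x p| := by
      have h4 : |S.l p| * |S.x r| = |S.l r| * |S.x p| := by rw [← abs_mul, ← abs_mul, h3']
      have h5 : |S.l r| * |S.x p| ≤ |S.l p| * |S.x p| :=
        mul_le_mul_of_nonneg_right hL.le (abs_nonneg _)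
      rw [← h4] at h5
      exact le_of_mul_le_mul_left h5 hLp
    have hy : |S.y r| ≤ |S.y p| := by
      have h4 : |S.l p| * |S.y r| = |S.l r| * |S.y p| := by rw [← abs_mul, ← abs_mul, h2']
      have h5 : |S.l r| * |S.y p| ≤ |S.l p| * |S.y p| :=
        mul_le_mul_of_nonneg_right hL.le (abs_nonneg _)
      rw [← h4] at h5
      exact le_of_mul_le_mul_left h5 hLp
    have : S.N r ≤ S.N p := max_le_max hx hy
    linarith
  obtain ⟨α, β, hl, hx, hy⟩ := cramer (l1 := S.l p) (x1 := S.x p) (y1 := S.y p) (l2 := S.l r)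
    (x2 := S.x r) (y2 := S.y r) (l3 := S.l q) (x3 := S.x q) (y3 := S.y q) hdet hm
  refine ⟨round α, round β, ?_⟩
  by_contra hne
  set q' := q - (round α • p + round β • r) with hq'
  have hq0 : q' ≠ 0 := fun h => hne (sub_eq_zero.1 h)
  have hα : |α - round α| ≤ 1 / 2 := abs_sub_round α
  have hβ : |β - round β| ≤ 1 / 2 := abs_sub_round β
  have hl' : S.l q' = (α - round α) * S.l p + (β - round β) * S.l r := by
    rw [hq', map_sub, map_add, map_zsmul, map_zsmul, hl, zsmul_eq_mul, zsmul_eq_mul]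
    ring
  have hx' : S.x q' = (α - round α) * S.x p + (β - round β) * S.x r := by
    rw [hq', map_sub, map_add, map_zsmul, map_zsmul, hx, zsmul_eq_mul, zsmul_eq_mul]
    ring
  have hy' : S.y q' = (α - round α) * S.y p + (β - round β) * S.y r := by
    rw [hq', map_sub, map_add, map_zsmul, map_zsmul, hy, zsmul_eq_mul, zsmul_eq_mul]
    ring
  have b1 : |S.l q'| ≤ (|S.l p| + |S.l r|) / 2 := by
    rw [hl']
    exact half_bound hα hβ le_rfl le_rfl
  have b2 : |S.x q'| ≤ (S.N p + S.N r) / 2 := by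
    rw [hx']
    exact half_bound hα hβ (le_max_left _ _) (le_max_left _ _)
  have b3 : |S.y q'| ≤ (S.N p + S.N r) / 2 := by
    rw [hy']
    exact half_bound hα hβ (le_max_right _ _) (le_max_right _ _)
  have b4 : S.N q' < S.N r := by
    have : S.N q' ≤ (S.N p + S.N r) / 2 := max_le b2 b3
    linarith
  have b5 := m.best k q' hq0 b4
  rw [← hp] at b5
  linarith

end Pool.Agent.W789.TH.A05
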