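import Mathlib
import Pool.Agent.W789.TH.Defs
import Pool.Agent.W789.TH.StmA

set_option autoImplicit false

/-!
All the minimal points between two new planes lie in one plane, with a unimodular change of basis.
-/

namespace Pool.Agent.W789.TH.A06

open Pool.Agent.W789.TH

lemma indep {S : Sys} (m : Seq S) (k : ℕ) (c e : ℤ) (h : c • m.r k = e • m.r (k + 1)) :
    c = 0 := by
  by_contra hc
  have hl : (c : ℝ) * S.l (m.r k) = (e : ℝ) * S.l (m.r (k + 1)) := by
    have := congrArg S.l h
    rw [map_zsmul, map_zsmul, zsmul_eq_mul, zsmul_eq_mul] at this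
    exact this
  have hx : (c : ℝ) * S.x (m.r k) = (e : ℝ) * S.x (m.r (k + 1)) := by
    have := congrArg S.x h
    rw [map_zsmul, map_zsmul, zsmul_eq_mul, zsmul_eq_mul] at this
    exact this
  have hy : (c : ℝ) * S.y (m.r k) = (e : ℝ) * S.y (m.r (k + 1)) := by
    have := congrArg S.y h
    rw [map_zsmul, map_zsmul, zsmul_eq_mul, zsmul_eq_mul] at this
    exact this
  have hl' : |(c : ℝ)| * |S.l (m.r k)| = |(e : ℝ)| * |S.l (m.r (k + 1))| := by
    rw [← abs_mul, ← abs_mul, hl]
  have hx' : |(c : ℝ)| * |S.x (m.r k)| = |(e : ℝ)| * |S.x (m.r (k + 1))| := by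
    rw [← abs_mul, ← abs_mul, hx]
  have hy' : |(c : ℝ)| * |S.y (m.r k)| = |(e : ℝ)| * |S.y (m.r (k + 1))| := by
    rw [← abs_mul, ← abs_mul, hy]
  have hc' : 0 < |(c : ℝ)| := abs_pos.mpr (by exact_mod_cast hc)
  have hN : |(c : ℝ)| * S.N (m.r k) = |(e : ℝ)| * S.N (m.r (k + 1)) := by
    unfold Sys.N
    rw [mul_max_of_nonneg _ _ (abs_nonneg _), mul_max_of_nonneg _ _ (abs_nonneg _), hx', hy']
  have hL1 : 0 < |S.l (m.r (k + 1))| := by
    rw [abs_pos]
    intro h0
    exact m.ne (k + 1) (S.inj _ h0)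
  have hLa := m.Lanti k
  have hNm := m.Nmono k
  have hN0 : 0 ≤ S.N (m.r k) := (abs_nonneg _).trans (le_max_left _ _)
  rcases le_or_gt |(e : ℝ)| |(c : ℝ)| with h1 | h1
  · have h2 := mul_le_mul_of_nonneg_right h1 hL1.le
    have h3 := mul_lt_mul_of_pos_left hLa hc'
    linarith
  · have h2 := mul_le_mul_of_nonneg_left hNm.le hc'.le
    have h3 := mul_lt_mul_of_pos_right h1 (hN0.trans_lt hNm)
    linarith

theorem pf (hB : BasisStm) : PlaneStm := by
  intro S m j J hJ
  obtain ⟨hjJ, hi⟩ := hJ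
  induction J, Nat.succ_le_of_lt hjJ using Nat.le_induction with
  | base =>
    refine ⟨1, 0, 0, 1, ?_, ?_, ?_⟩
    · simp
    · simp [Nat.succ_eq_add_one]
    · left; norm_num
  | succ J hJ ih =>
    have hjJ' : j < J := Nat.lt_of_succ_le hJ
    obtain ⟨p, q, u, v, h1, h2, h3⟩ := ih hjJ' (fun i h h' => hi i h (by omega))
    have hnew : S.det (m.r J) (m.r (J + 1)) (m.r (J + 2)) = 0 := by
      have := hi J hjJ' (by omega)
      unfold Seq.New at this
      exact not_not.mp this
    obtain ⟨al, be, hab⟩ := hB S m J (m.r (J + 2)) hnew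
    have hnew' : S.det (m.r (J + 1)) (m.r (J + 1 + 1)) (m.r J) = 0 := by
      rw [← hnew]
      unfold Sys.det
      ring
    obtain ⟨ga, de, hgd⟩ := hB S m (J + 1) (m.r J) hnew'
    have hsub : (1 - de * al) • m.r J = (ga + de * be) • m.r (J + 1) := by
      have h4 : m.r J = ga • m.r (J + 1) + de • (al • m.r J + be • m.r (J + 1)) := by
        have h5 : m.r (J + 1 + 1) = al • m.r J + be • m.r (J + 1) := hab
        rw [← h5]
        exact hgd
      rw [sub_smul, one_smul, mul_smul, add_smul, mul_smul]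
      nth_rewrite 1 [h4]
      rw [smul_add]
      abel
    have hz := indep m J _ _ hsub
    have hunit : al * de = 1 := by linarith [mul_comm al de]
    have hal : al = 1 ∨ al = -1 := Int.isUnit_iff.mp (IsUnit.of_mul_eq_one _ hunit)
    refine ⟨u, v, al * p + be * u, al * q + be * v, h2, ?_, ?_⟩
    · have h5 : m.r (J + 1 + 1) = al • m.r J + be • m.r (J + 1) := hab
      rw [h5, h2]
      nth_rewrite 1 [h1]
      rw [smul_add, smul_add, add_smul, add_smul, mul_smul, mul_smul, mul_smul, mul_smul]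
      abel
    · have h6 : u * (al * q + be * v) - v * (al * p + be * u) = - al * (p * v - q * u) := by ring
      rw [h6]
      rcases hal with h | h <;> rcases h3 with h' | h' <;> rw [h, h'] <;> norm_num

end Pool.Agent.W789.TH.A06
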