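import Mathlib
import Pool.Agent.W789.TH.Defs
import Pool.Agent.W789.TH.StmA

/-!
Infinitely many new planes.
-/

namespace Pool.Agent.W789.TH.A07

open Pool.Agent.W789.TH

theorem dl_comb (S : Sys) (r r' : Fin 3 → ℤ) (p q u v : ℤ) :
    S.y (p • r + q • r') * S.l (u • r + v • r') - S.y (u • r + v • r') * S.l (p • r + q • r') =
      ((p * v - q * u : ℤ) : ℝ) * (S.y r * S.l r' - S.y r' * S.l r) := by
  rw [map_add, map_add, map_add, map_add]
  rw [map_zsmul, map_zsmul, map_zsmul, map_zsmul, map_zsmul, map_zsmul, map_zsmul, map_zsmul]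
  simp only [zsmul_eq_mul]
  push_cast
  ring

theorem pf (hP : PlaneStm) : InfStm := by
  intro S m ρ s hE k
  by_contra hcon
  push Not at hcon
  set e : ℝ := |S.y (m.r (k + 1)) * S.l (m.r (k + 2)) - S.y (m.r (k + 2)) * S.l (m.r (k + 1))|
    with he
  -- positivity
  have hpos : 0 < e := by
    have h1 : m.b (k + 2) * m.L (k + 1) - m.b (k + 1) * m.L (k + 2) ≤ e := by
      have e1 : m.b (k + 2) * m.L (k + 1) = |S.y (m.r (k + 2)) * S.l (m.r (k + 1))| :=
        (abs_mul _ _).symm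
      have e2 : m.b (k + 1) * m.L (k + 2) = |S.y (m.r (k + 1)) * S.l (m.r (k + 2))| :=
        (abs_mul _ _).symm
      rw [e1, e2, he, abs_sub_comm (S.y (m.r (k + 1)) * S.l (m.r (k + 2)))]
      exact abs_sub_abs_le_abs_sub _ _
    have h2 : m.b (k + 1) < m.b (k + 2) := hE.bmono (by omega)
    have h3 : m.L (k + 2) < m.L (k + 1) := hE.Lanti (by omega)
    have h4 := hE.Lpos (k + 2)
    have h5 : 0 ≤ m.b (k + 1) := abs_nonneg _
    nlinarith
  -- the bound
  have hle : ∀ J, k < J → e * m.b (J + 1) ≤ 2 * S.d := by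
    intro J hJ
    obtain ⟨p, q, u, v, h1, h2, h3⟩ := hP S m k J ⟨hJ, fun i hi _ => hcon i hi.le⟩
    have h4 := dl_comb S (m.r (k + 1)) (m.r (k + 2)) p q u v
    rw [← h1, ← h2] at h4
    have h5 : |S.y (m.r J) * S.l (m.r (J + 1)) - S.y (m.r (J + 1)) * S.l (m.r J)| = e := by
      rw [h4, abs_mul, ← he]
      rcases h3 with h3 | h3
      · rw [h3]
        simp
      · rw [h3]
        simp
    have h6 : e ≤ m.b J * m.L (J + 1) + m.b (J + 1) * m.L J := by
      rw [← h5]
      refine (abs_sub _ _).trans ?_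
      rw [abs_mul, abs_mul]
      rfl
    have h7 : m.b J < m.b (J + 1) := hE.bmono (by omega)
    have h8 : m.L (J + 1) < m.L J := hE.Lanti (by omega)
    have h9 := hE.Lpos (J + 1)
    have h10 : 0 ≤ m.b J := abs_nonneg _
    have h11 := hE.dir J
    have h12 : m.b J * m.L (J + 1) ≤ m.b (J + 1) * m.L J :=
      mul_le_mul h7.le h8.le h9.le (h10.trans h7.le)
    have h13 : e ≤ 2 * (m.b (J + 1) * m.L J) := by linarith
    have h14 := mul_le_mul_of_nonneg_right h13 (h10.trans h7.le)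
    nlinarith
  obtain ⟨k0, hk0⟩ := hE.btop (2 * S.d / e + 1)
  have h1 := hle (max k0 k + 1) (by omega)
  have h2 := hk0 (max k0 k + 1 + 1) (by omega)
  have h3 : e * (2 * S.d / e + 1) ≤ 2 * S.d := (mul_le_mul_of_nonneg_left h2 hpos.le).trans h1
  have h4 : e * (2 * S.d / e + 1) = 2 * S.d + e := by
    field_simp
  linarith

end Pool.Agent.W789.TH.A07
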