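import Mathlib
import Pool.Agent.W789.TH.Defs
import Pool.Agent.W789.TH.StmA

/-!
Project TH, part A08: the bound `C * b (k+1) ^ (s/(s-1)) * L k ≤ 1` from the axis ball.
-/

namespace Pool.Agent.W789.TH.A08

theorem arith (C L b d s : ℝ) (hC : 0 < C) (hL : 0 < L) (hb : 0 < b) (hd : 0 < d) (hs : 1 < s)
    (h : C ^ (s - 1) * (2 * d) ^ s * (2 * d / (L * b)) ^ (-s) < L) :
    C * b ^ (s / (s - 1)) * L ≤ 1 := by
  have hs1 : 0 < s - 1 := by linarith
  have h2d : 0 < 2 * d := by linarith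
  have hLb : 0 < L * b := mul_pos hL hb
  have e1 : (2 * d / (L * b)) ^ (-s) = ((L * b) ^ s) / (2 * d) ^ s := by
    rw [Real.rpow_neg (by positivity), Real.div_rpow h2d.le hLb.le, inv_div]
  rw [e1] at h
  have h2ds : 0 < (2 * d) ^ s := Real.rpow_pos_of_pos h2d s
  have e2 : C ^ (s - 1) * (2 * d) ^ s * ((L * b) ^ s / (2 * d) ^ s)
      = C ^ (s - 1) * (L * b) ^ s := by
    field_simp
  rw [e2, Real.mul_rpow hL.le hb.le] at h
  have e3 : L ^ s = L ^ (s - 1) * L := by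
    rw [← Real.rpow_add_one hL.ne']; congr 1; ring
  rw [e3] at h
  by_contra hcon
  push Not at hcon
  have h1 : 1 < (C * b ^ (s / (s - 1)) * L) ^ (s - 1) := Real.one_lt_rpow hcon hs1
  rw [Real.mul_rpow (by positivity) hL.le, Real.mul_rpow hC.le (by positivity),
    ← Real.rpow_mul hb.le, div_mul_cancel₀ _ hs1.ne'] at h1
  have h3 : C ^ (s - 1) * b ^ s * L ^ (s - 1) * L < 1 * L := by
    have e4 : C ^ (s - 1) * b ^ s * L ^ (s - 1) * L = C ^ (s - 1) * (L ^ (s - 1) * L * b ^ s) := by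
      ring
    rw [e4, one_mul]
    exact h
  have h4 := lt_of_mul_lt_mul_right h3 hL.le
  linarith

theorem pf : AStm := by
  intro S m ρ s hE C hC
  have hs := hE.hs
  have hs1 : 0 < s - 1 := by linarith
  have hd := S.d_pos
  have hC' : 0 < C ^ (s - 1) * (2 * S.d) ^ s :=
    mul_pos (Real.rpow_pos_of_pos hC _) (Real.rpow_pos_of_pos (by linarith) _)
  obtain ⟨R, hR⟩ := hE.bad _ hC'
  obtain ⟨k0, hk0⟩ := hE.btop (max R 1)
  refine ⟨k0, fun k hk => ?_⟩
  have hb := hk0 (k + 1) (by omega)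
  have hbR : R ≤ m.b (k + 1) := le_trans (le_max_left _ _) hb
  have hb1 : 1 ≤ m.b (k + 1) := le_trans (le_max_right _ _) hb
  have hb0 : 0 < m.b (k + 1) := by linarith
  have hL := hE.Lpos k
  have hLb : 0 < m.L k * m.b (k + 1) := mul_pos hL hb0
  have hW : 0 < 2 * S.d / (m.L k * m.b (k + 1)) := by positivity
  obtain ⟨r, hr0, hl, hx, hy⟩ := S.mink (m.L k) (2 * S.d / (m.L k * m.b (k + 1))) (m.b (k + 1))
    hL hW hb0 (by
      have e : m.L k * (2 * S.d / (m.L k * m.b (k + 1))) * m.b (k + 1) = 2 * S.d := by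
        field_simp
      rw [e]; linarith)
  have hN : S.N (m.r (k + 1)) ≤ S.N r := by
    by_contra hcon
    push Not at hcon
    have h1 := m.best k r hr0 hcon
    have h2 : m.L k ≤ |S.l r| := h1
    linarith
  rw [hE.Nb (k + 1)] at hN
  have hxb : m.b (k + 1) ≤ |S.x r| := by
    unfold Sys.N at hN
    rcases le_max_iff.mp hN with h | h
    · exact h
    · exact absurd h (not_le.mpr hy)
  have hNr : S.N r = |S.x r| := by
    unfold Sys.N
    exact max_eq_left (by linarith)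
  have hx1 : 1 ≤ |S.x r| := by linarith
  have hx0 : 0 < |S.x r| := by linarith
  have hdom : |S.y r| ≤ |S.x r| ^ ρ := by
    have h1 : |S.x r| ^ (1 : ℝ) ≤ |S.x r| ^ ρ :=
      Real.rpow_le_rpow_of_exponent_le hx1 hE.hρ.le
    rw [Real.rpow_one] at h1
    linarith
  have h1 := hR r (by rw [hNr]; linarith) (Or.inl hdom)
  rw [hNr] at h1
  have h2 : (2 * S.d / (m.L k * m.b (k + 1))) ^ (-s) ≤ |S.x r| ^ (-s) :=
    Real.rpow_le_rpow_of_nonpos hx0 hx.le (by linarith)
  have h3 : C ^ (s - 1) * (2 * S.d) ^ s * (2 * S.d / (m.L k * m.b (k + 1))) ^ (-s) < m.L k := by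
    have h4 := mul_le_mul_of_nonneg_left h2 hC'.le
    linarith
  exact arith C (m.L k) (m.b (k + 1)) S.d s hC hL hb0 hd hs h3

end Pool.Agent.W789.TH.A08
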