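import Mathlib
import Pool.Agent.W789.TH.Defs
import Pool.Agent.W789.TH.StmA

set_option autoImplicit false

/-!
TH-A09: multiples of a minimal point.
-/

namespace Pool.Agent.W789.TH.A09

open Pool.Agent.W789.TH

theorem mulx (f : (Fin 3 → ℤ) →+ ℝ) (r : Fin 3 → ℤ) (n : ℕ) :
    |f (n • r)| = n * |f r| := by
  rw [map_nsmul, nsmul_eq_mul, abs_mul, Nat.abs_cast]

theorem pf : IStm := by
  intro S m ρ s hE C hC
  have hρ1 : 0 < ρ - 1 := by linarith [hE.hρ]
  have hs0 : 0 < s := by linarith [hE.hs]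
  have h2 : (0 : ℝ) < 2 ^ (s + 1) := Real.rpow_pos_of_pos two_pos _
  obtain ⟨R, hR⟩ := hE.bad (2 ^ (s + 1) * C) (by positivity)
  obtain ⟨k0, hk0⟩ := hE.btop R
  refine ⟨k0, fun k hk => ?_⟩
  have hRb := hk0 k hk
  set a := m.a k with ha
  set b := m.b k with hb
  set L := m.L k with hL
  have ha1 : 1 < a := hE.a1 k
  have ha0 : 0 < a := by linarith
  have haρ : 0 < a ^ ρ := Real.rpow_pos_of_pos ha0 _
  have hab : a < b := hE.ab k
  have hb0 : 0 < b := by linarith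
  have hbρ : a ^ ρ < b := hE.aρ k
  have hL0 : 0 < L := hE.Lpos k
  set q := b / a ^ ρ with hq
  have hq1 : 1 < q := by rw [hq, lt_div_iff₀ haρ]; linarith
  have hq0 : 0 < q := by linarith
  set t := q ^ (1 / (ρ - 1)) with ht
  have ht1 : 1 < t := Real.one_lt_rpow hq1 (by positivity)
  have ht0 : 0 < t := by linarith
  set n : ℕ := ⌈t⌉₊ with hn
  have htn : t ≤ n := Nat.le_ceil t
  have hn2 : (n : ℝ) ≤ 2 * t := by
    have := Nat.ceil_lt_add_one ht0.le
    linarith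
  have hn1 : (1 : ℝ) ≤ n := by linarith
  have hn0 : (0 : ℝ) < n := by linarith
  have htq : t ^ (ρ - 1) = q := by
    rw [ht, ← Real.rpow_mul hq0.le, one_div, inv_mul_cancel₀ hρ1.ne', Real.rpow_one]
  have hx : |S.x (n • m.r k)| = n * a := mulx S.x (m.r k) n
  have hy : |S.y (n • m.r k)| = n * b := mulx S.y (m.r k) n
  have hl : |S.l (n • m.r k)| = n * L := mulx S.l (m.r k) n
  have hN : S.N (n • m.r k) = n * b := by
    unfold Sys.N
    rw [hx, hy]
    exact max_eq_right (mul_le_mul_of_nonneg_left hab.le hn0.le)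
  have hdom : |S.y (n • m.r k)| ≤ |S.x (n • m.r k)| ^ ρ := by
    rw [hx, hy, Real.mul_rpow hn0.le ha0.le]
    have e1 : (n : ℝ) ^ ρ = (n : ℝ) ^ (ρ - 1) * n := by
      have h3 := Real.rpow_add hn0 (ρ - 1) 1
      rw [sub_add_cancel, Real.rpow_one] at h3
      exact h3
    have e2 : q ≤ (n : ℝ) ^ (ρ - 1) := by
      rw [← htq]
      exact Real.rpow_le_rpow ht0.le htn hρ1.le
    have e3 : q * a ^ ρ = b := by
      rw [hq]
      exact div_mul_cancel₀ _ haρ.ne'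
    rw [e1]
    calc (n : ℝ) * b = q * (n * a ^ ρ) := by rw [← e3]; ring
      _ ≤ (n : ℝ) ^ (ρ - 1) * (n * a ^ ρ) := mul_le_mul_of_nonneg_right e2 (by positivity)
      _ = _ := by ring
  have hRN : R ≤ S.N (n • m.r k) := by
    rw [hN]
    nlinarith
  have hfin := hR (n • m.r k) hRN (Or.inl hdom)
  rw [hN, hl, Real.rpow_neg (by positivity), ← div_eq_mul_inv, div_lt_iff₀ (by positivity),
    Real.mul_rpow hn0.le hb0.le] at hfin
  have hbs : 0 < b ^ s := Real.rpow_pos_of_pos hb0 _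
  have e4 : (n : ℝ) ^ s * n = (n : ℝ) ^ (s + 1) := by
    rw [Real.rpow_add hn0, Real.rpow_one]
  have e5 : (n : ℝ) ^ (s + 1) ≤ 2 ^ (s + 1) * t ^ (s + 1) := by
    rw [← Real.mul_rpow (by norm_num) ht0.le]
    exact Real.rpow_le_rpow hn0.le hn2 (by linarith)
  have e6 : t ^ (s + 1) = q ^ ((s + 1) / (ρ - 1)) := by
    rw [ht, ← Real.rpow_mul hq0.le]
    congr 1
    field_simp
  have e7 : (n : ℝ) * L * ((n : ℝ) ^ s * b ^ s) = (n : ℝ) ^ (s + 1) * (L * b ^ s) := by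
    rw [← e4]; ring
  rw [e7] at hfin
  have e8 : (n : ℝ) ^ (s + 1) * (L * b ^ s) ≤ (2 ^ (s + 1) * t ^ (s + 1)) * (L * b ^ s) :=
    mul_le_mul_of_nonneg_right e5 (by positivity)
  rw [e6] at e8
  have e9 : 2 ^ (s + 1) * C < 2 ^ (s + 1) * (L * q ^ ((s + 1) / (ρ - 1)) * b ^ s) := by
    calc _ < _ := hfin
      _ ≤ _ := e8
      _ = _ := by ring
  exact (lt_of_mul_lt_mul_left e9 h2.le).le

end Pool.Agent.W789.TH.A09
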