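import Mathlib
import Pool.Agent.W789.TH.Defs
import Pool.Agent.W789.TH.StmA

/-!
# Project TH, A10: lower bound for `D` at a new plane (helper85)
-/

set_option autoImplicit false
set_option maxHeartbeats 4000000

namespace Pool.Agent.W789.TH.A10

open Pool.Agent.W789.TH

theorem det_le (l1 l2 l3 x1 x2 x3 y1 y2 y3 : ℝ) :
    |l1 * (x2 * y3 - x3 * y2) - l2 * (x1 * y3 - x3 * y1) + l3 * (x1 * y2 - x2 * y1)| ≤
      |l1| * |x2 * y3 - x3 * y2| + |l2| * (|x1| * |y3| + |x3| * |y1|) +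
        |l3| * (|x1| * |y2| + |x2| * |y1|) := by
  have h1 : |x1 * y3 - x3 * y1| ≤ |x1| * |y3| + |x3| * |y1| := by
    rw [← abs_mul, ← abs_mul]
    exact abs_sub _ _
  have h2 : |x1 * y2 - x2 * y1| ≤ |x1| * |y2| + |x2| * |y1| := by
    rw [← abs_mul, ← abs_mul]
    exact abs_sub _ _
  calc |l1 * (x2 * y3 - x3 * y2) - l2 * (x1 * y3 - x3 * y1) + l3 * (x1 * y2 - x2 * y1)|
      ≤ |l1 * (x2 * y3 - x3 * y2) - l2 * (x1 * y3 - x3 * y1)| + |l3 * (x1 * y2 - x2 * y1)| :=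
        abs_add_le _ _
    _ ≤ |l1 * (x2 * y3 - x3 * y2)| + |l2 * (x1 * y3 - x3 * y1)| + |l3 * (x1 * y2 - x2 * y1)| := by
        have := abs_sub (l1 * (x2 * y3 - x3 * y2)) (l2 * (x1 * y3 - x3 * y1))
        linarith
    _ ≤ _ := by
        rw [abs_mul, abs_mul, abs_mul]
        have h3 := mul_le_mul_of_nonneg_left h1 (abs_nonneg l2)
        have h4 := mul_le_mul_of_nonneg_left h2 (abs_nonneg l3)
        linarith

theorem pf (hA : AStm) : DlowStm := by
  intro S m ρ s hE C hC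
  have hd := S.d_pos
  obtain ⟨k1, h1⟩ := hA S m ρ s hE (8 / S.d) (by positivity)
  obtain ⟨k2, h2⟩ := hA S m ρ s hE (2 * C / S.d) (by positivity)
  refine ⟨max k1 k2, fun j hj hnew => ?_⟩
  have hj1 : k1 ≤ j := le_trans (le_max_left _ _) hj
  have hj2 : k2 ≤ j := le_trans (le_max_right _ _) hj
  have hb1 : ∀ k, 1 < m.b k := fun k => lt_trans (hE.a1 k) (hE.ab k)
  have hsg : 2 ≤ s / (s - 1) := by
    rw [le_div_iff₀ (by linarith [hE.hs])]
    linarith [hE.hs2]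
  have hLb : ∀ k, k1 ≤ k → m.L k * m.b (k + 1) ^ 2 ≤ S.d / 8 := by
    intro k hk
    have h3 := h1 k hk
    have h4 : m.b (k + 1) ^ 2 ≤ m.b (k + 1) ^ (s / (s - 1)) := by
      rw [← Real.rpow_two]
      exact Real.rpow_le_rpow_of_exponent_le (hb1 (k + 1)).le hsg
    have h5 : 8 / S.d * m.b (k + 1) ^ 2 * m.L k ≤ 1 := by
      refine le_trans ?_ h3
      have h6 := (hE.Lpos k).le
      gcongr
    have h6 : 8 / S.d * m.b (k + 1) ^ 2 * m.L k = 8 * (m.L k * m.b (k + 1) ^ 2) / S.d := by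
      ring
    rw [h6, div_le_one hd] at h5
    linarith
  have hdet : S.d ≤ m.L j * m.D (j + 1) + m.L (j + 1) * (m.a j * m.b (j + 2) + m.a (j + 2) * m.b j) +
      m.L (j + 2) * (m.a j * m.b (j + 1) + m.a (j + 1) * m.b j) := by
    rcases S.detint (m.r j) (m.r (j + 1)) (m.r (j + 2)) with h3 | h3
    · exact absurd h3 hnew
    · exact le_trans h3 (det_le _ _ _ _ _ _ _ _ _)
  have hb01 : m.b j < m.b (j + 1) := hE.bmono (by omega)
  have hb12 : m.b (j + 1) < m.b (j + 2) := hE.bmono (by omega)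
  have hb23 : m.b (j + 2) < m.b (j + 3) := hE.bmono (by omega)
  have e0 := hb1 j
  have e1 := hE.a1 j
  have e2 := hE.a1 (j + 1)
  have e3 := hE.a1 (j + 2)
  have f0 := hE.ab j
  have f1 := hE.ab (j + 1)
  have f2 := hE.ab (j + 2)
  have g1 : m.a j * m.b (j + 2) + m.a (j + 2) * m.b j ≤ 2 * m.b (j + 2) ^ 2 := by
    have q1 : m.a j * m.b (j + 2) ≤ m.b (j + 2) * m.b (j + 2) := by
      apply mul_le_mul_of_nonneg_right <;> linarith
    have q2 : m.a (j + 2) * m.b j ≤ m.b (j + 2) * m.b (j + 2) := by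
      apply mul_le_mul <;> linarith
    linarith
  have g2 : m.a j * m.b (j + 1) + m.a (j + 1) * m.b j ≤ 2 * m.b (j + 3) ^ 2 := by
    have q1 : m.a j * m.b (j + 1) ≤ m.b (j + 3) * m.b (j + 3) := by
      apply mul_le_mul <;> linarith
    have q2 : m.a (j + 1) * m.b j ≤ m.b (j + 3) * m.b (j + 3) := by
      apply mul_le_mul <;> linarith
    linarith
  have t1 : m.L (j + 1) * (m.a j * m.b (j + 2) + m.a (j + 2) * m.b j) ≤ S.d / 4 := by
    have q1 := mul_le_mul_of_nonneg_left g1 (hE.Lpos (j + 1)).le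
    have q2 := hLb (j + 1) (by omega)
    have q3 : m.b (j + 1 + 1) = m.b (j + 2) := rfl
    rw [q3] at q2
    linarith
  have t2 : m.L (j + 2) * (m.a j * m.b (j + 1) + m.a (j + 1) * m.b j) ≤ S.d / 4 := by
    have q1 := mul_le_mul_of_nonneg_left g2 (hE.Lpos (j + 2)).le
    have q2 := hLb (j + 2) (by omega)
    have q3 : m.b (j + 2 + 1) = m.b (j + 3) := rfl
    rw [q3] at q2
    linarith
  have t3 : S.d / 2 ≤ m.L j * m.D (j + 1) := by linarith
  have t4 := h2 j hj2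
  have hD : 0 ≤ m.D (j + 1) := abs_nonneg _
  have hB : 0 < m.b (j + 1) ^ (s / (s - 1)) := Real.rpow_pos_of_pos (by linarith) _
  calc C * m.b (j + 1) ^ (s / (s - 1))
      = (2 * C / S.d * m.b (j + 1) ^ (s / (s - 1))) * (S.d / 2) := by
        field_simp
    _ ≤ (2 * C / S.d * m.b (j + 1) ^ (s / (s - 1))) * (m.L j * m.D (j + 1)) := by
        apply mul_le_mul_of_nonneg_left t3
        positivity
    _ = (2 * C / S.d * m.b (j + 1) ^ (s / (s - 1)) * m.L j) * m.D (j + 1) := by ring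
    _ ≤ 1 * m.D (j + 1) := mul_le_mul_of_nonneg_right t4 hD
    _ = m.D (j + 1) := one_mul _

end Pool.Agent.W789.TH.A10
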