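import Mathlib
import Pool.Agent.W789.TH.Defs
import Pool.Agent.W789.TH.StmA

namespace Pool.Agent.W789.TH.A11

theorem pf (hD : DlowStm) : TwoStm := by
  intro S m ρ s h
  obtain ⟨k0, hk0⟩ := hD S m ρ s h 5 (by norm_num)
  refine ⟨k0, fun j hj hnew => ?_⟩
  have h1 := hk0 j hj hnew
  have hb1 : 1 < m.b (j + 1) := (h.a1 (j + 1)).trans (h.ab (j + 1))
  have hb2 : 1 < m.b (j + 2) := (h.a1 (j + 2)).trans (h.ab (j + 2))
  have hs0 : 0 < s - 1 := by linarith [h.hs]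
  have hsg : (2 : ℝ) ≤ s / (s - 1) := by
    rw [le_div_iff₀ hs0]
    linarith [h.hs2]
  have h2 : (m.b (j + 1)) ^ 2 ≤ (m.b (j + 1)) ^ (s / (s - 1)) := by
    rw [← Real.rpow_two]
    exact Real.rpow_le_rpow_of_exponent_le hb1.le hsg
  have h3 : m.D (j + 1) ≤ m.a (j + 1) * m.b (j + 2) + m.a (j + 2) * m.b (j + 1) := by
    unfold Seq.D Seq.a Seq.b
    rw [← abs_mul, ← abs_mul]
    exact abs_sub _ _
  have h4 : m.a (j + 1) * m.b (j + 2) ≤ m.b (j + 1) * m.b (j + 2) :=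
    mul_le_mul_of_nonneg_right (h.ab (j + 1)).le (by linarith)
  have h5 : m.a (j + 2) * m.b (j + 1) ≤ m.b (j + 2) * m.b (j + 1) :=
    mul_le_mul_of_nonneg_right (h.ab (j + 2)).le (by linarith)
  have h6 : 5 * (m.b (j + 1)) ^ 2 ≤ 2 * (m.b (j + 1) * m.b (j + 2)) := by
    linarith
  have h7 : 5 * m.b (j + 1) ≤ 2 * m.b (j + 2) := by
    have h8 : m.b (j + 1) * (5 * m.b (j + 1)) ≤ m.b (j + 1) * (2 * m.b (j + 2)) := by
      nlinarith
    exact le_of_mul_le_mul_left h8 (by linarith)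
  linarith

end Pool.Agent.W789.TH.A11
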