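import Mathlib
import Pool.Agent.W789.TH.Defs
import Pool.Agent.W789.TH.StmA

/-!
Project TH, lemma A13: the areas in a plane are constant.
-/

namespace Pool.Agent.W789.TH.A13

open Pool.Agent.W789.TH

private lemma abs_det_mul (c d : ℝ) (h : c = 1 ∨ c = -1) : |c * d| = |d| := by
  rcases h with h | h
  · rw [h, one_mul]
  · rw [h, neg_one_mul, abs_neg]

theorem pf (hP : PlaneStm) (hT : TwoStm) : DeltaStm := by
  intro S m ρ s hE
  obtain ⟨k0, hk0⟩ := hT S m ρ s hE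
  refine ⟨k0, fun j hj hnew J hC => ?_⟩
  have h2b := hk0 j hj hnew
  obtain ⟨p, q, u, v, h1, h2, hdet⟩ := hP S m j J hC
  have hdet' : ((p : ℝ) * v - q * u = 1) ∨ ((p : ℝ) * v - q * u = -1) := by
    rcases hdet with h | h
    · left; exact_mod_cast h
    · right; exact_mod_cast h
  have hx1 : S.x (m.r J) = p * S.x (m.r (j + 1)) + q * S.x (m.r (j + 2)) := by
    rw [h1, map_add, map_zsmul, map_zsmul, zsmul_eq_mul, zsmul_eq_mul]
  have hx2 : S.x (m.r (J + 1)) = u * S.x (m.r (j + 1)) + v * S.x (m.r (j + 2)) := by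
    rw [h2, map_add, map_zsmul, map_zsmul, zsmul_eq_mul, zsmul_eq_mul]
  have hy1 : S.y (m.r J) = p * S.y (m.r (j + 1)) + q * S.y (m.r (j + 2)) := by
    rw [h1, map_add, map_zsmul, map_zsmul, zsmul_eq_mul, zsmul_eq_mul]
  have hy2 : S.y (m.r (J + 1)) = u * S.y (m.r (j + 1)) + v * S.y (m.r (j + 2)) := by
    rw [h2, map_add, map_zsmul, map_zsmul, zsmul_eq_mul, zsmul_eq_mul]
  have hl1 : S.l (m.r J) = p * S.l (m.r (j + 1)) + q * S.l (m.r (j + 2)) := by
    rw [h1, map_add, map_zsmul, map_zsmul, zsmul_eq_mul, zsmul_eq_mul]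
  have hl2 : S.l (m.r (J + 1)) = u * S.l (m.r (j + 1)) + v * S.l (m.r (j + 2)) := by
    rw [h2, map_add, map_zsmul, map_zsmul, zsmul_eq_mul, zsmul_eq_mul]
  constructor
  · have hbJ : m.b J ≤ m.b (J + 1) := (hE.bmono (Nat.lt_succ_self J)).le
    have hLJ : m.L (J + 1) ≤ m.L J := (hE.Lanti (Nat.lt_succ_self J)).le
    have hLj : m.L (j + 2) ≤ m.L (j + 1) := (hE.Lanti (Nat.lt_succ_self (j + 1))).le
    have hb0 : ∀ k, 0 ≤ m.b k := fun k => abs_nonneg _
    have hL0 : ∀ k, 0 ≤ m.L k := fun k => abs_nonneg _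
    set e : ℝ := |S.y (m.r (j + 1)) * S.l (m.r (j + 2)) - S.y (m.r (j + 2)) * S.l (m.r (j + 1))|
      with he
    have e1 : e = |S.y (m.r J) * S.l (m.r (J + 1)) - S.y (m.r (J + 1)) * S.l (m.r J)| := by
      rw [he, ← abs_det_mul ((p : ℝ) * v - q * u) _ hdet', hy1, hy2, hl1, hl2]
      congr 1
      ring
    have e2 : e ≤ m.b J * m.L (J + 1) + m.b (J + 1) * m.L J := by
      rw [e1]
      refine (abs_sub _ _).trans ?_
      rw [abs_mul, abs_mul]
      exact le_rfl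
    have e3 : m.b (j + 2) * m.L (j + 1) - m.b (j + 1) * m.L (j + 2) ≤ e := by
      have := abs_sub_abs_le_abs_sub (S.y (m.r (j + 2)) * S.l (m.r (j + 1)))
        (S.y (m.r (j + 1)) * S.l (m.r (j + 2)))
      rw [abs_mul, abs_mul] at this
      rw [he, abs_sub_comm]
      exact this
    have e4 : m.b J * m.L (J + 1) ≤ m.b (J + 1) * m.L J :=
      mul_le_mul hbJ hLJ (hL0 _) (hb0 _)
    have e5 : m.b (j + 1) * m.L (j + 2) ≤ m.b (j + 1) * m.L (j + 1) :=
      mul_le_mul_of_nonneg_left hLj (hb0 _)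
    have e6 : 2 * m.b (j + 1) * m.L (j + 1) ≤ m.b (j + 2) * m.L (j + 1) :=
      mul_le_mul_of_nonneg_right h2b (hL0 _)
    nlinarith
  · unfold Seq.D
    rw [show (j + 1 + 1 : ℕ) = j + 2 from rfl,
      ← abs_det_mul ((p : ℝ) * v - q * u) (S.x (m.r (j + 1)) * S.y (m.r (j + 2)) -
        S.x (m.r (j + 2)) * S.y (m.r (j + 1))) hdet', hx1, hx2, hy1, hy2]
    congr 1
    ring

end Pool.Agent.W789.TH.A13
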