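import Mathlib
import Pool.Agent.W789.TH.Defs
import Pool.Agent.W789.TH.StmA

/-!
Upper bound for the area of the new plane.
-/

namespace Pool.Agent.W789.TH.A14

theorem pf (hP : PlaneStm) (hT : TwoStm) : DupStm := by
  intro S m ρ s hE
  obtain ⟨k0, hk0⟩ := hT S m ρ s hE
  refine ⟨k0, ?_⟩
  intro j hj hnew J hcons
  have h2b := hk0 j hj hnew
  obtain ⟨p, q, u, v, hJ, hJ1, hdet⟩ := hP S m j J hcons
  have hjJ : j + 1 ≤ J := hcons.1
  have hLpos := hE.Lpos (j + 1)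
  have hL1 : m.L (J + 1) ≤ m.L (j + 2) := hE.Lanti.antitone (by omega)
  have hL2 : m.L (j + 2) ≤ m.L (j + 1) := hE.Lanti.antitone (by omega)
  have hb1 : m.b (j + 1) < m.b (J + 1) := hE.bmono (by omega)
  have hb0 : 0 ≤ m.b (j + 1) := abs_nonneg _
  have hb2 : 0 ≤ m.b (j + 2) := abs_nonneg _
  have ha0 : 0 ≤ m.a (j + 1) := abs_nonneg _
  have hl : S.l (m.r (J + 1)) = u * S.l (m.r (j + 1)) + v * S.l (m.r (j + 2)) := by
    rw [hJ1, map_add, map_zsmul, map_zsmul, zsmul_eq_mul, zsmul_eq_mul]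
  have hx : S.x (m.r (J + 1)) = u * S.x (m.r (j + 1)) + v * S.x (m.r (j + 2)) := by
    rw [hJ1, map_add, map_zsmul, map_zsmul, zsmul_eq_mul, zsmul_eq_mul]
  have hy : S.y (m.r (J + 1)) = u * S.y (m.r (j + 1)) + v * S.y (m.r (j + 2)) := by
    rw [hJ1, map_add, map_zsmul, map_zsmul, zsmul_eq_mul, zsmul_eq_mul]
  have hv0 : v ≠ 0 := by
    intro hv
    subst hv
    have hu : u = 1 ∨ u = -1 := by
      have h3 : IsUnit u := by
        rcases hdet with h | h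
        · exact isUnit_of_dvd_one ⟨-q, by linarith⟩
        · exact isUnit_of_dvd_one ⟨q, by linarith⟩
      exact Int.isUnit_iff.1 h3
    have h4 : m.b (J + 1) = m.b (j + 1) := by
      show |S.y (m.r (J + 1))| = |S.y (m.r (j + 1))|
      rw [hy]
      rcases hu with h | h
      · subst h
        norm_num
      · subst h
        norm_num
    linarith
  have hv1 : (1 : ℝ) ≤ |(v : ℝ)| := by
    have h3 : (1 : ℤ) ≤ |v| := Int.one_le_abs hv0
    exact_mod_cast h3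
  obtain ⟨w, hw⟩ : ∃ w : ℝ, w = |(v : ℝ)| := ⟨_, rfl⟩
  obtain ⟨t, ht⟩ : ∃ t : ℝ, t = |(u : ℝ)| := ⟨_, rfl⟩
  rw [← hw] at hv1
  have hut : t ≤ 2 * w := by
    have h3 : t * m.L (j + 1) ≤ m.L (J + 1) + w * m.L (j + 2) := by
      have h4 : (u : ℝ) * S.l (m.r (j + 1)) = S.l (m.r (J + 1)) - v * S.l (m.r (j + 2)) := by
        rw [hl]
        ring
      have h5 : |(u : ℝ) * S.l (m.r (j + 1))| ≤
          |S.l (m.r (J + 1))| + |(v : ℝ) * S.l (m.r (j + 2))| := by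
        rw [h4]
        exact abs_sub _ _
      rw [abs_mul, abs_mul, ← ht, ← hw] at h5
      exact h5
    have h6 : t * m.L (j + 1) ≤ (2 * w) * m.L (j + 1) := by nlinarith
    exact le_of_mul_le_mul_right h6 hLpos
  have hbJ : m.b (J + 1) ≤ 2 * w * m.b (j + 2) := by
    have h5 : |S.y (m.r (J + 1))| ≤ |(u : ℝ) * S.y (m.r (j + 1))| +
        |(v : ℝ) * S.y (m.r (j + 2))| := by
      rw [hy]
      exact abs_add_le _ _
    rw [abs_mul, abs_mul, ← ht, ← hw] at h5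
    have h6 : m.b (J + 1) ≤ t * m.b (j + 1) + w * m.b (j + 2) := h5
    have h7 : t * m.b (j + 1) ≤ (2 * w) * m.b (j + 1) := mul_le_mul_of_nonneg_right hut hb0
    nlinarith
  have hD : w * m.D (j + 1) ≤ m.a (j + 1) * m.b (J + 1) + m.a (J + 1) * m.b (j + 1) := by
    have h4 : S.x (m.r (j + 1)) * S.y (m.r (J + 1)) - S.x (m.r (J + 1)) * S.y (m.r (j + 1)) =
        v * (S.x (m.r (j + 1)) * S.y (m.r (j + 2)) - S.x (m.r (j + 2)) * S.y (m.r (j + 1))) := by
      rw [hx, hy]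
      ring
    have h5 : |S.x (m.r (j + 1)) * S.y (m.r (J + 1)) - S.x (m.r (J + 1)) * S.y (m.r (j + 1))| ≤
        |S.x (m.r (j + 1)) * S.y (m.r (J + 1))| + |S.x (m.r (J + 1)) * S.y (m.r (j + 1))| :=
      abs_sub _ _
    rw [h4, abs_mul, abs_mul, abs_mul, ← hw] at h5
    exact h5
  have hD0 : 0 ≤ m.D (j + 1) := abs_nonneg _
  calc m.D (j + 1) * m.b (J + 1) ≤ m.D (j + 1) * (2 * w * m.b (j + 2)) :=
        mul_le_mul_of_nonneg_left hbJ hD0
    _ = 2 * m.b (j + 2) * (w * m.D (j + 1)) := by ring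
    _ ≤ 2 * m.b (j + 2) * (m.a (j + 1) * m.b (J + 1) + m.a (J + 1) * m.b (j + 1)) :=
        mul_le_mul_of_nonneg_left hD (by linarith)
    _ = 2 * m.b (j + 2) * (m.a (j + 1) * m.b (J + 1) + m.b (j + 1) * m.a (J + 1)) := by ring

end Pool.Agent.W789.TH.A14
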