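import Mathlib
import Pool.Agent.W789.TH.Defs
import Pool.Agent.W789.TH.StmA

/-!
The strip vector: a small combination of two consecutive minimal points in the strip.
-/

namespace Pool.Agent.W789.TH.A15

open Pool.Agent.W789.TH

theorem claim (x x' y y' a a' b b' D : ℝ) (ha : |x| = a) (ha' : |x'| = a') (hb : |y| = b)
    (hb' : |y'| = b') (hD : |x * y' - x' * y| = D) (h1a : 1 < a') (hab' : a' < b') (hab : a < b)
    (hbb : b < b') (h1D : 1 ≤ D) :
    ∃ u v : ℤ, 0 < u ∧ |(u : ℝ) * x - v * x'| ≤ 1 ∧ |(u : ℝ) * y - v * y'| ≤ 6 * D ∧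
      (u : ℝ) ≤ 2 * a' + b' / D ∧ |(v : ℝ)| ≤ 3 * b' := by
  have hDpos : 0 < D := by linarith
  have ha0 : 0 ≤ a := ha ▸ abs_nonneg x
  have hb0 : 0 ≤ b := hb ▸ abs_nonneg y
  have hb'pos : 0 < b' := by linarith
  have ha'pos : 0 < a' := by linarith
  have hx'ne : x' ≠ 0 := by
    intro h; rw [h, abs_zero] at ha'; linarith
  have hy'ne : y' ≠ 0 := by
    intro h; rw [h, abs_zero] at hb'; linarith
  have hbD : 0 < b' / D := by positivity
  have hbDle : b' / D ≤ b' := div_le_self hb'pos.le h1D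
  by_cases hc : 4 * a' * D ≤ b'
  · -- case 1
    have hq : 2 * a' ≤ b' / (2 * D) := by
      rw [le_div_iff₀ (by positivity)]
      linarith
    set n : ℕ := ⌊b' / (2 * D)⌋₊ with hn
    have hn1 : 1 ≤ n := by
      rw [hn, Nat.one_le_floor_iff]
      linarith
    have hnle : (n : ℝ) ≤ b' / (2 * D) := Nat.floor_le (by positivity)
    have hnlt : b' / (2 * D) < n + 1 := Nat.lt_floor_add_one _
    obtain ⟨v, u, hu0, hun, huv⟩ := Real.exists_int_int_abs_mul_sub_le (y / y') hn1
    have hu0' : (0 : ℝ) < u := by exact_mod_cast hu0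
    have hun' : (u : ℝ) ≤ n := by exact_mod_cast hun
    have hu1 : (1 : ℝ) ≤ u := by exact_mod_cast hu0
    have hn1' : (0 : ℝ) < (n : ℝ) + 1 := by positivity
    have hyw : |(u : ℝ) * y - v * y'| ≤ 2 * D := by
      have e : (u : ℝ) * y - v * y' = y' * (u * (y / y') - v) := by
        field_simp
      rw [e, abs_mul, hb']
      calc b' * |(u : ℝ) * (y / y') - v| ≤ b' * (1 / (n + 1)) :=
            mul_le_mul_of_nonneg_left huv hb'pos.le
        _ ≤ 2 * D := by
            rw [mul_one_div, div_le_iff₀ hn1']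
            rw [div_lt_iff₀ (by positivity)] at hnlt
            linarith
    have hu2 : (u : ℝ) * (2 * D) ≤ b' := by
      have h3 : (u : ℝ) ≤ b' / (2 * D) := hun'.trans hnle
      rwa [le_div_iff₀ (by positivity)] at h3
    have hxw : |(u : ℝ) * x - v * x'| * b' ≤ b' := by
      have e : ((u : ℝ) * x - v * x') * y' = u * (x * y' - x' * y) + x' * (u * y - v * y') := by
        ring
      rw [← hb', ← abs_mul, e]
      calc |(u : ℝ) * (x * y' - x' * y) + x' * (u * y - v * y')|
          ≤ |(u : ℝ) * (x * y' - x' * y)| + |x' * (u * y - v * y')| := abs_add_le _ _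
        _ = u * D + a' * |(u : ℝ) * y - v * y'| := by
            rw [abs_mul, abs_mul, hD, ha', abs_of_pos hu0']
        _ ≤ u * D + a' * (2 * D) := by
            have := mul_le_mul_of_nonneg_left hyw ha'pos.le
            linarith
        _ ≤ |y'| := by
            rw [hb']; nlinarith
    have ht : |y / y'| ≤ 1 := by
      rw [abs_div, hb, hb', div_le_one hb'pos]
      exact hbb.le
    have hv : |(v : ℝ)| ≤ u + 1 := by
      have e : (v : ℝ) = u * (y / y') - (u * (y / y') - v) := by ring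
      have h5 : |(u : ℝ) * (y / y')| ≤ u := by
        rw [abs_mul, abs_of_pos hu0']
        exact mul_le_of_le_one_right hu0'.le ht
      have h6 : (1 : ℝ) / (n + 1) ≤ 1 := by
        rw [div_le_one hn1']; linarith
      rw [e]
      calc |(u : ℝ) * (y / y') - (u * (y / y') - v)|
          ≤ |(u : ℝ) * (y / y')| + |(u : ℝ) * (y / y') - v| := abs_sub _ _
        _ ≤ u + 1 := by linarith
    refine ⟨u, v, hu0, ?_, ?_, ?_, ?_⟩
    · exact le_of_mul_le_mul_right (by rw [one_mul]; exact hxw) hb'pos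
    · linarith
    · have : (u : ℝ) ≤ b' / D := by
        rw [le_div_iff₀ hDpos]; nlinarith
      linarith
    · nlinarith
  · -- case 2
    push Not at hc
    set n : ℕ := ⌈a'⌉₊ with hn
    have hnle : a' ≤ n := Nat.le_ceil a'
    have hnlt : (n : ℝ) < a' + 1 := Nat.ceil_lt_add_one ha'pos.le
    have hn1 : 0 < n := by
      have : (0 : ℝ) < n := by linarith
      exact_mod_cast this
    obtain ⟨v, u, hu0, hun, huv⟩ := Real.exists_int_int_abs_mul_sub_le (x / x') hn1
    have hu0' : (0 : ℝ) < u := by exact_mod_cast hu0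
    have hun' : (u : ℝ) ≤ n := by exact_mod_cast hun
    have hn1' : (0 : ℝ) < (n : ℝ) + 1 := by positivity
    have hu2 : (u : ℝ) ≤ 2 * a' := by linarith
    have hxw : |(u : ℝ) * x - v * x'| ≤ 1 := by
      have e : (u : ℝ) * x - v * x' = x' * (u * (x / x') - v) := by
        field_simp
      rw [e, abs_mul, ha']
      calc a' * |(u : ℝ) * (x / x') - v| ≤ a' * (1 / (n + 1)) :=
            mul_le_mul_of_nonneg_left huv ha'pos.le
        _ ≤ 1 := by
            rw [mul_one_div, div_le_iff₀ hn1']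
            linarith
    have hyw : |(u : ℝ) * y - v * y'| * a' ≤ 6 * D * a' := by
      have e : ((u : ℝ) * y - v * y') * x' = ((u : ℝ) * x - v * x') * y' -
          u * (x * y' - x' * y) := by
        ring
      rw [← ha', ← abs_mul, e]
      calc |((u : ℝ) * x - v * x') * y' - u * (x * y' - x' * y)|
          ≤ |((u : ℝ) * x - v * x') * y'| + |(u : ℝ) * (x * y' - x' * y)| := abs_sub _ _
        _ = |(u : ℝ) * x - v * x'| * b' + u * D := by
            rw [abs_mul, abs_mul, hD, hb', abs_of_pos hu0']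
        _ ≤ 1 * b' + 2 * a' * D := by
            have h7 := mul_le_mul_of_nonneg_right hxw hb'pos.le
            have h8 := mul_le_mul_of_nonneg_right hu2 hDpos.le
            linarith
        _ ≤ 6 * D * |x'| := by
            rw [ha']; linarith
    have hv : |(v : ℝ)| ≤ 2 * a + 1 := by
      have e : (v : ℝ) = u * (x / x') - (u * (x / x') - v) := by ring
      have h5 : |(u : ℝ) * (x / x')| ≤ 2 * a := by
        rw [abs_mul, abs_of_pos hu0', abs_div, ha, ha', ← mul_div_assoc, div_le_iff₀ ha'pos]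
        have := mul_le_mul_of_nonneg_right hu2 ha0
        linarith
      have h6 : (1 : ℝ) / (n + 1) ≤ 1 := by
        rw [div_le_one hn1']; linarith
      rw [e]
      calc |(u : ℝ) * (x / x') - (u * (x / x') - v)|
          ≤ |(u : ℝ) * (x / x')| + |(u : ℝ) * (x / x') - v| := abs_sub _ _
        _ ≤ 2 * a + 1 := by linarith
    refine ⟨u, v, hu0, hxw, ?_, ?_, ?_⟩
    · exact le_of_mul_le_mul_right hyw ha'pos
    · linarith
    · linarith

theorem exists_eps (S : Sys) (R : ℝ) : ∃ ε : ℝ, 0 < ε ∧ ∀ q : Fin 3 → ℤ, q ≠ 0 → S.N q < R →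
    ε ≤ |S.l q| := by
  have hfin := S.fin (max R 1)
  by_cases hne : ({r : Fin 3 → ℤ | |S.l r| ≤ max R 1 ∧ |S.x r| ≤ max R 1 ∧
      |S.y r| ≤ max R 1} \ {0}).Nonempty
  · obtain ⟨q0, hq0, hmin⟩ := Set.exists_min_image _ (fun q => |S.l q|)
      (hfin.subset Set.sdiff_subset) hne
    have hq00 : q0 ≠ 0 := fun h => hq0.2 h
    have hpos : 0 < |S.l q0| := abs_pos.2 (fun h => hq00 (S.inj q0 h))
    refine ⟨min 1 |S.l q0|, lt_min one_pos hpos, ?_⟩
    intro q hq hqR
    by_cases hl : |S.l q| ≤ max R 1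
    · refine (min_le_right _ _).trans (hmin q ⟨⟨hl, ?_, ?_⟩, hq⟩)
      · exact (le_max_left _ _).trans (hqR.le.trans (le_max_left _ _))
      · exact (le_max_right _ _).trans (hqR.le.trans (le_max_left _ _))
    · push Not at hl
      exact (min_le_left _ _).trans ((le_max_right R 1).trans hl.le)
  · refine ⟨1, one_pos, ?_⟩
    intro q hq hqR
    by_contra hl
    push Not at hl
    apply hne
    refine ⟨q, ⟨hl.le.trans (le_max_right _ _), ?_, ?_⟩, hq⟩
    · exact (le_max_left _ _).trans (hqR.le.trans (le_max_left _ _))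
    · exact (le_max_right _ _).trans (hqR.le.trans (le_max_left _ _))

theorem pf : SStm := by
  intro S m ρ s E C hC
  have h6s : (0 : ℝ) < (6 : ℝ) ^ s := Real.rpow_pos_of_pos (by norm_num) s
  obtain ⟨R0, hR0⟩ := E.bad (3 * (6 : ℝ) ^ s * C) (by positivity)
  obtain ⟨ε, hε, hεq⟩ := exists_eps S (max R0 1)
  obtain ⟨k0, hk0⟩ := E.btop (6 * S.d / ε + 1)
  refine ⟨k0, ?_⟩
  intro k hk h1D
  have hd := S.d_pos
  have hbk := hk0 k hk
  have hbb : m.b k < m.b (k + 1) := E.bmono (Nat.lt_succ_self k)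
  have hbb2 : m.b (k + 1) < m.b (k + 2) := E.bmono (Nat.lt_succ_self (k + 1))
  have hLL : m.L (k + 1) < m.L k := E.Lanti (Nat.lt_succ_self k)
  have hLp := E.Lpos k
  have hLp' := E.Lpos (k + 1)
  have ha1 := E.a1 k
  have ha1' := E.a1 (k + 1)
  have hab := E.ab k
  have hab' := E.ab (k + 1)
  have hdir := E.dir k
  have hdir' := E.dir (k + 1)
  have hb'pos : 0 < m.b (k + 1) := by linarith
  have hbpos : 0 < m.b k := by linarith
  have hDpos : 0 < m.D k := by linarith
  obtain ⟨u, v, hu0, hxw, hyw, hu, hv⟩ := claim (S.x (m.r k)) (S.x (m.r (k + 1)))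
    (S.y (m.r k)) (S.y (m.r (k + 1))) (m.a k) (m.a (k + 1)) (m.b k) (m.b (k + 1)) (m.D k)
    rfl rfl rfl rfl rfl ha1' hab' hab hbb h1D
  have hu0' : (0 : ℝ) < u := by exact_mod_cast hu0
  set w : Fin 3 → ℤ := u • m.r k - v • m.r (k + 1) with hw
  have hlw : S.l w = u * S.l (m.r k) - v * S.l (m.r (k + 1)) := by
    rw [hw, map_sub, map_zsmul, map_zsmul, zsmul_eq_mul, zsmul_eq_mul]
  have hxw' : S.x w = u * S.x (m.r k) - v * S.x (m.r (k + 1)) := by
    rw [hw, map_sub, map_zsmul, map_zsmul, zsmul_eq_mul, zsmul_eq_mul]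
  have hyw' : S.y w = u * S.y (m.r k) - v * S.y (m.r (k + 1)) := by
    rw [hw, map_sub, map_zsmul, map_zsmul, zsmul_eq_mul, zsmul_eq_mul]
  -- nonzero
  have hwne : w ≠ 0 := by
    intro h0
    rw [h0, map_zero] at hlw hyw'
    have e1 : (u : ℝ) * m.L k = |(v : ℝ)| * m.L (k + 1) := by
      have h2 : (u : ℝ) * S.l (m.r k) = v * S.l (m.r (k + 1)) := by linarith
      have h3 := congrArg abs h2
      rw [abs_mul, abs_mul, abs_of_pos hu0'] at h3
      exact h3
    have e2 : (u : ℝ) * m.b k = |(v : ℝ)| * m.b (k + 1) := by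
      have h2 : (u : ℝ) * S.y (m.r k) = v * S.y (m.r (k + 1)) := by linarith
      have h3 := congrArg abs h2
      rw [abs_mul, abs_mul, abs_of_pos hu0'] at h3
      exact h3
    have hv0 : 0 ≤ |(v : ℝ)| := abs_nonneg _
    have h4 : |(v : ℝ)| ≤ u := by
      by_contra hcon
      push Not at hcon
      have h5 : (u : ℝ) * m.b k < |(v : ℝ)| * m.b (k + 1) := by
        calc (u : ℝ) * m.b k < |(v : ℝ)| * m.b k := mul_lt_mul_of_pos_right hcon hbpos
          _ ≤ |(v : ℝ)| * m.b (k + 1) := mul_le_mul_of_nonneg_left hbb.le hv0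
      linarith
    have h6 : |(v : ℝ)| * m.L (k + 1) < u * m.L k := by
      calc |(v : ℝ)| * m.L (k + 1) ≤ u * m.L (k + 1) := mul_le_mul_of_nonneg_right h4 hLp'.le
        _ < u * m.L k := mul_lt_mul_of_pos_left hLL hu0'
    linarith
  -- size of the form
  have hT : |S.l w| ≤ (2 * m.a (k + 1) + m.b (k + 1) / m.D k) * m.L k +
      3 * m.b (k + 1) * m.L (k + 1) := by
    rw [hlw]
    calc |(u : ℝ) * S.l (m.r k) - v * S.l (m.r (k + 1))|
        ≤ |(u : ℝ) * S.l (m.r k)| + |(v : ℝ) * S.l (m.r (k + 1))| := abs_sub _ _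
      _ = u * m.L k + |(v : ℝ)| * m.L (k + 1) := by
          rw [abs_mul, abs_mul, abs_of_pos hu0']; rfl
      _ ≤ _ := by
          have h1 := mul_le_mul_of_nonneg_right hu hLp.le
          have h2 := mul_le_mul_of_nonneg_right hv hLp'.le
          linarith
  have hbD : m.b (k + 1) / m.D k ≤ m.b (k + 1) := div_le_self hb'pos.le h1D
  have hbDpos : 0 < m.b (k + 1) / m.D k := by positivity
  have hT2 : ((2 * m.a (k + 1) + m.b (k + 1) / m.D k) * m.L k +
      3 * m.b (k + 1) * m.L (k + 1)) * m.b (k + 1) ≤ 6 * S.d := by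
    have h1 : (2 * m.a (k + 1) + m.b (k + 1) / m.D k) * m.L k ≤ 3 * m.b (k + 1) * m.L k := by
      apply mul_le_mul_of_nonneg_right _ hLp.le
      linarith
    have h2 : m.L (k + 1) * m.b (k + 1) ^ 2 ≤ S.d := by
      refine le_trans (mul_le_mul_of_nonneg_left ?_ hLp'.le) hdir'
      show m.b (k + 1) ^ 2 ≤ m.b (k + 2) ^ 2
      exact pow_le_pow_left₀ hb'pos.le hbb2.le 2
    have h3 : ((2 * m.a (k + 1) + m.b (k + 1) / m.D k) * m.L k) * m.b (k + 1) ≤
        3 * m.b (k + 1) * m.L k * m.b (k + 1) := mul_le_mul_of_nonneg_right h1 hb'pos.le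
    nlinarith
  have hlt : |S.l w| < ε := by
    have h1 : |S.l w| * m.b (k + 1) ≤ 6 * S.d :=
      (mul_le_mul_of_nonneg_right hT hb'pos.le).trans hT2
    by_contra hcon
    push Not at hcon
    have h2 : ε * m.b (k + 1) ≤ 6 * S.d :=
      (mul_le_mul_of_nonneg_right hcon hb'pos.le).trans h1
    have h3 : 6 * S.d / ε + 1 ≤ m.b (k + 1) := by linarith
    have h4 : ε * (6 * S.d / ε + 1) = 6 * S.d + ε := by
      field_simp
    have h5 := mul_le_mul_of_nonneg_left h3 hε.le
    linarith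
  have hNw : max R0 1 ≤ S.N w := by
    by_contra hcon
    push Not at hcon
    exact absurd (hεq w hwne hcon) (not_le.2 hlt)
  have hN1 : 1 ≤ S.N w := (le_max_right _ _).trans hNw
  have hNle : S.N w ≤ 6 * m.D k := by
    apply max_le
    · rw [hxw']; linarith
    · rw [hyw']; exact hyw
  have hbad := hR0 w ((le_max_left _ _).trans hNw) (Or.inr (by rw [hxw']; exact hxw))
  have hs0 : 0 < s := by linarith [E.hs]
  have hpow : (6 * m.D k) ^ (-s) ≤ (S.N w) ^ (-s) :=
    Real.rpow_le_rpow_of_nonpos (by linarith) hNle (by linarith)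
  have h7 : 3 * (6 : ℝ) ^ s * C * (6 * m.D k) ^ (-s) <
      (2 * m.a (k + 1) + m.b (k + 1) / m.D k) * m.L k + 3 * m.b (k + 1) * m.L (k + 1) := by
    calc 3 * (6 : ℝ) ^ s * C * (6 * m.D k) ^ (-s)
        ≤ 3 * (6 : ℝ) ^ s * C * (S.N w) ^ (-s) :=
          mul_le_mul_of_nonneg_left hpow (by positivity)
      _ < |S.l w| := hbad
      _ ≤ _ := hT
  have hDs : 0 < m.D k ^ s := Real.rpow_pos_of_pos hDpos s
  have e6 : (6 * m.D k) ^ (-s) = ((6 : ℝ) ^ s)⁻¹ * (m.D k ^ s)⁻¹ := by
    rw [Real.rpow_neg (by positivity), Real.mul_rpow (by norm_num) hDpos.le, mul_inv]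
  have h8 : 3 * (6 : ℝ) ^ s * C * (6 * m.D k) ^ (-s) = 3 * C * (m.D k ^ s)⁻¹ := by
    rw [e6]
    field_simp
  rw [h8] at h7
  have h9 : 3 * C < m.D k ^ s * ((2 * m.a (k + 1) + m.b (k + 1) / m.D k) * m.L k +
      3 * m.b (k + 1) * m.L (k + 1)) := by
    have := mul_lt_mul_of_pos_left h7 hDs
    have e9 : m.D k ^ s * (3 * C * (m.D k ^ s)⁻¹) = 3 * C := by
      field_simp
    rwa [e9] at this
  have h10 : (2 * m.a (k + 1) + m.b (k + 1) / m.D k) * m.L k +
      3 * m.b (k + 1) * m.L (k + 1) ≤ 3 * ((m.a (k + 1) + m.b (k + 1) / m.D k) * m.L k +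
        m.b (k + 1) * m.L (k + 1)) := by
    have h11 : 0 ≤ m.a (k + 1) * m.L k := by positivity
    have h12 : 0 ≤ m.b (k + 1) / m.D k * m.L k := by positivity
    linarith
  have h13 := mul_le_mul_of_nonneg_left h10 hDs.le
  linarith

end Pool.Agent.W789.TH.A15
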