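import Mathlib
import Pool.Agent.W789.TH.Defs
import Pool.Agent.W789.TH.StmA

namespace Pool.Agent.W789.TH.A16

open Pool.Agent.W789.TH

theorem core (s β κ σ w : ℝ) (hs1 : 3 / 2 < s) (hs2 : s < 2) (hβ0 : 0 < β) (hβ1 : β ≤ 1)
    (hκ0 : 0 < κ) (hκ1 : κ < 1) (hσ : σ * (s - 1) = s) (hσ2 : 2 < σ) (hw : w = s + 1 - σ)
    (hβ : β * (1 + s * β) = (s + 1) * w) (hκ : (s + 1) * β ^ 2 < κ * ((s + 1) * σ + β))
    (x y A : ℕ → ℝ) (hx : ∀ i, 0 < x i) (hxy : ∀ i, x i ≤ y i) (hyx : ∀ i, y i ≤ x (i + 1))
    (hA0 : ∀ i, 0 ≤ A i) (hA : ∀ i, A i < x i)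
    (h3 : ∀ i, (σ - 1) * x (i + 1) ≤
      - x i + s * (y i + max (A i) (x i + A (i + 1) - x (i + 1)) - x i))
    (h4 : ∀ i, κ * (y i + (σ - 1) * x (i + 1)) ≤ (s + 1) * (x i - A i) - κ * x i)
    (h5 : ∀ i, σ * x (i + 1) ≤
      A (i + 1) + s * (y i + max (A i) (x i + A (i + 1) - x (i + 1))) ∨
      σ * x (i + 1) ≤
      x (i + 1) + (s - 1) * (y i + max (A i) (x i + A (i + 1) - x (i + 1))) ∨
      σ * y (i + 1) ≤
      x (i + 1) + s * (y i + max (A i) (x i + A (i + 1) - x (i + 1)))) : False := by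
  have hs0 : 0 < s := by linarith
  have hw0 : 0 < w := by
    have h1 : 0 < (s + 1) * w := by rw [← hβ]; positivity
    exact pos_of_mul_pos_right h1 (by linarith)
  have hsb : 0 < 1 + s * β := by positivity
  -- regular planes
  have hreg : ∀ i, x i + A (i + 1) - x (i + 1) ≤ A i →
      β * x i < x i - A i ∧ x i + s * (x i - A i) ≤ w * y i := by
    intro i hi
    have e3 := h3 i
    rw [max_eq_left hi] at e3
    have e4 := h4 i
    have hz := hyx i
    have hX := hx i
    have hAi := hA i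
    have r1 : x i + s * (x i - A i) ≤ w * y i := by
      rw [hw]
      nlinarith
    refine ⟨?_, r1⟩
    by_contra hcon
    push Not at hcon
    set a := x i - A i with ha
    have ha0 : 0 < a := by rw [ha]; linarith
    have r2 : κ * σ * y i ≤ (s + 1) * a - κ * x i := by
      have : κ * (σ - 1) * y i ≤ κ * (σ - 1) * x (i + 1) := by
        apply mul_le_mul_of_nonneg_left hz
        apply mul_nonneg hκ0.le; linarith
      nlinarith
    have r3 : κ * σ * (x i + s * a) ≤ w * ((s + 1) * a - κ * x i) := by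
      calc κ * σ * (x i + s * a) ≤ κ * σ * (w * y i) := by
            apply mul_le_mul_of_nonneg_left r1; positivity
        _ = w * (κ * σ * y i) := by ring
        _ ≤ _ := mul_le_mul_of_nonneg_left r2 hw0.le
    have r4 : κ * x i * (σ + w) ≤ a * (β * (1 + s * β) - s * κ * σ) := by
      rw [hβ]; nlinarith
    have r5 : 0 < β * (1 + s * β) - s * κ * σ := by
      have h1 : 0 < κ * x i * (σ + w) := by positivity
      exact pos_of_mul_pos_right (h1.trans_le r4) ha0.le
    have r6 : κ * x i * (σ + w) ≤ β * x i * (β * (1 + s * β) - s * κ * σ) :=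
      r4.trans (mul_le_mul_of_nonneg_right hcon r5.le)
    have r7 : κ * (σ + w) ≤ β * (β * (1 + s * β) - s * κ * σ) := by
      have h1 : (κ * (σ + w)) * x i ≤ (β * (β * (1 + s * β) - s * κ * σ)) * x i := by
        calc (κ * (σ + w)) * x i = κ * x i * (σ + w) := by ring
          _ ≤ _ := r6
          _ = _ := by ring
      exact le_of_mul_le_mul_right h1 hX
    have r8 : (1 + s * β) * (κ * ((s + 1) * σ + β)) ≤ (1 + s * β) * ((s + 1) * β ^ 2) := by
      have h1 : κ * (s + 1) * w = κ * (β * (1 + s * β)) := by rw [hβ]; ring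
      nlinarith
    have r9 := le_of_mul_le_mul_left r8 hsb
    linarith
  -- the bound for all planes
  have hall : ∀ i, (s + 1) * A i ≤ ((s + 1) - κ * (1 + σ)) * x i := by
    intro i
    have e4 := h4 i
    have h1 : x i ≤ x (i + 1) := (hxy i).trans (hyx i)
    have h2 : κ * σ * x i ≤ κ * (y i + (σ - 1) * x (i + 1)) := by
      have h3' : (σ - 1) * x i ≤ (σ - 1) * x (i + 1) :=
        mul_le_mul_of_nonneg_left h1 (by linarith)
      have h4' := hxy i
      have h5' : σ * x i ≤ y i + (σ - 1) * x (i + 1) := by linarith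
      calc κ * σ * x i = κ * (σ * x i) := by ring
        _ ≤ _ := mul_le_mul_of_nonneg_left h5' hκ0.le
    nlinarith
  -- irregular planes
  have hirr : ∀ i, A i < x i + A (i + 1) - x (i + 1) →
      (σ - 1) * x (i + 1) + x i ≤ s * A (i + 1) := by
    intro i hi
    have e3 := h3 i
    rw [max_eq_right hi.le] at e3
    have hz := hyx i
    nlinarith
  -- w < s β
  have hwb : w < s * β := by
    have h1 : (s + 1) * w < (s + 1) * (s * β) := by
      rw [← hβ]
      have : β * (1 + s * β) < β * (s * (s + 1)) := by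
        apply mul_lt_mul_of_pos_left _ hβ0
        nlinarith
      linarith
    exact lt_of_mul_lt_mul_left h1 (by linarith)
  have hw1 : w < 1 := by rw [hw]; nlinarith
  -- no irregular plane
  have hnoirr : ∀ i, x i + A (i + 1) - x (i + 1) ≤ A i := by
    intro i
    by_contra hi
    push Not at hi
    have y1 := hirr i hi
    by_cases hJ : x (i + 1) + A (i + 1 + 1) - x (i + 1 + 1) ≤ A (i + 1)
    · obtain ⟨q1, _⟩ := hreg (i + 1) hJ
      have hX := hx (i + 1)
      have hXi := hx i
      -- s A ≥ (σ-1) x, A < (1-β) x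
      have : (σ - 1) * x (i + 1) < s * ((1 - β) * x (i + 1)) := by nlinarith
      have h2 : s * β * x (i + 1) < w * x (i + 1) := by rw [hw]; nlinarith
      have h3' := lt_of_mul_lt_mul_right h2 hX.le
      linarith
    · push Not at hJ
      have y2 := hirr (i + 1) hJ
      have a2 := hall (i + 1 + 1)
      have e4 := h4 (i + 1)
      have e3 := h3 (i + 1)
      rw [max_eq_right hJ.le] at e3
      have hX := hx (i + 1)
      have hXi := hx i
      have hZ := hx (i + 1 + 1)
      set X := x (i + 1) with hXd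
      set Y := y (i + 1) with hYd
      set Z := x (i + 1 + 1) with hZd
      set B := A (i + 1 + 1) with hBd
      set A1 := A (i + 1) with hA1d
      -- (s+1) X ≤ P Z, P = β(1+sβ) - sκ(1+σ)
      set P := β * (1 + s * β) - s * κ * (1 + σ) with hP
      have b1 : (s + 1) * X ≤ P * Z := by
        have h1 := mul_le_mul_of_nonneg_left y2 (by linarith : (0 : ℝ) ≤ s + 1)
        have h2 : s * ((s + 1) * B) ≤ s * (((s + 1) - κ * (1 + σ)) * Z) :=
          mul_le_mul_of_nonneg_left a2 hs0.le
        have e : P * Z = s * (((s + 1) - κ * (1 + σ)) * Z) - (s + 1) * ((σ - 1) * Z) := by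
          rw [hP, hβ, hw]; ring
        rw [e]
        linarith
      have hP0 : 0 < P := by
        have : 0 < (s + 1) * X := by positivity
        exact pos_of_mul_pos_left (this.trans_le b1) hZ.le
      -- s(X - A1) ≤ w X
      have b2 : s * (X - A1) ≤ w * X := by rw [hw]; nlinarith
      -- κ s (Y + (σ-1) Z) ≤ ((s+1) w - s κ) X
      have b3 : κ * (s * (Y + (σ - 1) * Z)) ≤ (β * (1 + s * β) - s * κ) * X := by
        have h1 := mul_le_mul_of_nonneg_left e4 hs0.le
        have h2 := mul_le_mul_of_nonneg_left b2 (by linarith : (0 : ℝ) ≤ s + 1)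
        have e : (β * (1 + s * β) - s * κ) * X = (s + 1) * (w * X) - s * (κ * X) := by
          rw [hβ]; ring
        rw [e]
        linarith
      -- s Y ≥ (σ-1) Z + X + s Z - s B
      have b4 : (σ - 1) * Z + X + s * Z - s * B ≤ s * Y := by linarith
      -- (s+1) s Y ≥ ...
      have b5 : (s + 1) * ((σ - 1) * Z + X + s * Z) - s * ((s + 1) - κ * (1 + σ)) * Z
          ≤ (s + 1) * (s * Y) := by
        have h1 := mul_le_mul_of_nonneg_left b4 (by linarith : (0 : ℝ) ≤ s + 1)
        have h2 := mul_le_mul_of_nonneg_left a2 hs0.le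
        linarith
      -- combine: κ ( (s+1) s σ Z - P Z + (s+1) X) ≤ (s+1)(β(1+sβ) - sκ) X
      have b6 : κ * (((s + 1) * s * σ - P) * Z + (s + 1) * X) ≤
          (s + 1) * ((β * (1 + s * β) - s * κ) * X) := by
        have h1 : κ * ((s + 1) * (s * (Y + (σ - 1) * Z))) ≤
            (s + 1) * ((β * (1 + s * β) - s * κ) * X) := by
          have := mul_le_mul_of_nonneg_left b3 (by linarith : (0 : ℝ) ≤ s + 1)
          linarith
        refine le_trans ?_ h1
        apply mul_le_mul_of_nonneg_left _ hκ0.le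
        have h2 : ((s + 1) * s * σ - P) * Z + (s + 1) * X ≤
            ((s + 1) * ((σ - 1) * Z + X + s * Z) - s * ((s + 1) - κ * (1 + σ)) * Z) +
              (s + 1) * s * (σ - 1) * Z := by
          rw [hP, hβ, hw]
          apply le_of_eq
          ring
        linarith
      have c1 : κ * ((s + 1) * s * σ - P) * Z ≤ (s + 1) * (β * (1 + s * β) - s * κ - κ) * X := by
        linarith
      -- bounds
      have k1 : β ^ 2 < κ * (1 + σ) := by
        have h1 : κ * ((s + 1) * σ + β) ≤ κ * ((s + 1) * (1 + σ)) := by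
          apply mul_le_mul_of_nonneg_left _ hκ0.le
          nlinarith
        have h2 : (s + 1) * β ^ 2 < (s + 1) * (κ * (1 + σ)) := by nlinarith
        exact lt_of_mul_lt_mul_left h2 (by linarith)
      have k2 : P < β := by rw [hP]; nlinarith
      have k3 : 0 < β * (1 + s * β) - s * κ - κ := by
        have : s * κ + κ ≤ s * κ * (1 + σ) := by
          have h1 : κ ≤ s * κ * σ := by
            have h2 : (1 : ℝ) ≤ s * σ := by nlinarith
            nlinarith
          nlinarith
        have h2 : P ≤ β * (1 + s * β) - s * κ - κ := by rw [hP]; linarith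
        linarith
      have c2 : κ * ((s + 1) * s * σ - P) * Z ≤ (β * (1 + s * β) - s * κ - κ) * (P * Z) := by
        refine c1.trans ?_
        calc (s + 1) * (β * (1 + s * β) - s * κ - κ) * X
            = (β * (1 + s * β) - s * κ - κ) * ((s + 1) * X) := by ring
          _ ≤ _ := mul_le_mul_of_nonneg_left b1 k3.le
      have c3 : κ * ((s + 1) * s * σ - P) ≤ (β * (1 + s * β) - s * κ - κ) * P := by
        have h1 : (κ * ((s + 1) * s * σ - P)) * Z ≤
            ((β * (1 + s * β) - s * κ - κ) * P) * Z := by linarith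
        exact le_of_mul_le_mul_right h1 hZ
      -- κ (s+1) s σ ≤ (β(1+sβ) - sκ) P < β (1+sβ) β
      have c4 : κ * ((s + 1) * s * σ) ≤ (β * (1 + s * β) - s * κ) * P := by nlinarith
      have c5 : (β * (1 + s * β) - s * κ) * P ≤ β * (1 + s * β) * β := by
        have h1 : (β * (1 + s * β) - s * κ) * P ≤ (β * (1 + s * β)) * P := by
          apply mul_le_mul_of_nonneg_right _ hP0.le
          nlinarith
        refine h1.trans ?_
        apply mul_le_mul_of_nonneg_left k2.le
        positivity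
      have c6 : κ * ((s + 1) * s * σ) ≤ (1 + s) * β ^ 2 := by
        refine c4.trans (c5.trans ?_)
        have h0 : 0 ≤ s * (1 - β) := mul_nonneg hs0.le (by linarith)
        nlinarith [mul_nonneg h0 (sq_nonneg β)]
      -- but κ s σ > β^2
      have c7 : κ * (s * σ) ≤ β ^ 2 := by
        have h1 : (s + 1) * (κ * (s * σ)) ≤ (s + 1) * β ^ 2 := by linarith
        exact le_of_mul_le_mul_left h1 (by linarith)
      -- κ ((s+1) σ + β) > (s+1) β²  ≥ (s+1) κ s σ
      have c8 : (s + 1) * (s * σ) < (s + 1) * σ + β := by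
        have h1 : κ * ((s + 1) * (s * σ)) < κ * ((s + 1) * σ + β) := by
          calc κ * ((s + 1) * (s * σ)) = (s + 1) * (κ * (s * σ)) := by ring
            _ ≤ (s + 1) * β ^ 2 := mul_le_mul_of_nonneg_left c7 (by linarith)
            _ < _ := hκ
        exact lt_of_mul_lt_mul_left h1 hκ0.le
      nlinarith
  -- all planes regular
  obtain ⟨p1, p2⟩ := hreg 0 (hnoirr 0)
  obtain ⟨q1, q2⟩ := hreg 1 (hnoirr 1)
  have e5 := h5 0
  rw [max_eq_left (hnoirr 0)] at e5
  have hx0 := hx 0
  have hx1 := hx 1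
  have hy0 := hxy 0
  have hy1 := hxy 1
  have hyx0 := hyx 0
  have hA00 := hA 0
  simp only [zero_add] at e5 hyx0
  set X := x 0
  set Y := y 0
  set Z := x 1
  set A0 := A 0
  set A1 := A 1
  set Y1 := y 1
  have hY0 : 0 < Y := by linarith
  -- (s+1) X ≤ β Y
  have g1 : (s + 1) * X < β * Y := by
    have h1 : (1 + s * β) * X < w * Y := by nlinarith
    have h2 : (s + 1) * ((1 + s * β) * X) < (1 + s * β) * (β * Y) := by
      calc (s + 1) * ((1 + s * β) * X) < (s + 1) * (w * Y) := mul_lt_mul_of_pos_left h1 (by linarith)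
        _ = ((s + 1) * w) * Y := by ring
        _ = _ := by rw [← hβ]; ring
    have h3' : (1 + s * β) * ((s + 1) * X) < (1 + s * β) * (β * Y) := by linarith
    exact lt_of_mul_lt_mul_left h3' hsb.le
  have g1' : (s + 1) * Z < β * Y1 := by
    have h1 : (1 + s * β) * Z < w * Y1 := by nlinarith
    have h2 : (s + 1) * ((1 + s * β) * Z) < (1 + s * β) * (β * Y1) := by
      calc (s + 1) * ((1 + s * β) * Z) < (s + 1) * (w * Y1) :=
            mul_lt_mul_of_pos_left h1 (by linarith)
        _ = ((s + 1) * w) * Y1 := by ring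
        _ = _ := by rw [← hβ]; ring
    have h3' : (1 + s * β) * ((s + 1) * Z) < (1 + s * β) * (β * Y1) := by linarith
    exact lt_of_mul_lt_mul_left h3' hsb.le
  -- (s+1) A0 ≤ (1-β) β Y
  have g2 : (s + 1) * A0 ≤ (1 - β) * (β * Y) := by
    have h1 : A0 ≤ (1 - β) * X := by linarith
    calc (s + 1) * A0 ≤ (s + 1) * ((1 - β) * X) := mul_le_mul_of_nonneg_left h1 (by linarith)
      _ = (1 - β) * ((s + 1) * X) := by ring
      _ ≤ _ := mul_le_mul_of_nonneg_left g1.le (by linarith)
  rcases e5 with e5 | e5 | e5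
  · -- σ Z ≤ A1 + s (Y + A0)
    have h1 : (σ - 1 + β) * Z < s * (Y + A0) := by nlinarith
    have h2 : (σ - 1 + β) * Y ≤ (σ - 1 + β) * Z :=
      mul_le_mul_of_nonneg_left hyx0 (by linarith)
    have h3' : (s + 1) * ((σ - 1 + β) * Y) < s * ((s + 1) * Y + (1 - β) * (β * Y)) := by
      calc (s + 1) * ((σ - 1 + β) * Y) < (s + 1) * (s * (Y + A0)) :=
            mul_lt_mul_of_pos_left (h2.trans_lt h1) (by linarith)
        _ = s * ((s + 1) * Y + (s + 1) * A0) := by ring
        _ ≤ _ := by
            apply mul_le_mul_of_nonneg_left _ hs0.le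
            linarith
    have h4' : ((s + 1) * (σ - 1 + β)) * Y < (s * ((s + 1) + (1 - β) * β)) * Y := by linarith
    have h5' := lt_of_mul_lt_mul_right h4' hY0.le
    -- equality contradiction
    have h6 : (s + 1) * (σ - 1 + β) = s * ((s + 1) + (1 - β) * β) := by
      have : σ = s + 1 - w := by rw [hw]; ring
      rw [this]
      linear_combination hβ
    linarith
  · -- (σ - 1) Z ≤ (s-1)(Y + A0)
    have h1 : (σ - 1) * Y ≤ (s - 1) * (Y + A0) := by
      have : (σ - 1) * Y ≤ (σ - 1) * Z := mul_le_mul_of_nonneg_left hyx0 (by linarith)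
      linarith
    have h2 : (s + 1) * ((σ - 1) * Y) ≤ (s - 1) * ((s + 1) * Y + (1 - β) * (β * Y)) := by
      calc (s + 1) * ((σ - 1) * Y) ≤ (s + 1) * ((s - 1) * (Y + A0)) :=
            mul_le_mul_of_nonneg_left h1 (by linarith)
        _ = (s - 1) * ((s + 1) * Y + (s + 1) * A0) := by ring
        _ ≤ _ := by
            apply mul_le_mul_of_nonneg_left _ (by linarith)
            linarith
    have h3' : ((s + 1) * (σ - 1)) * Y ≤ ((s - 1) * ((s + 1) + (1 - β) * β)) * Y := by linarith
    have h4' := le_of_mul_le_mul_right h3' hY0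
    -- multiply by (s-1): (σ-1)(s-1) = 1
    have h5' : (σ - 1) * (s - 1) = 1 := by linarith
    have h6 : (s + 1) ≤ (s - 1) ^ 2 * ((s + 1) + (1 - β) * β) := by
      have := mul_le_mul_of_nonneg_right h4' (by linarith : (0 : ℝ) ≤ s - 1)
      nlinarith
    -- 1-β ≤ 1 - w
    have h7 : (1 - β) * (s + 1 + s * β) = (s + 1) * (1 - w) := by linear_combination -hβ
    have h8 : 1 - β ≤ 1 - w := by
      by_contra hc
      push Not at hc
      have : (s + 1) * (1 - w) < (s + 1 + s * β) * (1 - β) := by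
        have h9 : 0 ≤ 1 - w := by linarith
        have h10 : 0 < 1 - β := lt_of_le_of_lt h9 hc
        nlinarith [mul_pos (mul_pos hs0 hβ0) h10]
      linarith
    have h9 : (1 - w) * (s - 1) = s * (2 - s) := by rw [hw]; linear_combination hσ
    have h10 : (s - 1) ^ 2 * ((1 - β) * β) ≤ (s - 1) * (s * (2 - s)) := by
      have h11 : (1 - β) * β ≤ 1 - w := by
        have : (1 - β) * β ≤ (1 - β) * 1 := mul_le_mul_of_nonneg_left hβ1 (by linarith)
        linarith
      calc (s - 1) ^ 2 * ((1 - β) * β) ≤ (s - 1) ^ 2 * (1 - w) :=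
            mul_le_mul_of_nonneg_left h11 (by positivity)
        _ = (s - 1) * ((1 - w) * (s - 1)) := by ring
        _ = _ := by rw [h9]
    have h12 : 0 < s * (2 - s) := by
      apply mul_pos hs0; linarith
    nlinarith
  · -- σ Y1 ≤ Z + s (Y + A0)
    have h1 : (s + 1) * Z < Y1 := by
      have : β * Y1 ≤ 1 * Y1 := mul_le_mul_of_nonneg_right hβ1 (by linarith)
      linarith
    have h2 : Y + A0 ≤ 2 * Z := by linarith
    have h3' : s * (Y + A0) ≤ s * (2 * Z) := mul_le_mul_of_nonneg_left h2 hs0.le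
    have h4' : 2 * Y1 ≤ σ * Y1 := mul_le_mul_of_nonneg_right hσ2.le (by linarith)
    linarith

theorem pf : ArithStm := by
  intro s β ρ hs1 hs2 hβ0 hβ1 hρ hβ hκ x y A hx hxy hyx hA0 hA h3 h4 h5
  have hs0 : 0 < s - 1 := by linarith
  have hρ0 : 0 < ρ := by linarith
  have hρ1 : 0 < ρ - 1 := by linarith
  set σ := s / (s - 1) with hσd
  have hσ : σ * (s - 1) = s := by rw [hσd]; field_simp
  have hσ2 : 2 < σ := by rw [hσd, lt_div_iff₀ hs0]; linarith
  set κ := (ρ - 1) / ρ with hκd
  have hκρ : κ * ρ = ρ - 1 := by rw [hκd]; field_simp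
  have hκ0 : 0 < κ := by rw [hκd]; positivity
  have hκ1 : κ < 1 := by rw [hκd, div_lt_one hρ0]; linarith
  refine core s β κ σ (s + 1 - σ) hs1 hs2 hβ0 hβ1 hκ0 hκ1 hσ hσ2 rfl ?_ ?_ x y A hx hxy hyx hA0 hA
    h3 ?_ h5
  · have h1 : (β * (1 + s * β)) * (s - 1) = ((s + 1) * (s + 1 - σ)) * (s - 1) := by
      rw [hβ]; linear_combination (s + 1) * hσ
    exact mul_right_cancel₀ hs0.ne' h1
  · have h1 : (ρ * (s - 1)) * ((s + 1) * β ^ 2) < (ρ * (s - 1)) * (κ * ((s + 1) * σ + β)) := by
      have e : (ρ * (s - 1)) * (κ * ((s + 1) * σ + β)) =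
          (ρ - 1) * ((s + 1) * s + (s - 1) * β) := by
        calc (ρ * (s - 1)) * (κ * ((s + 1) * σ + β))
            = (κ * ρ) * ((s + 1) * (σ * (s - 1)) + (s - 1) * β) := by ring
          _ = _ := by rw [hκρ, hσ]
      rw [e]
      calc (ρ * (s - 1)) * ((s + 1) * β ^ 2) = ρ * (s + 1) * (s - 1) * β ^ 2 := by ring
        _ < _ := hκ
    exact lt_of_mul_lt_mul_left h1 (by positivity)
  · intro i
    have e4 := mul_le_mul_of_nonneg_left (h4 i) hκ0.le
    refine e4.trans (le_of_eq ?_)
    rw [hκd]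
    field_simp
    ring

end Pool.Agent.W789.TH.A16
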