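import Mathlib
import Pool.Agent.W789.TH.Defs
import Pool.Agent.W789.TH.StmA

namespace Pool.Agent.W789.TH.A17

open Pool.Agent.W789.TH

/-- The logarithmic inequalities for one plane. -/
theorem plane {S : Sys} {m : Seq S} {ρ s : ℝ} (env : Env m ρ s)
    (j J : ℕ) (hjJ : j < J)
    (hA : (m.b (J + 1)) ^ (s / (s - 1)) * m.L J ≤ 1)
    (hA' : (m.b (J + 2)) ^ (s / (s - 1)) * m.L (J + 1) ≤ 1)
    (hI : 4 ≤ m.L (j + 1) * (m.b (j + 1) / (m.a (j + 1)) ^ ρ) ^ ((s + 1) / (ρ - 1)) *
      (m.b (j + 1)) ^ s)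
    (hD : 1 ≤ m.D (j + 1))
    (hIII : 4 * 4 ^ s * m.b (j + 1) ≤
      m.L (j + 1) * m.b (j + 2) * (m.D (j + 1) / m.b (j + 1)) ^ s)
    (hDel : m.L (j + 1) * m.b (j + 2) ≤ 4 * (m.b (J + 1) * m.L J))
    (hDJ : m.D J = m.D (j + 1))
    (hDup : m.D (j + 1) * m.b (J + 1) ≤
      2 * m.b (j + 2) * (m.a (j + 1) * m.b (J + 1) + m.b (j + 1) * m.a (J + 1)))
    (hS : 3 * 4 ^ s ≤ (m.D J) ^ s * ((m.a (J + 1) + m.b (J + 1) / m.D J) * m.L J +
      m.b (J + 1) * m.L (J + 1)))
    (x y z A B y' : ℝ) (hx : x = Real.log (m.b (j + 1))) (hy : y = Real.log (m.b (j + 2)))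
    (hz : z = Real.log (m.b (J + 1))) (hAd : A = Real.log (m.a (j + 1)))
    (hB : B = Real.log (m.a (J + 1))) (hy' : y' = Real.log (m.b (J + 2))) :
    (s / (s - 1) - 1) * z ≤ - x + s * (y + max A (x + B - z) - x) ∧
    y + (s / (s - 1) - 1) * z ≤ (s + 1) / (ρ - 1) * (x - ρ * A) + s * x ∧
    ((s / (s - 1)) * z ≤ B + s * (y + max A (x + B - z)) ∨
      (s / (s - 1)) * z ≤ z + (s - 1) * (y + max A (x + B - z)) ∨
      (s / (s - 1)) * y' ≤ z + s * (y + max A (x + B - z))) := by
  have hb : ∀ k, 0 < m.b k := fun k => by linarith [env.a1 k, env.ab k]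
  have ha : ∀ k, 0 < m.a k := fun k => by linarith [env.a1 k]
  have hL := env.Lpos
  have hs := env.hs
  have hρ := env.hρ
  set σ := s / (s - 1) with hσ
  have hσ0 : 0 < σ := by rw [hσ]; apply div_pos <;> linarith
  set D := m.D (j + 1) with hDd
  have hD0 : 0 < D := by linarith
  set dl := Real.log D with hdl
  have hdl0 : 0 ≤ dl := Real.log_nonneg hD
  set E := y + max A (x + B - z) with hE
  have h4 : (0 : ℝ) < 4 := by norm_num
  -- L3
  have l3 : σ * z + Real.log (m.L J) ≤ 0 := by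
    have h := Real.log_le_log (by have := hb (J + 1); have := hL J; positivity) hA
    rw [Real.log_mul (Real.rpow_pos_of_pos (hb _) _).ne' (hL J).ne',
      Real.log_rpow (hb _), Real.log_one, ← hz] at h
    exact h
  have l3' : σ * y' + Real.log (m.L (J + 1)) ≤ 0 := by
    have h := Real.log_le_log (by have := hb (J + 2); have := hL (J + 1); positivity) hA'
    rw [Real.log_mul (Real.rpow_pos_of_pos (hb _) _).ne' (hL (J + 1)).ne',
      Real.log_rpow (hb _), Real.log_one, ← hy'] at h
    exact h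
  -- L2
  have l2 : Real.log (m.L (j + 1)) + y ≤ Real.log 4 + z + Real.log (m.L J) := by
    have h := Real.log_le_log (mul_pos (hL (j + 1)) (hb (j + 2))) hDel
    rw [Real.log_mul (hL _).ne' (hb _).ne', Real.log_mul h4.ne'
      (mul_pos (hb _) (hL _)).ne', Real.log_mul (hb _).ne' (hL _).ne', ← hy, ← hz] at h
    linarith
  -- L1
  have l1 : Real.log 4 + s * Real.log 4 + x ≤ Real.log (m.L (j + 1)) + y + s * (dl - x) := by
    have h44 : (0 : ℝ) < 4 ^ s := Real.rpow_pos_of_pos h4 _
    have h := Real.log_le_log (by have := hb (j + 1); positivity) hIII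
    rw [Real.log_mul (by positivity) (hb _).ne', Real.log_mul h4.ne' h44.ne',
      Real.log_rpow h4, Real.log_mul (mul_pos (hL _) (hb _)).ne'
      (Real.rpow_pos_of_pos (div_pos hD0 (hb _)) _).ne',
      Real.log_mul (hL _).ne' (hb _).ne', Real.log_rpow (div_pos hD0 (hb _)),
      Real.log_div hD0.ne' (hb _).ne', ← hx, ← hy] at h
    exact h
  -- L4
  have l4 : dl ≤ Real.log 4 + E := by
    have h := Real.log_le_log (mul_pos hD0 (hb (J + 1))) hDup
    have hp1 : 0 < m.a (j + 1) * m.b (J + 1) := mul_pos (ha _) (hb _)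
    have hp2 : 0 < m.b (j + 1) * m.a (J + 1) := mul_pos (hb _) (ha _)
    rw [Real.log_mul hD0.ne' (hb _).ne', Real.log_mul (by have := hb (j + 2); positivity)
      (by positivity), Real.log_mul (by norm_num) (hb _).ne', ← hz, ← hy] at h
    have h2 : Real.log (m.a (j + 1) * m.b (J + 1) + m.b (j + 1) * m.a (J + 1)) ≤
        Real.log 2 + (z + max A (x + B - z)) := by
      rcases le_total (m.a (j + 1) * m.b (J + 1)) (m.b (j + 1) * m.a (J + 1)) with hle | hle
      · have h3 : Real.log (m.a (j + 1) * m.b (J + 1) + m.b (j + 1) * m.a (J + 1)) ≤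
            Real.log (2 * (m.b (j + 1) * m.a (J + 1))) :=
          Real.log_le_log (by positivity) (by linarith)
        rw [Real.log_mul (by norm_num) hp2.ne', Real.log_mul (hb _).ne' (ha _).ne', ← hx, ← hB]
          at h3
        have := le_max_right A (x + B - z)
        linarith
      · have h3 : Real.log (m.a (j + 1) * m.b (J + 1) + m.b (j + 1) * m.a (J + 1)) ≤
            Real.log (2 * (m.a (j + 1) * m.b (J + 1))) :=
          Real.log_le_log (by positivity) (by linarith)
        rw [Real.log_mul (by norm_num) hp1.ne', Real.log_mul (ha _).ne' (hb _).ne', ← hz, ← hAd]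
          at h3
        have := le_max_left A (x + B - z)
        linarith
    have h5 : Real.log 4 = Real.log 2 + Real.log 2 := by
      rw [← Real.log_mul (by norm_num) (by norm_num)]; norm_num
    rw [h5, hE]
    linarith
  have hs0 : 0 < s := by linarith
  have l4s : s * dl ≤ s * Real.log 4 + s * E := by
    have := mul_le_mul_of_nonneg_left l4 hs0.le
    linarith
  have l4s' : (s - 1) * dl ≤ (s - 1) * Real.log 4 + (s - 1) * E := by
    have := mul_le_mul_of_nonneg_left l4 (by linarith : (0 : ℝ) ≤ s - 1)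
    linarith
  have hlog4 : 0 < Real.log 4 := Real.log_pos (by norm_num)
  refine ⟨?_, ?_, ?_⟩
  · linarith
  · have hab : 0 < m.b (j + 1) / (m.a (j + 1)) ^ ρ :=
      div_pos (hb _) (Real.rpow_pos_of_pos (ha _) _)
    have h := Real.log_le_log h4 hI
    rw [Real.log_mul (mul_pos (hL _) (Real.rpow_pos_of_pos hab _)).ne'
      (Real.rpow_pos_of_pos (hb _) _).ne', Real.log_mul (hL _).ne'
      (Real.rpow_pos_of_pos hab _).ne', Real.log_rpow hab, Real.log_rpow (hb _),
      Real.log_div (hb _).ne' (Real.rpow_pos_of_pos (ha _) _).ne', Real.log_rpow (ha _),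
      ← hx, ← hAd] at h
    linarith
  · rw [hDJ] at hS
    have h44 : (0 : ℝ) < 4 ^ s := Real.rpow_pos_of_pos h4 _
    have hDs : 0 < D ^ s := Real.rpow_pos_of_pos hD0 _
    have e : D ^ s * ((m.a (J + 1) + m.b (J + 1) / D) * m.L J + m.b (J + 1) * m.L (J + 1)) =
        D ^ s * (m.a (J + 1) * m.L J) + D ^ s * (m.b (J + 1) / D * m.L J) +
          D ^ s * (m.b (J + 1) * m.L (J + 1)) := by ring
    rw [e] at hS
    have hcase : 4 ^ s ≤ D ^ s * (m.a (J + 1) * m.L J) ∨
        4 ^ s ≤ D ^ s * (m.b (J + 1) / D * m.L J) ∨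
        4 ^ s ≤ D ^ s * (m.b (J + 1) * m.L (J + 1)) := by
      by_contra hcon
      push Not at hcon
      obtain ⟨c1, c2, c3⟩ := hcon
      linarith
    rcases hcase with h | h | h
    · left
      have h' := Real.log_le_log h44 h
      rw [Real.log_mul hDs.ne' (mul_pos (ha _) (hL _)).ne', Real.log_mul (ha _).ne' (hL _).ne',
        Real.log_rpow h4, Real.log_rpow hD0, ← hB] at h'
      linarith
    · right; left
      have h' := Real.log_le_log h44 h
      rw [Real.log_mul hDs.ne' (mul_pos (div_pos (hb _) hD0) (hL _)).ne',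
        Real.log_mul (div_pos (hb _) hD0).ne' (hL _).ne', Real.log_div (hb _).ne' hD0.ne',
        Real.log_rpow h4, Real.log_rpow hD0, ← hz] at h'
      linarith
    · right; right
      have h' := Real.log_le_log h44 h
      rw [Real.log_mul hDs.ne' (mul_pos (hb _) (hL _)).ne', Real.log_mul (hb _).ne' (hL _).ne',
        Real.log_rpow h4, Real.log_rpow hD0, ← hz] at h'
      linarith

theorem pf (hRed : RedStm) (hEnv : EnvStm) (hInf : InfStm) (hA : AStm) (hI : IStm)
    (hDlow : DlowStm) (hIII : IIIStm) (hDel : DeltaStm) (hDup : DupStm) (hS : SStm)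
    (hAr : ArithStm) : LowStm := by
  intro s β ρ hs1 hs2 hβ0 hβ1 hρ hβ hκ
  by_contra hadm
  obtain ⟨S, hbad⟩ := hRed ρ s (by linarith) hadm
  obtain ⟨m, env⟩ := hEnv S ρ s hρ (by linarith) hs2 hbad
  obtain ⟨k1, h1⟩ := hA S m ρ s env 1 one_pos
  obtain ⟨k2, h2⟩ := hI S m ρ s env 4 (by norm_num)
  obtain ⟨k3, h3⟩ := hDlow S m ρ s env 1 one_pos
  obtain ⟨k4, h4⟩ := hIII S m ρ s env (4 * 4 ^ s) (by positivity)
  obtain ⟨k5, h5⟩ := hDel S m ρ s env
  obtain ⟨k6, h6⟩ := hDup S m ρ s env
  obtain ⟨k7, h7⟩ := hS S m ρ s env (3 * 4 ^ s) (by positivity)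
  set k0 := k1 + k2 + k3 + k4 + k5 + k6 + k7 with hk0
  -- the next new index
  have hnext : ∀ j, ∃ J, m.Cons j J ∧ m.New J := by
    intro j
    classical
    have hex : ∃ J, j < J ∧ m.New J := by
      obtain ⟨J, hJ1, hJ2⟩ := hInf S m ρ s env (j + 1)
      exact ⟨J, by omega, hJ2⟩
    refine ⟨Nat.find hex, ⟨(Nat.find_spec hex).1, ?_⟩, (Nat.find_spec hex).2⟩
    intro i hi1 hi2 hn
    exact Nat.find_min hex hi2 ⟨hi1, hn⟩
  choose nx hnx1 hnx2 using hnext
  obtain ⟨j0, hj0, hnew0⟩ := hInf S m ρ s env k0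
  let J : ℕ → ℕ := fun i => nx^[i] j0
  have hJs : ∀ i, J (i + 1) = nx (J i) := fun i => Function.iterate_succ_apply' nx i j0
  have hJnew : ∀ i, m.New (J i) := by
    intro i
    cases i with
    | zero => exact hnew0
    | succ i => rw [hJs]; exact hnx2 _
  have hJcons : ∀ i, m.Cons (J i) (J (i + 1)) := by
    intro i; rw [hJs]; exact hnx1 _
  have hJge : ∀ i, k0 ≤ J i := by
    intro i
    induction i with
    | zero => exact hj0
    | succ i ih => have := (hJcons i).1; omega
  have hb : ∀ k, 1 < m.b k := fun k => (env.a1 k).trans (env.ab k)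
  have hD1 : ∀ i, 1 ≤ m.D (J i + 1) := by
    intro i
    have h := h3 (J i) (by have := hJge i; omega) (hJnew i)
    rw [one_mul] at h
    refine le_trans ?_ h
    apply Real.one_le_rpow (hb _).le
    apply div_nonneg <;> linarith
  have key : ∀ i, _ := fun i =>
    plane env (J i) (J (i + 1)) (hJcons i).1
      (by have := h1 (J (i + 1)) (by have := hJge (i + 1); omega); rwa [one_mul] at this)
      (by have := h1 (J (i + 1) + 1) (by have := hJge (i + 1); omega); rwa [one_mul] at this)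
      (h2 (J i + 1) (by have := hJge i; omega)) (hD1 i)
      (h4 (J i) (by have := hJge i; omega) (hJnew i))
      (h5 (J i) (by have := hJge i; omega) (hJnew i) _ (hJcons i)).1
      (h5 (J i) (by have := hJge i; omega) (hJnew i) _ (hJcons i)).2
      (h6 (J i) (by have := hJge i; omega) (hJnew i) _ (hJcons i))
      (h7 (J (i + 1)) (by have := hJge (i + 1); omega)
        (by rw [(h5 (J i) (by have := hJge i; omega) (hJnew i) _ (hJcons i)).2]; exact hD1 i))
      _ _ _ _ _ _ rfl rfl rfl rfl rfl rfl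
  refine hAr s β ρ hs1 hs2 hβ0 hβ1 hρ hβ hκ (fun i => Real.log (m.b (J i + 1)))
    (fun i => Real.log (m.b (J i + 2))) (fun i => Real.log (m.a (J i + 1))) ?_ ?_ ?_ ?_ ?_
    (fun i => (key i).1) (fun i => (key i).2.1) (fun i => (key i).2.2)
  · intro i; exact Real.log_pos (hb _)
  · intro i
    exact Real.log_le_log (by linarith [hb (J i + 1)]) (env.bmono.monotone (by omega))
  · intro i
    refine Real.log_le_log (by linarith [hb (J i + 2)]) (env.bmono.monotone ?_)
    have := (hJcons i).1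
    omega
  · intro i; exact Real.log_nonneg (env.a1 _).le
  · intro i
    exact Real.log_lt_log (by linarith [env.a1 (J i + 1)]) (env.ab _)

end Pool.Agent.W789.TH.A17
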