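import Mathlib
import Pool.Agent.W789.TH.Defs

/-!
Definitions and statements for the upper bound (construction of badly approximable points outside
the domain).
-/

namespace Pool.Agent.W789.TH

open Finset

/-- The real number used at one stage. -/
noncomputable def alR (u v : ℤ) (D w : ℕ) (A : ℕ) : ℝ :=
  (u * (A + √2) + v) / (D * (A + √2) + w)

/-- The data of the construction: relation vectors `(a k, b k)`, rational points of denominator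
`(ρ k).den`. -/
structure Raw where
  a : ℕ → ℕ
  b : ℕ → ℕ
  A : ℕ → ℕ
  ρ : ℕ → ℚ
  ρ' : ℕ → ℚ
  a_pos : ∀ k, 0 < a k
  b_pos : ∀ k, 0 < b k
  cop : ∀ k, Nat.Coprime (a k) (b k)
  copa : ∀ k, Nat.Coprime (a k) (a (k + 1))
  wedge : ∀ k, a k * b (k + 1) = (ρ k).den + b k * a (k + 1)
  A_two : ∀ k, 2 ≤ A k
  int_b : ∀ k, ∃ z : ℤ, (b k : ℝ) * ρ k - b (k + 1) * ρ' k = z
  int_a : ∀ k, ∃ z : ℤ, (a k : ℝ) * ρ k - a (k + 1) * ρ' k = z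
  dist_up : ∀ k, |(ρ (k + 1) : ℝ) - ρ' k| ≤ 2 / (A k * ((ρ k).den : ℝ) ^ 2)
  dist_low : ∀ k, 1 / (8 * A k * ((ρ k).den : ℝ) ^ 2) ≤ |(ρ (k + 1) : ℝ) - ρ' k|
  lower : ∀ k, ∀ j : ℕ, 0 < j → ∀ p : ℤ,
      min (1 / (8 * (j : ℝ))) (1 / (4 * A k * (ρ k).den)) - j / ((ρ (k + 1)).den : ℝ) ^ 2
        ≤ |j * (ρ (k + 1) : ℝ) - p|

/-- Denominators. -/
def Raw.D (d : Raw) (k : ℕ) : ℕ := (d.ρ k).den

/-- The products `A D`. -/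
noncomputable def Raw.Q (d : Raw) (k : ℕ) : ℝ := (d.A k : ℝ) * d.D k

/-- Sizes on the logarithmic scale. -/
structure Raw.Sized (d : Raw) (lam al mu K : ℝ) : Prop where
  lb : ∀ k, |Real.log (d.b (k + 1)) - lam * Real.log (d.b k)| ≤ K
  la : ∀ k, |Real.log (d.a k) - al * Real.log (d.b k)| ≤ K
  lD : ∀ k, |Real.log (d.D k) - (lam + al) * Real.log (d.b k)| ≤ K
  lQ : ∀ k, |Real.log (d.Q k) - mu * Real.log (d.b k)| ≤ K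

/-- The growth conditions. -/
structure Raw.Grow (d : Raw) : Prop where
  g1 : ∀ k, 2 * (d.b (k + 2) : ℝ) * (d.Q k * d.D k) ≤ d.b (k + 1) * (d.Q (k + 1) * d.D (k + 1))
  g2 : ∀ k, 2 * (d.a (k + 2) : ℝ) * (d.Q k * d.D k) ≤ d.a (k + 1) * (d.Q (k + 1) * d.D (k + 1))
  g3 : ∀ k, (d.a k : ℝ) ≤ d.b k
  gb : ∀ k, 2 * (d.b k : ℝ) ≤ d.b (k + 1)
  g4 : ∀ k, 8 * (d.b (k + 2) : ℝ) * d.Q k ^ 2 ≤ d.Q (k + 1) * d.D (k + 1)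
  g5 : ∀ k, 64 * d.Q k ≤ d.D (k + 1)
  g6 : ∀ k, 2 * (d.b (k + 2) : ℝ) * d.Q k ≤ d.Q (k + 1)
  g7 : ∀ k, (d.b k : ℝ) ^ 2 < d.D k
  g8 : ∀ k, 16 * (d.b (k + 1) : ℝ) ^ 2 ≤ d.Q k

/-- Finite sums attached to a coefficient sequence. -/
noncomputable def Raw.Tc (d : Raw) (c : ℕ → ℕ) : ℕ → ℝ
  | 0 => c 0 * (d.ρ 0 : ℝ)
  | k + 1 => Raw.Tc d c k + c (k + 1) * ((d.ρ (k + 1) : ℝ) - d.ρ' k)

/-- Error scale for a coefficient sequence. -/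
noncomputable def Raw.Ec (d : Raw) (c : ℕ → ℕ) (k : ℕ) : ℝ := 2 * c (k + 1) / (d.Q k * d.D k)

/-- The limit point. -/
structure Lim (d : Raw) where
  θa : ℝ
  θb : ℝ
  ha : ∀ k, |θa - d.Tc d.a k| ≤ 2 * d.Ec d.a k
  hb : ∀ k, |θb - d.Tc d.b k| ≤ 2 * d.Ec d.b k

/-- The linear form. -/
noncomputable def Lim.Lf {d : Raw} (t : Lim d) (x y : ℤ) : ℝ := -t.θb * x + t.θa * y

/-- The wedge with the relation vector. -/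
def Raw.jz (d : Raw) (k : ℕ) (x y : ℤ) : ℤ := d.a k * y - d.b k * x

/-- The norm adapted to the relation. -/
noncomputable def Raw.Jn (d : Raw) (k : ℕ) (x y : ℤ) : ℝ :=
  d.b k * |(x : ℝ)| + d.a k * |(y : ℝ)|

/-- Size of an integer vector. -/
noncomputable def tt (x y : ℤ) : ℝ := max |(x : ℝ)| |(y : ℝ)|

/-- The domain: the image of `Φ₀(ρ, 0)` under the homothety of ratio `1/2`, on integer points. -/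
def Dom (ρ : ℝ) (x y : ℤ) : Prop := x = 0 ∨ 2 * |(y : ℝ)| ≤ (2 * |(x : ℝ)|) ^ ρ

/-- The conditions on the exponents. -/
structure Con (s ρ lam al mu : ℝ) : Prop where
  s1 : 1 < s
  ρ1 : 1 < ρ
  al0 : 0 < al
  al1 : al < 1
  lam2 : 2 < lam
  c1 : lam * s < mu * (s - 1)
  c2 : s < (s - 1) * (lam + al)
  c3 : mu < lam * (lam + al)
  c6 : mu * (ρ - 1) < (s + 1) * (1 - al * ρ) + s * (ρ - 1)
  c8 : mu < (lam - 1) * (s + 1) + s * al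
  c9 : mu < s * (al + lam) + lam * al
  c10 : mu * ρ + al * ρ < lam * (s * ρ + 1)
  c11 : mu * (ρ - 1) < lam * (s * ρ * (1 - al))
  c12 : al * ρ < 1
  c13 : lam + al < mu
  c14 : 2 * lam < mu
  c15 : lam ^ 2 + mu < lam * mu

/-- Invariants of one stage. -/
structure Good (lam al : ℝ) (a b : ℕ) (ρ : ℚ) : Prop where
  a_pos : 0 < a
  b_pos : 0 < b
  cop : Nat.Coprime a b
  copD : Nat.Coprime a ρ.den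
  a_lo : (b : ℝ) ^ al ≤ 2 * a
  a_up : (a : ℝ) ≤ 6 * (b : ℝ) ^ al
  d_lo : (a : ℝ) * (b : ℝ) ^ lam ≤ ρ.den
  d_up : (ρ.den : ℝ) ≤ 64 * a * (b : ℝ) ^ lam

/-- Relation between consecutive stages. -/
structure Nxt (lam mu : ℝ) (a b : ℕ) (ρ : ℚ) (a' b' : ℕ) (ρn : ℚ) (A : ℕ) (ρ' : ℚ) : Prop where
  wedge : a * b' = ρ.den + b * a'
  A_two : 2 ≤ A
  int_b : ∃ z : ℤ, (b : ℝ) * ρ - b' * ρ' = z
  int_a : ∃ z : ℤ, (a : ℝ) * ρ - a' * ρ' = z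
  dist_up : |(ρn : ℝ) - ρ'| ≤ 2 / (A * (ρ.den : ℝ) ^ 2)
  dist_low : 1 / (8 * A * (ρ.den : ℝ) ^ 2) ≤ |(ρn : ℝ) - ρ'|
  lower : ∀ j : ℕ, 0 < j → ∀ p : ℤ,
      min (1 / (8 * (j : ℝ))) (1 / (4 * A * ρ.den)) - j / (ρn.den : ℝ) ^ 2 ≤ |j * (ρn : ℝ) - p|
  b_lo : (b : ℝ) ^ lam ≤ b'
  b_up : (b' : ℝ) ≤ 128 * (b : ℝ) ^ lam
  q_lo : (b : ℝ) ^ mu ≤ A * ρ.den
  q_up : (A : ℝ) * ρ.den ≤ 4 * (b : ℝ) ^ mu

/-! ### Statements -/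

def PellStm : Prop := ∀ X : ℕ, 2 ≤ X → ∃ p q : ℕ, X ≤ q ∧ q ≤ 3 * X ∧ Nat.Coprime p q ∧ q ≤ p ∧
  p ≤ 2 * q ∧ |√2 - (p : ℝ) / q| ≤ 1 / (2 * (q : ℝ) ^ 2)

def SieveStm : Prop := ∀ (m c e I : ℕ), 0 < m →
  (∀ g : ℕ, g.Prime → g ∣ m → g ∣ e → ¬ g ∣ c) → 2 * 4 ^ m.primeFactors.card < I →
  ∃ i : ℕ, i ≤ I ∧ Nat.Coprime (c + i * e) m

/-- One stage of the approximation with a coprimality condition on the denominator. -/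
def StepStm : Prop := ∀ (ρ : ℚ) (A0 I Y m : ℕ), 4 ≤ A0 → I ≤ A0 → 0 < m →
  Nat.Coprime m ρ.den → 2 * 4 ^ m.primeFactors.card < I → 2 * (A0 * ρ.den) ≤ Y →
  ∃ (A : ℕ) (ρ' : ℚ), A0 ≤ A ∧ A ≤ 2 * A0 ∧ Nat.Coprime m ρ'.den ∧ Y ≤ ρ'.den ∧
    ρ'.den ≤ 32 * Y ∧
    |(ρ' : ℝ) - ρ| ≤ 2 / (A * (ρ.den : ℝ) ^ 2) ∧
    1 / (8 * A * (ρ.den : ℝ) ^ 2) ≤ |(ρ' : ℝ) - ρ| ∧
    ∀ j : ℕ, 0 < j → ∀ p : ℤ,
      min (1 / (8 * (j : ℝ))) (1 / (4 * A * ρ.den)) - j / (ρ'.den : ℝ) ^ 2 ≤ |j * (ρ' : ℝ) - p|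

/-- The next relation vector. -/
def RelStm : Prop := ∀ (a b D : ℕ), 0 < a → 0 < b → Nat.Coprime a b → 0 < D → Nat.Coprime a D →
  ∀ V : ℕ, (4 : ℝ) ^ D.primeFactors.card < 2 * V → ∀ u : ℤ, IsCoprime u (D : ℤ) →
  ∃ (a' b' : ℕ) (u' : ℤ), 0 < a' ∧ 0 < b' ∧ Nat.Coprime a' b' ∧ Nat.Coprime a' D ∧
      a * b' = D + b * a' ∧
      a * V ≤ a' ∧ a' ≤ 3 * a * V ∧ IsCoprime u' (D : ℤ) ∧
      (D : ℤ) ∣ b * u - b' * u' ∧ (D : ℤ) ∣ a * u - a' * u'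

/-- Number of prime factors. -/
def OmegaStm : Prop := ∀ γ : ℝ, 0 < γ → ∃ C : ℝ, 1 ≤ C ∧ ∀ D : ℕ, 0 < D →
  (4 : ℝ) ^ D.primeFactors.card ≤ C * (D : ℝ) ^ γ

/-- Size estimates for one stage. -/
def NsizeStm : Prop := ∀ lam al mu : ℝ, 0 < al → al < 1 → 2 < lam → lam + al < mu →
  mu < lam * (lam + al) → ∃ γ : ℝ, 0 < γ ∧ ∀ C : ℝ, 1 ≤ C → ∃ B0 : ℝ, 1 < B0 ∧
  ∀ a b D : ℝ, B0 ≤ b → 0 < a → b ^ al ≤ 2 * a → a ≤ 6 * b ^ al → a * b ^ lam ≤ D →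
    D ≤ 64 * a * b ^ lam →
    1 ≤ (D / a) ^ al / a ∧ C * D ^ γ < 2 * ((D / a) ^ al / a) ∧ 6 * b * (D / a) ^ al ≤ D ∧
    4 ≤ b ^ mu / D ∧ 2 * (C * (6 * (D / a) ^ al) ^ γ) < b ^ mu / D ∧
    4 * b ^ mu ≤ (D / a) ^ al * (D / a) ^ lam

def NextStm : Prop := ∀ lam al mu : ℝ, 0 < al → al < 1 → 2 < lam → lam + al < mu →
  mu < lam * (lam + al) → ∃ B0 : ℝ, 1 < B0 ∧ ∀ (a b : ℕ) (ρ : ℚ), Good lam al a b ρ →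
  B0 ≤ b → ∃ (a' b' : ℕ) (ρn : ℚ) (A : ℕ) (ρ' : ℚ), Good lam al a' b' ρn ∧
    Nxt lam mu a b ρ a' b' ρn A ρ'

def InitStm : Prop := ∀ lam al : ℝ, 0 < al → al < 1 → 2 < lam → ∀ B : ℝ,
  ∃ (a b : ℕ) (ρ : ℚ), Good lam al a b ρ ∧ B ≤ b

def RawStm : Prop := ∀ lam al mu : ℝ, 0 < al → al < 1 → 2 < lam → lam + al < mu →
  mu < lam * (lam + al) → ∃ K : ℝ, ∀ X0 : ℝ, ∃ d : Raw, d.Sized lam al mu K ∧
    ∀ k, X0 ≤ Real.log (d.b k)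

def GrowStm : Prop := ∀ s ρ lam al mu K : ℝ, Con s ρ lam al mu → ∃ X0 : ℝ, ∀ d : Raw,
  d.Sized lam al mu K → (∀ k, X0 ≤ Real.log (d.b k)) → d.Grow

def LimStm : Prop := ∀ d : Raw, d.Grow → Nonempty (Lim d)

/-- Lower bound on the lattice of level `k`. -/
def LatStm : Prop := ∀ (d : Raw) (t : Lim d), d.Grow → ∀ (k : ℕ) (u v : ℤ), u ≠ 0 →
  d.Jn (k + 1) (u * d.a k + v * d.a (k + 1)) (u * d.b k + v * d.b (k + 1)) ≤ d.Q k / 16 →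
  ∀ p : ℤ, |(u : ℝ)| / (16 * d.Q k) ≤
    |t.Lf (u * d.a k + v * d.a (k + 1)) (u * d.b k + v * d.b (k + 1)) - p|

/-- Lower bound off the lattice. -/
def GenStm : Prop := ∀ (d : Raw) (t : Lim d), d.Grow → ∀ (l : ℕ) (x y : ℤ),
  d.Jn (l + 2) x y ≤ d.Q (l + 1) / 16 →
  ¬ ((d.ρ (l + 1)).den : ℤ) ∣ d.jz (l + 1) x y → ∀ p : ℤ,
  ((d.D (l + 1) : ℝ) ≤ 16 * |(d.jz (l + 1) x y : ℝ)| ∧
      1 / (2 * (d.D (l + 1) : ℝ)) ≤ |t.Lf x y - p|) ∨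
  (1 ≤ |(d.jz (l + 1) x y : ℝ)| ∧
      min (1 / (8 * |(d.jz (l + 1) x y : ℝ)|)) (1 / (4 * d.Q l)) / 2 ≤ |t.Lf x y - p|)

def IndepStm : Prop := ∀ (d : Raw) (t : Lim d), d.Grow →
  LinearIndependent ℤ ![(1 : ℝ), -t.θb, t.θa]

def DecStm : Prop := ∀ (d : Raw) (k : ℕ) (x y : ℤ), ((d.ρ k).den : ℤ) ∣ d.jz k x y →
  ∃ u v : ℤ, x = u * d.a k + v * d.a (k + 1) ∧ y = u * d.b k + v * d.b (k + 1)

def LevStm : Prop := ∀ (d : Raw), d.Grow → ∀ (l0 : ℕ),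
  {x : ℤ × ℤ | d.Jn (l0 + 1) x.1 x.2 ≤ d.Q l0 / 16}.Finite ∧
  ∀ x y : ℤ, d.Q l0 / 16 < d.Jn (l0 + 1) x y →
    ∃ l, l0 ≤ l ∧ d.Q l / 16 ≤ d.Jn (l + 1) x y ∧ d.Jn (l + 2) x y ≤ d.Q (l + 1) / 16

/-- Multiples of one relation vector. -/
def MultStm : Prop := ∀ s ρ lam al mu K : ℝ, Con s ρ lam al mu → ∃ X0 ε : ℝ, 0 < ε ∧
  ∀ d : Raw, d.Sized lam al mu K → (∀ k, X0 ≤ Real.log (d.b k)) →
  ∀ (k : ℕ) (u : ℤ), u ≠ 0 → Dom ρ (u * d.a k) (u * d.b k) →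
    (d.b k : ℝ) ^ ε ≤ tt (u * d.a k) (u * d.b k) ^ s * (|(u : ℝ)| / (16 * d.Q k))

/-- Combinations of two relation vectors, when the second coordinate cancels. -/
def MixAStm : Prop := ∀ s ρ lam al mu K : ℝ, Con s ρ lam al mu → ∃ X0 ε : ℝ, 0 < ε ∧
  ∀ d : Raw, d.Sized lam al mu K → (∀ k, X0 ≤ Real.log (d.b k)) →
  ∀ (k : ℕ) (u v : ℤ), u ≠ 0 → v ≠ 0 →
    2 * |((u * d.b k + v * d.b (k + 1) : ℤ) : ℝ)| < |(v : ℝ)| * d.b (k + 1) →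
    (d.b k : ℝ) ^ ε ≤
      tt (u * d.a k + v * d.a (k + 1)) (u * d.b k + v * d.b (k + 1)) ^ s *
        (|(u : ℝ)| / (16 * d.Q k))

/-- Combinations of two relation vectors, in the strip. -/
def MixBStm : Prop := ∀ s ρ lam al mu K : ℝ, Con s ρ lam al mu → ∃ X0 ε : ℝ, 0 < ε ∧
  ∀ d : Raw, d.Sized lam al mu K → (∀ k, X0 ≤ Real.log (d.b k)) →
  ∀ (k : ℕ) (u v : ℤ), u ≠ 0 → v ≠ 0 →
    |(v : ℝ)| * d.b (k + 1) ≤ 2 * |((u * d.b k + v * d.b (k + 1) : ℤ) : ℝ)| →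
    u * d.a k + v * d.a (k + 1) = 0 →
    (d.b k : ℝ) ^ ε ≤
      tt (u * d.a k + v * d.a (k + 1)) (u * d.b k + v * d.b (k + 1)) ^ s *
        (|(u : ℝ)| / (16 * d.Q k))

/-- Combinations of two relation vectors, in the main part of the domain. -/
def MixCStm : Prop := ∀ s ρ lam al mu K : ℝ, Con s ρ lam al mu → ∃ X0 ε : ℝ, 0 < ε ∧
  ∀ d : Raw, d.Sized lam al mu K → (∀ k, X0 ≤ Real.log (d.b k)) →
  ∀ (k : ℕ) (u v : ℤ), u ≠ 0 → v ≠ 0 →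
    |(v : ℝ)| * d.b (k + 1) ≤ 2 * |((u * d.b k + v * d.b (k + 1) : ℤ) : ℝ)| →
    2 * |((u * d.b k + v * d.b (k + 1) : ℤ) : ℝ)| ≤
      (2 * |((u * d.a k + v * d.a (k + 1) : ℤ) : ℝ)|) ^ ρ →
    (d.b k : ℝ) ^ ε ≤
      tt (u * d.a k + v * d.a (k + 1)) (u * d.b k + v * d.b (k + 1)) ^ s *
        (|(u : ℝ)| / (16 * d.Q k))

/-- Combinations of two relation vectors. -/
def MixStm : Prop := ∀ s ρ lam al mu K : ℝ, Con s ρ lam al mu → ∃ X0 ε : ℝ, 0 < ε ∧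
  ∀ d : Raw, d.Sized lam al mu K → (∀ k, X0 ≤ Real.log (d.b k)) →
  ∀ (k : ℕ) (u v : ℤ), u ≠ 0 → v ≠ 0 →
    Dom ρ (u * d.a k + v * d.a (k + 1)) (u * d.b k + v * d.b (k + 1)) →
    (d.b k : ℝ) ^ ε ≤
      tt (u * d.a k + v * d.a (k + 1)) (u * d.b k + v * d.b (k + 1)) ^ s *
        (|(u : ℝ)| / (16 * d.Q k))

/-- Sizes in the generic case. -/
def GsizeStm : Prop := ∀ s ρ lam al mu K : ℝ, Con s ρ lam al mu → ∃ X0 ε : ℝ, 0 < ε ∧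
  ∀ d : Raw, d.Sized lam al mu K → (∀ k, X0 ≤ Real.log (d.b k)) →
  ∀ (l : ℕ) (t j : ℝ), 1 ≤ j → j ≤ 2 * d.b (l + 1) * t → d.Q l ≤ 32 * d.b (l + 1) * t →
    ((d.D (l + 1) : ℝ) ≤ 16 * j → (d.b l : ℝ) ^ ε ≤ t ^ s * (1 / (2 * (d.D (l + 1) : ℝ)))) ∧
    (d.b l : ℝ) ^ ε ≤ t ^ s * (min (1 / (8 * j)) (1 / (4 * d.Q l)) / 2)

/-- The estimate at one level. -/
def LevelStm : Prop := ∀ s ρ lam al mu K : ℝ, Con s ρ lam al mu → ∃ X0 ε : ℝ, 0 < ε ∧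
  ∀ (d : Raw) (t : Lim d), d.Grow → d.Sized lam al mu K → (∀ k, X0 ≤ Real.log (d.b k)) →
  ∀ (l : ℕ) (x y : ℤ), d.Q l / 16 ≤ d.Jn (l + 1) x y → d.Jn (l + 2) x y ≤ d.Q (l + 1) / 16 →
    Dom ρ x y → ∀ p : ℤ, (d.b l : ℝ) ^ ε ≤ tt x y ^ s * |t.Lf x y - p|

/-- The upper bound, from the conditions on the exponents. -/
def UpConStm : Prop := ∀ s ρ lam al mu : ℝ, Con s ρ lam al mu → ¬ Admits ρ 0 s

/-- Choice of the exponents. -/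
def ParStm : Prop := ∀ (s β ρ : ℝ), 3 / 2 < s → s < 2 → 0 < β → β ≤ 1 → 1 < ρ →
  β * (1 + s * β) * (s - 1) = (s + 1) * (s ^ 2 - s - 1) →
  (ρ - 1) * ((s + 1) * s + (s - 1) * β) < ρ * (s + 1) * (s - 1) * β ^ 2 →
  ∃ lam al mu : ℝ, Con s ρ lam al mu

/-- A cubic example: no exponent above `2`. -/
def CubicStm : Prop := ∀ ρ s : ℝ, 1 < ρ → 2 < s → ¬ Admits ρ 0 s

/-- Monotonicity. -/
def MonoStm : Prop := ∀ ρ s s' : ℝ, 0 < s' → s' ≤ s → Admits ρ 0 s → Admits ρ 0 s'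

/-- The equation between `s` and `β`. -/
def BEq (s β : ℝ) : Prop := (1 + √5) / 2 < s ∧ s ≤ 2 ∧ 0 < β ∧ β ≤ 1 ∧
  β * (1 + s * β) * (s - 1) = (s + 1) * (s ^ 2 - s - 1)

def BetaStm : Prop := ∀ s : ℝ, (1 + √5) / 2 < s → s ≤ 2 → ∃ β : ℝ, BEq s β

def KapStm : Prop := ∀ s β s' β' : ℝ, BEq s β → BEq s' β' → s < s' → β < β' ∧
  ((s + 1) * (s - 1) * β ^ 2) * ((s' + 1) * s' + (s' - 1) * β') <
    ((s' + 1) * (s' - 1) * β' ^ 2) * ((s + 1) * s + (s - 1) * β)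

def ExStm : Prop := ∀ ρ : ℝ, 1 < ρ → ρ ≤ 7 / 4 → ∃ s β : ℝ, Val ρ s β

/-- Comparison with the largest root of the cubic. -/
def CmpStm : Prop := ∀ ρ s β : ℝ, 1 < ρ → ρ < 7 / 4 → Val ρ s β → s < 2 ∧
  ∀ x : ℝ, s ≤ x → 0 < ρ * x ^ 3 - 2 * (ρ - 1) * x ^ 2 - 2 * ρ * x - 1

end Pool.Agent.W789.TH
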