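import Mathlib
import Pool.Agent.W789.TH.Defs
import Pool.Agent.W789.TH.DefsB

namespace Pool.Agent.W789.TH.B01

open Pool.Agent.W789.TH

def Inv (p q : ℕ) : Prop :=
  ((p : ℤ) ^ 2 - 2 * (q : ℤ) ^ 2 = 1 ∨ (p : ℤ) ^ 2 - 2 * (q : ℤ) ^ 2 = -1) ∧ q ≤ p ∧
    p ≤ 2 * q ∧ 1 ≤ q

theorem inv_next {p q : ℕ} (h : Inv p q) : Inv (p + 2 * q) (p + q) := by
  obtain ⟨h1, h2, h3, h4⟩ := h
  refine ⟨?_, by omega, by omega, by omega⟩
  push_cast
  rcases h1 with h1 | h1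
  · right
    linarith
  · left
    linarith

theorem ex (X : ℕ) (hX : 1 ≤ X) : ∃ p q : ℕ, Inv p q ∧ X ≤ q ∧ q ≤ 3 * X := by
  induction X, hX using Nat.le_induction with
  | base =>
    refine ⟨1, 1, ⟨Or.inr (by norm_num), by norm_num, by norm_num, by norm_num⟩, by norm_num,
      by norm_num⟩
  | succ X hX ih =>
    obtain ⟨p, q, h, h1, h2⟩ := ih
    by_cases hq : X + 1 ≤ q
    · exact ⟨p, q, h, hq, by omega⟩
    · refine ⟨p + 2 * q, p + q, inv_next h, ?_, ?_⟩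
      · have := h.2.1
        omega
      · have := h.2.2.1
        omega

theorem cop {p q : ℕ} (h : Inv p q) : Nat.Coprime p q := by
  obtain ⟨h1, -, -, -⟩ := h
  have : IsCoprime (p : ℤ) (q : ℤ) := by
    rcases h1 with h1 | h1
    · exact ⟨p, -2 * q, by linarith⟩
    · exact ⟨-p, 2 * q, by linarith⟩
  exact Nat.isCoprime_iff_coprime.mp this

theorem pf : PellStm := by
  intro X hX
  obtain ⟨p, q, h, h1, h2⟩ := ex X (by omega)
  refine ⟨p, q, h1, h2, cop h, h.2.1, h.2.2.1, ?_⟩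
  obtain ⟨h3, h4, h5, h6⟩ := h
  have hq : (0 : ℝ) < q := by exact_mod_cast h6
  have hpq : (1 : ℝ) ≤ (p : ℝ) / q := by
    rw [le_div_iff₀ hq, one_mul]
    exact_mod_cast h4
  have hs : (1 : ℝ) ≤ √2 := by
    rw [Real.one_le_sqrt]
    norm_num
  have hs2 : √2 * √2 = 2 := Real.mul_self_sqrt (by norm_num)
  have hprod : (√2 - (p : ℝ) / q) * (√2 + (p : ℝ) / q) = -(((p : ℝ) ^ 2 - 2 * (q : ℝ) ^ 2) / (q : ℝ) ^ 2) := by
    have : (√2 - (p : ℝ) / q) * (√2 + (p : ℝ) / q) = √2 * √2 - (p : ℝ) ^ 2 / (q : ℝ) ^ 2 := by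
      field_simp
      ring
    rw [this, hs2]
    field_simp
    ring
  have habs : |(√2 - (p : ℝ) / q)| * (√2 + (p : ℝ) / q) = 1 / (q : ℝ) ^ 2 := by
    have hpos : 0 ≤ √2 + (p : ℝ) / q := by linarith
    rw [← abs_of_nonneg hpos, ← abs_mul, hprod, abs_neg, abs_div]
    congr 1
    · have : |((p : ℤ) ^ 2 - 2 * (q : ℤ) ^ 2)| = 1 := by
        rcases h3 with h3 | h3 <;> rw [h3] <;> norm_num
      exact_mod_cast this
    · exact abs_of_pos (by positivity)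
  have h7 : |(√2 - (p : ℝ) / q)| * 2 ≤ 1 / (q : ℝ) ^ 2 := by
    rw [← habs]
    apply mul_le_mul_of_nonneg_left _ (abs_nonneg _)
    linarith
  have h8 : 1 / (2 * (q : ℝ) ^ 2) = 1 / (q : ℝ) ^ 2 / 2 := by
    field_simp
  rw [h8]
  linarith

end Pool.Agent.W789.TH.B01
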