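import Mathlib
import Pool.Agent.W789.TH.Defs
import Pool.Agent.W789.TH.DefsB

/-! # TH-B02: sieve in an arithmetic progression -/

namespace Pool.Agent.W789.TH.B02

open Pool.Agent.W789.TH
open Finset

theorem card_Ioc_floor (x L : ℝ) (hL : 0 ≤ L) :
    |((Finset.Ioc ⌊x⌋ ⌊x + L⌋).card : ℝ) - L| ≤ 1 := by
  have h : ⌊x⌋ ≤ ⌊x + L⌋ := Int.floor_le_floor (by linarith)
  rw [Int.card_Ioc]
  have h2 : (((⌊x + L⌋ - ⌊x⌋).toNat : ℕ) : ℝ) = (⌊x + L⌋ : ℝ) - ⌊x⌋ := by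
    have : (((⌊x + L⌋ - ⌊x⌋).toNat : ℤ)) = ⌊x + L⌋ - ⌊x⌋ := Int.toNat_of_nonneg (by omega)
    exact_mod_cast congrArg (fun z : ℤ => (z : ℝ)) this
  rw [h2, abs_le]
  have h3 := Int.floor_le x
  have h4 := Int.lt_floor_add_one x
  have h5 := Int.floor_le (x + L)
  have h6 := Int.lt_floor_add_one (x + L)
  constructor <;> linarith

theorem count_coprime (S : Finset ℕ) (hS : ∀ p ∈ S, p.Prime) :
    ∀ x L : ℝ, 0 ≤ L →
      |(((Finset.Ioc ⌊x⌋ ⌊x + L⌋).filter (fun n : ℤ => ∀ p ∈ S, ¬ (p : ℤ) ∣ n)).card : ℝ)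
        - L * ∏ p ∈ S, (1 - 1 / (p : ℝ))| ≤ 2 ^ S.card := by
  induction S using Finset.induction_on with
  | empty =>
    intro x L hL
    simpa using card_Ioc_floor x L hL
  | insert p S hp ih =>
    intro x L hL
    have hS' : ∀ q ∈ S, q.Prime := fun q hq => hS q (mem_insert_of_mem hq)
    have hpp : p.Prime := hS p (mem_insert_self p S)
    have hp0 : (0 : ℝ) < p := by exact_mod_cast hpp.pos
    have h1 := ih hS' x L hL
    have h2 := ih hS' (x / p) (L / p) (by positivity)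
    have hsplit : (Finset.Ioc ⌊x⌋ ⌊x + L⌋).filter (fun n : ℤ => ∀ q ∈ S, ¬ (q : ℤ) ∣ n)
        = (Finset.Ioc ⌊x⌋ ⌊x + L⌋).filter (fun n : ℤ => ∀ q ∈ insert p S, ¬ (q : ℤ) ∣ n) ∪
          ((Finset.Ioc ⌊x / p⌋ ⌊x / p + L / p⌋).filter (fun n : ℤ => ∀ q ∈ S, ¬ (q : ℤ) ∣ n)).image
            (fun m : ℤ => (p : ℤ) * m) := by
      ext n
      simp only [mem_union, mem_filter, mem_image, mem_Ioc, mem_insert, forall_eq_or_imp]
      have key : ∀ m : ℤ, (⌊x⌋ < (p : ℤ) * m ∧ (p : ℤ) * m ≤ ⌊x + L⌋) ↔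
          (⌊x / p⌋ < m ∧ m ≤ ⌊x / p + L / p⌋) := by
        intro m
        rw [Int.floor_lt, Int.le_floor, Int.floor_lt, Int.le_floor, ← add_div, div_lt_iff₀ hp0,
          le_div_iff₀ hp0]
        push_cast
        rw [mul_comm (p : ℝ) (m : ℝ)]
      have key2 : ∀ m : ℤ, (∀ q ∈ S, ¬ (q : ℤ) ∣ (p : ℤ) * m) ↔ (∀ q ∈ S, ¬ (q : ℤ) ∣ m) := by
        intro m
        constructor
        · intro h q hq hd
          exact h q hq (hd.mul_left _)
        · intro h q hq hd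
          have hq' : Prime (q : ℤ) := Nat.prime_iff_prime_int.1 (hS' q hq)
          rcases hq'.dvd_or_dvd hd with h3 | h3
          · have : q ∣ p := by exact_mod_cast h3
            rw [(Nat.prime_dvd_prime_iff_eq (hS' q hq) hpp).1 this] at hq
            exact hp hq
          · exact h q hq h3
      constructor
      · rintro ⟨hn, hq⟩
        by_cases hd : (p : ℤ) ∣ n
        · right
          obtain ⟨m, rfl⟩ := hd
          exact ⟨m, ⟨(key m).1 hn, (key2 m).1 hq⟩, rfl⟩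
        · left
          exact ⟨hn, hd, hq⟩
      · rintro (⟨hn, hd, hq⟩ | ⟨m, ⟨hm, hq⟩, rfl⟩)
        · exact ⟨hn, hq⟩
        · exact ⟨(key m).2 hm, (key2 m).2 hq⟩
    have hdisj : Disjoint
        ((Finset.Ioc ⌊x⌋ ⌊x + L⌋).filter (fun n : ℤ => ∀ q ∈ insert p S, ¬ (q : ℤ) ∣ n))
        (((Finset.Ioc ⌊x / p⌋ ⌊x / p + L / p⌋).filter (fun n : ℤ => ∀ q ∈ S, ¬ (q : ℤ) ∣ n)).image
            (fun m : ℤ => (p : ℤ) * m)) := by
      rw [Finset.disjoint_left]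
      intro n hn hn2
      rw [mem_filter] at hn
      rw [mem_image] at hn2
      obtain ⟨m, _, rfl⟩ := hn2
      exact hn.2 p (mem_insert_self p S) (dvd_mul_right _ _)
    have hcard : (((Finset.Ioc ⌊x⌋ ⌊x + L⌋).filter (fun n : ℤ => ∀ q ∈ S, ¬ (q : ℤ) ∣ n)).card : ℝ)
        = (((Finset.Ioc ⌊x⌋ ⌊x + L⌋).filter
            (fun n : ℤ => ∀ q ∈ insert p S, ¬ (q : ℤ) ∣ n)).card : ℝ) +
          (((Finset.Ioc ⌊x / p⌋ ⌊x / p + L / p⌋).filter
            (fun n : ℤ => ∀ q ∈ S, ¬ (q : ℤ) ∣ n)).card : ℝ) := by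
      rw [hsplit, card_union_of_disjoint hdisj, card_image_of_injective]
      · push_cast; rfl
      · intro m m' h
        have hp0' : (p : ℤ) ≠ 0 := by exact_mod_cast hpp.ne_zero
        exact mul_left_cancel₀ hp0' h
    rw [card_insert_of_notMem hp, prod_insert hp]
    set C := (((Finset.Ioc ⌊x⌋ ⌊x + L⌋).filter (fun n : ℤ => ∀ q ∈ S, ¬ (q : ℤ) ∣ n)).card : ℝ)
    set C' := (((Finset.Ioc ⌊x / p⌋ ⌊x / p + L / p⌋).filter
            (fun n : ℤ => ∀ q ∈ S, ¬ (q : ℤ) ∣ n)).card : ℝ)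
    set P := ∏ p ∈ S, (1 - 1 / (p : ℝ))
    have e : (((Finset.Ioc ⌊x⌋ ⌊x + L⌋).filter
            (fun n : ℤ => ∀ q ∈ insert p S, ¬ (q : ℤ) ∣ n)).card : ℝ) - L * ((1 - 1 / (p : ℝ)) * P)
        = (C - L * P) - (C' - L / p * P) := by
      rw [hcard]; ring
    rw [e]
    refine (abs_sub _ _).trans ?_
    rw [pow_succ]
    linarith

theorem exists_coprime_in (D : ℕ) (hD : 0 < D) (x L : ℝ)
    (hL : (4 : ℝ) ^ D.primeFactors.card < L) :
    ∃ n : ℤ, x < n ∧ (n : ℝ) ≤ x + L ∧ IsCoprime n (D : ℤ) := by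
  have hL0 : 0 ≤ L := by
    have : (0 : ℝ) < 4 ^ D.primeFactors.card := by positivity
    linarith
  have h1 := count_coprime D.primeFactors (fun p hp => Nat.prime_of_mem_primeFactors hp) x L hL0
  have h2 : (1 / 2 : ℝ) ^ D.primeFactors.card ≤ ∏ p ∈ D.primeFactors, (1 - 1 / (p : ℝ)) := by
    rw [← Finset.prod_const]
    apply Finset.prod_le_prod
    · intro p _; norm_num
    · intro p hp
      have hp2 : (2 : ℝ) ≤ p := by exact_mod_cast (Nat.prime_of_mem_primeFactors hp).two_le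
      have : 1 / (p : ℝ) ≤ 1 / 2 := one_div_le_one_div_of_le (by norm_num) hp2
      linarith
  have h3 : (2 : ℝ) ^ D.primeFactors.card < L * ∏ p ∈ D.primeFactors, (1 - 1 / (p : ℝ)) := by
    calc (2 : ℝ) ^ D.primeFactors.card = 4 ^ D.primeFactors.card * (1 / 2) ^ D.primeFactors.card := by
          rw [← mul_pow]; norm_num
      _ < L * (1 / 2) ^ D.primeFactors.card := by
          apply mul_lt_mul_of_pos_right hL (by positivity)
      _ ≤ _ := mul_le_mul_of_nonneg_left h2 hL0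
  have h4 : (0 : ℝ) < (((Finset.Ioc ⌊x⌋ ⌊x + L⌋).filter
      (fun n : ℤ => ∀ p ∈ D.primeFactors, ¬ (p : ℤ) ∣ n)).card : ℝ) := by
    rw [abs_le] at h1
    linarith [h1.1]
  have h5 : ((Finset.Ioc ⌊x⌋ ⌊x + L⌋).filter
      (fun n : ℤ => ∀ p ∈ D.primeFactors, ¬ (p : ℤ) ∣ n)).Nonempty := by
    rw [← Finset.card_pos]; exact_mod_cast h4
  obtain ⟨n, hn⟩ := h5
  rw [mem_filter, mem_Ioc, Int.floor_lt, Int.le_floor] at hn
  refine ⟨n, hn.1.1, hn.1.2, ?_⟩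
  rw [Int.isCoprime_iff_gcd_eq_one]
  by_contra hg
  obtain ⟨p, hp, hpd⟩ := Nat.exists_prime_and_dvd hg
  have h6 : (p : ℤ) ∣ n := (Int.natCast_dvd_natCast.2 hpd).trans (Int.gcd_dvd_left _ _)
  have h7 : (p : ℤ) ∣ (D : ℤ) := (Int.natCast_dvd_natCast.2 hpd).trans (Int.gcd_dvd_right _ _)
  have h8 : p ∣ D := by exact_mod_cast h7
  exact hn.2 p (Nat.mem_primeFactors.2 ⟨hp, h8, hD.ne'⟩) h6

theorem pf : SieveStm := by
  intro m c e I hm hc hI
  classical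
  set S := m.primeFactors.filter (fun p => ¬ p ∣ e) with hS
  have hSp : ∀ p ∈ S, p.Prime := fun p hp =>
    Nat.prime_of_mem_primeFactors (mem_filter.1 hp).1
  set m1 : ℕ := ∏ p ∈ S, p with hm1
  have hm1pos : 0 < m1 := Finset.prod_pos fun p hp => (hSp p hp).pos
  have hsub : m1.primeFactors ⊆ m.primeFactors := by
    intro g hg
    have hgp := Nat.prime_of_mem_primeFactors hg
    have hgd := Nat.dvd_of_mem_primeFactors hg
    obtain ⟨p, hp, hgp2⟩ := (hgp.prime.dvd_finset_prod_iff _).1 hgd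
    have h1 := (Nat.prime_dvd_prime_iff_eq hgp (hSp p hp)).1 hgp2
    rw [h1]
    exact (mem_filter.1 hp).1
  have hcop : Nat.Coprime e m1 := by
    apply Nat.Coprime.prod_right
    intro p hp
    exact ((hSp p hp).coprime_iff_not_dvd.2 (mem_filter.1 hp).2).symm
  have hcopZ : IsCoprime (e : ℤ) (m1 : ℤ) := Nat.isCoprime_iff_coprime.2 hcop
  obtain ⟨a, b, hab⟩ := hcopZ
  have hL : (4 : ℝ) ^ m1.primeFactors.card < (I : ℝ) := by
    have h1 : (4 : ℕ) ^ m1.primeFactors.card ≤ 4 ^ m.primeFactors.card :=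
      Nat.pow_le_pow_right (by norm_num) (card_le_card hsub)
    have h2 : (4 : ℕ) ^ m1.primeFactors.card < I := by
      have h3 : 0 < 4 ^ m.primeFactors.card := by positivity
      omega
    exact_mod_cast h2
  obtain ⟨n, hn1, hn2, hn3⟩ := exists_coprime_in m1 hm1pos (((c * a : ℤ) : ℝ) - 1) I hL
  have hn1' : (c * a : ℤ) - 1 < n := by exact_mod_cast hn1
  have hn2' : n ≤ (c * a : ℤ) - 1 + I := by exact_mod_cast hn2
  obtain ⟨i, hi⟩ := Int.eq_ofNat_of_zero_le (a := n - c * a) (by omega)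
  have hiI : i ≤ I := by omega
  refine ⟨i, hiI, ?_⟩
  have hn : n = i + c * a := by omega
  have hen : IsCoprime ((e : ℤ) * n) (m1 : ℤ) := IsCoprime.mul_left ⟨a, b, hab⟩ hn3
  have heq : ((c + i * e : ℕ) : ℤ) = (e : ℤ) * n + (m1 : ℤ) * (c * b) := by
    push_cast
    rw [hn]
    linear_combination (-(c : ℤ)) * hab
  have hfin : IsCoprime ((c + i * e : ℕ) : ℤ) (m1 : ℤ) := by
    rw [heq]
    exact hen.add_mul_left_left _
  by_contra hnot
  obtain ⟨g, hg, hg1, hg2⟩ := Nat.Prime.not_coprime_iff_dvd.1 hnot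
  by_cases hge : g ∣ e
  · exact hc g hg hg2 hge ((Nat.dvd_add_left (hge.mul_left i)).1 hg1)
  · have hgS : g ∈ S := mem_filter.2 ⟨Nat.mem_primeFactors.2 ⟨hg, hg2, hm.ne'⟩, hge⟩
    have hgm : g ∣ m1 := Finset.dvd_prod_of_mem _ hgS
    have h5 := Nat.isCoprime_iff_coprime.1 hfin
    exact Nat.Prime.not_coprime_iff_dvd.2 ⟨g, hg, hg1, hgm⟩ h5

end Pool.Agent.W789.TH.B02
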