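import Mathlib
import Pool.Agent.W789.TH.Defs
import Pool.Agent.W789.TH.DefsB

/-!
# One stage of the approximation, with a coprimality condition
-/

namespace Pool.Agent.W789.TH.B03

open Pool.Agent.W789.TH

theorem two_sq_ne (n p : ℤ) (hn : n ≠ 0) : 2 * n ^ 2 - p ^ 2 ≠ 0 := by
  intro h
  have hn' : (n : ℝ) ≠ 0 := by exact_mod_cast hn
  have h1 : ((p : ℝ) / n) ^ 2 = 2 := by
    have : (2 * (n : ℝ) ^ 2 - (p : ℝ) ^ 2) = 0 := by exact_mod_cast h
    field_simp
    linarith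
  have h2 : |(p : ℝ) / n| = √2 := by
    rw [← h1, Real.sqrt_sq_eq_abs]
  apply irrational_sqrt_two
  refine ⟨|(p : ℚ) / n|, ?_⟩
  rw [← h2]
  push_cast
  rfl

theorem sqrt2_lower (n : ℤ) (hn : n ≠ 0) (p : ℤ) :
    1 / (4 * |(n : ℝ)|) ≤ |n * √2 - p| := by
  have hn1 : (1 : ℝ) ≤ |(n : ℝ)| := by exact_mod_cast Int.one_le_abs hn
  by_cases h : |n * √2 - p| ≤ 1
  · have h1 : (1 : ℝ) ≤ |2 * (n : ℝ) ^ 2 - (p : ℝ) ^ 2| := by
      exact_mod_cast Int.one_le_abs (two_sq_ne n p hn)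
    have h2 : |n * √2 - p| * |n * √2 + p| = |2 * (n : ℝ) ^ 2 - (p : ℝ) ^ 2| := by
      rw [← abs_mul]
      congr 1
      have : √2 ^ 2 = 2 := Real.sq_sqrt (by norm_num)
      linear_combination (n : ℝ) ^ 2 * this
    have hs : √2 ≤ 3 / 2 := by
      rw [Real.sqrt_le_left (by norm_num)]; norm_num
    have h3 : |n * √2 + p| ≤ 4 * |(n : ℝ)| := by
      have e : n * √2 + p = 2 * (n * √2) - (n * √2 - p) := by ring
      rw [e]
      refine (abs_sub _ _).trans ?_
      rw [abs_mul, abs_mul, abs_of_nonneg (Real.sqrt_nonneg 2), abs_two]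
      nlinarith [abs_nonneg (n : ℝ)]
    rw [div_le_iff₀ (by positivity)]
    calc (1 : ℝ) ≤ |n * √2 - p| * |n * √2 + p| := by rw [h2]; exact h1
      _ ≤ |n * √2 - p| * (4 * |(n : ℝ)|) := by gcongr
  · push Not at h
    refine le_trans ?_ h.le
    rw [div_le_one (by positivity)]
    linarith

theorem al_lower (u v : ℤ) (D w A : ℕ) (hD : 0 < D) (hw : w ≤ D) (hA : 2 ≤ A)
    (hdet : u * w - v * D = 1) (j : ℕ) (hj : 0 < j) (p : ℤ) :
    min (1 / (8 * (j : ℝ))) (1 / (4 * A * D)) ≤ |j * alR u v D w A - p| := by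
  have hD' : (1 : ℝ) ≤ D := by exact_mod_cast hD
  have hw' : (w : ℝ) ≤ D := by exact_mod_cast hw
  have hw0 : (0 : ℝ) ≤ w := by positivity
  have hA' : (2 : ℝ) ≤ A := by exact_mod_cast hA
  have hj' : (1 : ℝ) ≤ j := by exact_mod_cast hj
  have hs : √2 ≤ 3 / 2 := by
    rw [Real.sqrt_le_left (by norm_num)]; norm_num
  have hs1 : 1 ≤ √2 := by
    rw [Real.one_le_sqrt]; norm_num
  set y : ℝ := A + √2 with hy
  set q : ℝ := D * y + w with hq
  have hqlow : (A : ℝ) * D + D ≤ q := by rw [hq, hy]; nlinarith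
  have hqlow' : 3 * (D : ℝ) ≤ q := by nlinarith
  have hq0 : 0 < q := by linarith
  have hqup : q ≤ 4 * A * D := by rw [hq, hy]; nlinarith
  set n : ℤ := j * u - p * D with hn
  set mm : ℤ := p * w - j * v with hmm
  have e1 : (mm : ℝ) * D + n * w = j := by
    have : mm * D + n * w = j := by
      rw [hn, hmm]; linear_combination (j : ℤ) * hdet
    exact_mod_cast this
  have e2 : j * alR u v D w A - p = (n * y - mm) / q := by
    unfold alR
    rw [← hy, ← hq, eq_div_iff hq0.ne', sub_mul, mul_assoc, div_mul_cancel₀ _ hq0.ne', hq, hn, hmm]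
    push_cast
    ring
  rw [e2, abs_div, abs_of_pos hq0]
  by_cases h1 : 1 ≤ |(n : ℝ) * y - mm|
  · refine (min_le_right _ _).trans ?_
    rw [div_le_div_iff₀ (by positivity) hq0]
    nlinarith [abs_nonneg ((n : ℝ) * y - mm)]
  · push Not at h1
    have hn0 : n ≠ 0 := by
      intro h0
      rw [h0] at h1 e1
      have hm0 : mm ≠ 0 := by
        intro h2
        rw [h2] at e1
        have : (j : ℝ) = 0 := by rw [← e1]; simp
        linarith
      have : (1 : ℝ) ≤ |(mm : ℝ)| := by exact_mod_cast Int.one_le_abs hm0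
      simp at h1
      linarith
    refine (min_le_left _ _).trans ?_
    have hn1 : (1 : ℝ) ≤ |(n : ℝ)| := by exact_mod_cast Int.one_le_abs hn0
    have h2 : 1 / (4 * |(n : ℝ)|) ≤ |(n : ℝ) * y - mm| := by
      have := sqrt2_lower n hn0 (mm - n * A)
      have e3 : (n : ℝ) * y - mm = n * √2 - ((mm - n * A : ℤ) : ℝ) := by
        rw [hy]; push_cast; ring
      rw [e3]
      exact this
    have h3 : |(n : ℝ)| * q ≤ j + D := by
      have e4 : (n : ℝ) * q = j + (n * y - mm) * D := by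
        rw [hq]; linear_combination e1
      rw [← abs_of_pos hq0, ← abs_mul, e4]
      refine (abs_add_le _ _).trans ?_
      rw [abs_mul, abs_of_nonneg (by positivity : (0 : ℝ) ≤ j),
        abs_of_nonneg (by positivity : (0 : ℝ) ≤ D)]
      nlinarith
    have h4 : (D : ℝ) ≤ j := by nlinarith
    have h5 : |(n : ℝ)| * q ≤ 2 * j := by linarith
    rw [div_le_div_iff₀ (by positivity) hq0]
    rw [div_le_iff₀ (by positivity)] at h2
    nlinarith [abs_nonneg ((n : ℝ) * y - mm)]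

theorem al_dist (u v : ℤ) (D w A : ℕ) (hD : 0 < D) (hw : w ≤ D) (hA : 2 ≤ A)
    (hdet : u * w - v * D = 1) :
    |alR u v D w A - u / D| ≤ 1 / (A * (D : ℝ) ^ 2) ∧
      1 / (4 * A * (D : ℝ) ^ 2) ≤ |alR u v D w A - u / D| := by
  have hD' : (1 : ℝ) ≤ D := by exact_mod_cast hD
  have hw' : (w : ℝ) ≤ D := by exact_mod_cast hw
  have hw0 : (0 : ℝ) ≤ w := by positivity
  have hA' : (2 : ℝ) ≤ A := by exact_mod_cast hA
  have hs : √2 ≤ 3 / 2 := by
    rw [Real.sqrt_le_left (by norm_num)]; norm_num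
  have hs1 : 1 ≤ √2 := by
    rw [Real.one_le_sqrt]; norm_num
  set y : ℝ := A + √2 with hy
  set q : ℝ := D * y + w with hq
  have hqlow : (A : ℝ) * D ≤ q := by rw [hq, hy]; nlinarith
  have hq0 : 0 < q := by nlinarith
  have hqup : q ≤ 4 * A * D := by rw [hq, hy]; nlinarith
  have hdet' : (u : ℝ) * w - v * D = 1 := by exact_mod_cast hdet
  have e : alR u v D w A - u / D = -1 / (D * q) := by
    unfold alR
    rw [← hy, ← hq, div_sub_div _ _ hq0.ne' (by positivity), div_eq_div_iff (by positivity)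
      (by positivity), hq]
    linear_combination (-(D * y + w) * D : ℝ) * hdet'
  rw [e, abs_div, abs_neg, abs_one, abs_of_pos (by positivity)]
  constructor
  · apply one_div_le_one_div_of_le (by positivity)
    nlinarith
  · apply one_div_le_one_div_of_le (by positivity)
    nlinarith

theorem num_den_coprime (u v : ℤ) (D w A p q : ℕ) (hpq : Nat.Coprime p q)
    (hdet : u * w - v * D = 1) :
    (u * (A * q + p : ℕ) + v * q).natAbs.Coprime (D * (A * q + p) + w * q) := by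
  have h1 : IsCoprime (u * ((A * q + p : ℕ) : ℤ) + v * q)
      (((D * (A * q + p) + w * q : ℕ)) : ℤ) := by
    have h2 : IsCoprime ((p : ℤ)) (q : ℤ) := Nat.isCoprime_iff_coprime.mpr hpq
    obtain ⟨s, t, hst⟩ := h2
    -- s p + t q = 1 ; s (A q + p) + (t - s A) q = 1
    -- A q + p = w num - v den, q = u den - D num
    refine ⟨s * w - (t - s * A) * D, -(s * v) + (t - s * A) * u, ?_⟩
    push_cast
    linear_combination hst + (s * (A * q + p) + (t - s * A) * q) * hdet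
  have h3 := Int.isCoprime_iff_gcd_eq_one.mp h1
  rw [Int.gcd_eq_natAbs, Int.natAbs_natCast] at h3
  exact h3

theorem pf (hP : PellStm) (hS : SieveStm) : StepStm := by
  intro ρ A0 I Y m hA0 hI hm hcop hcard hY
  have hD : 0 < ρ.den := ρ.den_pos
  obtain ⟨v, w, hw, hdet⟩ : ∃ (v : ℤ) (w : ℕ), w ≤ ρ.den ∧ ρ.num * w - v * ρ.den = 1 := by
    have hc : IsCoprime ρ.num (ρ.den : ℤ) := by
      rw [Int.isCoprime_iff_gcd_eq_one]
      exact ρ.reduced
    obtain ⟨a, b, hab⟩ := hc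
    have hDZ : (0 : ℤ) < ρ.den := by exact_mod_cast hD
    refine ⟨-b - ρ.num * (a / ρ.den), (a % ρ.den).toNat, ?_, ?_⟩
    · have := Int.emod_lt_of_pos a hDZ
      omega
    · have h1 : ((a % ρ.den).toNat : ℤ) = a % ρ.den := Int.toNat_of_nonneg (Int.emod_nonneg _ hDZ.ne')
      rw [h1]
      have h2 := Int.emod_add_mul_ediv a ρ.den
      linear_combination hab + ρ.num * h2
  have hρ : (ρ : ℝ) = ρ.num / ρ.den := by
    have : ρ = (ρ.num : ℚ) / ρ.den := (Rat.num_div_den ρ).symm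
    conv_lhs => rw [this]
    push_cast
    rfl
  generalize ρ.num = u at hdet hρ
  generalize ρ.den = D at hdet hρ hD hw hY hcop ⊢
  -- the number X
  have hAD0 : 0 < A0 * D := Nat.mul_pos (by omega) hD
  obtain ⟨X, hX1, hX2, hX3⟩ : ∃ X : ℕ, 2 ≤ X ∧ Y ≤ X * (A0 * D) ∧ 2 * (X * (A0 * D)) ≤ 3 * Y := by
    have h1 : (Y + A0 * D - 1) / (A0 * D) * (A0 * D) ≤ Y + A0 * D - 1 := Nat.div_mul_le_self _ _
    have h2 : Y + A0 * D - 1 < ((Y + A0 * D - 1) / (A0 * D) + 1) * (A0 * D) := by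
      have := Nat.lt_div_mul_add (a := Y + A0 * D - 1) hAD0
      rw [add_mul, one_mul]
      exact this
    rw [add_mul, one_mul] at h2
    refine ⟨(Y + A0 * D - 1) / (A0 * D), ?_, by omega, by omega⟩
    rw [Nat.le_div_iff_mul_le hAD0]
    omega
  obtain ⟨p, q, hq1, hq2, hpq, hp1, hp2, hpell⟩ := hP X hX1
  have hq0 : 0 < q := by omega
  obtain ⟨i, hi, hic⟩ := hS m (D * (A0 * q + p) + w * q) (D * q) I hm (by
    intro g hg hgm hge hgc
    have hgD : ¬ g ∣ D := by
      intro h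
      have h1 := Nat.dvd_gcd hgm h
      rw [hcop] at h1
      exact hg.one_lt.ne' (Nat.dvd_one.mp h1)
    have hgq : g ∣ q := (hg.dvd_mul.mp hge).resolve_left hgD
    have h1 : g ∣ D * (A0 * q + p) := (Nat.dvd_add_left (hgq.mul_left w)).mp hgc
    have h2 : g ∣ A0 * q + p := (hg.dvd_mul.mp h1).resolve_left hgD
    have h3 : g ∣ p := (Nat.dvd_add_right (hgq.mul_left A0)).mp h2
    have h4 := Nat.dvd_gcd h3 hgq
    rw [hpq] at h4
    exact hg.one_lt.ne' (Nat.dvd_one.mp h4)) hcard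
  have hiA : i ≤ A0 := hi.trans hI
  obtain ⟨A, hA⟩ : ∃ A : ℕ, A = A0 + i := ⟨_, rfl⟩
  have hden : D * (A0 * q + p) + w * q + i * (D * q) = D * (A * q + p) + w * q := by
    rw [hA]; ring
  rw [hden] at hic
  have hdn0 : D * (A * q + p) + w * q ≠ 0 := by
    have : 0 < D * (A * q + p) := Nat.mul_pos hD (by omega)
    omega
  have hred := num_den_coprime u v D w A p q hpq hdet
  obtain ⟨r, hrn, hrd⟩ : ∃ r : ℚ, r.num = u * (A * q + p : ℕ) + v * q ∧
      r.den = D * (A * q + p) + w * q := ⟨⟨_, _, hdn0, hred⟩, rfl, rfl⟩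
  have hA2 : 2 ≤ A := by omega
  have hr : (r : ℝ) = (r.num : ℝ) / (r.den : ℝ) := by
    have : r = (r.num : ℚ) / r.den := (Rat.num_div_den r).symm
    conv_lhs => rw [this]
    push_cast
    rfl
  -- real versions
  have hD' : (1 : ℝ) ≤ D := by exact_mod_cast hD
  have hA' : (4 : ℝ) ≤ A := by exact_mod_cast (by omega : 4 ≤ A)
  have hq' : (2 : ℝ) ≤ q := by exact_mod_cast (by omega : 2 ≤ q)
  have hw' : (w : ℝ) ≤ D := by exact_mod_cast hw
  have hw0 : (0 : ℝ) ≤ w := Nat.cast_nonneg w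
  have hp1' : (q : ℝ) ≤ p := by exact_mod_cast hp1
  have hp2' : (p : ℝ) ≤ 2 * q := by exact_mod_cast hp2
  have hs : √2 ≤ 3 / 2 := by
    rw [Real.sqrt_le_left (by norm_num)]; norm_num
  have hs1 : 1 ≤ √2 := by
    rw [Real.one_le_sqrt]; norm_num
  have hdet' : (u : ℝ) * w - v * D = 1 := by exact_mod_cast hdet
  have hrdR : (r.den : ℝ) = D * (A * q + p) + w * q := by rw [hrd]; push_cast; ring
  have hrnR : (r.num : ℝ) = u * (A * q + p) + v * q := by rw [hrn]; push_cast; ring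
  have hrd0 : (0 : ℝ) < r.den := by exact_mod_cast r.den_pos
  have hDy : (0 : ℝ) < D * (A + √2) + w := by positivity
  have hdiff : alR u v D w A - r = (√2 * q - p) / ((D * (A + √2) + w) * r.den) := by
    rw [hr]
    unfold alR
    rw [div_sub_div _ _ hDy.ne' hrd0.ne', hrdR, hrnR]
    congr 1
    linear_combination (√2 * q - p) * hdet'
  have hnum : |√2 * q - p| ≤ 1 / (2 * (q : ℝ)) := by
    have h1 : √2 * q - p = (√2 - (p : ℝ) / q) * q := by field_simp
    rw [h1, abs_mul, abs_of_nonneg (by positivity : (0 : ℝ) ≤ q)]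
    calc |√2 - (p : ℝ) / q| * q ≤ 1 / (2 * (q : ℝ) ^ 2) * q := by gcongr
      _ = 1 / (2 * (q : ℝ)) := by field_simp
  have hrad : |alR u v D w A - r| ≤ 1 / (r.den : ℝ) ^ 2 := by
    rw [hdiff, abs_div, abs_of_pos (mul_pos hDy hrd0), div_le_div_iff₀ (by positivity) (by positivity)]
    have h1 : (r.den : ℝ) ≤ 2 * q * (D * (A + √2) + w) := by
      rw [hrdR]
      have e1 : (0 : ℝ) ≤ q * D * A := by positivity
      have e2 : (0 : ℝ) ≤ q * D * (√2 - 1) := mul_nonneg (by positivity) (by linarith)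
      have e3 : (0 : ℝ) ≤ D * (2 * (q : ℝ) - p) := mul_nonneg (by positivity) (by linarith)
      have e4 : (0 : ℝ) ≤ w * q := by positivity
      linarith
    calc |√2 * q - p| * (r.den : ℝ) ^ 2 ≤ 1 / (2 * (q : ℝ)) * (r.den * r.den) := by
          rw [pow_two]; gcongr
      _ ≤ 1 / (2 * (q : ℝ)) * (2 * q * (D * (A + √2) + w) * r.den) := by gcongr
      _ = 1 * ((D * (A + √2) + w) * r.den) := by field_simp
  obtain ⟨d1, d2⟩ := al_dist u v D w A hD hw hA2 hdet
  have hdlow : (A : ℝ) * D * q ≤ r.den := by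
    rw [hrdR]
    have e4 : (0 : ℝ) ≤ w * q := by positivity
    have e5 : (0 : ℝ) ≤ D * p := by positivity
    linarith
  have hsm : 1 / (r.den : ℝ) ^ 2 ≤ 1 / (8 * A * (D : ℝ) ^ 2) := by
    apply one_div_le_one_div_of_le (by positivity)
    have h1 : ((A : ℝ) * D * q) ^ 2 ≤ (r.den : ℝ) ^ 2 := by gcongr
    have h2 : 8 * A * (D : ℝ) ^ 2 ≤ ((A : ℝ) * D * q) ^ 2 := by
      have h3 : (8 : ℝ) * A ≤ A ^ 2 * q ^ 2 := by
        have h4 : (4 : ℝ) ≤ (q : ℝ) ^ 2 := by nlinarith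
        nlinarith [mul_nonneg (by positivity : (0 : ℝ) ≤ (A : ℝ) ^ 2)
          (by linarith : (0 : ℝ) ≤ (q : ℝ) ^ 2 - 4)]
      calc 8 * A * (D : ℝ) ^ 2 ≤ (A ^ 2 * q ^ 2) * (D : ℝ) ^ 2 := by gcongr
        _ = ((A : ℝ) * D * q) ^ 2 := by ring
    exact h2.trans h1
  obtain ⟨Z, hZ⟩ : ∃ Z : ℝ, Z = 1 / (A * (D : ℝ) ^ 2) := ⟨_, rfl⟩
  have hZ0 : 0 < Z := by rw [hZ]; positivity
  have g1 : 1 / (8 * A * (D : ℝ) ^ 2) = Z / 8 := by rw [hZ]; field_simp
  have g2 : 1 / (4 * A * (D : ℝ) ^ 2) = Z / 4 := by rw [hZ]; field_simp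
  have g3 : 2 / (A * (D : ℝ) ^ 2) = 2 * Z := by rw [hZ]; field_simp
  rw [g1] at hsm
  rw [g2] at d2
  rw [← hZ] at d1
  have hr2 := hrad.trans hsm
  refine ⟨A, r, by omega, by omega, ?_, ?_, ?_, ?_, ?_, ?_⟩
  · rw [hrd]
    exact hic.symm
  · rw [hrd]
    calc Y ≤ X * (A0 * D) := hX2
      _ ≤ q * (A * D) := Nat.mul_le_mul hq1 (Nat.mul_le_mul_right D (by omega))
      _ ≤ D * (A * q + p) + w * q := by nlinarith [Nat.zero_le (D * p), Nat.zero_le (w * q)]
  · rw [hrd]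
    have h1 : D * (A * q + p) + w * q ≤ 3 * (q * (A0 * D)) := by
      have h2 : A ≤ 2 * A0 := by omega
      calc D * (A * q + p) + w * q ≤ D * (2 * A0 * q + 2 * q) + D * q := by gcongr
        _ = q * D * (2 * A0 + 3) := by ring
        _ ≤ q * D * (3 * A0) := Nat.mul_le_mul_left _ (by omega)
        _ = 3 * (q * (A0 * D)) := by ring
    have h3 : q * (A0 * D) ≤ 3 * (X * (A0 * D)) := by
      calc q * (A0 * D) ≤ 3 * X * (A0 * D) := Nat.mul_le_mul_right _ hq2
        _ = 3 * (X * (A0 * D)) := by ring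
    omega
  · rw [hρ, g3]
    have e : (r : ℝ) - u / D = (alR u v D w A - u / D) - (alR u v D w A - r) := by ring
    rw [e]
    refine (abs_sub _ _).trans ?_
    linarith
  · rw [hρ, g1]
    have e : alR u v D w A - u / D = ((r : ℝ) - u / D) + (alR u v D w A - r) := by ring
    rw [e] at d2
    have := abs_add_le ((r : ℝ) - u / D) (alR u v D w A - r)
    linarith
  · intro j hj p
    have h1 := al_lower u v D w A hD hw hA2 hdet j hj p
    have e : j * alR u v D w A - p = (j * (r : ℝ) - p) + j * (alR u v D w A - r) := by ring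
    rw [e] at h1
    have h2 := abs_add_le (j * (r : ℝ) - p) (j * (alR u v D w A - r))
    have h3 : |(j : ℝ) * (alR u v D w A - r)| ≤ j / (r.den : ℝ) ^ 2 := by
      rw [abs_mul, abs_of_nonneg (by positivity : (0 : ℝ) ≤ j), div_eq_mul_one_div]
      gcongr
    linarith

end Pool.Agent.W789.TH.B03
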