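import Mathlib
import Pool.Agent.W789.TH.Defs
import Pool.Agent.W789.TH.DefsB

/-!
# The next relation vector, with the coprimality condition on the denominator (helper377)
-/

namespace Pool.Agent.W789.TH.B04

open Pool.Agent.W789.TH
open Finset Filter Topology

/-! ### Integers coprime to a given number in short intervals -/

theorem card_Ioc_floor (x L : ℝ) (hL : 0 ≤ L) :
    |((Finset.Ioc ⌊x⌋ ⌊x + L⌋).card : ℝ) - L| ≤ 1 := by
  have h : ⌊x⌋ ≤ ⌊x + L⌋ := Int.floor_le_floor (by linarith)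
  rw [Int.card_Ioc]
  have h2 : (((⌊x + L⌋ - ⌊x⌋).toNat : ℕ) : ℝ) = (⌊x + L⌋ : ℝ) - ⌊x⌋ := by
    have : (((⌊x + L⌋ - ⌊x⌋).toNat : ℤ)) = ⌊x + L⌋ - ⌊x⌋ := Int.toNat_of_nonneg (by omega)
    exact_mod_cast congrArg (fun z : ℤ => (z : ℝ)) this
  rw [h2, abs_le]
  have h3 := Int.floor_le x
  have h4 := Int.lt_floor_add_one x
  have h5 := Int.floor_le (x + L)
  have h6 := Int.lt_floor_add_one (x + L)
  constructor <;> linarith

theorem count_coprime (S : Finset ℕ) (hS : ∀ p ∈ S, p.Prime) :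
    ∀ x L : ℝ, 0 ≤ L →
      |(((Finset.Ioc ⌊x⌋ ⌊x + L⌋).filter (fun n : ℤ => ∀ p ∈ S, ¬ (p : ℤ) ∣ n)).card : ℝ)
        - L * ∏ p ∈ S, (1 - 1 / (p : ℝ))| ≤ 2 ^ S.card := by
  induction S using Finset.induction_on with
  | empty =>
    intro x L hL
    simpa using card_Ioc_floor x L hL
  | insert p S hp ih =>
    intro x L hL
    have hS' : ∀ q ∈ S, q.Prime := fun q hq => hS q (mem_insert_of_mem hq)
    have hpp : p.Prime := hS p (mem_insert_self p S)
    have hp0 : (0 : ℝ) < p := by exact_mod_cast hpp.pos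
    have h1 := ih hS' x L hL
    have h2 := ih hS' (x / p) (L / p) (by positivity)
    have hsplit : (Finset.Ioc ⌊x⌋ ⌊x + L⌋).filter (fun n : ℤ => ∀ q ∈ S, ¬ (q : ℤ) ∣ n)
        = (Finset.Ioc ⌊x⌋ ⌊x + L⌋).filter (fun n : ℤ => ∀ q ∈ insert p S, ¬ (q : ℤ) ∣ n) ∪
          ((Finset.Ioc ⌊x / p⌋ ⌊x / p + L / p⌋).filter (fun n : ℤ => ∀ q ∈ S, ¬ (q : ℤ) ∣ n)).image
            (fun m : ℤ => (p : ℤ) * m) := by
      ext n
      simp only [mem_union, mem_filter, mem_image, mem_Ioc, mem_insert, forall_eq_or_imp]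
      have key : ∀ m : ℤ, (⌊x⌋ < (p : ℤ) * m ∧ (p : ℤ) * m ≤ ⌊x + L⌋) ↔
          (⌊x / p⌋ < m ∧ m ≤ ⌊x / p + L / p⌋) := by
        intro m
        rw [Int.floor_lt, Int.le_floor, Int.floor_lt, Int.le_floor, ← add_div, div_lt_iff₀ hp0,
          le_div_iff₀ hp0]
        push_cast
        rw [mul_comm (p : ℝ) (m : ℝ)]
      have key2 : ∀ m : ℤ, (∀ q ∈ S, ¬ (q : ℤ) ∣ (p : ℤ) * m) ↔ (∀ q ∈ S, ¬ (q : ℤ) ∣ m) := by
        intro m
        constructor
        · intro h q hq hd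
          exact h q hq (hd.mul_left _)
        · intro h q hq hd
          have hq' : Prime (q : ℤ) := Nat.prime_iff_prime_int.1 (hS' q hq)
          rcases hq'.dvd_or_dvd hd with h3 | h3
          · have : q ∣ p := by exact_mod_cast h3
            rw [(Nat.prime_dvd_prime_iff_eq (hS' q hq) hpp).1 this] at hq
            exact hp hq
          · exact h q hq h3
      constructor
      · rintro ⟨hn, hq⟩
        by_cases hd : (p : ℤ) ∣ n
        · right
          obtain ⟨m, rfl⟩ := hd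
          exact ⟨m, ⟨(key m).1 hn, (key2 m).1 hq⟩, rfl⟩
        · left
          exact ⟨hn, hd, hq⟩
      · rintro (⟨hn, hd, hq⟩ | ⟨m, ⟨hm, hq⟩, rfl⟩)
        · exact ⟨hn, hq⟩
        · exact ⟨(key m).2 hm, (key2 m).2 hq⟩
    have hdisj : Disjoint
        ((Finset.Ioc ⌊x⌋ ⌊x + L⌋).filter (fun n : ℤ => ∀ q ∈ insert p S, ¬ (q : ℤ) ∣ n))
        (((Finset.Ioc ⌊x / p⌋ ⌊x / p + L / p⌋).filter (fun n : ℤ => ∀ q ∈ S, ¬ (q : ℤ) ∣ n)).image
            (fun m : ℤ => (p : ℤ) * m)) := by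
      rw [Finset.disjoint_left]
      intro n hn hn2
      rw [mem_filter] at hn
      rw [mem_image] at hn2
      obtain ⟨m, _, rfl⟩ := hn2
      exact hn.2 p (mem_insert_self p S) (dvd_mul_right _ _)
    have hcard : (((Finset.Ioc ⌊x⌋ ⌊x + L⌋).filter (fun n : ℤ => ∀ q ∈ S, ¬ (q : ℤ) ∣ n)).card : ℝ)
        = (((Finset.Ioc ⌊x⌋ ⌊x + L⌋).filter
            (fun n : ℤ => ∀ q ∈ insert p S, ¬ (q : ℤ) ∣ n)).card : ℝ) +
          (((Finset.Ioc ⌊x / p⌋ ⌊x / p + L / p⌋).filter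
            (fun n : ℤ => ∀ q ∈ S, ¬ (q : ℤ) ∣ n)).card : ℝ) := by
      rw [hsplit, card_union_of_disjoint hdisj, card_image_of_injective]
      · push_cast; rfl
      · intro m m' h
        have hp0' : (p : ℤ) ≠ 0 := by exact_mod_cast hpp.ne_zero
        exact mul_left_cancel₀ hp0' h
    rw [card_insert_of_notMem hp, prod_insert hp]
    set C := (((Finset.Ioc ⌊x⌋ ⌊x + L⌋).filter (fun n : ℤ => ∀ q ∈ S, ¬ (q : ℤ) ∣ n)).card : ℝ)
    set C' := (((Finset.Ioc ⌊x / p⌋ ⌊x / p + L / p⌋).filter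
            (fun n : ℤ => ∀ q ∈ S, ¬ (q : ℤ) ∣ n)).card : ℝ)
    set P := ∏ p ∈ S, (1 - 1 / (p : ℝ))
    have e : (((Finset.Ioc ⌊x⌋ ⌊x + L⌋).filter
            (fun n : ℤ => ∀ q ∈ insert p S, ¬ (q : ℤ) ∣ n)).card : ℝ) - L * ((1 - 1 / (p : ℝ)) * P)
        = (C - L * P) - (C' - L / p * P) := by
      rw [hcard]; ring
    rw [e]
    refine (abs_sub _ _).trans ?_
    rw [pow_succ]
    linarith

theorem exists_coprime_in (D : ℕ) (hD : 0 < D) (x L : ℝ)
    (hL : (4 : ℝ) ^ D.primeFactors.card < L) :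
    ∃ n : ℤ, x < n ∧ (n : ℝ) ≤ x + L ∧ IsCoprime n (D : ℤ) := by
  have hL0 : 0 ≤ L := by
    have : (0 : ℝ) < 4 ^ D.primeFactors.card := by positivity
    linarith
  have h1 := count_coprime D.primeFactors (fun p hp => Nat.prime_of_mem_primeFactors hp) x L hL0
  have h2 : (1 / 2 : ℝ) ^ D.primeFactors.card ≤ ∏ p ∈ D.primeFactors, (1 - 1 / (p : ℝ)) := by
    rw [← Finset.prod_const]
    apply Finset.prod_le_prod
    · intro p _; norm_num
    · intro p hp
      have hp2 : (2 : ℝ) ≤ p := by exact_mod_cast (Nat.prime_of_mem_primeFactors hp).two_le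
      have : 1 / (p : ℝ) ≤ 1 / 2 := one_div_le_one_div_of_le (by norm_num) hp2
      linarith
  have h3 : (2 : ℝ) ^ D.primeFactors.card < L * ∏ p ∈ D.primeFactors, (1 - 1 / (p : ℝ)) := by
    calc (2 : ℝ) ^ D.primeFactors.card = 4 ^ D.primeFactors.card * (1 / 2) ^ D.primeFactors.card := by
          rw [← mul_pow]; norm_num
      _ < L * (1 / 2) ^ D.primeFactors.card := by
          apply mul_lt_mul_of_pos_right hL (by positivity)
      _ ≤ _ := mul_le_mul_of_nonneg_left h2 hL0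
  have h4 : (0 : ℝ) < (((Finset.Ioc ⌊x⌋ ⌊x + L⌋).filter
      (fun n : ℤ => ∀ p ∈ D.primeFactors, ¬ (p : ℤ) ∣ n)).card : ℝ) := by
    rw [abs_le] at h1
    linarith [h1.1]
  have h5 : ((Finset.Ioc ⌊x⌋ ⌊x + L⌋).filter
      (fun n : ℤ => ∀ p ∈ D.primeFactors, ¬ (p : ℤ) ∣ n)).Nonempty := by
    rw [← Finset.card_pos]; exact_mod_cast h4
  obtain ⟨n, hn⟩ := h5
  rw [mem_filter, mem_Ioc, Int.floor_lt, Int.le_floor] at hn
  refine ⟨n, hn.1.1, hn.1.2, ?_⟩
  rw [Int.isCoprime_iff_gcd_eq_one]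
  by_contra hg
  obtain ⟨p, hp, hpd⟩ := Nat.exists_prime_and_dvd hg
  have h6 : (p : ℤ) ∣ n := (Int.natCast_dvd_natCast.2 hpd).trans (Int.gcd_dvd_left _ _)
  have h7 : (p : ℤ) ∣ (D : ℤ) := (Int.natCast_dvd_natCast.2 hpd).trans (Int.gcd_dvd_right _ _)
  have h8 : p ∣ D := by exact_mod_cast h7
  exact hn.2 p (Nat.mem_primeFactors.2 ⟨hp, h8, hD.ne'⟩) h6


/-- The next relation vector. -/
theorem next_rel (a b D : ℕ) (ha : 0 < a) (hb : 0 < b) (hab : Nat.Coprime a b) (hD : 0 < D)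
    (haD : Nat.Coprime a D)
    (V : ℕ) (hV : (4 : ℝ) ^ D.primeFactors.card < 2 * V) (u : ℤ) (hu : IsCoprime u (D : ℤ)) :
    ∃ (a' b' : ℕ) (u' : ℤ), 0 < a' ∧ 0 < b' ∧ Nat.Coprime a' b' ∧ Nat.Coprime a' D ∧
      a * b' = D + b * a' ∧
      a * V ≤ a' ∧ a' ≤ 3 * a * V ∧ IsCoprime u' (D : ℤ) ∧
      (D : ℤ) ∣ b * u - b' * u' ∧ (D : ℤ) ∣ a * u - a' * u' := by
  have hV0 : 0 < V := by
    by_contra h
    have : V = 0 := by omega
    rw [this] at hV
    have h4 : (0 : ℝ) < 4 ^ D.primeFactors.card := by positivity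
    simp at hV
    linarith
  have hcop : IsCoprime (a : ℤ) (b : ℤ) := Nat.isCoprime_iff_coprime.2 hab
  obtain ⟨d, c', hdc⟩ := hcop
  -- a d - b c = 1 with c = -c'
  obtain ⟨c, hc⟩ : ∃ c : ℤ, c = -c' := ⟨_, rfl⟩
  have hdet : (a : ℤ) * d - b * c = 1 := by rw [hc]; linarith
  have ha' : (0 : ℝ) < a := by exact_mod_cast ha
  obtain ⟨M, hM1, hM2, hMD⟩ := exists_coprime_in D hD (V - D * c / a) (2 * V) hV
  -- the new vector
  set A : ℤ := M * a + D * c with hA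
  set Bz : ℤ := M * b + D * d with hB
  have hAlow : (a : ℤ) * V < A := by
    have h1 : ((a : ℝ)) * V < M * a + D * c := by
      have h2 : (V : ℝ) - D * c / a < M := hM1
      have h3 : (a : ℝ) * (V - D * c / a) < a * M := mul_lt_mul_of_pos_left h2 ha'
      have h4 : (a : ℝ) * (V - D * c / a) = a * V - D * c := by field_simp
      rw [h4] at h3
      linarith
    exact_mod_cast h1
  have hAup : A ≤ 3 * a * V := by
    have h1 : M * a + D * c ≤ 3 * (a : ℝ) * V := by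
      have h2 : (M : ℝ) ≤ V - D * c / a + 2 * V := hM2
      have h3 : (a : ℝ) * M ≤ a * (V - D * c / a + 2 * V) := mul_le_mul_of_nonneg_left h2 ha'.le
      have h4 : (a : ℝ) * (V - D * c / a + 2 * V) = 3 * a * V - D * c := by field_simp; ring
      rw [h4] at h3
      linarith
    exact_mod_cast h1
  have hAB : (a : ℤ) * Bz = D + b * A := by
    rw [hA, hB]; linear_combination (D : ℤ) * hdet
  have hA0 : 0 < A := lt_of_le_of_lt (by positivity) hAlow
  have hB0 : 0 < Bz := by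
    have h1 : 0 < (a : ℤ) * Bz := by
      rw [hAB]
      have : (0 : ℤ) < D := by exact_mod_cast hD
      positivity
    exact pos_of_mul_pos_right h1 (by positivity)
  obtain ⟨a', ha'e⟩ : ∃ a' : ℕ, (a' : ℤ) = A := ⟨A.toNat, Int.toNat_of_nonneg hA0.le⟩
  obtain ⟨b', hb'e⟩ : ∃ b' : ℕ, (b' : ℤ) = Bz := ⟨Bz.toNat, Int.toNat_of_nonneg hB0.le⟩
  have hMD' := hMD
  have hAD : IsCoprime A (D : ℤ) := by
    have h1 : IsCoprime (M * (a : ℤ)) (D : ℤ) :=
      hMD'.mul_left (Nat.isCoprime_iff_coprime.2 haD)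
    rw [hA]
    exact h1.add_mul_left_left c
  -- the new numerator
  obtain ⟨s, t, hst⟩ := hMD
  have hcopAB : IsCoprime A Bz := by
    -- M and D are integer combinations of A and Bz
    have e1 : A * d - Bz * c = M := by rw [hA, hB]; linear_combination M * hdet
    have e2 : (a : ℤ) * Bz - b * A = D := by rw [hAB]; ring
    refine ⟨s * d - t * b, -s * c + t * a, ?_⟩
    linear_combination s * e1 + t * e2 + hst
  refine ⟨a', b', s * u, by omega, by omega, ?_, ?_, ?_, ?_, ?_, ?_, ?_, ?_⟩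
  · rw [← Nat.isCoprime_iff_coprime, ha'e, hb'e]; exact hcopAB
  · rw [← Nat.isCoprime_iff_coprime, ha'e]; exact hAD
  · have : ((a * b' : ℕ) : ℤ) = ((D + b * a' : ℕ) : ℤ) := by
      push_cast; rw [ha'e, hb'e]; exact hAB
    exact_mod_cast this
  · have : ((a * V : ℕ) : ℤ) ≤ ((a' : ℕ) : ℤ) := by push_cast; rw [ha'e]; exact hAlow.le
    exact_mod_cast this
  · have : ((a' : ℕ) : ℤ) ≤ ((3 * a * V : ℕ) : ℤ) := by push_cast; rw [ha'e]; exact hAup
    exact_mod_cast this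
  · have hs : IsCoprime s (D : ℤ) := ⟨M, t, by linarith⟩
    exact hs.mul_left hu
  · rw [hb'e, hB]
    refine ⟨b * u * t - d * (s * u), ?_⟩
    linear_combination (-(b : ℤ) * u) * hst
  · rw [ha'e, hA]
    refine ⟨a * u * t - c * (s * u), ?_⟩
    linear_combination (-(a : ℤ) * u) * hst

theorem pf : RelStm := by
  intro a b D ha hb hab hD haD V hV u hu
  exact next_rel a b D ha hb hab hD haD V hV u hu

end Pool.Agent.W789.TH.B04
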