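import Mathlib
import Pool.Agent.W789.TH.Defs
import Pool.Agent.W789.TH.DefsB

/-!
# Number of prime factors
-/

set_option autoImplicit false

namespace Pool.Agent.W789.TH.B05

open Pool.Agent.W789.TH
open Finset Filter Topology

theorem omega_bound (γ : ℝ) (hγ : 0 < γ) :
    ∃ C : ℝ, 1 ≤ C ∧ ∀ D : ℕ, 0 < D → (4 : ℝ) ^ D.primeFactors.card ≤ C * (D : ℝ) ^ γ := by
  obtain ⟨B, hB⟩ : ∃ B : ℕ, (4 : ℝ) ≤ (B : ℝ) ^ γ := by
    have h := (tendsto_rpow_atTop hγ).comp tendsto_natCast_atTop_atTop
    obtain ⟨B, hB⟩ := (h.eventually_ge_atTop 4).exists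
    exact ⟨B, hB⟩
  have hB0 : 0 ≤ (B : ℝ) := by positivity
  refine ⟨4 ^ B, one_le_pow₀ (by norm_num), fun D hD => ?_⟩
  have hsplit : (4 : ℝ) ^ D.primeFactors.card
      ≤ ∏ p ∈ D.primeFactors, ((if p < B then (4 : ℝ) else 1) * (p : ℝ) ^ γ) := by
    rw [← Finset.prod_const]
    apply Finset.prod_le_prod
    · intro p _; norm_num
    · intro p hp
      have hp1 : (1 : ℝ) ≤ p := by
        exact_mod_cast (Nat.prime_of_mem_primeFactors hp).one_lt.le
      split_ifs with h
      · have : (1 : ℝ) ≤ (p : ℝ) ^ γ := Real.one_le_rpow hp1 hγ.le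
        linarith
      · push Not at h
        rw [one_mul]
        refine hB.trans (Real.rpow_le_rpow hB0 (by exact_mod_cast h) hγ.le)
  refine hsplit.trans ?_
  rw [Finset.prod_mul_distrib]
  have h1 : ∏ p ∈ D.primeFactors, (if p < B then (4 : ℝ) else 1) ≤ 4 ^ B := by
    rw [Finset.prod_ite, Finset.prod_const_one, mul_one, Finset.prod_const]
    apply pow_le_pow_right₀ (by norm_num)
    calc (D.primeFactors.filter (fun p => p < B)).card ≤ (Finset.range B).card := by
          apply Finset.card_le_card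
          intro p hp
          rw [mem_filter] at hp
          exact mem_range.2 hp.2
      _ = B := card_range B
  have h2 : ∏ p ∈ D.primeFactors, (p : ℝ) ^ γ ≤ (D : ℝ) ^ γ := by
    rw [Real.finsetProd_rpow _ _ (fun p _ => by positivity)]
    apply Real.rpow_le_rpow (Finset.prod_nonneg (fun p _ => by positivity)) _ hγ.le
    have : ∏ p ∈ D.primeFactors, p ≤ D := Nat.le_of_dvd hD (Nat.prod_primeFactors_dvd D)
    rw [← Nat.cast_prod]
    exact_mod_cast this
  have h3 : (0 : ℝ) ≤ ∏ p ∈ D.primeFactors, (p : ℝ) ^ γ :=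
    Finset.prod_nonneg (fun p _ => by positivity)
  exact mul_le_mul h1 h2 h3 (by positivity)

/-! ### The next relation vector and the next rational point -/

theorem pf : OmegaStm := fun γ hγ => omega_bound γ hγ

end Pool.Agent.W789.TH.B05
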