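import Mathlib
import Pool.Agent.W789.TH.Defs
import Pool.Agent.W789.TH.DefsB

/-!
One stage of the construction.
-/

namespace Pool.Agent.W789.TH.B06

open Pool.Agent.W789.TH

theorem ceil_two {x : ℝ} (h : 1 ≤ x) : x ≤ ((⌈x⌉₊ : ℕ) : ℝ) ∧ ((⌈x⌉₊ : ℕ) : ℝ) ≤ 2 * x := by
  refine ⟨Nat.le_ceil _, ?_⟩
  have := Nat.ceil_lt_add_one (a := x) (by linarith)
  linarith

theorem pf (hO : OmegaStm) (hR : RelStm) (hSt : StepStm) (hN : NsizeStm) : NextStm := by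
  intro lam al mu hal0 hal1 hlam hmu1 hmu2
  obtain ⟨γ, hγ, hN1⟩ := hN lam al mu hal0 hal1 hlam hmu1 hmu2
  obtain ⟨C, hC1, hC⟩ := hO γ hγ
  obtain ⟨B0, hB0, hN2⟩ := hN1 C hC1
  refine ⟨B0, hB0, ?_⟩
  intro a b ρ h hB
  set D : ℕ := ρ.den with hD
  have hD0 : 0 < D := ρ.den_pos
  have hDr : (0 : ℝ) < D := by exact_mod_cast hD0
  have har : (0 : ℝ) < a := by exact_mod_cast h.a_pos
  have hbr : (0 : ℝ) < b := by exact_mod_cast h.b_pos
  obtain ⟨n1, n2, n3, n4, n5, n6⟩ :=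
    hN2 a b D hB har h.a_lo h.a_up h.d_lo h.d_up
  set t : ℝ := (D : ℝ) / a with ht
  have ht0 : 0 < t := by positivity
  have hta : t * a = D := by rw [ht]; field_simp
  set T : ℝ := t ^ al with hT
  have hT0 : 0 < T := Real.rpow_pos_of_pos ht0 _
  -- the number V
  obtain ⟨hV1, hV2⟩ := ceil_two n1
  set V : ℕ := ⌈T / a⌉₊ with hVdef
  have hV : (4 : ℝ) ^ D.primeFactors.card < 2 * V := by
    calc (4 : ℝ) ^ D.primeFactors.card ≤ C * (D : ℝ) ^ γ := hC D hD0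
      _ < 2 * (T / a) := n2
      _ ≤ 2 * V := by linarith
  have hcop : IsCoprime ρ.num (D : ℤ) := by
    rw [Int.isCoprime_iff_gcd_eq_one]
    exact ρ.reduced
  obtain ⟨a', b', u', ha'0, hb'0, hcop', hcopD', hwedge, halow, haup, hu', hdb, hda⟩ :=
    hR a b D h.a_pos h.b_pos h.cop hD0 h.copD V hV ρ.num hcop
  have hred : u'.natAbs.Coprime D := by
    have := Int.isCoprime_iff_gcd_eq_one.1 hu'
    exact this
  set ρ' : ℚ := ⟨u', D, hD0.ne', hred⟩ with hρ'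
  have hρ'den : ρ'.den = D := rfl
  -- sizes of a' and b'
  have ha'r : (0 : ℝ) < a' := by exact_mod_cast ha'0
  have ha'1 : (1 : ℝ) ≤ a' := by exact_mod_cast ha'0
  have hb'r : (0 : ℝ) < b' := by exact_mod_cast hb'0
  have hb'1 : (1 : ℝ) ≤ b' := by exact_mod_cast hb'0
  have hwedgeR : (a : ℝ) * b' = D + b * a' := by exact_mod_cast hwedge
  have halowR : (a : ℝ) * V ≤ a' := by exact_mod_cast halow
  have haupR : (a' : ℝ) ≤ 3 * a * V := by exact_mod_cast haup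
  have hTa : T / a * a = T := by field_simp
  have ha'low : T ≤ a' := by
    calc T = T / a * a := hTa.symm
      _ ≤ V * a := by gcongr
      _ = a * V := mul_comm _ _
      _ ≤ a' := halowR
  have ha'up : (a' : ℝ) ≤ 6 * T := by
    calc (a' : ℝ) ≤ 3 * a * V := haupR
      _ ≤ 3 * a * (2 * (T / a)) := by gcongr
      _ = 6 * (T / a * a) := by ring
      _ = 6 * T := by rw [hTa]
  have hb'low : t ≤ b' := by
    have h1 : t * a ≤ b' * a := by
      rw [hta]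
      have : 0 ≤ (b : ℝ) * a' := by positivity
      linarith
    exact le_of_mul_le_mul_right h1 har
  have hb'up : (b' : ℝ) ≤ 2 * t := by
    have h1 : b' * a ≤ (2 * t) * a := by
      have h2 : (b : ℝ) * a' ≤ D := by
        calc (b : ℝ) * a' ≤ b * (6 * T) := by gcongr
          _ = 6 * b * T := by ring
          _ ≤ D := n3
      have h3 : (2 * t) * a = 2 * D := by rw [mul_assoc, hta]
      rw [h3]
      linarith
    exact le_of_mul_le_mul_right h1 har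
  have htlow : (b : ℝ) ^ lam ≤ t := by
    rw [ht, le_div_iff₀ har]
    have := h.d_lo
    linarith
  have htup : t ≤ 64 * (b : ℝ) ^ lam := by
    rw [ht, div_le_iff₀ har]
    have := h.d_up
    linarith
  -- the powers of b'
  have hpal : (b' : ℝ) ^ al ≤ 2 * T := by
    calc (b' : ℝ) ^ al ≤ (2 * t) ^ al := Real.rpow_le_rpow hb'r.le hb'up hal0.le
      _ = (2 : ℝ) ^ al * T := by rw [Real.mul_rpow (by norm_num) ht0.le]
      _ ≤ 2 * T := by
          apply mul_le_mul_of_nonneg_right _ hT0.le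
          calc (2 : ℝ) ^ al ≤ (2 : ℝ) ^ (1 : ℝ) :=
                Real.rpow_le_rpow_of_exponent_le (by norm_num) hal1.le
            _ = 2 := Real.rpow_one _
  have hpal2 : T ≤ (b' : ℝ) ^ al := Real.rpow_le_rpow ht0.le hb'low hal0.le
  have hlam0 : 0 < lam := by linarith
  have hplam : t ^ lam ≤ (b' : ℝ) ^ lam := Real.rpow_le_rpow ht0.le hb'low hlam0.le
  have hplam1 : 1 ≤ (b' : ℝ) ^ lam := Real.one_le_rpow hb'1 hlam0.le
  -- the number A0
  obtain ⟨hA1, hA2⟩ := ceil_two (x := (b : ℝ) ^ mu / D) (by linarith)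
  set A0 : ℕ := ⌈(b : ℝ) ^ mu / D⌉₊ with hA0
  have hA4 : 4 ≤ A0 := by
    have : (4 : ℝ) ≤ A0 := by linarith
    exact_mod_cast this
  have hbD : (b : ℝ) ^ mu / D * D = (b : ℝ) ^ mu := by field_simp
  have hAD1 : (b : ℝ) ^ mu ≤ A0 * D := by
    calc (b : ℝ) ^ mu = (b : ℝ) ^ mu / D * D := hbD.symm
      _ ≤ A0 * D := by gcongr
  have hAD2 : (A0 : ℝ) * D ≤ 2 * (b : ℝ) ^ mu := by
    calc (A0 : ℝ) * D ≤ (2 * ((b : ℝ) ^ mu / D)) * D := by gcongr
      _ = 2 * ((b : ℝ) ^ mu / D * D) := by ring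
      _ = 2 * (b : ℝ) ^ mu := by rw [hbD]
  -- the number Y
  have hY0 : 1 ≤ (a' : ℝ) * (b' : ℝ) ^ lam := one_le_mul_of_one_le_of_one_le ha'1 hplam1
  obtain ⟨hY1, hY2⟩ := ceil_two hY0
  set Y : ℕ := ⌈(a' : ℝ) * (b' : ℝ) ^ lam⌉₊ with hYdef
  have hAY : 2 * (A0 * ρ'.den) ≤ Y := by
    rw [hρ'den]
    have h1 : 2 * ((A0 : ℝ) * D) ≤ Y := by
      calc 2 * ((A0 : ℝ) * D) ≤ 2 * (2 * (b : ℝ) ^ mu) := by linarith
        _ = 4 * (b : ℝ) ^ mu := by ring
        _ ≤ T * t ^ lam := n6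
        _ ≤ a' * (b' : ℝ) ^ lam := mul_le_mul ha'low hplam (by positivity) ha'r.le
        _ ≤ Y := hY1
    exact_mod_cast h1
  have hI : 2 * 4 ^ a'.primeFactors.card < A0 := by
    have h1 : (2 : ℝ) * 4 ^ a'.primeFactors.card < A0 := by
      calc (2 : ℝ) * 4 ^ a'.primeFactors.card ≤ 2 * (C * (a' : ℝ) ^ γ) := by
            have := hC a' ha'0
            linarith
        _ ≤ 2 * (C * (6 * T) ^ γ) := by
            have : (a' : ℝ) ^ γ ≤ (6 * T) ^ γ := Real.rpow_le_rpow ha'r.le ha'up hγ.le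
            have hC0 : 0 ≤ C := by linarith
            gcongr
        _ < (b : ℝ) ^ mu / D := n5
        _ ≤ A0 := hA1
    exact_mod_cast h1
  obtain ⟨A, ρn, hA5, hA6, hcn, hn1, hn2, hn3, hn4, hn5⟩ :=
    hSt ρ' A0 A0 Y a' hA4 le_rfl ha'0 (by rw [hρ'den]; exact hcopD') hI hAY
  rw [hρ'den] at hn3 hn4 hn5
  have hA5r : (A0 : ℝ) ≤ A := by exact_mod_cast hA5
  have hA6r : (A : ℝ) ≤ 2 * A0 := by exact_mod_cast hA6
  have hn1r : (Y : ℝ) ≤ ρn.den := by exact_mod_cast hn1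
  have hn2r : (ρn.den : ℝ) ≤ 32 * Y := by exact_mod_cast hn2
  refine ⟨a', b', ρn, A, ρ', ⟨ha'0, hb'0, hcop', hcn, ?_, ?_, ?_, ?_⟩,
    ⟨hwedge, by omega, ?_, ?_, hn3, hn4, hn5, ?_, ?_, ?_, ?_⟩⟩
  · linarith
  · linarith
  · exact hY1.trans hn1r
  · linarith
  · obtain ⟨c, hc⟩ := hdb
    refine ⟨c, ?_⟩
    have h1 : (D : ℝ) * (ρ : ℝ) = ρ.num := by exact_mod_cast Rat.den_mul_eq_num ρ
    have h2 : (D : ℝ) * (ρ' : ℝ) = u' := by exact_mod_cast Rat.den_mul_eq_num ρ'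
    have h3 : (b : ℝ) * ρ.num - b' * u' = D * c := by exact_mod_cast hc
    apply mul_left_cancel₀ hDr.ne'
    linear_combination (b : ℝ) * h1 - (b' : ℝ) * h2 + h3
  · obtain ⟨c, hc⟩ := hda
    refine ⟨c, ?_⟩
    have h1 : (D : ℝ) * (ρ : ℝ) = ρ.num := by exact_mod_cast Rat.den_mul_eq_num ρ
    have h2 : (D : ℝ) * (ρ' : ℝ) = u' := by exact_mod_cast Rat.den_mul_eq_num ρ'
    have h3 : (a : ℝ) * ρ.num - a' * u' = D * c := by exact_mod_cast hc
    apply mul_left_cancel₀ hDr.ne'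
    linear_combination (a : ℝ) * h1 - (a' : ℝ) * h2 + h3
  · exact htlow.trans hb'low
  · linarith
  · calc (b : ℝ) ^ mu ≤ A0 * D := hAD1
      _ ≤ A * D := by gcongr
  · calc (A : ℝ) * D ≤ (2 * A0) * D := by gcongr
      _ = 2 * (A0 * D) := by ring
      _ ≤ 2 * (2 * (b : ℝ) ^ mu) := by linarith
      _ = 4 * (b : ℝ) ^ mu := by ring

end Pool.Agent.W789.TH.B06
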