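import Mathlib
import Pool.Agent.W789.TH.Defs
import Pool.Agent.W789.TH.DefsB

/-!
Project TH, part B06a: size estimates for one stage.
-/

namespace Pool.Agent.W789.TH.B06a

open Pool.Agent.W789.TH Filter

theorem big (K e1 e2 : ℝ) (h : e1 < e2) : ∀ᶠ b : ℝ in atTop, K * b ^ e1 < b ^ e2 := by
  have h1 := (tendsto_rpow_atTop (sub_pos.mpr h)).eventually_gt_atTop K
  filter_upwards [h1, eventually_gt_atTop (0 : ℝ)] with b hb hb0
  have h2 : b ^ e2 = b ^ (e2 - e1) * b ^ e1 := by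
    rw [← Real.rpow_add hb0]
    congr 1
    ring
  rw [h2]
  exact mul_lt_mul_of_pos_right hb (Real.rpow_pos_of_pos hb0 _)

theorem pf : NsizeStm := by
  intro lam al mu hal0 hal1 hlam hmu1 hmu2
  have hlal : 0 < lam * al := mul_pos (by linarith) hal0
  have hg1 : 0 < (lam - 1) * al / (2 * (lam + al)) :=
    div_pos (mul_pos (by linarith) hal0) (by linarith)
  have hg2 : 0 < (mu - lam - al) / (2 * (lam * al)) := div_pos (by linarith) (by linarith)
  obtain ⟨γ, hγ⟩ : ∃ γ : ℝ, γ = min ((lam - 1) * al / (2 * (lam + al)))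
      ((mu - lam - al) / (2 * (lam * al))) := ⟨_, rfl⟩
  have hγ0 : 0 < γ := by rw [hγ]; exact lt_min hg1 hg2
  have hγ1 : γ * (lam + al) ≤ (lam - 1) * al / 2 := by
    have h1 : γ ≤ (lam - 1) * al / (2 * (lam + al)) := by rw [hγ]; exact min_le_left _ _
    have h2 : 0 < lam + al := by linarith
    calc γ * (lam + al) ≤ (lam - 1) * al / (2 * (lam + al)) * (lam + al) := by gcongr
      _ = (lam - 1) * al / 2 := by field_simp
  have hγ2 : γ * (lam * al) ≤ (mu - lam - al) / 2 := by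
    have h1 : γ ≤ (mu - lam - al) / (2 * (lam * al)) := by rw [hγ]; exact min_le_right _ _
    calc γ * (lam * al) ≤ (mu - lam - al) / (2 * (lam * al)) * (lam * al) := by gcongr
      _ = (mu - lam - al) / 2 := by field_simp
  have hp1 : 0 < (lam - 1) * al := mul_pos (by linarith) hal0
  have hp2 : 0 < (lam - 1) * (1 - al) := mul_pos (by linarith) (by linarith)
  refine ⟨γ, hγ0, fun C hC => ?_⟩
  have hC0 : 0 < C := by linarith
  -- the six inequalities in `b`
  have hev : ∀ᶠ b : ℝ in atTop, (6 * b ^ al < b ^ (lam * al) ∧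
      (C * 384 ^ γ * 6) * b ^ (γ * (lam + al) + al) < b ^ (lam * al) ∧
      (12 * 64 ^ al) * b ^ (1 + lam * al) < b ^ (al + lam)) ∧
      (1536 * b ^ (al + lam) < b ^ mu ∧
      (2 * C * (6 * 64 ^ al) ^ γ * 384) * b ^ (γ * (lam * al) + (al + lam)) < b ^ mu ∧
      4 * b ^ mu < b ^ (lam * al + lam * lam)) := by
    refine Filter.Eventually.and (Filter.Eventually.and (big _ _ _ (by nlinarith))
      (Filter.Eventually.and (big _ _ _ (by nlinarith)) (big _ _ _ (by nlinarith))))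
      (Filter.Eventually.and (big _ _ _ (by linarith))
      (Filter.Eventually.and (big _ _ _ (by nlinarith)) (big _ _ _ (by nlinarith))))
  obtain ⟨B, hB⟩ := Filter.eventually_atTop.mp hev
  refine ⟨max B 2, lt_of_lt_of_le (by norm_num) (le_max_right _ _), ?_⟩
  intro a b D hb ha h1 h2 h3 h4
  obtain ⟨⟨e1, e2, e3⟩, e4, e5, e6⟩ := hB b (le_trans (le_max_left _ _) hb)
  have hb2 : 2 ≤ b := le_trans (le_max_right _ _) hb
  have hb0 : 0 < b := by linarith
  have hbl : 0 < b ^ lam := Real.rpow_pos_of_pos hb0 _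
  have hbal : 0 < b ^ al := Real.rpow_pos_of_pos hb0 _
  have hD0 : 0 < D := lt_of_lt_of_le (mul_pos ha hbl) h3
  obtain ⟨t, ht⟩ : ∃ t : ℝ, t = D / a := ⟨_, rfl⟩
  rw [← ht]
  have ht0 : 0 < t := by rw [ht]; exact div_pos hD0 ha
  have ht1 : b ^ lam ≤ t := by
    rw [ht, le_div_iff₀ ha]
    linarith
  have ht2 : t ≤ 64 * b ^ lam := by
    rw [ht, div_le_iff₀ ha]
    linarith
  have hta1 : b ^ (lam * al) ≤ t ^ al := by
    rw [Real.rpow_mul hb0.le]
    exact Real.rpow_le_rpow hbl.le ht1 hal0.le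
  have hta2 : t ^ al ≤ 64 ^ al * b ^ (lam * al) := by
    rw [Real.rpow_mul hb0.le, ← Real.mul_rpow (by norm_num) hbl.le]
    exact Real.rpow_le_rpow ht0.le ht2 hal0.le
  have htl1 : b ^ (lam * lam) ≤ t ^ lam := by
    rw [Real.rpow_mul hb0.le]
    exact Real.rpow_le_rpow hbl.le ht1 (by linarith)
  have hta0 : 0 < t ^ al := Real.rpow_pos_of_pos ht0 _
  have hD1 : D ≤ 384 * b ^ (al + lam) := by
    rw [Real.rpow_add hb0]
    calc D ≤ 64 * a * b ^ lam := h4
      _ ≤ 64 * (6 * b ^ al) * b ^ lam := by gcongr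
      _ = 384 * (b ^ al * b ^ lam) := by ring
  have hDg : D ^ γ ≤ 384 ^ γ * b ^ (γ * (lam + al)) := by
    calc D ^ γ ≤ (384 * b ^ (al + lam)) ^ γ := Real.rpow_le_rpow hD0.le hD1 hγ0.le
      _ = 384 ^ γ * b ^ (γ * (lam + al)) := by
        rw [Real.mul_rpow (by norm_num) (Real.rpow_nonneg hb0.le _), ← Real.rpow_mul hb0.le]
        congr 2
        ring
  have h384 : (0 : ℝ) < 384 ^ γ := Real.rpow_pos_of_pos (by norm_num) _
  have h64 : (0 : ℝ) < 64 ^ al := Real.rpow_pos_of_pos (by norm_num) _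
  refine ⟨?_, ?_, ?_, ?_, ?_, ?_⟩
  · rw [le_div_iff₀ ha, one_mul]
    linarith
  · have h5 : C * D ^ γ * a < 2 * t ^ al := by
      calc C * D ^ γ * a ≤ C * (384 ^ γ * b ^ (γ * (lam + al))) * (6 * b ^ al) := by gcongr
        _ = (C * 384 ^ γ * 6) * b ^ (γ * (lam + al) + al) := by
          rw [Real.rpow_add hb0]
          ring
        _ < b ^ (lam * al) := e2
        _ ≤ t ^ al := hta1
        _ ≤ 2 * t ^ al := by linarith
    calc C * D ^ γ = C * D ^ γ * a / a := by field_simp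
      _ < 2 * t ^ al / a := div_lt_div_of_pos_right h5 ha
      _ = 2 * (t ^ al / a) := by ring
  · calc 6 * b * t ^ al ≤ 6 * b * (64 ^ al * b ^ (lam * al)) := by gcongr
      _ = (12 * 64 ^ al) * b ^ (1 + lam * al) / 2 := by
        rw [Real.rpow_add hb0, Real.rpow_one]
        ring
      _ ≤ b ^ (al + lam) / 2 := by linarith
      _ = b ^ al / 2 * b ^ lam := by
        rw [Real.rpow_add hb0]
        ring
      _ ≤ a * b ^ lam := by
        apply mul_le_mul_of_nonneg_right _ hbl.le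
        linarith
      _ ≤ D := h3
  · rw [le_div_iff₀ hD0]
    linarith
  · rw [lt_div_iff₀ hD0]
    have h5 : (6 * t ^ al) ^ γ ≤ (6 * 64 ^ al) ^ γ * b ^ (γ * (lam * al)) := by
      calc (6 * t ^ al) ^ γ ≤ ((6 * 64 ^ al) * b ^ (lam * al)) ^ γ := by
            apply Real.rpow_le_rpow (by positivity) _ hγ0.le
            linarith
        _ = (6 * 64 ^ al) ^ γ * b ^ (γ * (lam * al)) := by
          rw [Real.mul_rpow (by positivity) (Real.rpow_nonneg hb0.le _), ← Real.rpow_mul hb0.le]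
          congr 2
          ring
    have h6 : (0 : ℝ) < (6 * t ^ al) ^ γ := Real.rpow_pos_of_pos (by positivity) _
    calc 2 * (C * (6 * t ^ al) ^ γ) * D
        ≤ 2 * (C * ((6 * 64 ^ al) ^ γ * b ^ (γ * (lam * al)))) * (384 * b ^ (al + lam)) := by
          gcongr
      _ = (2 * C * (6 * 64 ^ al) ^ γ * 384) * b ^ (γ * (lam * al) + (al + lam)) := by
          rw [Real.rpow_add hb0 (γ * (lam * al))]
          ring
      _ < b ^ mu := e5
  · calc 4 * b ^ mu ≤ b ^ (lam * al + lam * lam) := e6.le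
      _ = b ^ (lam * al) * b ^ (lam * lam) := Real.rpow_add hb0 _ _
      _ ≤ t ^ al * t ^ lam := by
        apply mul_le_mul hta1 htl1 (Real.rpow_nonneg hb0.le _) hta0.le

end Pool.Agent.W789.TH.B06a

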