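import Mathlib
import Pool.Agent.W789.TH.Defs
import Pool.Agent.W789.TH.DefsB

/-! TH-B07: the initial stage -/

namespace Pool.Agent.W789.TH.B07

open Pool.Agent.W789.TH

theorem pf : InitStm := by
  intro lam al h0 h1 hlam B
  have hc : 0 < 1 / al - 1 := by
    rw [sub_pos, lt_div_iff₀ h0]; linarith
  obtain ⟨a, ha⟩ := exists_nat_ge (max B (max 1 ((2 : ℝ) ^ (1 / (1 / al - 1)))))
  have haB : B ≤ a := (le_max_left _ _).trans ha
  have ha1 : (1 : ℝ) ≤ a := (le_max_left _ _).trans ((le_max_right _ _).trans ha)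
  have ha2 : (2 : ℝ) ^ (1 / (1 / al - 1)) ≤ a :=
    (le_max_right _ _).trans ((le_max_right _ _).trans ha)
  have ha0 : (0 : ℝ) < a := by linarith
  have hapos : 0 < a := by exact_mod_cast ha0
  have hpow2 : (2 : ℝ) ≤ (a : ℝ) ^ (1 / al - 1) := by
    have h3 := Real.rpow_le_rpow (by positivity) ha2 hc.le
    rw [← Real.rpow_mul (by norm_num), one_div, inv_mul_cancel₀ hc.ne', Real.rpow_one] at h3
    simpa [one_div] using h3
  set t := ⌊(a : ℝ) ^ (1 / al - 1)⌋₊ with ht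
  have ht_le : (t : ℝ) ≤ (a : ℝ) ^ (1 / al - 1) := Nat.floor_le (by positivity)
  have ht_gt : (a : ℝ) ^ (1 / al - 1) < t + 1 := Nat.lt_floor_add_one _
  have ht1 : (1 : ℝ) ≤ t := by
    have : 1 ≤ t := by
      rw [ht]
      exact Nat.le_floor (by push_cast; linarith)
    exact_mod_cast this
  set b := a * t + 1 with hb
  have hbR : (b : ℝ) = a * t + 1 := by rw [hb]; push_cast; ring
  have hpow : (a : ℝ) * (a : ℝ) ^ (1 / al - 1) = (a : ℝ) ^ (1 / al) := by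
    rw [Real.rpow_sub ha0, Real.rpow_one]
    field_simp
  have hapow1 : 1 ≤ (a : ℝ) ^ (1 / al) := Real.one_le_rpow ha1 (by positivity)
  have hb_le : (b : ℝ) ≤ 2 * (a : ℝ) ^ (1 / al) := by
    rw [hbR]
    have : (a : ℝ) * t ≤ (a : ℝ) ^ (1 / al) := by
      rw [← hpow]
      exact mul_le_mul_of_nonneg_left ht_le ha0.le
    linarith
  have hb_ge : (1 / 2) * (a : ℝ) ^ (1 / al) ≤ b := by
    rw [hbR, ← hpow]
    nlinarith
  have hb1 : (1 : ℝ) ≤ b := by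
    rw [hbR]
    have : 0 ≤ (a : ℝ) * t := by positivity
    linarith
  have hbpos : 0 < b := Nat.succ_pos _
  have hback : ((a : ℝ) ^ (1 / al)) ^ al = a := by
    rw [← Real.rpow_mul ha0.le, one_div, inv_mul_cancel₀ h0.ne', Real.rpow_one]
  have h2al : (2 : ℝ) ^ al ≤ 2 := by
    calc (2 : ℝ) ^ al ≤ 2 ^ (1 : ℝ) := Real.rpow_le_rpow_of_exponent_le (by norm_num) h1.le
      _ = 2 := Real.rpow_one 2
  have hhal : (1 / 2 : ℝ) ≤ (1 / 2 : ℝ) ^ al := by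
    calc (1 / 2 : ℝ) = (1 / 2 : ℝ) ^ (1 : ℝ) := (Real.rpow_one _).symm
      _ ≤ (1 / 2 : ℝ) ^ al :=
        Real.rpow_le_rpow_of_exponent_ge (by norm_num) (by norm_num) h1.le
  set D := a * ⌈(b : ℝ) ^ lam⌉₊ + 1 with hD
  have hDR : (D : ℝ) = a * (⌈(b : ℝ) ^ lam⌉₊ : ℝ) + 1 := by rw [hD]; push_cast; ring
  have hDpos : 0 < D := Nat.succ_pos _
  have hden : ((D : ℚ)⁻¹).den = D := Rat.inv_natCast_den_of_pos hDpos
  have hblam : 1 ≤ (b : ℝ) ^ lam := Real.one_le_rpow hb1 (by linarith)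
  refine ⟨a, b, (D : ℚ)⁻¹, ⟨hapos, hbpos, ?_, ?_, ?_, ?_, ?_, ?_⟩, ?_⟩
  · rw [hb]
    simp
  · rw [hden, hD]
    simp
  · calc (b : ℝ) ^ al ≤ (2 * (a : ℝ) ^ (1 / al)) ^ al :=
        Real.rpow_le_rpow (by positivity) hb_le h0.le
      _ = 2 ^ al * a := by rw [Real.mul_rpow (by norm_num) (by positivity), hback]
      _ ≤ 2 * a := mul_le_mul_of_nonneg_right h2al ha0.le
  · have h3 : (1 / 2 : ℝ) * a ≤ (b : ℝ) ^ al := by
      calc (1 / 2 : ℝ) * a ≤ (1 / 2 : ℝ) ^ al * a := mul_le_mul_of_nonneg_right hhal ha0.le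
        _ = (1 / 2 * (a : ℝ) ^ (1 / al)) ^ al := by
          rw [Real.mul_rpow (by norm_num) (by positivity), hback]
        _ ≤ (b : ℝ) ^ al := Real.rpow_le_rpow (by positivity) hb_ge h0.le
    linarith
  · rw [hden, hDR]
    have h4 : (b : ℝ) ^ lam ≤ (⌈(b : ℝ) ^ lam⌉₊ : ℝ) := Nat.le_ceil _
    have h5 := mul_le_mul_of_nonneg_left h4 ha0.le
    linarith
  · rw [hden, hDR]
    have h4 : (⌈(b : ℝ) ^ lam⌉₊ : ℝ) < (b : ℝ) ^ lam + 1 := Nat.ceil_lt_add_one (by positivity)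
    have h5 := mul_le_mul_of_nonneg_left h4.le ha0.le
    nlinarith
  · have : (a : ℝ) ≤ b := by rw [hbR]; nlinarith
    linarith

end Pool.Agent.W789.TH.B07
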