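import Mathlib
import Pool.Agent.W789.TH.Defs
import Pool.Agent.W789.TH.DefsB

/-! Project TH, part B08: the sequence. -/

set_option autoImplicit false

namespace Pool.Agent.W789.TH.B08

open Pool.Agent.W789.TH

theorem log_between {x y c : ℝ} (hy : 0 < y) (hc : 0 < c) (h1 : y ≤ x) (h2 : x ≤ c * y) :
    0 ≤ Real.log x - Real.log y ∧ Real.log x - Real.log y ≤ Real.log c := by
  have hx : 0 < x := lt_of_lt_of_le hy h1
  have e1 := Real.log_le_log hy h1
  have e2 := Real.log_le_log hx h2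
  rw [Real.log_mul hc.ne' hy.ne'] at e2
  constructor <;> linarith

theorem pf (hN : NextStm) (hI : InitStm) : RawStm := by
  intro lam al mu hal0 hal1 hlam h1 h2
  refine ⟨Real.log 2 + Real.log 4 + Real.log 6 + Real.log 64 + Real.log 128, fun X0 => ?_⟩
  obtain ⟨B0, hB0, hnext⟩ := hN lam al mu hal0 hal1 hlam h1 h2
  set B : ℝ := max B0 (Real.exp X0) with hB
  obtain ⟨a0, b0, ρ0, hG0, hBb0⟩ := hI lam al hal0 hal1 hlam B
  let T := {s : ℕ × ℕ × ℚ // Good lam al s.1 s.2.1 s.2.2 ∧ B ≤ (s.2.1 : ℝ)}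
  have hstep : ∀ s : T, ∃ s' : T, ∃ (A : ℕ) (ρ' : ℚ),
      Nxt lam mu s.1.1 s.1.2.1 s.1.2.2 s'.1.1 s'.1.2.1 s'.1.2.2 A ρ' := by
    rintro ⟨⟨a, b, ρ⟩, hs, hsB⟩
    obtain ⟨a', b', ρn, A, ρ', g1, g2⟩ := hnext a b ρ hs ((le_max_left _ _).trans hsB)
    have hb1 : (1 : ℝ) ≤ b := by exact_mod_cast hs.b_pos
    have hle : (b : ℝ) ≤ b' := by
      refine le_trans ?_ g2.b_lo
      calc (b : ℝ) = (b : ℝ) ^ (1 : ℝ) := (Real.rpow_one _).symm
        _ ≤ (b : ℝ) ^ lam := Real.rpow_le_rpow_of_exponent_le hb1 (by linarith)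
    exact ⟨⟨(a', b', ρn), g1, hsB.trans hle⟩, A, ρ', g2⟩
  choose f hf using hstep
  choose Af hAf using hf
  choose rf hrf using hAf
  let s0 : T := ⟨(a0, b0, ρ0), hG0, hBb0⟩
  let sq : ℕ → T := fun k => f^[k] s0
  have hsq : ∀ k, sq (k + 1) = f (sq k) := fun k => Function.iterate_succ_apply' f k s0
  obtain ⟨a, b, A, ρ, ρ', hgood, hbB, hnxt⟩ : ∃ (a b A : ℕ → ℕ) (ρ ρ' : ℕ → ℚ),
      (∀ k, Good lam al (a k) (b k) (ρ k)) ∧ (∀ k, B ≤ (b k : ℝ)) ∧
      ∀ k, Nxt lam mu (a k) (b k) (ρ k) (a (k + 1)) (b (k + 1)) (ρ (k + 1)) (A k) (ρ' k) := by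
    refine ⟨fun k => (sq k).1.1, fun k => (sq k).1.2.1, fun k => Af (sq k),
      fun k => (sq k).1.2.2, fun k => rf (sq k), fun k => (sq k).2.1, fun k => (sq k).2.2,
      fun k => ?_⟩
    have := hrf (sq k)
    rw [← hsq k] at this
    exact this
  let d : Raw :=
    { a := a
      b := b
      A := A
      ρ := ρ
      ρ' := ρ'
      a_pos := fun k => (hgood k).a_pos
      b_pos := fun k => (hgood k).b_pos
      cop := fun k => (hgood k).cop
      copa := fun k => by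
        have hw := (hnxt k).wedge
        have hc := (hgood k).copD
        rw [Nat.coprime_iff_gcd_eq_one]
        have g1 : Nat.gcd (a k) (a (k + 1)) ∣ a k := Nat.gcd_dvd_left _ _
        have g2 : Nat.gcd (a k) (a (k + 1)) ∣ a (k + 1) := Nat.gcd_dvd_right _ _
        have g3 : Nat.gcd (a k) (a (k + 1)) ∣ (ρ k).den + b k * a (k + 1) := by
          rw [← hw]
          exact g1.mul_right _
        have g4 : Nat.gcd (a k) (a (k + 1)) ∣ (ρ k).den := (Nat.dvd_add_left (g2.mul_left _)).1 g3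
        exact Nat.eq_one_of_dvd_coprimes hc g1 g4
      wedge := fun k => (hnxt k).wedge
      A_two := fun k => (hnxt k).A_two
      int_b := fun k => (hnxt k).int_b
      int_a := fun k => (hnxt k).int_a
      dist_up := fun k => (hnxt k).dist_up
      dist_low := fun k => (hnxt k).dist_low
      lower := fun k => (hnxt k).lower }
  have l2 : 0 ≤ Real.log 2 := Real.log_nonneg (by norm_num)
  have l4 : 0 ≤ Real.log 4 := Real.log_nonneg (by norm_num)
  have l6 : 0 ≤ Real.log 6 := Real.log_nonneg (by norm_num)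
  have l64 : 0 ≤ Real.log 64 := Real.log_nonneg (by norm_num)
  have l128 : 0 ≤ Real.log 128 := Real.log_nonneg (by norm_num)
  have hb0 : ∀ k, (0 : ℝ) < b k := fun k => by exact_mod_cast (hgood k).b_pos
  have ha0 : ∀ k, (0 : ℝ) < a k := fun k => by exact_mod_cast (hgood k).a_pos
  have hla : ∀ k, -Real.log 2 ≤ Real.log (a k) - al * Real.log (b k) ∧
      Real.log (a k) - al * Real.log (b k) ≤ Real.log 6 := by
    intro k
    have e1 := Real.log_le_log (Real.rpow_pos_of_pos (hb0 k) al) (hgood k).a_lo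
    have e2 := Real.log_le_log (ha0 k) (hgood k).a_up
    rw [Real.log_mul (by norm_num) (ha0 k).ne', Real.log_rpow (hb0 k)] at e1
    rw [Real.log_mul (by norm_num) (Real.rpow_pos_of_pos (hb0 k) al).ne', Real.log_rpow (hb0 k)] at e2
    constructor <;> linarith
  refine ⟨d, ⟨fun k => ?_, fun k => ?_, fun k => ?_, fun k => ?_⟩, fun k => ?_⟩
  · change |Real.log (b (k + 1)) - lam * Real.log (b k)| ≤ _
    obtain ⟨e1, e2⟩ := log_between (Real.rpow_pos_of_pos (hb0 k) lam) (by norm_num : (0 : ℝ) < 128)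
      (hnxt k).b_lo (hnxt k).b_up
    rw [Real.log_rpow (hb0 k)] at e1 e2
    rw [abs_le]
    constructor <;> linarith
  · change |Real.log (a k) - al * Real.log (b k)| ≤ _
    obtain ⟨e1, e2⟩ := hla k
    rw [abs_le]
    constructor <;> linarith
  · change |Real.log ((ρ k).den) - (lam + al) * Real.log (b k)| ≤ _
    have hp : (0 : ℝ) < a k * (b k : ℝ) ^ lam := mul_pos (ha0 k) (Real.rpow_pos_of_pos (hb0 k) lam)
    obtain ⟨e1, e2⟩ := log_between hp (by norm_num : (0 : ℝ) < 64)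
      (hgood k).d_lo (by rw [← mul_assoc]; exact (hgood k).d_up)
    rw [Real.log_mul (ha0 k).ne' (Real.rpow_pos_of_pos (hb0 k) lam).ne', Real.log_rpow (hb0 k)]
      at e1 e2
    obtain ⟨e3, e4⟩ := hla k
    rw [abs_le]
    constructor <;> linarith
  · change |Real.log ((A k : ℝ) * ((ρ k).den : ℕ)) - mu * Real.log (b k)| ≤ _
    obtain ⟨e1, e2⟩ := log_between (Real.rpow_pos_of_pos (hb0 k) mu) (by norm_num : (0 : ℝ) < 4)
      (hnxt k).q_lo (hnxt k).q_up
    rw [Real.log_rpow (hb0 k)] at e1 e2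
    rw [abs_le]
    constructor <;> linarith
  · change X0 ≤ Real.log (b k)
    rw [Real.le_log_iff_exp_le (hb0 k)]
    exact (le_max_right _ _).trans (hbB k)

end Pool.Agent.W789.TH.B08
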