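import Mathlib
import Pool.Agent.W789.TH.Defs
import Pool.Agent.W789.TH.DefsB

set_option autoImplicit false

namespace Pool.Agent.W789.TH.B09

open Pool.Agent.W789.TH

lemma big (δ C : ℝ) (hδ : 0 < δ) : ∃ X : ℝ, ∀ x, X ≤ x → C ≤ δ * x :=
  ⟨C / δ, fun x hx => by rw [div_le_iff₀ hδ] at hx; linarith⟩

theorem pf : GrowStm := by
  intro s ρ lam al mu K hc
  have al0 := hc.al0
  have al1 := hc.al1
  have lam2 := hc.lam2
  have c3 := hc.c3
  have c13 := hc.c13
  have c14 := hc.c14
  have c15 := hc.c15
  have hmu : 0 < mu := by linarith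
  set l2 := Real.log 2 with hl2
  have p1 : 0 < (lam - 1) * (mu + al) := mul_pos (by linarith) (by linarith)
  have p2 : 0 < lam * (mu + lam + 2 * al - al * lam) - (mu + lam + al) := by nlinarith
  have p3 : 0 < 1 - al := by linarith
  have pb : 0 < lam - 1 := by linarith
  have p4 : 0 < lam * (mu + al) - 2 * mu := by nlinarith
  have p5 : 0 < lam * (lam + al) - mu := by linarith
  have p6 : 0 < (mu - lam) * lam - mu := by nlinarith
  have p7 : 0 < lam + al - 2 := by linarith
  have p8 : 0 < mu - 2 * lam := by linarith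
  obtain ⟨X1, h1⟩ := big _ (l2 + 5 * K + (1 + mu + al) * K) p1
  obtain ⟨X2, h2⟩ := big _ (l2 + (6 + al) * K + (mu + lam + 2 * al - al * lam) * K) p2
  obtain ⟨X3, h3⟩ := big _ K p3
  obtain ⟨X4, h4⟩ := big _ (K + l2) pb
  obtain ⟨X5, h5⟩ := big _ (3 * l2 + 5 * K + (mu + al) * K) p4
  obtain ⟨X6, h6⟩ := big _ (6 * l2 + 2 * K + (lam + al) * K) p5
  obtain ⟨X7, h7⟩ := big _ (l2 + 3 * K + (mu - lam) * K) p6
  obtain ⟨X8, h8⟩ := big _ (K + 1) p7
  obtain ⟨X9, h9⟩ := big _ (4 * l2 + 3 * K) p8
  refine ⟨max X1 (max X2 (max X3 (max X4 (max X5 (max X6 (max X7 (max X8 X9))))))), ?_⟩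
  intro d hS hX
  simp only [max_le_iff] at hX
  have hbp : ∀ k, (0 : ℝ) < d.b k := fun k => by exact_mod_cast d.b_pos k
  have hap : ∀ k, (0 : ℝ) < d.a k := fun k => by exact_mod_cast d.a_pos k
  have hDp : ∀ k, (0 : ℝ) < d.D k := fun k => by
    have : 0 < d.D k := (d.ρ k).den_pos
    exact_mod_cast this
  have hQp : ∀ k, 0 < d.Q k := fun k => by
    have h1 : (2 : ℝ) ≤ d.A k := by exact_mod_cast d.A_two k
    unfold Raw.Q
    exact mul_pos (by linarith) (hDp k)
  have lb := fun k => abs_le.1 (hS.lb k)
  have la := fun k => abs_le.1 (hS.la k)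
  have lD := fun k => abs_le.1 (hS.lD k)
  have lQ := fun k => abs_le.1 (hS.lQ k)
  have hK : 0 ≤ K := le_trans (abs_nonneg _) (hS.lb 0)
  have l8 : Real.log 8 = 3 * l2 := by
    rw [show (8 : ℝ) = 2 ^ 3 by norm_num, Real.log_pow]; norm_num [hl2]
  have l64 : Real.log 64 = 6 * l2 := by
    rw [show (64 : ℝ) = 2 ^ 6 by norm_num, Real.log_pow]; norm_num [hl2]
  have l16 : Real.log 16 = 4 * l2 := by
    rw [show (16 : ℝ) = 2 ^ 4 by norm_num, Real.log_pow]; norm_num [hl2]
  constructor
  · intro k
    have e1 := h1 _ (hX k).1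
    have := hbp (k + 2)
    have := hbp (k + 1)
    have := hQp k
    have := hDp k
    have := hQp (k + 1)
    have := hDp (k + 1)
    rw [← Real.log_le_log_iff (by positivity) (by positivity),
      Real.log_mul (by positivity) (by positivity), Real.log_mul (by positivity) (by positivity),
      Real.log_mul (by positivity) (by positivity), Real.log_mul (by positivity) (by positivity),
      Real.log_mul (by positivity) (by positivity)]
    have a1 := lb k
    have a2 := lb (k + 1)
    have a3 := lQ k
    have a4 := lD k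
    have a5 := lQ (k + 1)
    have a6 := lD (k + 1)
    have e2 : (1 + mu + al) * (lam * Real.log (d.b k) - K) ≤ (1 + mu + al) * Real.log (d.b (k + 1)) :=
      mul_le_mul_of_nonneg_left (by linarith [a1.1]) (by linarith)
    have e3 : k + 1 + 1 = k + 2 := rfl
    rw [e3] at a2
    nlinarith [a1.1, a2.2, a3.2, a4.2, a5.1, a6.1]
  · intro k
    have e1 := h2 _ (hX k).2.1
    have := hap (k + 2)
    have := hap (k + 1)
    have := hQp k
    have := hDp k
    have := hQp (k + 1)
    have := hDp (k + 1)
    rw [← Real.log_le_log_iff (by positivity) (by positivity),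
      Real.log_mul (by positivity) (by positivity), Real.log_mul (by positivity) (by positivity),
      Real.log_mul (by positivity) (by positivity), Real.log_mul (by positivity) (by positivity),
      Real.log_mul (by positivity) (by positivity)]
    have a1 := lb k
    have a2 := lb (k + 1)
    have a3 := lQ k
    have a4 := lD k
    have a5 := lQ (k + 1)
    have a6 := lD (k + 1)
    have a7 := la (k + 2)
    have a8 := la (k + 1)
    have e0 : 0 ≤ mu + lam + 2 * al - al * lam := by nlinarith
    have e2 : (mu + lam + 2 * al - al * lam) * (lam * Real.log (d.b k) - K) ≤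
        (mu + lam + 2 * al - al * lam) * Real.log (d.b (k + 1)) :=
      mul_le_mul_of_nonneg_left (by linarith [a1.1]) e0
    have e3 : k + 1 + 1 = k + 2 := rfl
    rw [e3] at a2
    have e4 : al * Real.log (d.b (k + 2)) ≤ al * (lam * Real.log (d.b (k + 1)) + K) :=
      mul_le_mul_of_nonneg_left (by linarith [a2.2]) al0.le
    nlinarith [a1.1, a2.2, a3.2, a4.2, a5.1, a6.1, a7.2, a8.1]
  · intro k
    have e1 := h3 _ (hX k).2.2.1
    rw [← Real.log_le_log_iff (hap k) (hbp k)]
    nlinarith [(la k).2]
  · intro k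
    have e1 := h4 _ (hX k).2.2.2.1
    have := hbp k
    rw [← Real.log_le_log_iff (by positivity) (hbp (k + 1)),
      Real.log_mul (by positivity) (by positivity)]
    nlinarith [(lb k).1]
  · intro k
    have e1 := h5 _ (hX k).2.2.2.2.1
    have := hbp (k + 2)
    have := hQp k
    have := hQp (k + 1)
    have := hDp (k + 1)
    rw [← Real.log_le_log_iff (by positivity) (by positivity),
      Real.log_mul (by positivity) (by positivity), Real.log_mul (by positivity) (by positivity),
      Real.log_mul (by positivity) (by positivity), Real.log_pow, l8]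
    have a1 := lb k
    have a2 := lb (k + 1)
    have a3 := lQ k
    have a5 := lQ (k + 1)
    have a6 := lD (k + 1)
    have e2 : (mu + al) * (lam * Real.log (d.b k) - K) ≤ (mu + al) * Real.log (d.b (k + 1)) :=
      mul_le_mul_of_nonneg_left (by linarith [a1.1]) (by linarith)
    have e3 : k + 1 + 1 = k + 2 := rfl
    rw [e3] at a2
    push_cast
    nlinarith [a1.1, a2.2, a3.2, a5.1, a6.1]
  · intro k
    have e1 := h6 _ (hX k).2.2.2.2.2.1
    have := hQp k
    have := hDp (k + 1)
    rw [← Real.log_le_log_iff (by positivity) (by positivity),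
      Real.log_mul (by positivity) (by positivity), l64]
    have a1 := lb k
    have a3 := lQ k
    have a6 := lD (k + 1)
    have e2 : (lam + al) * (lam * Real.log (d.b k) - K) ≤ (lam + al) * Real.log (d.b (k + 1)) :=
      mul_le_mul_of_nonneg_left (by linarith [a1.1]) (by linarith)
    nlinarith [a1.1, a3.2, a6.1]
  · intro k
    have e1 := h7 _ (hX k).2.2.2.2.2.2.1
    have := hbp (k + 2)
    have := hQp k
    have := hQp (k + 1)
    rw [← Real.log_le_log_iff (by positivity) (by positivity),
      Real.log_mul (by positivity) (by positivity), Real.log_mul (by positivity) (by positivity)]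
    have a1 := lb k
    have a2 := lb (k + 1)
    have a3 := lQ k
    have a5 := lQ (k + 1)
    have e2 : (mu - lam) * (lam * Real.log (d.b k) - K) ≤ (mu - lam) * Real.log (d.b (k + 1)) :=
      mul_le_mul_of_nonneg_left (by linarith [a1.1]) (by linarith)
    have e3 : k + 1 + 1 = k + 2 := rfl
    rw [e3] at a2
    nlinarith [a1.1, a2.2, a3.2, a5.1]
  · intro k
    have e1 := h8 _ (hX k).2.2.2.2.2.2.2.1
    have := hbp k
    rw [← Real.log_lt_log_iff (by positivity) (hDp k), Real.log_pow]
    push_cast
    nlinarith [(lD k).1]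
  · intro k
    have e1 := h9 _ (hX k).2.2.2.2.2.2.2.2
    have := hbp (k + 1)
    rw [← Real.log_le_log_iff (by positivity) (hQp k), Real.log_mul (by positivity) (by positivity),
      Real.log_pow, l16]
    push_cast
    nlinarith [(lb k).2, (lQ k).1]

end Pool.Agent.W789.TH.B09
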