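import Mathlib
import Pool.Agent.W789.TH.Defs
import Pool.Agent.W789.TH.DefsB

set_option autoImplicit false

open Filter Topology

namespace Pool.Agent.W789.TH.B10

open Pool.Agent.W789.TH

variable (d : Raw)

lemma D_one (k : ℕ) : (1 : ℝ) ≤ d.D k := by
  have : 1 ≤ d.D k := (d.ρ k).den_pos
  exact_mod_cast this

lemma Q_pos (k : ℕ) : 0 < d.Q k := by
  have h1 : (2 : ℝ) ≤ d.A k := by exact_mod_cast d.A_two k
  have h2 := D_one d k
  unfold Raw.Q
  positivity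

lemma Tc_dist (c : ℕ → ℕ) (k : ℕ) : dist (d.Tc c k) (d.Tc c (k + 1)) ≤ d.Ec c k := by
  have h0 : d.Tc c (k + 1) = d.Tc c k + c (k + 1) * ((d.ρ (k + 1) : ℝ) - d.ρ' k) := rfl
  rw [dist_comm, Real.dist_eq, h0, add_sub_cancel_left, abs_mul,
    abs_of_nonneg (by positivity : (0 : ℝ) ≤ c (k + 1))]
  have h1 := d.dist_up k
  have hD := D_one d k
  have hA : (2 : ℝ) ≤ d.A k := by exact_mod_cast d.A_two k
  calc (c (k + 1) : ℝ) * |(d.ρ (k + 1) : ℝ) - d.ρ' k|
      ≤ c (k + 1) * (2 / (d.A k * ((d.ρ k).den : ℝ) ^ 2)) := by gcongr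
    _ = d.Ec c k := by
        unfold Raw.Ec Raw.Q Raw.D
        have : ((d.ρ k).den : ℝ) ≠ 0 := by
          have := (d.ρ k).den_pos
          positivity
        field_simp

lemma Ec_succ (c : ℕ → ℕ)
    (hc : ∀ k, 2 * (c (k + 2) : ℝ) * (d.Q k * d.D k) ≤ c (k + 1) * (d.Q (k + 1) * d.D (k + 1)))
    (k : ℕ) : d.Ec c (k + 1) ≤ d.Ec c k / 2 := by
  unfold Raw.Ec
  have h2 := hc k
  have h3 := Q_pos d k
  have h4 := D_one d k
  have h5 := Q_pos d (k + 1)
  have h6 := D_one d (k + 1)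
  have h7 : 0 < d.Q k * d.D k := by positivity
  have h8 : 0 < d.Q (k + 1) * d.D (k + 1) := by positivity
  rw [div_div, div_le_div_iff₀ h8 (by positivity)]
  have e1 : k + 1 + 1 = k + 2 := rfl
  rw [e1]
  nlinarith

lemma Ec_add (c : ℕ → ℕ)
    (hc : ∀ k, 2 * (c (k + 2) : ℝ) * (d.Q k * d.D k) ≤ c (k + 1) * (d.Q (k + 1) * d.D (k + 1)))
    (k n : ℕ) : d.Ec c (k + n) ≤ d.Ec c k / 2 ^ n := by
  induction n with
  | zero => simp
  | succ n ih =>
    have := Ec_succ d c hc (k + n)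
    have e : k + (n + 1) = k + n + 1 := by ring
    rw [e, pow_succ, ← div_div]
    linarith

theorem exists_limit (c : ℕ → ℕ)
    (hc : ∀ k, 2 * (c (k + 2) : ℝ) * (d.Q k * d.D k) ≤ c (k + 1) * (d.Q (k + 1) * d.D (k + 1))) :
    ∃ θ : ℝ, ∀ k, |θ - d.Tc c k| ≤ 2 * d.Ec c k := by
  have hcs : CauchySeq (fun k => d.Tc c k) := by
    apply cauchySeq_of_le_geometric_two (C := 2 * d.Ec c 0)
    intro n
    refine (Tc_dist d c n).trans ?_
    have := Ec_add d c hc 0 n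
    rw [zero_add] at this
    have e : 2 * d.Ec c 0 / 2 / 2 ^ n = d.Ec c 0 / 2 ^ n := by ring
    rw [e]; exact this
  obtain ⟨θ, hθ⟩ := cauchySeq_tendsto_of_complete hcs
  refine ⟨θ, fun k => ?_⟩
  have h1 : Tendsto (fun n => d.Tc c (k + n)) atTop (𝓝 θ) := by
    have := hθ.comp (tendsto_add_atTop_nat k)
    refine this.congr ?_
    intro n
    simp [add_comm]
  have h2 := dist_le_of_le_geometric_two_of_tendsto₀ (C := 2 * d.Ec c k)
    (f := fun n => d.Tc c (k + n))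
    (fun n => by
      refine (Tc_dist d c (k + n)).trans ?_
      have := Ec_add d c hc k n
      have e : 2 * d.Ec c k / 2 / 2 ^ n = d.Ec c k / 2 ^ n := by ring
      rw [e]; exact this) h1
  rw [dist_comm, Real.dist_eq] at h2
  simpa using h2

theorem pf : LimStm := by
  intro d hg
  obtain ⟨θb, hb⟩ := exists_limit d d.b hg.g1
  obtain ⟨θa, ha⟩ := exists_limit d d.a hg.g2
  exact ⟨{ θa := θa, θb := θb, ha := ha, hb := hb }⟩

end Pool.Agent.W789.TH.B10
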