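import Mathlib
import Pool.Agent.W789.TH.Defs
import Pool.Agent.W789.TH.DefsB

/-!
TH-B12: lower bound off the lattice.
-/

namespace Pool.Agent.W789.TH.B12

open Pool.Agent.W789.TH

theorem D_one (d : Raw) (k : ℕ) : (1 : ℝ) ≤ d.D k := by
  have h := (d.ρ k).den_pos
  have h2 : 1 ≤ d.D k := h
  exact_mod_cast h2

theorem Q_pos (d : Raw) (k : ℕ) : 0 < d.Q k := by
  have h1 := D_one d k
  have h2 : (2 : ℝ) ≤ d.A k := by exact_mod_cast d.A_two k
  unfold Raw.Q
  have : (0 : ℝ) < d.A k := by linarith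
  have : (0 : ℝ) < d.D k := by linarith
  positivity

theorem Tc_int (d : Raw) (c : ℕ → ℕ)
    (h : ∀ k, ∃ z : ℤ, (c k : ℝ) * d.ρ k - c (k + 1) * d.ρ' k = z) (k : ℕ) :
    ∃ z : ℤ, d.Tc c k = c k * (d.ρ k : ℝ) + z := by
  induction k with
  | zero => exact ⟨0, by simp [Raw.Tc]⟩
  | succ k ih =>
    obtain ⟨z, hz⟩ := ih
    obtain ⟨z', hz'⟩ := h k
    refine ⟨z + z', ?_⟩
    have : d.Tc c (k + 1) = d.Tc c k + c (k + 1) * ((d.ρ (k + 1) : ℝ) - d.ρ' k) := rfl
    rw [this, hz]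
    push_cast
    linarith

/-- The remainder. -/
noncomputable def er {d : Raw} (t : Lim d) (k : ℕ) (x y : ℤ) : ℝ :=
  -(t.θb - d.Tc d.b k) * x + (t.θa - d.Tc d.a k) * y

theorem form_eq {d : Raw} (t : Lim d) (k : ℕ) (x y : ℤ) : ∃ z : ℤ,
    t.Lf x y = d.jz k x y * (d.ρ k : ℝ) - z + er t k x y := by
  obtain ⟨z1, h1⟩ := Tc_int d d.b d.int_b k
  obtain ⟨z2, h2⟩ := Tc_int d d.a d.int_a k
  refine ⟨z1 * x - z2 * y, ?_⟩
  unfold Lim.Lf er Raw.jz
  rw [h1, h2]
  push_cast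
  ring

theorem er_bound {d : Raw} (t : Lim d) (k : ℕ) (x y : ℤ) :
    |er t k x y| ≤ 4 * d.Jn (k + 1) x y / (d.Q k * d.D k) := by
  unfold er
  have h1 := t.hb k
  have h2 := t.ha k
  have h3 := Q_pos d k
  have h4 := D_one d k
  refine (abs_add_le _ _).trans ?_
  rw [abs_mul, abs_mul, abs_neg]
  have e : 4 * d.Jn (k + 1) x y / (d.Q k * d.D k)
      = 2 * d.Ec d.b k * |(x : ℝ)| + 2 * d.Ec d.a k * |(y : ℝ)| := by
    unfold Raw.Jn Raw.Ec; field_simp; ring
  rw [e]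
  exact add_le_add (mul_le_mul_of_nonneg_right h1 (abs_nonneg _))
    (mul_le_mul_of_nonneg_right h2 (abs_nonneg _))

theorem er_small {d : Raw} (t : Lim d) (k : ℕ) (x y : ℤ)
    (h : d.Jn (k + 1) x y ≤ d.Q k / 16) :
    |er t k x y| ≤ 1 / (4 * d.D k) := by
  have hQ := Q_pos d k
  have hD := D_one d k
  refine (er_bound t k x y).trans ?_
  rw [div_le_div_iff₀ (by positivity) (by positivity)]
  nlinarith

/-- Integrality: a rational with denominator `D` times an integer not divisible by `D`. -/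
theorem not_dvd_bound (ρ : ℚ) (j p : ℤ) (h : ¬ (ρ.den : ℤ) ∣ j) :
    1 / (ρ.den : ℝ) ≤ |j * (ρ : ℝ) - p| := by
  have hden : (0 : ℝ) < ρ.den := by exact_mod_cast ρ.den_pos
  have e : j * (ρ : ℝ) - p = ((j * ρ.num - p * ρ.den : ℤ) : ℝ) / ρ.den := by
    rw [eq_div_iff hden.ne']
    have h2 : (ρ.den : ℝ) * (ρ : ℝ) = ρ.num := by
      have := Rat.den_mul_eq_num ρ
      exact_mod_cast this
    push_cast
    linear_combination (j : ℝ) * h2
  rw [e, abs_div, abs_of_pos hden]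
  apply div_le_div_of_nonneg_right _ hden.le
  have hne : j * ρ.num - p * ρ.den ≠ 0 := by
    intro h0
    apply h
    have h1 : (ρ.den : ℤ) ∣ j * ρ.num := ⟨p, by linarith⟩
    have hc : IsCoprime (ρ.den : ℤ) ρ.num := by
      rw [Int.isCoprime_iff_gcd_eq_one, Int.gcd_comm]
      exact ρ.reduced
    exact hc.dvd_of_dvd_mul_right h1
  exact_mod_cast Int.one_le_abs hne

theorem pf : GenStm := by
  intro d t hg l x y h2 hnd p
  obtain ⟨z, hz⟩ := form_eq t (l + 1) x y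
  have hnb := not_dvd_bound (d.ρ (l + 1)) (d.jz (l + 1) x y) (z + p) hnd
  have her := er_small t (l + 1) x y h2
  have hD1 := D_one d (l + 1)
  have hQl := Q_pos d l
  have hS : t.Lf x y - p = (d.jz (l + 1) x y * (d.ρ (l + 1) : ℝ) - ((z + p : ℤ) : ℝ))
      + er t (l + 1) x y := by
    rw [hz]; push_cast; ring
  have hlow : |d.jz (l + 1) x y * (d.ρ (l + 1) : ℝ) - ((z + p : ℤ) : ℝ)| - |er t (l + 1) x y| ≤
      |t.Lf x y - p| := by
    rw [hS]; exact abs_sub_abs_le_abs_add _ _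
  have e2 : 1 / (4 * (d.D (l + 1) : ℝ)) = 1 / (d.D (l + 1)) / 4 := by field_simp
  have hDinv : (0 : ℝ) < 1 / (d.D (l + 1)) := by positivity
  rw [e2] at her
  by_cases hbig : (d.D (l + 1) : ℝ) ≤ 16 * |(d.jz (l + 1) x y : ℝ)|
  · left
    refine ⟨hbig, ?_⟩
    have h4 : 1 / (d.D (l + 1) : ℝ) ≤
        |d.jz (l + 1) x y * (d.ρ (l + 1) : ℝ) - ((z + p : ℤ) : ℝ)| := hnb
    have e3 : 1 / (2 * (d.D (l + 1) : ℝ)) = 1 / (d.D (l + 1)) / 2 := by field_simp
    rw [e3]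
    linarith
  · right
    push Not at hbig
    have hj0 : d.jz (l + 1) x y ≠ 0 := by
      intro h0
      apply hnd
      rw [h0]
      exact dvd_zero _
    set j := d.jz (l + 1) x y with hj
    set jn := j.natAbs with hjn
    have hjn0 : 0 < jn := Int.natAbs_pos.2 hj0
    have hjr : (jn : ℝ) = |(j : ℝ)| := by
      rw [hjn, Nat.cast_natAbs]; push_cast; rfl
    have hone : (1 : ℝ) ≤ |(j : ℝ)| := by
      rw [← hjr]
      exact_mod_cast hjn0
    refine ⟨hone, ?_⟩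
    -- reduce to a positive multiplier
    have hmin : min (1 / (8 * (jn : ℝ))) (1 / (4 * d.A l * (d.ρ l).den))
        - jn / ((d.ρ (l + 1)).den : ℝ) ^ 2 ≤ |j * (d.ρ (l + 1) : ℝ) - ((z + p : ℤ) : ℝ)| := by
      rcases le_total 0 j with hs | hs
      · have h7 := d.lower l jn hjn0 (z + p)
        have h8 : (jn : ℝ) = j := by rw [hjr, abs_of_nonneg (by exact_mod_cast hs)]
        rw [h8] at h7 ⊢
        exact h7
      · have h7 := d.lower l jn hjn0 (-(z + p))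
        have h8 : (jn : ℝ) = -j := by rw [hjr, abs_of_nonpos (by exact_mod_cast hs)]
        have h9 : (jn : ℝ) * (d.ρ (l + 1) : ℝ) - ((-(z + p) : ℤ) : ℝ)
            = -(j * (d.ρ (l + 1) : ℝ) - ((z + p : ℤ) : ℝ)) := by
          rw [h8]; push_cast; ring
        rw [h9, abs_neg] at h7
        exact h7
    have hjpos : (0 : ℝ) < jn := by exact_mod_cast hjn0
    have hQdef : 4 * (d.A l : ℝ) * (d.ρ l).den = 4 * d.Q l := by
      unfold Raw.Q Raw.D; ring
    rw [hQdef] at hmin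
    rw [← hjr] at hbig ⊢
    have hm1 : 2 * (1 / (d.D (l + 1) : ℝ)) ≤ 1 / (8 * (jn : ℝ)) := by
      rw [mul_one_div, div_le_div_iff₀ (by positivity) (by positivity)]
      linarith
    have hDQ : 8 * d.Q l ≤ d.D (l + 1) := by
      have := hg.g5 l
      linarith
    have hm2 : 2 * (1 / (d.D (l + 1) : ℝ)) ≤ 1 / (4 * d.Q l) := by
      rw [mul_one_div, div_le_div_iff₀ (by positivity) (by positivity)]
      linarith
    set m0 := min (1 / (8 * (jn : ℝ))) (1 / (4 * d.Q l)) with hm0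
    have hm : 2 * (1 / (d.D (l + 1) : ℝ)) ≤ m0 := le_min hm1 hm2
    have hjD : (jn : ℝ) / ((d.ρ (l + 1)).den : ℝ) ^ 2 ≤ 1 / (d.D (l + 1)) / 16 := by
      have h7 : ((d.ρ (l + 1)).den : ℝ) = d.D (l + 1) := rfl
      rw [h7, div_div, div_le_div_iff₀ (by positivity) (by positivity)]
      nlinarith
    linarith

end Pool.Agent.W789.TH.B12
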