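import Mathlib
import Pool.Agent.W789.TH.Defs
import Pool.Agent.W789.TH.DefsB

/-!
# TH-B13: linear independence
-/

namespace Pool.Agent.W789.TH.B13

open Pool.Agent.W789.TH

theorem Tc_int (d : Raw) (c : ℕ → ℕ)
    (h : ∀ k, ∃ z : ℤ, (c k : ℝ) * d.ρ k - c (k + 1) * d.ρ' k = z) (k : ℕ) :
    ∃ z : ℤ, d.Tc c k = c k * (d.ρ k : ℝ) + z := by
  induction k with
  | zero => exact ⟨0, by simp [Raw.Tc]⟩
  | succ k ih =>
    obtain ⟨z, hz⟩ := ih
    obtain ⟨z', hz'⟩ := h k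
    refine ⟨z + z', ?_⟩
    have : d.Tc c (k + 1) = d.Tc c k + c (k + 1) * ((d.ρ (k + 1) : ℝ) - d.ρ' k) := rfl
    rw [this, hz]
    push_cast
    linarith

theorem D_one (d : Raw) (k : ℕ) : (1 : ℝ) ≤ d.D k := by
  have : 1 ≤ d.D k := (d.ρ k).den_pos
  exact_mod_cast this

theorem Q_pos (d : Raw) (k : ℕ) : 0 < d.Q k := by
  have h1 : (2 : ℝ) ≤ d.A k := by exact_mod_cast d.A_two k
  have h2 := D_one d k
  unfold Raw.Q
  have h3 : (0 : ℝ) < d.A k := by linarith
  have h4 : (0 : ℝ) < d.D k := by linarith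
  exact mul_pos h3 h4

theorem b_one (d : Raw) (k : ℕ) : (1 : ℝ) ≤ d.b k := by
  have := d.b_pos k
  exact_mod_cast this

/-- The remainder. -/
noncomputable def er {d : Raw} (t : Lim d) (k : ℕ) (x y : ℤ) : ℝ :=
  -(t.θb - d.Tc d.b k) * x + (t.θa - d.Tc d.a k) * y

theorem form_eq {d : Raw} (t : Lim d) (k : ℕ) (x y : ℤ) : ∃ z : ℤ,
    t.Lf x y = d.jz k x y * (d.ρ k : ℝ) - z + er t k x y := by
  obtain ⟨z1, h1⟩ := Tc_int d d.b d.int_b k
  obtain ⟨z2, h2⟩ := Tc_int d d.a d.int_a k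
  refine ⟨z1 * x - z2 * y, ?_⟩
  unfold Lim.Lf er Raw.jz
  rw [h1, h2]
  push_cast
  ring

theorem er_bound {d : Raw} (t : Lim d) (k : ℕ) (x y : ℤ) :
    |er t k x y| ≤ 4 * d.Jn (k + 1) x y / (d.Q k * d.D k) := by
  unfold er
  have h1 := t.hb k
  have h2 := t.ha k
  have h3 := Q_pos d k
  have h4 := D_one d k
  refine (abs_add_le _ _).trans ?_
  rw [abs_mul, abs_mul, abs_neg]
  have e : 4 * d.Jn (k + 1) x y / (d.Q k * d.D k)
      = 2 * d.Ec d.b k * |(x : ℝ)| + 2 * d.Ec d.a k * |(y : ℝ)| := by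
    unfold Raw.Jn Raw.Ec; field_simp; ring
  rw [e]
  exact add_le_add (mul_le_mul_of_nonneg_right h1 (abs_nonneg _))
    (mul_le_mul_of_nonneg_right h2 (abs_nonneg _))

theorem not_dvd_bound (ρ : ℚ) (j p : ℤ) (h : ¬ (ρ.den : ℤ) ∣ j) :
    1 / (ρ.den : ℝ) ≤ |j * (ρ : ℝ) - p| := by
  have hden : (0 : ℝ) < ρ.den := by exact_mod_cast ρ.den_pos
  have e : j * (ρ : ℝ) - p = ((j * ρ.num - p * ρ.den : ℤ) : ℝ) / ρ.den := by
    rw [eq_div_iff hden.ne']
    have h2 : (ρ.den : ℝ) * (ρ : ℝ) = ρ.num := by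
      have := Rat.den_mul_eq_num ρ
      exact_mod_cast this
    push_cast
    linear_combination (j : ℝ) * h2
  rw [e, abs_div, abs_of_pos hden]
  apply div_le_div_of_nonneg_right _ hden.le
  have hne : j * ρ.num - p * ρ.den ≠ 0 := by
    intro h0
    apply h
    have h1 : (ρ.den : ℤ) ∣ j * ρ.num := ⟨p, by linarith⟩
    have hc : IsCoprime (ρ.den : ℤ) ρ.num := by
      rw [Int.isCoprime_iff_gcd_eq_one, Int.gcd_comm]
      exact ρ.reduced
    exact hc.dvd_of_dvd_mul_right h1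
  exact_mod_cast Int.one_le_abs hne

theorem tt_x (x y : ℤ) : |(x : ℝ)| ≤ tt x y := le_max_left _ _

theorem tt_y (x y : ℤ) : |(y : ℝ)| ≤ tt x y := le_max_right _ _

theorem Jn_le {d : Raw} (hG : d.Grow) (k : ℕ) (x y : ℤ) :
    d.Jn k x y ≤ 2 * d.b k * tt x y := by
  unfold Raw.Jn
  have h1 := tt_x x y
  have h2 := tt_y x y
  have h0 : 0 ≤ tt x y := (abs_nonneg _).trans h1
  have h3 := hG.g3 k
  have h4 := b_one d k
  have h5 : (d.b k : ℝ) * |(x : ℝ)| ≤ d.b k * tt x y := by gcongr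
  have h6 : (d.a k : ℝ) * |(y : ℝ)| ≤ d.b k * tt x y := by gcongr
  linarith

theorem jz_abs_le (d : Raw) (k : ℕ) (x y : ℤ) : |(d.jz k x y : ℝ)| ≤ d.Jn k x y := by
  unfold Raw.jz Raw.Jn
  push_cast
  refine (abs_sub _ _).trans ?_
  rw [abs_mul, abs_mul, abs_of_nonneg (by positivity : (0 : ℝ) ≤ d.a k),
    abs_of_nonneg (by positivity : (0 : ℝ) ≤ d.b k)]
  linarith

theorem er_small {d : Raw} (t : Lim d) (k : ℕ) (x y : ℤ)
    (h : d.Jn (k + 1) x y ≤ d.Q k / 16) : |er t k x y| ≤ 1 / (4 * d.D k) := by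
  have hQ := Q_pos d k
  have hD := D_one d k
  refine (er_bound t k x y).trans ?_
  rw [div_le_div_iff₀ (by positivity) (by positivity)]
  nlinarith

theorem b_ge_nat {d : Raw} (hG : d.Grow) (k : ℕ) : (k : ℝ) ≤ d.b k := by
  induction k with
  | zero => push_cast; positivity
  | succ k ih =>
    have h1 := hG.gb k
    have h2 := b_one d k
    push_cast
    linarith

theorem indep {d : Raw} (t : Lim d) (hG : d.Grow) (x y p : ℤ) (h : t.Lf x y = p) :
    x = 0 ∧ y = 0 := by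
  -- for all large `k` the wedge vanishes
  obtain ⟨n, hn⟩ := exists_nat_ge (2 * tt x y)
  have key : ∀ k, n ≤ k → d.jz k x y = 0 := by
    intro k hk
    have hbn := b_ge_nat hG k
    have hgb := hG.gb k
    have hb1 := b_one d k
    have hb2 := b_one d (k + 1)
    have hnk : (n : ℝ) ≤ k := by exact_mod_cast hk
    have hJ : d.Jn (k + 1) x y ≤ d.Q k / 16 := by
      have h1 := Jn_le hG (k + 1) x y
      have h6 : 2 * tt x y ≤ d.b (k + 1) := by linarith
      have h8 := hG.g8 k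
      have h9 : (d.b (k + 1) : ℝ) * (2 * tt x y) ≤ d.b (k + 1) * d.b (k + 1) := by gcongr
      nlinarith
    have her := er_small t k x y hJ
    have hD := D_one d k
    obtain ⟨z, hz⟩ := form_eq t k x y
    have hdv : ((d.ρ k).den : ℤ) ∣ d.jz k x y := by
      by_contra hnd
      have h1 := not_dvd_bound (d.ρ k) (d.jz k x y) (z + p) hnd
      have h2 : d.jz k x y * (d.ρ k : ℝ) - ((z + p : ℤ) : ℝ) = - er t k x y := by
        rw [h] at hz
        push_cast
        linarith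
      rw [h2, abs_neg] at h1
      have h3 : 1 / (4 * (d.D k : ℝ)) = 1 / (d.D k) / 4 := by field_simp
      rw [h3] at her
      have h4 : (0 : ℝ) < 1 / d.D k := by positivity
      have h5 : 1 / (d.D k : ℝ) ≤ |er t k x y| := h1
      linarith
    have h6 : |(d.jz k x y : ℝ)| < d.D k := by
      have h7 := jz_abs_le d k x y
      have h8 := Jn_le hG k x y
      have h9 := hG.g7 k
      have h10 : 2 * tt x y ≤ d.b k := by linarith
      have h11 : (d.b k : ℝ) * (2 * tt x y) ≤ d.b k * d.b k := by gcongr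
      nlinarith
    have h7 : |d.jz k x y| < ((d.ρ k).den : ℤ) := by
      have : ((|d.jz k x y| : ℤ) : ℝ) < ((d.D k : ℕ) : ℝ) := by
        rw [Int.cast_abs]; exact h6
      exact_mod_cast this
    exact Int.eq_zero_of_abs_lt_dvd hdv h7
  have h1 := key n le_rfl
  have h2 := key (n + 1) (by omega)
  have hw : (d.a n : ℤ) * d.b (n + 1) = (d.ρ n).den + d.b n * d.a (n + 1) := by
    exact_mod_cast d.wedge n
  unfold Raw.jz at h1 h2
  have hden : ((d.ρ n).den : ℤ) ≠ 0 := by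
    have := (d.ρ n).den_pos; omega
  have hx : ((d.ρ n).den : ℤ) * x = 0 := by
    linear_combination (d.a (n + 1) : ℤ) * h1 - (d.a n : ℤ) * h2 - x * hw
  have hx0 : x = 0 := (mul_eq_zero.1 hx).resolve_left hden
  refine ⟨hx0, ?_⟩
  rw [hx0, mul_zero, sub_zero] at h1
  have ha : (d.a n : ℤ) ≠ 0 := by have := d.a_pos n; omega
  exact (mul_eq_zero.1 h1).resolve_left ha

theorem pf : IndepStm := by
  intro d t hG
  rw [Fintype.linearIndependent_iff]
  intro g hg
  rw [Fin.sum_univ_three] at hg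
  simp only [Matrix.cons_val_zero, Matrix.cons_val_one, Matrix.cons_val, zsmul_eq_mul, mul_one] at hg
  have h1 : t.Lf (g 1) (g 2) = ((-g 0 : ℤ) : ℝ) := by
    unfold Lim.Lf
    push_cast
    linarith
  obtain ⟨h2, h3⟩ := indep t hG (g 1) (g 2) (-g 0) h1
  have h4 : g 0 = 0 := by
    rw [h2, h3] at h1
    unfold Lim.Lf at h1
    simp at h1
    exact_mod_cast h1
  intro i
  fin_cases i
  · exact h4
  · exact h2
  · exact h3

end Pool.Agent.W789.TH.B13
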