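import Mathlib
import Pool.Agent.W789.TH.Defs
import Pool.Agent.W789.TH.DefsB

/-!
Decomposition of an integer vector in the lattice generated by two consecutive relation vectors.
-/

namespace Pool.Agent.W789.TH.B14

open Pool.Agent.W789.TH

theorem pf : DecStm := by
  intro d k x y hdvd
  obtain ⟨v, hv⟩ := hdvd
  have hw : (d.a k : ℤ) * d.b (k + 1) = ((d.ρ k).den : ℤ) + d.b k * d.a (k + 1) := by
    exact_mod_cast d.wedge k
  have hv' : (d.a k : ℤ) * y - d.b k * x = ((d.ρ k).den : ℤ) * v := hv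
  have h1 : (d.a k : ℤ) * (y - v * d.b (k + 1)) = d.b k * (x - v * d.a (k + 1)) := by
    linear_combination hv' - v * hw
  have hco : IsCoprime (d.a k : ℤ) (d.b k : ℤ) := Nat.isCoprime_iff_coprime.mpr (d.cop k)
  have hdiv : (d.a k : ℤ) ∣ x - v * d.a (k + 1) :=
    hco.dvd_of_dvd_mul_left ⟨y - v * d.b (k + 1), h1.symm⟩
  obtain ⟨u, hu⟩ := hdiv
  have ha : (d.a k : ℤ) ≠ 0 := by exact_mod_cast (d.a_pos k).ne'
  refine ⟨u, v, by linear_combination hu, ?_⟩
  have h2 : (d.a k : ℤ) * (y - v * d.b (k + 1)) = d.a k * (d.b k * u) := by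
    rw [h1, hu]; ring
  have h3 := mul_left_cancel₀ ha h2
  linear_combination h3

end Pool.Agent.W789.TH.B14
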