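import Mathlib
import Pool.Agent.W789.TH.Defs
import Pool.Agent.W789.TH.DefsB

/-! Project TH, part B15 (helper253): levels. -/

set_option autoImplicit false

namespace Pool.Agent.W789.TH.B15

open Pool.Agent.W789.TH

theorem b_ge (d : Raw) (hg : d.Grow) (k : ℕ) : (k : ℝ) + 1 ≤ d.b k := by
  induction k with
  | zero =>
    have := d.b_pos 0
    have h : (1 : ℝ) ≤ d.b 0 := by exact_mod_cast this
    simpa using h
  | succ k ih =>
    have h := hg.gb k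
    have h0 : (0 : ℝ) ≤ k := Nat.cast_nonneg k
    push_cast
    linarith

theorem pf : LevStm := by
  intro d hg l0
  refine ⟨?_, ?_⟩
  · have hb : (1 : ℝ) ≤ d.b (l0 + 1) := by exact_mod_cast d.b_pos _
    have ha : (1 : ℝ) ≤ d.a (l0 + 1) := by exact_mod_cast d.a_pos _
    refine Set.Finite.subset ((Set.finite_Icc (-⌈d.Q l0 / 16⌉) ⌈d.Q l0 / 16⌉).prod
      (Set.finite_Icc (-⌈d.Q l0 / 16⌉) ⌈d.Q l0 / 16⌉)) ?_
    rintro ⟨x, y⟩ h
    have h' : d.b (l0 + 1) * |(x : ℝ)| + d.a (l0 + 1) * |(y : ℝ)| ≤ d.Q l0 / 16 := h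
    have hx0 := abs_nonneg (x : ℝ)
    have hy0 := abs_nonneg (y : ℝ)
    have hc := Int.le_ceil (d.Q l0 / 16)
    have hx : |(x : ℝ)| ≤ ⌈d.Q l0 / 16⌉ := by nlinarith
    have hy : |(y : ℝ)| ≤ ⌈d.Q l0 / 16⌉ := by nlinarith
    have hx' : |x| ≤ ⌈d.Q l0 / 16⌉ := by exact_mod_cast hx
    have hy' : |y| ≤ ⌈d.Q l0 / 16⌉ := by exact_mod_cast hy
    exact ⟨Set.mem_Icc.2 (abs_le.1 hx'), Set.mem_Icc.2 (abs_le.1 hy')⟩
  · intro x y h0
    have hex : ∃ j : ℕ, d.Jn (l0 + j + 1) x y ≤ d.Q (l0 + j) / 16 := by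
      refine ⟨⌈|(x : ℝ)| + |(y : ℝ)|⌉₊, ?_⟩
      set n := l0 + ⌈|(x : ℝ)| + |(y : ℝ)|⌉₊ with hn
      have h1 : |(x : ℝ)| + |(y : ℝ)| ≤ d.b (n + 1) := by
        have h2 := b_ge d hg (n + 1)
        have h3 := Nat.le_ceil (|(x : ℝ)| + |(y : ℝ)|)
        have h4 : (⌈|(x : ℝ)| + |(y : ℝ)|⌉₊ : ℝ) ≤ n := by
          rw [hn]; push_cast
          have : (0 : ℝ) ≤ l0 := Nat.cast_nonneg l0
          linarith
        push_cast at h2
        linarith
      have h5 := hg.g8 n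
      have h6 := hg.g3 (n + 1)
      have hb0 : (0 : ℝ) ≤ d.b (n + 1) := Nat.cast_nonneg _
      show d.b (n + 1) * |(x : ℝ)| + d.a (n + 1) * |(y : ℝ)| ≤ d.Q n / 16
      have h7 : (d.a (n + 1) : ℝ) * |(y : ℝ)| ≤ d.b (n + 1) * |(y : ℝ)| :=
        mul_le_mul_of_nonneg_right h6 (abs_nonneg _)
      have h8 : (d.b (n + 1) : ℝ) * (|(x : ℝ)| + |(y : ℝ)|) ≤ d.b (n + 1) * d.b (n + 1) :=
        mul_le_mul_of_nonneg_left h1 hb0
      nlinarith
    classical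
    have hfs := Nat.find_spec hex
    have hmin := fun {m : ℕ} => Nat.find_min hex (m := m)
    obtain ⟨j, hj⟩ : ∃ j, Nat.find hex = j := ⟨_, rfl⟩
    rw [hj] at hfs hmin
    rcases j with _ | j
    · exfalso
      simp only [Nat.add_zero] at hfs
      linarith
    · refine ⟨l0 + j, by omega, ?_, hfs⟩
      have := hmin (m := j) (by omega)
      exact le_of_lt (not_le.1 this)

end Pool.Agent.W789.TH.B15
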