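import Mathlib
import Pool.Agent.W789.TH.Defs
import Pool.Agent.W789.TH.DefsB

namespace Pool.Agent.W789.TH.B16

open Pool.Agent.W789.TH

theorem pf : MultStm := by
  intro s ρ lam al mu K hC
  have hρ : 0 < ρ - 1 := by linarith [hC.ρ1]
  have hs := hC.s1
  obtain ⟨dl, hdl⟩ : ∃ dl, dl = (s + 1) * (1 - al * ρ) + (s - mu) * (ρ - 1) := ⟨_, rfl⟩
  have hdl0 : 0 < dl := by rw [hdl]; nlinarith [hC.c6]
  obtain ⟨cst, hcst⟩ : ∃ cst, cst = (s + 1) * (ρ * K + (ρ - 1) * Real.log 2) +
    (ρ - 1) * (Real.log 16 + K) := ⟨_, rfl⟩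
  refine ⟨2 * cst / dl, dl / (2 * (ρ - 1)), by positivity, fun d hS hX k u hu hDom => ?_⟩
  have hb : (0 : ℝ) < d.b k := by exact_mod_cast d.b_pos k
  have ha : (0 : ℝ) < d.a k := by exact_mod_cast d.a_pos k
  have hQ : 0 < d.Q k := by
    unfold Raw.Q Raw.D
    have h1 : (0 : ℝ) < d.A k := by
      have := d.A_two k
      exact_mod_cast (by omega : 0 < d.A k)
    have h2 : (0 : ℝ) < (d.ρ k).den := by exact_mod_cast (d.ρ k).den_pos
    positivity
  have hu1 : (1 : ℝ) ≤ |(u : ℝ)| := by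
    have := Int.one_le_abs hu
    exact_mod_cast this
  have hu0 : (0 : ℝ) < |(u : ℝ)| := by linarith
  obtain ⟨x, hx⟩ : ∃ x, x = Real.log (d.b k) := ⟨_, rfl⟩
  obtain ⟨A, hA⟩ : ∃ A, A = Real.log (d.a k) := ⟨_, rfl⟩
  obtain ⟨q, hq⟩ : ∃ q, q = Real.log (d.Q k) := ⟨_, rfl⟩
  obtain ⟨U, hU⟩ : ∃ U, U = Real.log |(u : ℝ)| := ⟨_, rfl⟩
  have hU0 : 0 ≤ U := by rw [hU]; exact Real.log_nonneg hu1
  have hXk : 2 * cst / dl ≤ x := by rw [hx]; exact hX k
  have hAx : A ≤ al * x + K := by
    have := (abs_le.1 (hS.la k)).2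
    rw [← hx, ← hA] at this; linarith
  have hqx : q ≤ mu * x + K := by
    have := (abs_le.1 (hS.lQ k)).2
    rw [← hx, ← hq] at this; linarith
  -- the domain
  have hdom : Real.log 2 + U + x ≤ ρ * (Real.log 2 + U + A) := by
    rcases hDom with h0 | h0
    · exfalso
      have h1 : (d.a k : ℤ) ≠ 0 := by
        have := d.a_pos k
        omega
      exact (mul_ne_zero hu h1) h0
    · have e1 : 2 * |((u * (d.b k : ℤ) : ℤ) : ℝ)| = 2 * (|(u : ℝ)| * d.b k) := by
        push_cast
        rw [abs_mul, abs_of_pos hb]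
      have e2 : 2 * |((u * (d.a k : ℤ) : ℤ) : ℝ)| = 2 * (|(u : ℝ)| * d.a k) := by
        push_cast
        rw [abs_mul, abs_of_pos ha]
      rw [e1, e2] at h0
      have h1 := Real.log_le_log (by positivity) h0
      rw [Real.log_rpow (by positivity), Real.log_mul (by norm_num) (by positivity),
        Real.log_mul (by positivity) (by positivity), Real.log_mul (by norm_num) (by positivity),
        Real.log_mul (by positivity) (by positivity), ← hU, ← hx, ← hA] at h1
      linarith
  -- the size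
  have htt : |(u : ℝ)| * d.b k ≤ tt (u * d.a k) (u * d.b k) := by
    unfold tt
    refine le_trans (le_of_eq ?_) (le_max_right _ _)
    push_cast
    rw [abs_mul, abs_of_pos hb]
  have htt0 : 0 < tt (u * d.a k) (u * d.b k) := lt_of_lt_of_le (by positivity) htt
  obtain ⟨T, hT⟩ : ∃ T, T = Real.log (tt (u * d.a k) (u * d.b k)) := ⟨_, rfl⟩
  have hTU : U + x ≤ T := by
    have := Real.log_le_log (by positivity) htt
    rw [Real.log_mul (by positivity) (by positivity), ← hU, ← hx, ← hT] at this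
    exact this
  -- reduction to logarithms
  have hmain : dl / (2 * (ρ - 1)) * x ≤ s * T + (U - (Real.log 16 + q)) := by
    have hdx : 2 * cst ≤ dl * x := by
      rw [div_le_iff₀ hdl0] at hXk; linarith
    have h1 : (1 - al * ρ) * x - ρ * K - (ρ - 1) * Real.log 2 ≤ (ρ - 1) * U := by
      have h2 : ρ * A ≤ ρ * (al * x + K) := mul_le_mul_of_nonneg_left hAx (by linarith)
      nlinarith
    have h3 : (s + 1) * U + (s - mu) * x - Real.log 16 - K ≤ s * T + (U - (Real.log 16 + q)) := by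
      have h4 : s * (U + x) ≤ s * T := mul_le_mul_of_nonneg_left hTU (by linarith)
      nlinarith
    refine le_trans ?_ h3
    have h5 : (ρ - 1) * (dl / (2 * (ρ - 1)) * x) ≤
        (ρ - 1) * ((s + 1) * U + (s - mu) * x - Real.log 16 - K) := by
      have e1 : (ρ - 1) * (dl / (2 * (ρ - 1)) * x) = dl * x / 2 := by
        field_simp
      rw [e1]
      have h6 : (s + 1) * ((1 - al * ρ) * x - ρ * K - (ρ - 1) * Real.log 2) ≤
          (s + 1) * ((ρ - 1) * U) := mul_le_mul_of_nonneg_left h1 (by linarith)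
      have h7 : dl * x - cst ≤ (ρ - 1) * ((s + 1) * U + (s - mu) * x - Real.log 16 - K) := by
        rw [hdl, hcst]
        nlinarith
      linarith
    exact le_of_mul_le_mul_left h5 hρ
  have hR : 0 < tt (u * d.a k) (u * d.b k) ^ s * (|(u : ℝ)| / (16 * d.Q k)) := by positivity
  rw [← Real.log_le_log_iff (by positivity) hR, Real.log_rpow hb,
    Real.log_mul (by positivity) (by positivity), Real.log_rpow htt0,
    Real.log_div (by positivity) (by positivity), Real.log_mul (by norm_num) hQ.ne',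
    ← hx, ← hT, ← hU, ← hq]
  exact hmain

end Pool.Agent.W789.TH.B16
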