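import Mathlib
import Pool.Agent.W789.TH.Defs
import Pool.Agent.W789.TH.DefsB

/-!
Combinations of two relation vectors: the three cases together.
-/

namespace Pool.Agent.W789.TH.B17

open Pool.Agent.W789.TH

theorem pf (hA : MixAStm) (hB : MixBStm) (hC : MixCStm) : MixStm := by
  intro s ρ lam al mu K hcon
  obtain ⟨XA, eA, heA, HA⟩ := hA s ρ lam al mu K hcon
  obtain ⟨XB, eB, heB, HB⟩ := hB s ρ lam al mu K hcon
  obtain ⟨XC, eC, heC, HC⟩ := hC s ρ lam al mu K hcon
  refine ⟨max XA (max XB XC), min eA (min eB eC), lt_min heA (lt_min heB heC), ?_⟩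
  intro d hd hX k u v hu hv hdom
  have hb1 : (1 : ℝ) ≤ d.b k := by exact_mod_cast d.b_pos k
  have mono : ∀ e, min eA (min eB eC) ≤ e →
      (d.b k : ℝ) ^ (min eA (min eB eC)) ≤ (d.b k : ℝ) ^ e :=
    fun e he => Real.rpow_le_rpow_of_exponent_le hb1 he
  by_cases h : 2 * |((u * d.b k + v * d.b (k + 1) : ℤ) : ℝ)| < |(v : ℝ)| * d.b (k + 1)
  · exact (mono _ (min_le_left _ _)).trans
      (HA d hd (fun k => (le_max_left _ _).trans (hX k)) k u v hu hv h)
  · have h' := not_lt.1 h
    rcases hdom with h0 | h0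
    · exact (mono _ ((min_le_right _ _).trans (min_le_left _ _))).trans
        (HB d hd (fun k => ((le_max_left _ _).trans (le_max_right _ _)).trans (hX k))
          k u v hu hv h' h0)
    · exact (mono _ ((min_le_right _ _).trans (min_le_right _ _))).trans
        (HC d hd (fun k => ((le_max_right _ _).trans (le_max_right _ _)).trans (hX k))
          k u v hu hv h' h0)

end Pool.Agent.W789.TH.B17
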