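import Mathlib
import Pool.Agent.W789.TH.Defs
import Pool.Agent.W789.TH.DefsB

namespace Pool.Agent.W789.TH.B17a

open Pool.Agent.W789.TH

/-- the real computation -/
lemma core (s lam al mu K x y la la' lq U κ X0 : ℝ) (hs : 1 < s) (hal0 : 0 < al) (hal1 : al < 1)
    (hlam : 2 < lam) (hκ : κ = (lam - 1) * (s + 1) + s * al - mu) (hκ0 : 0 < κ) (hK : 0 ≤ K)
    (hX0 : X0 = (Real.log 4 + 2 * K) / ((1 - al) * (lam - 1)) + K / (lam - 1) +
      2 * ((s + 1) * (K + Real.log 2) + s * K + s * Real.log 2 + Real.log 16 + K) / κ)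
    (hx : X0 ≤ x) (hy : |y - lam * x| ≤ K) (hla : |la - al * x| ≤ K) (hla' : |la' - al * y| ≤ K)
    (hq : |lq - mu * x| ≤ K) (hU : y - x - Real.log 2 ≤ U) :
    Real.log 4 + x + la' ≤ la + y ∧
      x * (κ / 2) ≤ s * (U + la - Real.log 2) + (U - (Real.log 16 + lq)) := by
  have l2 : 0 < Real.log 2 := Real.log_pos (by norm_num)
  have l4 : 0 < Real.log 4 := Real.log_pos (by norm_num)
  have l16 : 0 < Real.log 16 := Real.log_pos (by norm_num)
  rw [abs_le] at hy hla hla' hq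
  have h1al : 0 < 1 - al := by linarith
  have hl1 : 0 < lam - 1 := by linarith
  have t1 : 0 ≤ (Real.log 4 + 2 * K) / ((1 - al) * (lam - 1)) := by positivity
  have t2 : 0 ≤ K / (lam - 1) := by positivity
  have hs0 : 0 < s := by linarith
  have t3 : 0 ≤ 2 * ((s + 1) * (K + Real.log 2) + s * K + s * Real.log 2 + Real.log 16 + K) / κ := by
    positivity
  constructor
  · have e1 : (Real.log 4 + 2 * K) / ((1 - al) * (lam - 1)) + K / (lam - 1) ≤ x := by linarith
    have e2 : (Real.log 4 + 2 * K) + (1 - al) * K ≤ (1 - al) * (lam - 1) * x := by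
      have hp : 0 < (1 - al) * (lam - 1) := by positivity
      calc (Real.log 4 + 2 * K) + (1 - al) * K
          = (1 - al) * (lam - 1) * ((Real.log 4 + 2 * K) / ((1 - al) * (lam - 1)) + K / (lam - 1)) := by
            field_simp
        _ ≤ (1 - al) * (lam - 1) * x := by exact mul_le_mul_of_nonneg_left e1 hp.le
    have e3 : (1 - al) * ((lam - 1) * x - K) ≤ (1 - al) * (y - x) :=
      mul_le_mul_of_nonneg_left (by linarith) h1al.le
    nlinarith
  · have e1 : 2 * ((s + 1) * (K + Real.log 2) + s * K + s * Real.log 2 + Real.log 16 + K) / κ ≤ x := by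
      linarith
    rw [div_le_iff₀ hκ0] at e1
    have e2 : (s + 1) * ((lam - 1) * x - K - Real.log 2) ≤ (s + 1) * U :=
      mul_le_mul_of_nonneg_left (by linarith) (by linarith)
    have e3 : s * (al * x - K) ≤ s * la := mul_le_mul_of_nonneg_left (by linarith) hs0.le
    rw [hκ] at e1 ⊢
    nlinarith

theorem pf : MixAStm := by
  intro s ρ lam al mu K hc
  set κ : ℝ := (lam - 1) * (s + 1) + s * al - mu with hκ
  have hκ0 : 0 < κ := by have := hc.c8; rw [hκ]; linarith
  refine ⟨(Real.log 4 + 2 * K) / ((1 - al) * (lam - 1)) + K / (lam - 1) +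
      2 * ((s + 1) * (K + Real.log 2) + s * K + s * Real.log 2 + Real.log 16 + K) / κ,
    κ / 2, by linarith, ?_⟩
  intro d hd hX k u v hu hv huv
  have hK : 0 ≤ K := le_trans (abs_nonneg _) (hd.lb k)
  have hb : (0 : ℝ) < d.b k := by exact_mod_cast d.b_pos k
  have hN : (0 : ℝ) < d.b (k + 1) := by exact_mod_cast d.b_pos (k + 1)
  have ha : (0 : ℝ) < d.a k := by exact_mod_cast d.a_pos k
  have ha' : (0 : ℝ) < d.a (k + 1) := by exact_mod_cast d.a_pos (k + 1)
  have hQ : 0 < d.Q k := by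
    unfold Raw.Q Raw.D
    have h1 : 0 < d.A k := by have := d.A_two k; omega
    have h2 : 0 < (d.ρ k).den := (d.ρ k).den_pos
    positivity
  have hu1 : (1 : ℝ) ≤ |(u : ℝ)| := by exact_mod_cast Int.one_le_abs hu
  have hv1 : (1 : ℝ) ≤ |(v : ℝ)| := by exact_mod_cast Int.one_le_abs hv
  have hu0 : 0 < |(u : ℝ)| := by linarith
  push_cast at huv
  -- |v| N < 2 |u| b
  have h1 : |(v : ℝ)| * d.b (k + 1) < 2 * (|(u : ℝ)| * d.b k) := by
    have e1 : |(v : ℝ) * d.b (k + 1)| ≤ |(u : ℝ) * d.b k + v * d.b (k + 1)| + |(u : ℝ) * d.b k| := by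
      have := abs_sub ((u : ℝ) * d.b k + v * d.b (k + 1)) ((u : ℝ) * d.b k)
      rwa [add_sub_cancel_left] at this
    rw [abs_mul, abs_mul (u : ℝ), abs_of_pos hN, abs_of_pos hb] at e1
    linarith
  have hNu : (d.b (k + 1) : ℝ) < 2 * (|(u : ℝ)| * d.b k) := by
    have : (d.b (k + 1) : ℝ) ≤ |(v : ℝ)| * d.b (k + 1) := by nlinarith
    linarith
  have hU : Real.log (d.b (k + 1)) - Real.log (d.b k) - Real.log 2 ≤ Real.log |(u : ℝ)| := by
    have e1 := Real.log_le_log hN hNu.le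
    rw [Real.log_mul (by norm_num) (by positivity), Real.log_mul hu0.ne' hb.ne'] at e1
    linarith
  obtain ⟨c1, c2⟩ := core s lam al mu K (Real.log (d.b k)) (Real.log (d.b (k + 1)))
    (Real.log (d.a k)) (Real.log (d.a (k + 1))) (Real.log (d.Q k)) (Real.log |(u : ℝ)|) κ _
    hc.s1 hc.al0 hc.al1 hc.lam2 hκ hκ0 hK rfl (hX k) (hd.lb k) (hd.la k) (hd.la (k + 1))
    (hd.lQ k) hU
  -- 4 b a' ≤ a N
  have h2 : 4 * (d.b k : ℝ) * d.a (k + 1) ≤ d.a k * d.b (k + 1) := by
    rw [← Real.log_le_log_iff (by positivity) (by positivity), Real.log_mul (by positivity) ha'.ne',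
      Real.log_mul (by norm_num) hb.ne', Real.log_mul ha.ne' hN.ne']
    exact c1
  -- |v| a' ≤ |u| a / 2
  have h3 : |(v : ℝ)| * d.a (k + 1) ≤ |(u : ℝ)| * d.a k / 2 := by
    have e1 : |(v : ℝ)| * d.b (k + 1) * (2 * d.a (k + 1)) ≤ 2 * (|(u : ℝ)| * d.b k) * (2 * d.a (k + 1)) :=
      mul_le_mul_of_nonneg_right h1.le (by positivity)
    have e2 : |(u : ℝ)| * (4 * (d.b k : ℝ) * d.a (k + 1)) ≤ |(u : ℝ)| * (d.a k * d.b (k + 1)) :=
      mul_le_mul_of_nonneg_left h2 hu0.le
    have e3 : (|(v : ℝ)| * d.a (k + 1)) * (2 * d.b (k + 1)) ≤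
        (|(u : ℝ)| * d.a k / 2) * (2 * d.b (k + 1)) := by nlinarith
    exact le_of_mul_le_mul_right e3 (by positivity)
  have h4 : |(u : ℝ)| * d.a k / 2 ≤
      tt (u * d.a k + v * d.a (k + 1)) (u * d.b k + v * d.b (k + 1)) := by
    refine le_trans ?_ (le_max_left _ _)
    push_cast
    have e1 : |(u : ℝ) * d.a k| ≤ |(u : ℝ) * d.a k + v * d.a (k + 1)| + |(v : ℝ) * d.a (k + 1)| := by
      have := abs_sub ((u : ℝ) * d.a k + v * d.a (k + 1)) ((v : ℝ) * d.a (k + 1))
      rwa [add_sub_cancel_right] at this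
    rw [abs_mul, abs_mul (v : ℝ), abs_of_pos ha, abs_of_pos ha'] at e1
    linarith
  have hs0 : 0 ≤ s := by linarith [hc.s1]
  have hp : 0 < |(u : ℝ)| * d.a k / 2 := by positivity
  calc (d.b k : ℝ) ^ (κ / 2) ≤ (|(u : ℝ)| * d.a k / 2) ^ s * (|(u : ℝ)| / (16 * d.Q k)) := by
        rw [← Real.log_le_log_iff (by positivity) (by positivity), Real.log_rpow hb,
          Real.log_mul (by positivity) (by positivity), Real.log_rpow hp,
          Real.log_div (by positivity) (by norm_num), Real.log_mul hu0.ne' ha.ne',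
          Real.log_div hu0.ne' (by positivity), Real.log_mul (by norm_num) hQ.ne']
        linarith
    _ ≤ _ := by
        refine mul_le_mul_of_nonneg_right ?_ (by positivity)
        exact Real.rpow_le_rpow hp.le h4 hs0

end Pool.Agent.W789.TH.B17a
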