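import Mathlib
import Pool.Agent.W789.TH.Defs
import Pool.Agent.W789.TH.DefsB

set_option autoImplicit false

/-! TH-B17b: mixed vectors in the strip. -/

namespace Pool.Agent.W789.TH.B17b

open Pool.Agent.W789.TH

theorem Q_pos (d : Raw) (k : ℕ) : 0 < d.Q k := by
  unfold Raw.Q Raw.D
  have h1 : 2 ≤ d.A k := d.A_two k
  have h2 : (0 : ℝ) < (d.A k : ℝ) := by
    have : 0 < d.A k := by omega
    exact_mod_cast this
  have h3 : (0 : ℝ) < ((d.ρ k).den : ℝ) := by
    exact_mod_cast (d.ρ k).den_pos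
  exact mul_pos h2 h3

theorem dvds (a a' : ℕ) (u v : ℤ) (h : Nat.Coprime a a') (he : u * a + v * a' = 0) :
    (a' : ℤ) ∣ u ∧ (a : ℤ) ∣ v := by
  have hc : IsCoprime (a : ℤ) (a' : ℤ) := Nat.isCoprime_iff_coprime.2 h
  constructor
  · apply hc.symm.dvd_of_dvd_mul_right
    refine ⟨-v, ?_⟩
    linarith
  · apply hc.dvd_of_dvd_mul_right
    refine ⟨-u, ?_⟩
    linarith

theorem abs_ge (a : ℕ) (u : ℤ) (hu : u ≠ 0) (h : (a : ℤ) ∣ u) : (a : ℝ) ≤ |(u : ℝ)| := by
  have h1 : (a : ℤ) ≤ |u| := Int.le_of_dvd (abs_pos.2 hu) ((dvd_abs _ _).2 h)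
  have h2 : ((a : ℤ) : ℝ) ≤ ((|u| : ℤ) : ℝ) := by exact_mod_cast h1
  simpa using h2

theorem pf : MixBStm := by
  intro s ρ lam al mu K hC
  set δ : ℝ := s * (al + lam) + lam * al - mu with hδ
  have hδ0 : 0 < δ := by
    have := hC.c9
    linarith
  set C : ℝ := (2 * s + al + 2) * K + s * Real.log 2 + Real.log 16 with hCdef
  refine ⟨2 * C / δ, δ / 2, by linarith, ?_⟩
  intro d hS hX k u v hu hv hstrip hzero
  have hb : (0 : ℝ) < d.b k := by exact_mod_cast d.b_pos k
  have hb' : (0 : ℝ) < d.b (k + 1) := by exact_mod_cast d.b_pos (k + 1)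
  have ha : (0 : ℝ) < d.a k := by exact_mod_cast d.a_pos k
  have ha' : (0 : ℝ) < d.a (k + 1) := by exact_mod_cast d.a_pos (k + 1)
  have hQ := Q_pos d k
  obtain ⟨hdu, hdv⟩ := dvds (d.a k) (d.a (k + 1)) u v (d.copa k) hzero
  have hu1 : (d.a (k + 1) : ℝ) ≤ |(u : ℝ)| := abs_ge _ _ hu hdu
  have hv1 : (d.a k : ℝ) ≤ |(v : ℝ)| := abs_ge _ _ hv hdv
  have hu0 : 0 < |(u : ℝ)| := lt_of_lt_of_le ha' hu1
  have hv0 : 0 < |(v : ℝ)| := lt_of_lt_of_le ha hv1
  set t : ℝ := tt (u * d.a k + v * d.a (k + 1)) (u * d.b k + v * d.b (k + 1)) with ht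
  have ht1 : |(v : ℝ)| * d.b (k + 1) / 2 ≤ t := by
    have h1 : |((u * d.b k + v * d.b (k + 1) : ℤ) : ℝ)| ≤ t := by
      rw [ht]; unfold tt; exact le_max_right _ _
    linarith
  have hvb : 0 < |(v : ℝ)| * d.b (k + 1) / 2 := by positivity
  have ht0 : 0 < t := lt_of_lt_of_le hvb ht1
  have hT : Real.log |(v : ℝ)| + Real.log (d.b (k + 1)) - Real.log 2 ≤ Real.log t := by
    have h1 := Real.log_le_log hvb ht1
    rw [Real.log_div (by positivity) (by norm_num), Real.log_mul hv0.ne' hb'.ne'] at h1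
    exact h1
  have hV : Real.log (d.a k) ≤ Real.log |(v : ℝ)| := Real.log_le_log ha hv1
  have hU : Real.log (d.a (k + 1)) ≤ Real.log |(u : ℝ)| := Real.log_le_log ha' hu1
  have e1 := (abs_le.1 (hS.lb k)).1
  have e2 := (abs_le.1 (hS.la k)).1
  have e3 := (abs_le.1 (hS.la (k + 1))).1
  have e4 := (abs_le.1 (hS.lQ k)).2
  have hx := hX k
  set x : ℝ := Real.log (d.b k) with hxdef
  set y : ℝ := Real.log (d.b (k + 1)) with hydef
  have hs0 : 0 < s := by linarith [hC.s1]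
  have hal0 : 0 < al := hC.al0
  have hCx : C ≤ δ / 2 * x := by
    rw [div_le_iff₀ hδ0] at hx
    linarith
  have hmain : δ / 2 * x ≤ s * Real.log t + (Real.log |(u : ℝ)| - Real.log 16 - Real.log (d.Q k)) := by
    have f1 : s * (Real.log (d.a k) + y - Real.log 2) ≤ s * Real.log t := by
      apply mul_le_mul_of_nonneg_left _ hs0.le
      linarith
    have f2 : s * (al * x - K + y - Real.log 2) ≤ s * (Real.log (d.a k) + y - Real.log 2) := by
      apply mul_le_mul_of_nonneg_left _ hs0.le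
      linarith
    have f3 : (s + al) * (lam * x - K) ≤ (s + al) * y := by
      apply mul_le_mul_of_nonneg_left _ (by linarith)
      linarith
    have f4 : al * y - K ≤ Real.log |(u : ℝ)| := by linarith
    have f5 : Real.log (d.Q k) ≤ mu * x + K := by linarith
    have f6 : δ * x - C = s * (al * x - K - Real.log 2) + (s + al) * (lam * x - K) - K
        - Real.log 16 - (mu * x + K) := by
      rw [hδ, hCdef]; ring
    have f7 : δ * x - C ≤ s * Real.log t +
        (Real.log |(u : ℝ)| - Real.log 16 - Real.log (d.Q k)) := by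
      rw [f6]
      nlinarith [f1, f2, f3, f4, f5]
    linarith
  have g1 : (d.b k : ℝ) ^ (δ / 2) = Real.exp (δ / 2 * x) := by
    rw [Real.rpow_def_of_pos hb, hxdef, mul_comm]
  have g2 : t ^ s = Real.exp (s * Real.log t) := by
    rw [Real.rpow_def_of_pos ht0, mul_comm]
  have g3 : |(u : ℝ)| / (16 * d.Q k) =
      Real.exp (Real.log |(u : ℝ)| - Real.log 16 - Real.log (d.Q k)) := by
    rw [Real.exp_sub, Real.exp_sub, Real.exp_log hu0, Real.exp_log (by norm_num),
      Real.exp_log hQ, div_div]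
  rw [g1, g2, g3, ← Real.exp_add]
  exact Real.exp_le_exp.2 hmain

end Pool.Agent.W789.TH.B17b
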