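import Mathlib
import Pool.Agent.W789.TH.Defs
import Pool.Agent.W789.TH.DefsB

/-!
TH-B17c: combinations of two relation vectors in the main part of the domain.
-/

namespace Pool.Agent.W789.TH.B17c

open Pool.Agent.W789.TH

/-- The estimate on the logarithmic scale, first case. -/
theorem caseA (s ρ lam al mu K x y la q U V T LX l2 l16 : ℝ) (hs : 0 < s) (hρ : 0 < ρ)
    (hy : lam * x - K ≤ y) (hla : la ≤ al * x + K) (hq : q ≤ mu * x + K) (hV : 0 ≤ V)
    (hT : V + y - l2 ≤ T) (hX : V + y ≤ ρ * (l2 + LX)) (hU : LX ≤ l2 + (U + la)) :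
    (lam * (s + 1 / ρ) - al - mu) * x - ((s + 1 / ρ) * K + s * l2 + 2 * l2 + 2 * K + l16)
      ≤ s * T + U - l16 - q := by
  have h1 : (V + y) / ρ ≤ l2 + LX := by
    rw [div_le_iff₀ hρ]
    linarith
  have h2 : y / ρ ≤ (V + y) / ρ := by
    apply div_le_div_of_nonneg_right _ hρ.le
    linarith
  have h3 : (lam * x - K) / ρ ≤ y / ρ := div_le_div_of_nonneg_right hy hρ.le
  have h4 : s * (lam * x - K - l2) ≤ s * T := by
    apply mul_le_mul_of_nonneg_left _ hs.le
    linarith
  have h5 : (lam * x - K) / ρ = lam * (1 / ρ) * x - (1 / ρ) * K := by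
    field_simp
  rw [h5] at h3
  nlinarith

/-- The estimate on the logarithmic scale, second case. -/
theorem caseB (s ρ lam al mu K x y la q U V T LX l2 l16 : ℝ) (hs : 0 < s) (hρ : 1 < ρ)
    (hal : al < 1)
    (hy : lam * x - K ≤ y) (hla : la ≤ al * y + K) (hq : q ≤ mu * x + K) (hU : 0 ≤ U)
    (hT : V + y - l2 ≤ T) (hX : V + y ≤ ρ * (l2 + LX)) (hV : LX ≤ l2 + (V + la)) :
    (lam * (s * ρ * (1 - al)) - mu * (ρ - 1)) * x - (s * ρ * (1 - al) * K + s * ρ * K
      + 2 * s * ρ * l2 + s * (ρ - 1) * l2 + (ρ - 1) * l16 + (ρ - 1) * K)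
      ≤ (ρ - 1) * (s * T + U - l16 - q) := by
  have h1 : (ρ - 1) * V ≥ (1 - al * ρ) * y - ρ * K - 2 * ρ * l2 := by
    have h : ρ * LX ≤ ρ * (l2 + (V + (al * y + K))) := by
      apply mul_le_mul_of_nonneg_left _ (by linarith)
      linarith
    linarith
  have h2 : s * ((1 - al * ρ) * y - ρ * K - 2 * ρ * l2) ≤ s * ((ρ - 1) * V) :=
    mul_le_mul_of_nonneg_left h1 hs.le
  have h3 : (ρ - 1) * (s * (V + y - l2)) ≤ (ρ - 1) * (s * T) := by
    apply mul_le_mul_of_nonneg_left _ (by linarith)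
    exact mul_le_mul_of_nonneg_left hT hs.le
  have h4 : (ρ - 1) * q ≤ (ρ - 1) * (mu * x + K) :=
    mul_le_mul_of_nonneg_left hq (by linarith)
  have h5 : 0 ≤ (ρ - 1) * U := mul_nonneg (by linarith) hU
  have h6 : s * ρ * (1 - al) * (lam * x - K) ≤ s * ρ * (1 - al) * y := by
    apply mul_le_mul_of_nonneg_left hy
    have : 0 < s * ρ := by nlinarith
    exact mul_nonneg this.le (by linarith)
  linarith

theorem pf : MixCStm := by
  intro s ρ lam al mu K hC
  have hs : 0 < s := by linarith [hC.s1]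
  have hρ1 := hC.ρ1
  have hρ : 0 < ρ := by linarith
  have hc1 : 0 < lam * (s + 1 / ρ) - al - mu := by
    have h := hC.c10
    have e : (lam * (s + 1 / ρ) - al - mu) * ρ = lam * (s * ρ + 1) - (mu * ρ + al * ρ) := by
      field_simp
      ring
    by_contra hcon
    push Not at hcon
    have : (lam * (s + 1 / ρ) - al - mu) * ρ ≤ 0 := mul_nonpos_of_nonpos_of_nonneg hcon hρ.le
    linarith
  have hc2 : 0 < lam * (s * ρ * (1 - al)) - mu * (ρ - 1) := by
    have h := hC.c11
    linarith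
  set c1 := lam * (s + 1 / ρ) - al - mu with hc1d
  set c2 := lam * (s * ρ * (1 - al)) - mu * (ρ - 1) with hc2d
  set l2 := Real.log 2 with hl2
  set l16 := Real.log 16 with hl16
  set k1 := (s + 1 / ρ) * K + s * l2 + 2 * l2 + 2 * K + l16 with hk1
  set k2 := s * ρ * (1 - al) * K + s * ρ * K
      + 2 * s * ρ * l2 + s * (ρ - 1) * l2 + (ρ - 1) * l16 + (ρ - 1) * K with hk2
  have hρ1' : 0 < ρ - 1 := by linarith
  refine ⟨max 0 (max (2 * k1 / c1) (2 * k2 / c2)), min (c1 / 2) (c2 / (2 * (ρ - 1))),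
    lt_min (by positivity) (by positivity), ?_⟩
  intro d hd hX0 k u v hu hv h1 h2
  set ε := min (c1 / 2) (c2 / (2 * (ρ - 1))) with hε
  have hX := hX0 k
  set x := Real.log (d.b k) with hx
  have hx0 : 0 ≤ x := (le_max_left _ _).trans hX
  have hx1 : 2 * k1 / c1 ≤ x := (le_max_left _ _).trans ((le_max_right _ _).trans hX)
  have hx2 : 2 * k2 / c2 ≤ x := (le_max_right _ _).trans ((le_max_right _ _).trans hX)
  rw [div_le_iff₀ hc1] at hx1
  rw [div_le_iff₀ hc2] at hx2
  have hb0 : (0 : ℝ) < d.b k := by exact_mod_cast d.b_pos k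
  have hb1 : (0 : ℝ) < d.b (k + 1) := by exact_mod_cast d.b_pos (k + 1)
  have ha0 : (0 : ℝ) < d.a k := by exact_mod_cast d.a_pos k
  have ha1 : (0 : ℝ) < d.a (k + 1) := by exact_mod_cast d.a_pos (k + 1)
  have hQ : 0 < d.Q k := by
    unfold Raw.Q Raw.D
    have e1 : (0 : ℝ) < d.A k := by
      have := d.A_two k
      exact_mod_cast (by omega : 0 < d.A k)
    have e2 : (0 : ℝ) < ((d.ρ k).den : ℕ) := by exact_mod_cast (d.ρ k).pos
    exact mul_pos e1 e2
  have hu1 : (1 : ℝ) ≤ |(u : ℝ)| := by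
    have := Int.one_le_abs hu
    exact_mod_cast this
  have hv1 : (1 : ℝ) ≤ |(v : ℝ)| := by
    have := Int.one_le_abs hv
    exact_mod_cast this
  have hu0 : (0 : ℝ) < |(u : ℝ)| := by linarith
  have hv0 : (0 : ℝ) < |(v : ℝ)| := by linarith
  set Y := |((u * d.b k + v * d.b (k + 1) : ℤ) : ℝ)| with hY
  set X := |((u * d.a k + v * d.a (k + 1) : ℤ) : ℝ)| with hXd
  have hY0 : 0 < Y := by
    have : 0 < |(v : ℝ)| * d.b (k + 1) := mul_pos hv0 hb1
    linarith
  have hX00 : 0 ≤ X := abs_nonneg _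
  have hXp : 0 < X := by
    rcases hX00.eq_or_lt with h | h
    · exfalso
      rw [← h, mul_zero, Real.zero_rpow hρ.ne'] at h2
      linarith
    · exact h
  have htt : tt (u * d.a k + v * d.a (k + 1)) (u * d.b k + v * d.b (k + 1)) = max X Y := rfl
  have http : 0 < max X Y := lt_max_of_lt_left hXp
  rw [htt]
  -- logarithms
  have hyl := hd.lb k
  have hla := hd.la k
  have hla' := hd.la (k + 1)
  have hlQ := hd.lQ k
  rw [abs_le] at hyl hla hla' hlQ
  set y := Real.log (d.b (k + 1)) with hyd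
  have hU0 : 0 ≤ Real.log |(u : ℝ)| := Real.log_nonneg hu1
  have hV0 : 0 ≤ Real.log |(v : ℝ)| := Real.log_nonneg hv1
  have hT : Real.log |(v : ℝ)| + y - l2 ≤ Real.log (max X Y) := by
    have e1 : Real.log (|(v : ℝ)| * d.b (k + 1)) ≤ Real.log (2 * Y) :=
      Real.log_le_log (mul_pos hv0 hb1) h1
    rw [Real.log_mul hv0.ne' hb1.ne', Real.log_mul two_ne_zero hY0.ne'] at e1
    have e2 : Real.log Y ≤ Real.log (max X Y) := Real.log_le_log hY0 (le_max_right _ _)
    linarith
  have hXl : Real.log |(v : ℝ)| + y ≤ ρ * (l2 + Real.log X) := by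
    have e1 : Real.log (|(v : ℝ)| * d.b (k + 1)) ≤ Real.log ((2 * X) ^ ρ) :=
      Real.log_le_log (mul_pos hv0 hb1) (h1.trans h2)
    rw [Real.log_mul hv0.ne' hb1.ne', Real.log_rpow (by positivity),
      Real.log_mul two_ne_zero hXp.ne'] at e1
    exact e1
  have hXup : X ≤ |(u : ℝ)| * d.a k + |(v : ℝ)| * d.a (k + 1) := by
    rw [hXd]
    push_cast
    calc |(u : ℝ) * d.a k + (v : ℝ) * d.a (k + 1)| ≤ |(u : ℝ) * d.a k| + |(v : ℝ) * d.a (k + 1)| :=
          abs_add_le _ _
      _ = _ := by rw [abs_mul, abs_mul, abs_of_pos ha0, abs_of_pos ha1]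
  have hgoal : ε * x ≤ s * Real.log (max X Y) + Real.log |(u : ℝ)| - l16 - Real.log (d.Q k) := by
    rcases le_total (|(v : ℝ)| * d.a (k + 1)) (|(u : ℝ)| * d.a k) with h | h
    · have e1 : Real.log X ≤ l2 + (Real.log |(u : ℝ)| + Real.log (d.a k)) := by
        have : Real.log X ≤ Real.log (2 * (|(u : ℝ)| * d.a k)) :=
          Real.log_le_log hXp (by linarith)
        rwa [Real.log_mul two_ne_zero (by positivity), Real.log_mul hu0.ne' ha0.ne'] at this
      have e2 := caseA s ρ lam al mu K x y (Real.log (d.a k)) (Real.log (d.Q k))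
        (Real.log |(u : ℝ)|) (Real.log |(v : ℝ)|) (Real.log (max X Y)) (Real.log X) l2 l16 hs hρ
        (by linarith) (by linarith) (by linarith) hV0 hT hXl e1
      have e3 : ε * x ≤ c1 / 2 * x := mul_le_mul_of_nonneg_right (min_le_left _ _) hx0
      linarith
    · have e1 : Real.log X ≤ l2 + (Real.log |(v : ℝ)| + Real.log (d.a (k + 1))) := by
        have : Real.log X ≤ Real.log (2 * (|(v : ℝ)| * d.a (k + 1))) :=
          Real.log_le_log hXp (by linarith)
        rwa [Real.log_mul two_ne_zero (by positivity), Real.log_mul hv0.ne' ha1.ne'] at this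
      have e2 := caseB s ρ lam al mu K x y (Real.log (d.a (k + 1))) (Real.log (d.Q k))
        (Real.log |(u : ℝ)|) (Real.log |(v : ℝ)|) (Real.log (max X Y)) (Real.log X) l2 l16 hs hρ1
        hC.al1 (by linarith) (by linarith) (by linarith) hU0 hT hXl e1
      have e3 : ε * x ≤ c2 / (2 * (ρ - 1)) * x :=
        mul_le_mul_of_nonneg_right (min_le_right _ _) hx0
      have e4 : (ρ - 1) * (c2 / (2 * (ρ - 1)) * x) = c2 / 2 * x := by
        field_simp
      have e5 : (ρ - 1) * (ε * x) ≤ c2 / 2 * x := by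
        rw [← e4]
        exact mul_le_mul_of_nonneg_left e3 hρ1'.le
      have e6 : (ρ - 1) * (ε * x) ≤ (ρ - 1) *
          (s * Real.log (max X Y) + Real.log |(u : ℝ)| - l16 - Real.log (d.Q k)) := by
        linarith
      exact le_of_mul_le_mul_left e6 hρ1'
  have hR : 0 < max X Y ^ s * (|(u : ℝ)| / (16 * d.Q k)) := by positivity
  rw [← Real.log_le_log_iff (by positivity) hR, Real.log_rpow hb0,
    Real.log_mul (by positivity) (by positivity), Real.log_rpow http,
    Real.log_div hu0.ne' (by positivity), Real.log_mul (by norm_num) hQ.ne']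
  linarith

end Pool.Agent.W789.TH.B17c


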