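import Mathlib
import Pool.Agent.W789.TH.Defs
import Pool.Agent.W789.TH.DefsB

namespace Pool.Agent.W789.TH.B18

open Pool.Agent.W789.TH

theorem exp_step (E T s P : ℝ) (hP : 0 < P) (h : E ≤ T * s - Real.log P) :
    Real.exp E ≤ Real.exp (T * s) * (1 / P) := by
  have h1 : Real.exp (T * s) * (1 / P) = Real.exp (T * s - Real.log P) := by
    rw [Real.exp_sub, Real.exp_log hP, mul_one_div]
  rw [h1]
  exact Real.exp_le_exp.mpr h

theorem pf : GsizeStm := by
  intro s ρ lam al mu K hcon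
  obtain ⟨δ1, hδ1⟩ : ∃ δ1, δ1 = (s - 1) * (lam + al) - s := ⟨_, rfl⟩
  obtain ⟨δ2, hδ2⟩ : ∃ δ2, δ2 = mu * (s - 1) - lam * s := ⟨_, rfl⟩
  have hδ1p : 0 < δ1 := by rw [hδ1]; linarith [hcon.c2]
  have hδ2p : 0 < δ2 := by rw [hδ2]; linarith [hcon.c1]
  have hs1 := hcon.s1
  have hlam := hcon.lam2
  obtain ⟨ε, hε⟩ : ∃ ε, ε = min δ1 δ2 / 2 := ⟨_, rfl⟩
  have hmin : 0 < min δ1 δ2 := lt_min hδ1p hδ2p
  have hεp : 0 < ε := by rw [hε]; linarith
  have hε1 : 2 * ε ≤ δ1 := by rw [hε]; linarith [min_le_left δ1 δ2]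
  have hε2 : 2 * ε ≤ δ2 := by rw [hε]; linarith [min_le_right δ1 δ2]
  obtain ⟨K', hK'⟩ : ∃ K', K' = |K| := ⟨_, rfl⟩
  have hK'0 : 0 ≤ K' := by rw [hK']; exact abs_nonneg K
  have hKK : K ≤ K' := by rw [hK']; exact le_abs_self K
  obtain ⟨L, hL⟩ : ∃ L, L = Real.log 32 := ⟨_, rfl⟩
  have hL0 : 0 ≤ L := by rw [hL]; exact Real.log_nonneg (by norm_num)
  obtain ⟨C, hC⟩ : ∃ C, C = δ1 * K' + 2 * s * K' + 2 * s * L + 2 * L := ⟨_, rfl⟩
  have hC0 : 0 ≤ C := by rw [hC]; positivity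
  refine ⟨C / ε, ε, hεp, ?_⟩
  intro d hd hX l t j hj1 hj2 hQt
  obtain ⟨x, hx⟩ : ∃ x, x = Real.log (d.b l) := ⟨_, rfl⟩
  obtain ⟨y, hy⟩ : ∃ y, y = Real.log (d.b (l + 1)) := ⟨_, rfl⟩
  have hbl : (0 : ℝ) < d.b l := by exact_mod_cast d.b_pos l
  have hb' : (0 : ℝ) < d.b (l + 1) := by exact_mod_cast d.b_pos (l + 1)
  have hDp : (0 : ℝ) < d.D (l + 1) := by
    unfold Raw.D
    exact_mod_cast (d.ρ (l + 1)).den_pos
  have hQp : 0 < d.Q l := by
    unfold Raw.Q Raw.D
    have h1 : (0 : ℝ) < (d.ρ l).den := by exact_mod_cast (d.ρ l).den_pos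
    have h2 : (2 : ℝ) ≤ d.A l := by exact_mod_cast d.A_two l
    positivity
  have ht : 0 < t := by
    by_contra hle
    push Not at hle
    have : 2 * (d.b (l + 1) : ℝ) * t ≤ 0 :=
      mul_nonpos_of_nonneg_of_nonpos (by positivity) hle
    linarith
  obtain ⟨T, hT⟩ : ∃ T, T = Real.log t := ⟨_, rfl⟩
  have hCx : C ≤ ε * x := by
    have := hX l
    rw [div_le_iff₀ hεp, ← hx] at this
    linarith
  have hx0 : 0 ≤ x := by
    by_contra hlt
    push Not at hlt
    have : ε * x < 0 := mul_neg_of_pos_of_neg hεp hlt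
    linarith
  have hlb := abs_le.mp (hd.lb l)
  rw [← hx, ← hy] at hlb
  have hlQ := abs_le.mp (hd.lQ l)
  rw [← hx] at hlQ
  have hlD := abs_le.mp (hd.lD (l + 1))
  rw [← hy] at hlD
  obtain ⟨q, hq⟩ : ∃ q, q = Real.log (d.Q l) := ⟨_, rfl⟩
  obtain ⟨δ, hδ⟩ : ∃ δ, δ = Real.log (d.D (l + 1) : ℝ) := ⟨_, rfl⟩
  rw [← hq] at hlQ
  rw [← hδ] at hlD
  have hTq : q ≤ L + y + T := by
    have := Real.log_le_log hQp hQt
    rw [Real.log_mul (by positivity) ht.ne', Real.log_mul (by norm_num) hb'.ne', ← hq, ← hy,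
      ← hT, ← hL] at this
    exact this
  have hts : t ^ s = Real.exp (T * s) := by rw [Real.rpow_def_of_pos ht, ← hT]
  have hbe : (d.b l : ℝ) ^ ε = Real.exp (x * ε) := by rw [Real.rpow_def_of_pos hbl, ← hx]
  have hlog2 : Real.log 2 ≤ L := by
    rw [hL]; exact Real.log_le_log (by norm_num) (by norm_num)
  have hlog8 : Real.log 8 ≤ L := by
    rw [hL]; exact Real.log_le_log (by norm_num) (by norm_num)
  have hs0 : 0 < s - 1 := by linarith
  constructor
  · intro hDj
    rw [hts, hbe]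
    apply exp_step _ _ _ _ (by positivity)
    have h1 : (d.D (l + 1) : ℝ) ≤ 32 * d.b (l + 1) * t := by linarith
    have hTD : δ ≤ L + y + T := by
      have := Real.log_le_log hDp h1
      rw [Real.log_mul (by positivity) ht.ne', Real.log_mul (by norm_num) hb'.ne', ← hδ, ← hy,
        ← hT, ← hL] at this
      exact this
    rw [Real.log_mul (by norm_num) hDp.ne', ← hδ]
    -- s T ≥ s (δ - y - L)
    have h2 : (δ - y - L) * s ≤ T * s := mul_le_mul_of_nonneg_right (by linarith) (by linarith)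
    have h3 : (s - 1) * ((lam + al) * y - K') ≤ (s - 1) * δ :=
      mul_le_mul_of_nonneg_left (by linarith [hlD.1]) hs0.le
    have h4 : δ1 * (2 * x - K') ≤ δ1 * y := by
      refine mul_le_mul_of_nonneg_left ?_ hδ1p.le
      have : 2 * x ≤ lam * x := mul_le_mul_of_nonneg_right hlam.le hx0
      linarith [hlb.1]
    have h5 : 2 * ε * x ≤ δ1 * x := mul_le_mul_of_nonneg_right hε1 hx0
    have h6 : δ1 * y = (s - 1) * ((lam + al) * y) - s * y := by rw [hδ1]; ring
    have h7 : 0 ≤ s * K' := by positivity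
    have h8 : 0 ≤ s * L := by positivity
    have h9 : 0 ≤ δ1 * x := by positivity
    nlinarith
  · rcases min_choice (1 / (8 * j)) (1 / (4 * d.Q l)) with hm | hm
    · rw [hm, hts, hbe]
      have hj0 : 0 < j := by linarith
      have e : 1 / (8 * j) / 2 = 1 / (16 * j) := by rw [div_div]; ring_nf
      rw [e]
      apply exp_step _ _ _ _ (by positivity)
      have h1 : Real.log (16 * j) ≤ L + y + T := by
        have h2 : 16 * j ≤ 32 * d.b (l + 1) * t := by linarith
        have := Real.log_le_log (by positivity) h2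
        rw [Real.log_mul (by positivity : (32 * (d.b (l + 1) : ℝ)) ≠ 0) ht.ne',
          Real.log_mul (by norm_num) hb'.ne', ← hy, ← hT, ← hL] at this
        exact this
      have h2 : (mu * x - K' - y - L) * (s - 1) ≤ T * (s - 1) :=
        mul_le_mul_of_nonneg_right (by linarith [hlQ.1]) hs0.le
      have h3 : s * y ≤ s * (lam * x + K') :=
        mul_le_mul_of_nonneg_left (by linarith [hlb.2]) (by linarith)
      have h5 : 2 * ε * x ≤ δ2 * x := mul_le_mul_of_nonneg_right hε2 hx0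
      have h6 : δ2 * x = (mu * (s - 1) - lam * s) * x := by rw [hδ2]
      have h7 : 0 ≤ s * K' := by positivity
      have h8 : 0 ≤ s * L := by positivity
      have h9 : 0 ≤ δ1 * K' := by positivity
      nlinarith
    · rw [hm, hts, hbe]
      have e : 1 / (4 * d.Q l) / 2 = 1 / (8 * d.Q l) := by rw [div_div]; ring_nf
      rw [e]
      apply exp_step _ _ _ _ (by positivity)
      rw [Real.log_mul (by norm_num) hQp.ne', ← hq]
      have h2 : (q - y - L) * s ≤ T * s := mul_le_mul_of_nonneg_right (by linarith) (by linarith)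
      have h3 : (s - 1) * (mu * x - K') ≤ (s - 1) * q :=
        mul_le_mul_of_nonneg_left (by linarith [hlQ.1]) hs0.le
      have h4 : s * y ≤ s * (lam * x + K') :=
        mul_le_mul_of_nonneg_left (by linarith [hlb.2]) (by linarith)
      have h5 : 2 * ε * x ≤ δ2 * x := mul_le_mul_of_nonneg_right hε2 hx0
      have h6 : δ2 * x = (mu * (s - 1) - lam * s) * x := by rw [hδ2]
      have h7 : 0 ≤ s * K' := by positivity
      have h8 : 0 ≤ s * L := by positivity
      have h9 : 0 ≤ δ1 * K' := by positivity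
      nlinarith

end Pool.Agent.W789.TH.B18
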