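import Mathlib
import Pool.Agent.W789.TH.Defs
import Pool.Agent.W789.TH.DefsB

/-!
# Project TH, part B: the estimate at one level
-/

namespace Pool.Agent.W789.TH.B19

open Pool.Agent.W789.TH

theorem b_one (d : Raw) (k : ℕ) : (1 : ℝ) ≤ d.b k := by
  exact_mod_cast d.b_pos k

theorem a_one (d : Raw) (k : ℕ) : (1 : ℝ) ≤ d.a k := by
  exact_mod_cast d.a_pos k

theorem b_mono (d : Raw) (hg : d.Grow) (k : ℕ) : (d.b k : ℝ) ≤ d.b (k + 1) := by
  have h1 := hg.gb k
  have h2 := b_one d k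
  linarith

theorem Q_pos (d : Raw) (k : ℕ) : 0 < d.Q k := by
  have h1 : 0 < d.A k := lt_of_lt_of_le (by norm_num) (d.A_two k)
  have h2 : 0 < d.D k := (d.ρ k).den_pos
  have h3 : (0 : ℝ) < d.A k := by exact_mod_cast h1
  have h4 : (0 : ℝ) < d.D k := by exact_mod_cast h2
  exact mul_pos h3 h4

theorem tt_nonneg (x y : ℤ) : 0 ≤ tt x y := le_max_of_le_left (abs_nonneg _)

theorem Jn_le (d : Raw) (hg : d.Grow) (k : ℕ) (x y : ℤ) : d.Jn k x y ≤ 2 * d.b k * tt x y := by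
  have h1 := b_one d k
  have h2 := a_one d k
  have h3 := hg.g3 k
  have h4 : |(x : ℝ)| ≤ tt x y := le_max_left _ _
  have h5 : |(y : ℝ)| ≤ tt x y := le_max_right _ _
  have h6 : (d.b k : ℝ) * |(x : ℝ)| ≤ d.b k * tt x y :=
    mul_le_mul_of_nonneg_left h4 (by linarith)
  have h7 : (d.a k : ℝ) * |(y : ℝ)| ≤ d.b k * tt x y :=
    mul_le_mul h3 h5 (abs_nonneg _) (by linarith)
  unfold Raw.Jn
  linarith

theorem tt_le_Jn (d : Raw) (k : ℕ) (x y : ℤ) : tt x y ≤ d.Jn k x y := by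
  have h1 := b_one d k
  have h2 := a_one d k
  have h3 := abs_nonneg (x : ℝ)
  have h4 := abs_nonneg (y : ℝ)
  have h5 : |(x : ℝ)| ≤ d.b k * |(x : ℝ)| := le_mul_of_one_le_left h3 h1
  have h6 : |(y : ℝ)| ≤ d.a k * |(y : ℝ)| := le_mul_of_one_le_left h4 h2
  unfold Raw.Jn tt
  apply max_le
  · linarith
  · linarith

theorem rp {a b e e' : ℝ} (h1 : 1 ≤ a) (h2 : a ≤ b) (h3 : e ≤ e') (h4 : 0 < e') :
    a ^ e ≤ b ^ e' :=
  (Real.rpow_le_rpow_of_exponent_le h1 h3).trans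
    (Real.rpow_le_rpow (by linarith) h2 h4.le)

theorem pf (hL : LatStm) (hG : GenStm) (hD : DecStm) (hM : MultStm) (hX : MixStm)
    (hS : GsizeStm) : LevelStm := by
  intro s ρ lam al mu K hC
  obtain ⟨X1, ε1, hε1, HM⟩ := hM s ρ lam al mu K hC
  obtain ⟨X2, ε2, hε2, HX⟩ := hX s ρ lam al mu K hC
  obtain ⟨X3, ε3, hε3, HS⟩ := hS s ρ lam al mu K hC
  refine ⟨max X1 (max X2 X3), min ε1 (min ε2 ε3), lt_min hε1 (lt_min hε2 hε3), ?_⟩
  intro d t hg hsz hlog l x y h1 h2 hdom p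
  have l1 : ∀ k, X1 ≤ Real.log (d.b k) := fun k => (le_max_left _ _).trans (hlog k)
  have l2 : ∀ k, X2 ≤ Real.log (d.b k) := fun k =>
    ((le_max_left _ _).trans (le_max_right _ _)).trans (hlog k)
  have l3 : ∀ k, X3 ≤ Real.log (d.b k) := fun k =>
    ((le_max_right _ _).trans (le_max_right _ _)).trans (hlog k)
  have e1 : min ε1 (min ε2 ε3) ≤ ε1 := min_le_left _ _
  have e2 : min ε1 (min ε2 ε3) ≤ ε2 := (min_le_right _ _).trans (min_le_left _ _)
  have e3 : min ε1 (min ε2 ε3) ≤ ε3 := (min_le_right _ _).trans (min_le_right _ _)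
  have b0 := b_one d l
  have b1 : (d.b l : ℝ) ≤ d.b (l + 1) := b_mono d hg l
  have b2 : (d.b (l + 1) : ℝ) ≤ d.b (l + 2) := b_mono d hg (l + 1)
  have hts : 0 ≤ tt x y ^ s := Real.rpow_nonneg (tt_nonneg x y) s
  by_cases hdv : ((d.ρ (l + 1)).den : ℤ) ∣ d.jz (l + 1) x y
  · obtain ⟨u, v, hx, hy⟩ := hD d (l + 1) x y hdv
    have e4 : l + 1 + 1 = l + 2 := rfl
    rw [e4] at hx hy
    by_cases hu : u = 0
    · have hx' : x = v * d.a (l + 2) := by rw [hx, hu]; ring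
      have hy' : y = v * d.b (l + 2) := by rw [hy, hu]; ring
      have hv : v ≠ 0 := by
        intro hv
        rw [hv, zero_mul] at hx' hy'
        rw [hx', hy'] at h1
        have := Q_pos d l
        simp [Raw.Jn] at h1
        linarith
      have hJ : d.Jn (l + 2 + 1) x y ≤ d.Q (l + 2) / 16 := by
        have h3 := Jn_le d hg (l + 2 + 1) x y
        have h4 := tt_le_Jn d (l + 2) x y
        have h5 : 2 * (d.b (l + 2 + 1) : ℝ) * d.Q (l + 1) ≤ d.Q (l + 2) := hg.g6 (l + 1)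
        have h6 := b_one d (l + 2 + 1)
        have h7 : 2 * (d.b (l + 2 + 1) : ℝ) * tt x y ≤
            2 * (d.b (l + 2 + 1) : ℝ) * (d.Q (l + 1) / 16) :=
          mul_le_mul_of_nonneg_left (h4.trans h2) (by linarith)
        have h8 : 2 * (d.b (l + 2 + 1) : ℝ) * (d.Q (l + 1) / 16) =
            2 * (d.b (l + 2 + 1) : ℝ) * d.Q (l + 1) / 16 := by ring
        linarith
      have hlow := hL d t hg (l + 2) v 0 hv (by
        rw [zero_mul, zero_mul, add_zero, add_zero, ← hx', ← hy']; exact hJ) p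
      rw [zero_mul, zero_mul, add_zero, add_zero, ← hx', ← hy'] at hlow
      have hm := HM d hsz l1 (l + 2) v hv (by rw [← hx', ← hy']; exact hdom)
      rw [← hx', ← hy'] at hm
      exact (rp b0 (b1.trans b2) e1 hε1).trans
        (hm.trans (mul_le_mul_of_nonneg_left hlow hts))
    · have hlow := hL d t hg (l + 1) u v hu (by
        rw [e4, ← hx, ← hy]; exact h2) p
      rw [e4, ← hx, ← hy] at hlow
      by_cases hv : v = 0
      · have hx' : x = u * d.a (l + 1) := by rw [hx, hv]; ring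
        have hy' : y = u * d.b (l + 1) := by rw [hy, hv]; ring
        have hm := HM d hsz l1 (l + 1) u hu (by rw [← hx', ← hy']; exact hdom)
        rw [← hx', ← hy'] at hm
        exact (rp b0 b1 e1 hε1).trans (hm.trans (mul_le_mul_of_nonneg_left hlow hts))
      · have hm := HX d hsz l2 (l + 1) u v hu hv (by rw [e4, ← hx, ← hy]; exact hdom)
        rw [e4, ← hx, ← hy] at hm
        exact (rp b0 b1 e2 hε2).trans (hm.trans (mul_le_mul_of_nonneg_left hlow hts))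
  · have hj0 : d.jz (l + 1) x y ≠ 0 := by
      intro h
      rw [h] at hdv
      exact hdv (dvd_zero _)
    have hj1 : (1 : ℝ) ≤ |(d.jz (l + 1) x y : ℝ)| := by
      have : (1 : ℤ) ≤ |d.jz (l + 1) x y| := Int.one_le_abs hj0
      exact_mod_cast this
    have hj2 : |(d.jz (l + 1) x y : ℝ)| ≤ d.Jn (l + 1) x y := by
      unfold Raw.jz Raw.Jn
      push_cast
      have h3 := abs_sub ((d.a (l + 1) : ℝ) * y) ((d.b (l + 1) : ℝ) * x)
      rw [abs_mul, abs_mul, Nat.abs_cast, Nat.abs_cast] at h3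
      linarith
    have hJ := Jn_le d hg (l + 1) x y
    have hj3 : |(d.jz (l + 1) x y : ℝ)| ≤ 2 * d.b (l + 1) * tt x y := hj2.trans hJ
    have hQ : d.Q l ≤ 32 * d.b (l + 1) * tt x y := by linarith
    obtain ⟨s1, s2⟩ := HS d hsz l3 l (tt x y) _ hj1 hj3 hQ
    have hb := rp b0 le_rfl e3 hε3
    rcases hG d t hg l x y h2 hdv p with ⟨g1, g2⟩ | ⟨_, g2⟩
    · exact hb.trans ((s1 g1).trans (mul_le_mul_of_nonneg_left g2 hts))
    · exact hb.trans (s2.trans (mul_le_mul_of_nonneg_left g2 hts))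

end Pool.Agent.W789.TH.B19
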