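import Mathlib
import Pool.Agent.W789.TH.Defs
import Pool.Agent.W789.TH.DefsB

/-!
Upper bound from the conditions on the exponents.
-/

namespace Pool.Agent.W789.TH.B20

open Pool.Agent.W789.TH Filter Topology

theorem pf (hR : RawStm) (hG : GrowStm) (hL : LimStm) (hI : IndepStm) (hV : LevStm)
    (hE : LevelStm) : UpConStm := by
  intro s ρ lam al mu hc hA
  obtain ⟨K, hK⟩ := hR lam al mu hc.al0 hc.al1 hc.lam2 hc.c13 hc.c3
  obtain ⟨X1, hX1⟩ := hG s ρ lam al mu K hc
  obtain ⟨X2, ε, hε, hX2⟩ := hE s ρ lam al mu K hc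
  obtain ⟨d, hd, hX⟩ := hK (max X1 X2)
  have hgr : d.Grow := hX1 d hd (fun k => (le_max_left _ _).trans (hX k))
  have hX2' : ∀ k, X2 ≤ Real.log (d.b k) := fun k => (le_max_right _ _).trans (hX k)
  obtain ⟨t⟩ := hL d hgr
  have hlin := hI d t hgr
  obtain ⟨c, hc0, hinf⟩ := hA (-t.θb) t.θa hlin
    (LinearEquiv.smulOfNeZero ℝ (ℝ × ℝ) (1 / 2) (by norm_num))
  have hb2 : ∀ k : ℕ, (2 : ℝ) ^ k ≤ d.b k := by
    intro k
    induction k with
    | zero =>
      have : 1 ≤ d.b 0 := d.b_pos 0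
      simpa using (by exact_mod_cast this : (1 : ℝ) ≤ d.b 0)
    | succ k ih =>
      have := hgr.gb k
      rw [pow_succ]
      linarith
  have hbt : Tendsto (fun k => (d.b k : ℝ)) atTop atTop :=
    tendsto_atTop_mono hb2 (tendsto_pow_atTop_atTop_of_one_lt (by norm_num))
  have hbt2 : Tendsto (fun k => (d.b k : ℝ) ^ ε) atTop atTop :=
    (tendsto_rpow_atTop hε).comp hbt
  obtain ⟨l0, hl0⟩ := (hbt2.eventually_gt_atTop c).exists
  have hmono : Monotone (fun k => (d.b k : ℝ)) := by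
    apply monotone_nat_of_le_succ
    intro k
    have h1 := hgr.gb k
    have h2 : (0 : ℝ) ≤ d.b k := Nat.cast_nonneg _
    linarith
  apply hinf
  refine (hV d hgr l0).1.subset ?_
  rintro ⟨x, y⟩ ⟨⟨⟨u, v⟩, hmem, heq⟩, hdist⟩
  show d.Jn (l0 + 1) x y ≤ d.Q l0 / 16
  by_contra hlt
  push Not at hlt
  obtain ⟨l, hl, h1, h2⟩ := (hV d hgr l0).2 x y hlt
  have hu : u = 2 * (x : ℝ) := by
    have := congrArg Prod.fst heq
    simp only [LinearEquiv.smulOfNeZero_apply, Prod.smul_mk, smul_eq_mul] at this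
    linarith
  have hv : v = 2 * (y : ℝ) := by
    have := congrArg Prod.snd heq
    simp only [LinearEquiv.smulOfNeZero_apply, Prod.smul_mk, smul_eq_mul] at this
    linarith
  have hdom : Dom ρ x y := by
    rcases hmem with h | h
    · right
      have h' : |v| ≤ |u| ^ ρ := h
      rw [hu, hv, abs_mul, abs_mul, abs_of_pos (by norm_num : (0 : ℝ) < 2)] at h'
      exact h'
    · left
      have h' : |u| ≤ |v| ^ (0 : ℝ) := h
      rw [Real.rpow_zero, hu, abs_mul, abs_of_pos (by norm_num : (0 : ℝ) < 2)] at h'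
      by_contra hx
      have : (1 : ℤ) ≤ |x| := Int.one_le_abs hx
      have : (1 : ℝ) ≤ |(x : ℝ)| := by exact_mod_cast this
      linarith
  have hlev := hX2 d t hgr hd hX2' l x y h1 h2 hdom (round (t.Lf x y))
  have hbl : c < (d.b l : ℝ) ^ ε := by
    refine hl0.trans_le ?_
    exact Real.rpow_le_rpow (Nat.cast_nonneg _) (hmono hl) hε.le
  have htt : 0 < tt x y := by
    by_contra h0
    push Not at h0
    have hx0 : |(x : ℝ)| ≤ 0 := (le_max_left _ _).trans h0
    have hy0 : |(y : ℝ)| ≤ 0 := (le_max_right _ _).trans h0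
    have hx1 : |(x : ℝ)| = 0 := le_antisymm hx0 (abs_nonneg _)
    have hy1 : |(y : ℝ)| = 0 := le_antisymm hy0 (abs_nonneg _)
    have hJ : d.Jn (l0 + 1) x y = 0 := by
      unfold Raw.Jn
      rw [hx1, hy1]
      ring
    have hQ : 0 ≤ d.Q l0 := by
      unfold Raw.Q
      positivity
    rw [hJ] at hlt
    linarith
  have hdist' : distInt (-t.θb * x + t.θa * y) ≤ c * tt x y ^ (-s) := hdist
  have hD : distInt (-t.θb * x + t.θa * y) = |t.Lf x y - (round (t.Lf x y) : ℤ)| := rfl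
  rw [hD] at hdist'
  have hpos : 0 < tt x y ^ s := Real.rpow_pos_of_pos htt s
  have h5 : tt x y ^ s * |t.Lf x y - (round (t.Lf x y) : ℤ)| ≤ c := by
    calc tt x y ^ s * |t.Lf x y - (round (t.Lf x y) : ℤ)|
        ≤ tt x y ^ s * (c * tt x y ^ (-s)) := mul_le_mul_of_nonneg_left hdist' hpos.le
      _ = c * (tt x y ^ s * tt x y ^ (-s)) := by ring
      _ = c := by rw [← Real.rpow_add htt, add_neg_cancel, Real.rpow_zero, mul_one]
  linarith

end Pool.Agent.W789.TH.B20
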