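import Mathlib
import Pool.Agent.W789.TH.Defs
import Pool.Agent.W789.TH.DefsB

/-!
Choice of the exponents.
-/

namespace Pool.Agent.W789.TH.B21

open Pool.Agent.W789.TH Filter Topology

theorem ev_lt (f g : ℝ → ℝ) (hf : Continuous f) (hg : Continuous g) (h : f 0 < g 0) :
    ∀ᶠ e in 𝓝[>] (0 : ℝ), f e < g e :=
  (hf.continuousAt.eventually_lt hg.continuousAt h).filter_mono nhdsWithin_le_nhds

theorem pf : ParStm := by
  intro s β ρ hs32 hs2 hβ0 hβ1' hρ hE hH
  have hs1 : 0 < s - 1 := by linarith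
  have hs0 : 0 < s := by linarith
  -- `β < 1`
  have hβ1 : β < 1 := by
    rcases lt_or_eq_of_le hβ1' with h | h
    · exact h
    · exfalso
      subst h
      have h1 : (s + 1) * (s * (s - 2)) = 0 := by linear_combination -hE
      have h2 : 0 < (s + 1) * (s * (2 - s)) :=
        mul_pos (by linarith) (mul_pos hs0 (by linarith))
      nlinarith
  obtain ⟨g, hg⟩ : ∃ g : ℝ, g * (s - 1) = s := ⟨s / (s - 1), by field_simp⟩
  obtain ⟨L, hL⟩ : ∃ L : ℝ, L * β = s + 1 := ⟨(s + 1) / β, by field_simp⟩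
  have hg2 : 2 < g := by
    by_contra hc
    push Not at hc
    nlinarith
  have hLs : s + 1 < L := by
    by_contra hc
    push Not at hc
    nlinarith
  have hL0 : 0 < L := by linarith
  -- the central identity
  have hw : L * (s + 1 - g) = 1 + s * β := by
    have h1 : (β * (s - 1)) * (L * (s + 1 - g)) = (β * (s - 1)) * (1 + s * β) := by
      have : (β * (s - 1)) * (L * (s + 1 - g)) = (L * β) * ((s + 1) * (s - 1) - g * (s - 1)) := by
        ring
      rw [this, hL, hg]
      linear_combination -hE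
    exact mul_left_cancel₀ (mul_pos hβ0 hs1).ne' h1
  have hgs : g < s + 1 := by
    by_contra hc
    push Not at hc
    have : 0 < 1 + s * β := by positivity
    nlinarith
  have hρ1 : 0 < ρ - 1 := by linarith
  have hρ0 : 0 < ρ := by linarith
  have hH' : (ρ - 1) * (g * L + 1) < ρ * β * (s + 1) := by
    have h1 : ((s - 1) * β) * ((ρ - 1) * (g * L + 1)) < ((s - 1) * β) * (ρ * β * (s + 1)) := by
      have e1 : ((s - 1) * β) * ((ρ - 1) * (g * L + 1))
          = (ρ - 1) * ((g * (s - 1)) * (L * β) + (s - 1) * β) := by ring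
      rw [e1, hg, hL]
      calc (ρ - 1) * (s * (s + 1) + (s - 1) * β) = (ρ - 1) * ((s + 1) * s + (s - 1) * β) := by ring
        _ < ρ * (s + 1) * (s - 1) * β ^ 2 := hH
        _ = ((s - 1) * β) * (ρ * β * (s + 1)) := by ring
    exact lt_of_mul_lt_mul_left h1 (mul_pos hs1 hβ0).le
  have h1 : (ρ - 1) * g < ρ * β ^ 2 := by
    have h2 : L * ((ρ - 1) * g) < L * (ρ * β ^ 2) := by
      have e1 : L * (ρ * β ^ 2) = ρ * β * (L * β) := by ring
      rw [e1, hL]
      nlinarith
    exact lt_of_mul_lt_mul_left h2 hL0.le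
  have h2 : ρ - 1 < ρ * β ^ 2 := by nlinarith
  have hρβ : 0 < ρ * β := mul_pos hρ0 hβ0
  have h3 : ρ * β ^ 2 < ρ * β := by nlinarith
  have a1 := ev_lt (fun e => 1 - β + e) (fun _ => 1) (by fun_prop) (by fun_prop)
    (by linarith)
  have a6 := ev_lt (fun e => (L * g + e) * (ρ - 1))
    (fun e => (s + 1) * (1 - (1 - β + e) * ρ) + s * (ρ - 1)) (by fun_prop) (by fun_prop)
    (by nlinarith)
  have a10 := ev_lt (fun e => (L * g + e) * ρ + (1 - β + e) * ρ)
    (fun _ => L * (s * ρ + 1)) (by fun_prop) (by fun_prop)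
    (by

      have e1 : (L * g + 0) * ρ + (1 - β + 0) * ρ
          = ρ * (L * (s + 1)) - ρ * (s + 1) * β := by
        linear_combination -ρ * hw
      rw [e1]
      have e2 : ρ * (s + 1) * β = L * (ρ * β ^ 2) := by rw [← hL]; ring
      rw [e2]
      nlinarith)
  have a11 := ev_lt (fun e => (L * g + e) * (ρ - 1))
    (fun e => L * (s * ρ * (1 - (1 - β + e)))) (by fun_prop) (by fun_prop)
    (by

      have e1 : (L * g + 0) * (ρ - 1) = L * ((ρ - 1) * g) := by ring
      have e2 : L * (s * ρ * (1 - (1 - β + 0))) = L * (s * (ρ * β)) := by ring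
      rw [e1, e2]
      apply mul_lt_mul_of_pos_left _ hL0
      nlinarith)
  have a12 := ev_lt (fun e => (1 - β + e) * ρ) (fun _ => 1) (by fun_prop) (by fun_prop)
    (by nlinarith)
  obtain ⟨e, ⟨⟨⟨⟨⟨b1, b6⟩, b10⟩, b11⟩, b12⟩, he⟩⟩ :=
    (((((a1.and a6).and a10).and a11).and a12).and
      (self_mem_nhdsWithin : Set.Ioi (0 : ℝ) ∈ 𝓝[>] (0 : ℝ))).exists
  have he0 : 0 < e := he

  have q1 : 0 < e * (s - 1) := mul_pos he0 hs1
  have q2 : 0 < L * e := mul_pos hL0 he0
  have q3 : 0 < L * (g - 2) := mul_pos hL0 (by linarith)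
  have q4 : 0 < L * (L + 1 - β - g) := mul_pos hL0 (by linarith)
  have q5 : 0 < e * (L - 1) := mul_pos he0 (by linarith)
  have q6 : 0 < (L - 2) * (g - 2) := mul_pos (by linarith) (by linarith)
  have q7 : 0 < L * (L * g - L - g) := by
    refine mul_pos hL0 ?_
    have : (L - 2) * (g - 2) = L * g - 2 * L - 2 * g + 4 := by ring
    linarith
  refine ⟨L, 1 - β + e, L * g + e, ?_⟩
  refine ⟨by linarith, hρ, by linarith, b1, by linarith, ?_, ?_, ?_, b6, ?_, ?_, b10, b11, b12,
    ?_, ?_, ?_⟩
  · -- c1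
    have : (L * g + e) * (s - 1) = L * s + e * (s - 1) := by linear_combination L * hg
    rw [this]
    linarith
  · -- c2
    calc s = (s - 1) * g := by linarith
      _ < (s - 1) * (L + (1 - β + e)) := by
        apply mul_lt_mul_of_pos_left _ hs1
        linarith
  · -- c3
    linarith
  · -- c8
    have : (L - 1) * (s + 1) + s * (1 - β + e) = L * g + s * e := by
      linear_combination hw
    rw [this]
    linarith
  · -- c9
    have : s * (1 - β + e + L) + L * (1 - β + e) = L * g + (s * e + L * e) := by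
      linear_combination hw - hL
    rw [this]
    linarith
  · -- c13
    linarith
  · -- c14
    linarith
  · -- c15
    have : L * (L * g + e) - (L ^ 2 + (L * g + e)) = L * (L * g - L - g) + e * (L - 1) := by ring
    linarith

end Pool.Agent.W789.TH.B21
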