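import Mathlib
import Pool.Agent.W789.TH.Defs
import Pool.Agent.W789.TH.DefsB

/-!
Project TH (MP_594f4b_nt Q2): a cubic example, no exponent above `2`.
-/

set_option autoImplicit false

namespace Pool.Agent.W789.TH.B22

open Pool.Agent.W789.TH

theorem even_of_cube {x y : ℤ} (h : x ^ 3 = 2 * y) : ∃ z, x = 2 * z := by
  have h1 : (2 : ℤ) ∣ x ^ 3 := ⟨y, h⟩
  exact Int.prime_two.dvd_of_dvd_pow h1

theorem nm_zero : ∀ (n : ℕ) (x y z : ℤ), x.natAbs + y.natAbs + z.natAbs ≤ n →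
    x ^ 3 + 2 * y ^ 3 + 4 * z ^ 3 - 6 * x * y * z = 0 → x = 0 ∧ y = 0 ∧ z = 0 := by
  intro n
  induction n with
  | zero => intro x y z h _; omega
  | succ n ih =>
    intro x y z h h0
    obtain ⟨a, rfl⟩ := even_of_cube (x := x) (y := -y ^ 3 - 2 * z ^ 3 + 3 * x * y * z)
      (by linear_combination h0)
    obtain ⟨b, rfl⟩ := even_of_cube (x := y) (y := -2 * a ^ 3 - z ^ 3 + 3 * a * y * z)
      (by linarith [h0])
    obtain ⟨c, rfl⟩ := even_of_cube (x := z) (y := -a ^ 3 - 2 * b ^ 3 + 3 * a * b * z)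
      (by linarith [h0])
    by_cases hz : a = 0 ∧ b = 0 ∧ c = 0
    · obtain ⟨rfl, rfl, rfl⟩ := hz
      simp
    · have h1 : a.natAbs + b.natAbs + c.natAbs ≤ n := by omega
      have h2 := ih a b c h1 (by linarith [h0])
      exact absurd h2 hz

theorem exists_t : ∃ t : ℝ, 0 < t ∧ t ≤ 2 ∧ t ^ 3 = 2 := by
  refine ⟨(2 : ℝ) ^ ((1 : ℝ) / 3), by positivity, ?_, ?_⟩
  · calc (2 : ℝ) ^ ((1 : ℝ) / 3) ≤ (2 : ℝ) ^ (1 : ℝ) :=
        Real.rpow_le_rpow_of_exponent_le (by norm_num) (by norm_num)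
      _ = 2 := Real.rpow_one 2
  · rw [← Real.rpow_natCast, ← Real.rpow_mul (by norm_num)]
    norm_num

/-- the norm identity -/
theorem norm_id {t : ℝ} (ht : t ^ 3 = 2) (x y z : ℝ) :
    (x + y * t + z * t ^ 2) *
      (x ^ 2 + t ^ 2 * y ^ 2 + t ^ 4 * z ^ 2 - t * x * y - t ^ 2 * x * z - t ^ 3 * y * z) =
      x ^ 3 + 2 * y ^ 3 + 4 * z ^ 3 - 6 * x * y * z := by
  linear_combination (y ^ 3 + z ^ 3 * (t ^ 3 + 2) - 3 * x * y * z) * ht

theorem indep {t : ℝ} (ht : t ^ 3 = 2) : LinearIndependent ℤ ![1, t, t ^ 2] := by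
  rw [Fintype.linearIndependent_iff]
  intro g hg
  rw [Fin.sum_univ_three] at hg
  simp only [Matrix.cons_val_zero, Matrix.cons_val_one, Matrix.cons_val, zsmul_eq_mul,
    mul_one] at hg
  have h1 := norm_id ht (g 0 : ℝ) (g 1 : ℝ) (g 2 : ℝ)
  rw [hg, zero_mul] at h1
  have h2 : g 0 ^ 3 + 2 * g 1 ^ 3 + 4 * g 2 ^ 3 - 6 * g 0 * g 1 * g 2 = 0 := by
    exact_mod_cast h1.symm
  obtain ⟨h3, h4, h5⟩ := nm_zero _ _ _ _ le_rfl h2
  intro i
  fin_cases i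
  · exact h3
  · exact h4
  · exact h5

/-- lower bound of the linear form -/
theorem lower {t : ℝ} (h0 : 0 < t) (h2 : t ≤ 2) (ht : t ^ 3 = 2) (y z : ℤ)
    (hyz : ¬ (y = 0 ∧ z = 0)) :
    1 ≤ 113 * (max |(y : ℝ)| |(z : ℝ)|) ^ 2 * distInt (t * y + t ^ 2 * z) := by
  set X : ℝ := max |(y : ℝ)| |(z : ℝ)| with hX
  have hy : |(y : ℝ)| ≤ X := le_max_left _ _
  have hz : |(z : ℝ)| ≤ X := le_max_right _ _
  have hX1 : 1 ≤ X := by
    by_cases h : y = 0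
    · have hz0 : z ≠ 0 := fun h1 => hyz ⟨h, h1⟩
      have : (1 : ℝ) ≤ |(z : ℝ)| := by exact_mod_cast Int.one_le_abs hz0
      exact this.trans hz
    · have : (1 : ℝ) ≤ |(y : ℝ)| := by exact_mod_cast Int.one_le_abs h
      exact this.trans hy
  set p : ℤ := round (t * y + t ^ 2 * z) with hp
  set u : ℝ := t * y + t ^ 2 * z - p with hu
  have hdist : distInt (t * y + t ^ 2 * z) = |u| := rfl
  have hu2 : |u| ≤ 1 / 2 := abs_sub_round _
  have ht2 : t ^ 2 ≤ 4 := by nlinarith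
  have ht4 : t ^ 4 ≤ 16 := by nlinarith [sq_nonneg (t ^ 2), sq_nonneg t]
  have hpX : |(p : ℝ)| ≤ 7 * X := by
    have e1 : (p : ℝ) = t * y + t ^ 2 * z - u := by rw [hu]; ring
    rw [e1]
    have a1 : |t * y| ≤ 2 * X := by
      rw [abs_mul, abs_of_pos h0]
      exact mul_le_mul h2 hy (abs_nonneg _) (by norm_num)
    have a2 : |t ^ 2 * z| ≤ 4 * X := by
      rw [abs_mul, abs_of_nonneg (sq_nonneg t)]
      exact mul_le_mul ht2 hz (abs_nonneg _) (by norm_num)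
    have a3 := abs_sub (t * y + t ^ 2 * z) u
    have a4 := abs_add_le (t * (y : ℝ)) (t ^ 2 * z)
    linarith
  have hid := norm_id ht (-(p : ℝ)) (y : ℝ) (z : ℝ)
  set q : ℝ := (-(p : ℝ)) ^ 2 + t ^ 2 * (y : ℝ) ^ 2 + t ^ 4 * (z : ℝ) ^ 2 - t * (-(p : ℝ)) * y -
    t ^ 2 * (-(p : ℝ)) * z - t ^ 3 * y * z with hq
  have hne : (-p) ^ 3 + 2 * y ^ 3 + 4 * z ^ 3 - 6 * (-p) * y * z ≠ 0 := by
    intro h
    obtain ⟨_, h3, h4⟩ := nm_zero _ _ _ _ le_rfl h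
    exact hyz ⟨h3, h4⟩
  have hge : (1 : ℝ) ≤ |(-(p : ℝ)) ^ 3 + 2 * (y : ℝ) ^ 3 + 4 * (z : ℝ) ^ 3 -
      6 * (-(p : ℝ)) * y * z| := by
    have := Int.one_le_abs hne
    exact_mod_cast this
  have hX0 : 0 ≤ X := by linarith
  have hqb : |q| ≤ 113 * X ^ 2 := by
    have b1 : (-(p : ℝ)) ^ 2 ≤ 49 * X ^ 2 := by
      have := sq_le_sq' (by linarith [neg_abs_le (p : ℝ)]) (le_trans (le_abs_self (p : ℝ)) hpX)
      nlinarith
    have sy : (y : ℝ) ^ 2 ≤ X ^ 2 := by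
      rw [← sq_abs (y : ℝ)]
      exact pow_le_pow_left₀ (abs_nonneg _) hy 2
    have sz : (z : ℝ) ^ 2 ≤ X ^ 2 := by
      rw [← sq_abs (z : ℝ)]
      exact pow_le_pow_left₀ (abs_nonneg _) hz 2
    have b2 : t ^ 2 * (y : ℝ) ^ 2 ≤ 4 * X ^ 2 := mul_le_mul ht2 sy (sq_nonneg _) (by norm_num)
    have b3 : t ^ 4 * (z : ℝ) ^ 2 ≤ 16 * X ^ 2 := mul_le_mul ht4 sz (sq_nonneg _) (by norm_num)
    have pb : |(p : ℝ)| * |(y : ℝ)| ≤ 7 * X * X := mul_le_mul hpX hy (abs_nonneg _) (by linarith)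
    have pz : |(p : ℝ)| * |(z : ℝ)| ≤ 7 * X * X := mul_le_mul hpX hz (abs_nonneg _) (by linarith)
    have yz : |(y : ℝ)| * |(z : ℝ)| ≤ X * X := mul_le_mul hy hz (abs_nonneg _) hX0
    have b4 : |t * (-(p : ℝ)) * y| ≤ 14 * X ^ 2 := by
      rw [abs_mul, abs_mul, abs_neg, abs_of_pos h0, mul_assoc]
      calc t * (|(p : ℝ)| * |(y : ℝ)|) ≤ 2 * (7 * X * X) :=
            mul_le_mul h2 pb (by positivity) (by norm_num)
        _ = 14 * X ^ 2 := by ring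
    have b5 : |t ^ 2 * (-(p : ℝ)) * z| ≤ 28 * X ^ 2 := by
      rw [abs_mul, abs_mul, abs_neg, abs_of_nonneg (sq_nonneg t), mul_assoc]
      calc t ^ 2 * (|(p : ℝ)| * |(z : ℝ)|) ≤ 4 * (7 * X * X) :=
            mul_le_mul ht2 pz (by positivity) (by norm_num)
        _ = 28 * X ^ 2 := by ring
    have b6 : |t ^ 3 * (y : ℝ) * z| ≤ 2 * X ^ 2 := by
      rw [ht, abs_mul, abs_mul, mul_assoc]
      calc |(2 : ℝ)| * (|(y : ℝ)| * |(z : ℝ)|) ≤ 2 * (X * X) := by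
            rw [abs_of_pos (by norm_num : (0 : ℝ) < 2)]
            exact mul_le_mul_of_nonneg_left yz (by norm_num)
        _ = 2 * X ^ 2 := by ring
    have c4 := abs_le.1 b4
    have c5 := abs_le.1 b5
    have c6 := abs_le.1 b6
    have d1 : 0 ≤ (-(p : ℝ)) ^ 2 := sq_nonneg _
    have d2 : 0 ≤ t ^ 2 * (y : ℝ) ^ 2 := by positivity
    have d3 : 0 ≤ t ^ 4 * (z : ℝ) ^ 2 := by positivity
    rw [hq, abs_le]
    constructor
    · nlinarith [sq_nonneg X]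
    · nlinarith [sq_nonneg X]
  have hform : -(p : ℝ) + y * t + z * t ^ 2 = u := by rw [hu]; ring
  rw [hform] at hid
  rw [← hid, abs_mul] at hge
  rw [hdist]
  calc (1 : ℝ) ≤ |u| * |q| := hge
    _ ≤ |u| * (113 * X ^ 2) := mul_le_mul_of_nonneg_left hqb (abs_nonneg _)
    _ = 113 * X ^ 2 * |u| := by ring

theorem pf : CubicStm := by
  intro ρ s _ hs hadm
  obtain ⟨t, h0, h2, ht⟩ := exists_t
  obtain ⟨c, hc, hinf⟩ := hadm t (t ^ 2) (indep ht) (LinearEquiv.refl ℝ (ℝ × ℝ))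
  apply hinf
  set B : ℝ := (113 * c) ^ (1 / (s - 2)) with hB
  have hB0 : 0 ≤ B := by positivity
  have hs2 : 0 < s - 2 := by linarith
  have key : ∀ x : ℤ × ℤ, distInt (t * x.1 + t ^ 2 * x.2) ≤
      c * (max |(x.1 : ℝ)| |(x.2 : ℝ)|) ^ (-s) → max |(x.1 : ℝ)| |(x.2 : ℝ)| ≤ B := by
    rintro ⟨y, z⟩ hx
    simp only at hx ⊢
    by_cases hyz : y = 0 ∧ z = 0
    · obtain ⟨rfl, rfl⟩ := hyz
      simpa using hB0
    · have h3 := lower h0 h2 ht y z hyz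
      set X : ℝ := max |(y : ℝ)| |(z : ℝ)| with hX
      have hX1 : 1 ≤ X := by
        by_cases h : y = 0
        · have hz0 : z ≠ 0 := fun h1 => hyz ⟨h, h1⟩
          have : (1 : ℝ) ≤ |(z : ℝ)| := by exact_mod_cast Int.one_le_abs hz0
          exact this.trans (le_max_right _ _)
        · have : (1 : ℝ) ≤ |(y : ℝ)| := by exact_mod_cast Int.one_le_abs h
          exact this.trans (le_max_left _ _)
      have hX0 : 0 < X := by linarith
      have h4 : (1 : ℝ) ≤ 113 * c * X ^ (2 - s) := by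
        calc (1 : ℝ) ≤ 113 * X ^ 2 * distInt (t * y + t ^ 2 * z) := h3
          _ ≤ 113 * X ^ 2 * (c * X ^ (-s)) := mul_le_mul_of_nonneg_left hx (by positivity)
          _ = 113 * c * X ^ (2 - s) := by
            rw [sub_eq_add_neg, Real.rpow_add hX0, Real.rpow_two]
            ring
      have h5 : X ^ (s - 2) ≤ 113 * c := by
        have h6 : X ^ (2 - s) = (X ^ (s - 2))⁻¹ := by
          rw [← Real.rpow_neg hX0.le]
          congr 1
          ring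
        rw [h6, ← div_eq_mul_inv, one_le_div (Real.rpow_pos_of_pos hX0 _)] at h4
        exact h4
      calc X = (X ^ (s - 2)) ^ (1 / (s - 2)) := by
            rw [← Real.rpow_mul hX0.le, mul_one_div_cancel hs2.ne', Real.rpow_one]
        _ ≤ B := Real.rpow_le_rpow (by positivity) h5 (by positivity)
  refine ((Set.finite_Icc (-⌈B⌉) ⌈B⌉).prod (Set.finite_Icc (-⌈B⌉) ⌈B⌉)).subset ?_
  rintro ⟨y, z⟩ ⟨-, hx⟩
  have h3 := key (y, z) hx
  simp only at h3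
  have h4 : |(y : ℝ)| ≤ B := (le_max_left _ _).trans h3
  have h5 : |(z : ℝ)| ≤ B := (le_max_right _ _).trans h3
  have h6 : ∀ w : ℤ, |(w : ℝ)| ≤ B → w ∈ Set.Icc (-⌈B⌉) ⌈B⌉ := by
    intro w hw
    have h7 : |(w : ℝ)| ≤ (⌈B⌉ : ℝ) := hw.trans (Int.le_ceil B)
    have h8 : |w| ≤ ⌈B⌉ := by exact_mod_cast h7
    exact abs_le.1 h8
  exact ⟨h6 y h4, h6 z h5⟩

end Pool.Agent.W789.TH.B22
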