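import Mathlib
import Pool.Agent.W789.TH.Defs
import Pool.Agent.W789.TH.DefsB

/-!
# TH-B23: monotonicity in the exponent
-/

namespace Pool.Agent.W789.TH.B23

open Pool.Agent.W789.TH

theorem pf : MonoStm := by
  intro ρ s s' hs' hss hadm θ₁ θ₂ hlin L
  obtain ⟨c, hc, hinf⟩ := hadm θ₁ θ₂ hlin L
  refine ⟨c, hc, hinf.mono ?_⟩
  rintro x ⟨hx1, hx2⟩
  refine ⟨hx1, hx2.trans (mul_le_mul_of_nonneg_left ?_ hc.le)⟩
  by_cases h : x.1 = 0 ∧ x.2 = 0
  · rw [h.1, h.2]
    have hs : 0 < s := lt_of_lt_of_le hs' hss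
    simp [Real.zero_rpow, hs.ne', hs'.ne']
  · have h1 : (1 : ℝ) ≤ max |(x.1 : ℝ)| |(x.2 : ℝ)| := by
      rw [not_and_or] at h
      rcases h with h | h
      · refine le_trans ?_ (le_max_left _ _)
        have := Int.one_le_abs h
        exact_mod_cast this
      · refine le_trans ?_ (le_max_right _ _)
        have := Int.one_le_abs h
        exact_mod_cast this
    exact Real.rpow_le_rpow_of_exponent_le h1 (neg_le_neg hss)

end Pool.Agent.W789.TH.B23
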