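import Mathlib
import Pool.Agent.W789.TH.Defs
import Pool.Agent.W789.TH.DefsB

/-!
MP_594f4b_nt, project TH: the quadratic for `β` (`BetaStm`).
-/

set_option autoImplicit false

namespace Pool.Agent.W789.TH.C01

open Pool.Agent.W789.TH

theorem pf : BetaStm := by
  intro s hs1 hs2
  have h5 : (2 : ℝ) < √5 := by
    rw [Real.lt_sqrt (by norm_num)]
    norm_num
  have h55 : √5 ^ 2 = 5 := Real.sq_sqrt (by norm_num)
  have hs : (1 : ℝ) < s := by linarith
  have hw : 0 < s ^ 2 - s - 1 := by
    have h : 0 < (s - (1 + √5) / 2) * (s - (1 - √5) / 2) := by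
      apply mul_pos
      · linarith
      · linarith
    nlinarith
  have hc : ContinuousOn (fun β : ℝ => β * (1 + s * β) * (s - 1)) (Set.Icc 0 1) := by fun_prop
  have hivt := intermediate_value_Icc (zero_le_one' ℝ) hc
  have hmem : (s + 1) * (s ^ 2 - s - 1) ∈
      Set.Icc ((fun β : ℝ => β * (1 + s * β) * (s - 1)) 0)
        ((fun β : ℝ => β * (1 + s * β) * (s - 1)) 1) := by
    constructor
    · simp only [zero_mul]
      exact (mul_pos (by linarith) hw).le
    · simp only [one_mul, mul_one]
      have h : 0 ≤ (s + 1) * (s * (2 - s)) := by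
        apply mul_nonneg (by linarith)
        apply mul_nonneg <;> linarith
      nlinarith
  obtain ⟨β, hβ, he⟩ := hivt hmem
  simp only at he
  refine ⟨β, hs1, hs2, ?_, hβ.2, he⟩
  rcases hβ.1.eq_or_lt with h | h
  · exfalso
    rw [← h, zero_mul, zero_mul] at he
    have := mul_pos (show (0 : ℝ) < s + 1 by linarith) hw
    linarith
  · exact h

end Pool.Agent.W789.TH.C01
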