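import Mathlib
import Pool.Agent.W789.TH.Defs
import Pool.Agent.W789.TH.DefsB

/-! Existence of the value. -/

namespace Pool.Agent.W789.TH.C03

open Pool.Agent.W789.TH

/-- auxiliary quotient -/
noncomputable def w (s : ℝ) : ℝ := (s ^ 2 - s - 1) / (s - 1)

/-- the root -/
noncomputable def be (s : ℝ) : ℝ := (-1 + √(1 + 4 * s * (s + 1) * w s)) / (2 * s)

/-- the function whose value is `(ρ - 1) / ρ` -/
noncomputable def ka (s : ℝ) : ℝ :=
  (s + 1) * (s - 1) * be s ^ 2 / ((s + 1) * s + (s - 1) * be s)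

theorem phi_sq : ((1 + √5) / 2 : ℝ) ^ 2 = (1 + √5) / 2 + 1 := by
  have h : (√5 : ℝ) ^ 2 = 5 := Real.sq_sqrt (by norm_num)
  nlinarith

theorem phi_gt : (3 / 2 : ℝ) < (1 + √5) / 2 := by
  have : (2 : ℝ) < √5 := by
    rw [Real.lt_sqrt (by norm_num)]
    norm_num
  linarith

theorem phi_le : ((1 + √5) / 2 : ℝ) ≤ 2 := by
  have : (√5 : ℝ) ≤ 3 := by
    rw [Real.sqrt_le_left (by norm_num)]
    norm_num
  linarith

theorem w_nonneg {s : ℝ} (hs : (1 + √5) / 2 ≤ s) : 0 ≤ w s := by
  have h1 := phi_gt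
  have h2 := phi_sq
  unfold w
  refine div_nonneg ?_ (by linarith)
  nlinarith

theorem w_le_one {s : ℝ} (hs : (1 + √5) / 2 ≤ s) (hs2 : s ≤ 2) : w s ≤ 1 := by
  have h1 := phi_gt
  unfold w
  rw [div_le_one (by linarith)]
  nlinarith

theorem be_nonneg {s : ℝ} (hs : (1 + √5) / 2 ≤ s) : 0 ≤ be s := by
  have h1 := phi_gt
  have h2 := w_nonneg hs
  unfold be
  refine div_nonneg ?_ (by linarith)
  have : (1 : ℝ) ≤ √(1 + 4 * s * (s + 1) * w s) := by
    rw [Real.one_le_sqrt]
    have : 0 ≤ 4 * s * (s + 1) * w s := by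
      have : 0 < s := by linarith
      positivity
    linarith
  linarith

theorem be_le_one {s : ℝ} (hs : (1 + √5) / 2 ≤ s) (hs2 : s ≤ 2) : be s ≤ 1 := by
  have h1 := phi_gt
  have h2 := w_le_one hs hs2
  have h0 : 0 < s := by linarith
  unfold be
  rw [div_le_one (by linarith)]
  have : √(1 + 4 * s * (s + 1) * w s) ≤ 2 * s + 1 := by
    rw [Real.sqrt_le_left (by linarith)]
    have h3 : 4 * s * (s + 1) * w s ≤ 4 * s * (s + 1) * 1 :=
      mul_le_mul_of_nonneg_left h2 (by positivity)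
    nlinarith
  linarith

theorem be_eq {s : ℝ} (hs : (1 + √5) / 2 ≤ s) :
    be s * (1 + s * be s) * (s - 1) = (s + 1) * (s ^ 2 - s - 1) := by
  have h1 := phi_gt
  have h0 : 0 < s := by linarith
  have hs1 : s - 1 ≠ 0 := by
    have : 0 < s - 1 := by linarith
    exact this.ne'
  have h2 := w_nonneg hs
  set r := √(1 + 4 * s * (s + 1) * w s) with hr
  have hr2 : r ^ 2 = 1 + 4 * s * (s + 1) * w s := by
    rw [hr]
    exact Real.sq_sqrt (by positivity)
  have hb : be s = (-1 + r) / (2 * s) := rfl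
  have hw : w s * (s - 1) = s ^ 2 - s - 1 := by
    unfold w
    exact div_mul_cancel₀ _ hs1
  have h3 : be s * (2 * s) = -1 + r := by
    rw [hb]
    exact div_mul_cancel₀ _ (by positivity)
  have h4 : 4 * s * (be s * (1 + s * be s)) = 4 * s * ((s + 1) * w s) := by
    have : (be s * (2 * s) + 1) ^ 2 = 1 + 4 * s * (s + 1) * w s := by
      rw [h3, ← hr2]
      ring
    nlinarith
  have h5 : be s * (1 + s * be s) = (s + 1) * w s := mul_left_cancel₀ (by positivity) h4
  rw [h5, mul_assoc, hw]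

theorem den_pos {s : ℝ} (hs : (1 + √5) / 2 ≤ s) : 0 < (s + 1) * s + (s - 1) * be s := by
  have h1 := phi_gt
  have h0 : 0 < s := by linarith
  have h2 := be_nonneg hs
  have : 0 ≤ (s - 1) * be s := mul_nonneg (by linarith) h2
  have : 0 < (s + 1) * s := by positivity
  linarith

theorem ka_cont : ContinuousOn ka (Set.Icc ((1 + √5) / 2) 2) := by
  have h1 := phi_gt
  have hw : ContinuousOn w (Set.Icc ((1 + √5) / 2) 2) := by
    unfold w
    refine ContinuousOn.div (by fun_prop) (by fun_prop) ?_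
    intro s hs
    have : 0 < s - 1 := by linarith [hs.1]
    exact this.ne'
  have hb : ContinuousOn be (Set.Icc ((1 + √5) / 2) 2) := by
    unfold be
    refine ContinuousOn.div ?_ (by fun_prop) ?_
    · refine ContinuousOn.add continuousOn_const (ContinuousOn.sqrt ?_)
      refine ContinuousOn.add continuousOn_const (ContinuousOn.mul (by fun_prop) hw)
    · intro s hs
      have : 0 < 2 * s := by linarith [hs.1]
      exact this.ne'
  unfold ka
  refine ContinuousOn.div (ContinuousOn.mul (by fun_prop) (hb.pow 2)) ?_ ?_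
  · exact ContinuousOn.add (by fun_prop) (ContinuousOn.mul (by fun_prop) hb)
  · intro s hs
    exact (den_pos hs.1).ne'

theorem ka_phi : ka ((1 + √5) / 2) = 0 := by
  have h2 := phi_sq
  have hw : w ((1 + √5) / 2) = 0 := by
    unfold w
    rw [h2]
    simp
  have hb : be ((1 + √5) / 2) = 0 := by
    unfold be
    rw [hw]
    simp
  unfold ka
  rw [hb]
  simp

theorem ka_two : ka 2 = 3 / 7 := by
  have hw : w 2 = 1 := by
    unfold w
    norm_num
  have hb : be 2 = 1 := by
    unfold be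
    rw [hw]
    have : √(1 + 4 * 2 * (2 + 1) * 1 : ℝ) = 5 := by
      rw [Real.sqrt_eq_iff_mul_self_eq (by norm_num) (by norm_num)]
      norm_num
    rw [this]
    norm_num
  unfold ka
  rw [hb]
  norm_num

theorem pf : ExStm := by
  intro ρ h1 h2
  have hρ : 0 < ρ := by linarith
  have hκ0 : 0 < (ρ - 1) / ρ := div_pos (by linarith) hρ
  have hκ1 : (ρ - 1) / ρ ≤ 3 / 7 := by
    rw [div_le_div_iff₀ hρ (by norm_num)]
    linarith
  obtain ⟨s, hs, hks⟩ := intermediate_value_Icc phi_le ka_cont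
    (show (ρ - 1) / ρ ∈ Set.Icc (ka ((1 + √5) / 2)) (ka 2) from by
      rw [ka_phi, ka_two]
      exact ⟨hκ0.le, hκ1⟩)
  have hb0 := be_nonneg hs.1
  have hb1 := be_le_one hs.1 hs.2
  have hsne : (1 + √5) / 2 ≠ s := by
    intro h
    rw [← h, ka_phi] at hks
    linarith
  have hbne : be s ≠ 0 := by
    intro h
    unfold ka at hks
    rw [h] at hks
    have h3 : (ρ - 1) / ρ = 0 := by
      rw [← hks]
      simp
    linarith
  refine ⟨s, be s, lt_of_le_of_ne hs.1 hsne, hs.2, lt_of_le_of_ne hb0 (Ne.symm hbne), hb1,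
    be_eq hs.1, ?_⟩
  have hd := den_pos hs.1
  unfold ka at hks
  rw [div_eq_div_iff hd.ne' hρ.ne'] at hks
  linarith

end Pool.Agent.W789.TH.C03
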