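import Mathlib
import Pool.Agent.W789.TH.Defs
import Pool.Agent.W789.TH.DefsB

/-!
Comparison with the largest root of the cubic (written by helper701).
-/

namespace Pool.Agent.W789.TH.C04

open Pool.Agent.W789.TH

theorem pf : CmpStm := by
  intro ρ s β hρ1 hρ2 hV
  obtain ⟨hφ, hs2, hβ0, hβ1, hE1, hE2⟩ := hV
  have h5 : (2.2 : ℝ) ≤ √5 := Real.le_sqrt_of_sq_le (by norm_num)
  have hs16 : (1.6 : ℝ) < s := by linarith
  have hlt : s < 2 := by
    rcases hs2.lt_or_eq with h | h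
    · exact h
    · exfalso
      rw [h] at hE1 hE2
      have hb : (β - 1) * (2 * β + 3) = 0 := by linarith
      have hb1 : β = 1 := by
        rcases mul_eq_zero.1 hb with h' | h'
        · linarith
        · exfalso
          linarith
      rw [hb1] at hE2
      linarith
  refine ⟨hlt, fun x hx => ?_⟩
  -- the value at `s`
  have hM : 0 < (s + 1) * s + (s - 1) * β := by
    have h1 : 0 < s - 1 := by linarith
    have h2 : 0 < s := by linarith
    positivity
  have hPs : 0 < ρ * s ^ 3 - 2 * (ρ - 1) * s ^ 2 - 2 * ρ * s - 1 := by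
    have e1 : (ρ * s ^ 3 - 2 * (ρ - 1) * s ^ 2 - 2 * ρ * s - 1) * ((s + 1) * s + (s - 1) * β)
        = ρ * β * (s - 1) * (s * ((s + 1) - β * (s - 1) * (s + 2) + (s - 1) * β ^ 2)) := by
      have e2 : (ρ * s ^ 3 - 2 * (ρ - 1) * s ^ 2 - 2 * ρ * s - 1)
          = ρ * ((s + 1) * (s ^ 2 - s - 1)) - (ρ - 1) * (2 * s ^ 2 - 1) := by ring
      rw [e2, ← hE1]
      have e3 : (ρ * (β * (1 + s * β) * (s - 1)) - (ρ - 1) * (2 * s ^ 2 - 1))
          * ((s + 1) * s + (s - 1) * β)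
          = ρ * (β * (1 + s * β) * (s - 1)) * ((s + 1) * s + (s - 1) * β)
            - (2 * s ^ 2 - 1) * ((ρ - 1) * ((s + 1) * s + (s - 1) * β)) := by ring
      rw [e3, hE2]
      ring
    have h1 : 0 < s - 1 := by linarith
    have h2 : 0 < (1 : ℝ) - (s - 1) := by linarith
    have h3 : 0 ≤ (1 - β) * (s + 1 - β) := mul_nonneg (by linarith) (by linarith)
    have h4 : 0 < (s + 1) - β * (s - 1) * (s + 2) + (s - 1) * β ^ 2 := by
      have h5 : 0 < (s + 1) * (2 - s) := mul_pos (by linarith) (by linarith)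
      have h6 : 0 ≤ (s - 1) * ((1 - β) * (s + 1 - β)) := mul_nonneg h1.le h3
      nlinarith
    have h7 : 0 < ρ * β * (s - 1) * (s * ((s + 1) - β * (s - 1) * (s + 2) + (s - 1) * β ^ 2)) := by
      have h8 : 0 < ρ := by linarith
      have h9 : 0 < s := by linarith
      positivity
    rw [← e1] at h7
    exact (pos_iff_pos_of_mul_pos h7).2 hM
  -- increasing
  have hB : 0 ≤ ρ * (x ^ 2 + x * s + s ^ 2) - 2 * (ρ - 1) * (x + s) - 2 * ρ := by
    have hx16 : (1.6 : ℝ) < x := by linarith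
    have h1 : ρ - 1 ≤ 3 / 7 * ρ := by linarith
    have h2 : (ρ - 1) * (x + s) ≤ 3 / 7 * ρ * (x + s) :=
      mul_le_mul_of_nonneg_right h1 (by linarith)
    have h3 : 0 ≤ x ^ 2 + x * s + s ^ 2 - 2 - 6 / 7 * (x + s) := by nlinarith
    have h4 : 0 ≤ ρ * (x ^ 2 + x * s + s ^ 2 - 2 - 6 / 7 * (x + s)) :=
      mul_nonneg (by linarith) h3
    nlinarith
  have hfac : ρ * x ^ 3 - 2 * (ρ - 1) * x ^ 2 - 2 * ρ * x - 1
      = (ρ * s ^ 3 - 2 * (ρ - 1) * s ^ 2 - 2 * ρ * s - 1)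
        + (x - s) * (ρ * (x ^ 2 + x * s + s ^ 2) - 2 * (ρ - 1) * (x + s) - 2 * ρ) := by ring
  rw [hfac]
  have := mul_nonneg (sub_nonneg.2 hx) hB
  linarith

end Pool.Agent.W789.TH.C04
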