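import Mathlib
import Pool.Agent.W789.TH.Defs
import Pool.Agent.W789.TH.StmA
import Pool.Agent.W789.TH.DefsB

/-!
Closed form of the exponent.
-/

namespace Pool.Agent.W789.TH

/-- The equation satisfied by the exponent `s*(ρ)`. -/
def ExpEq (ρ s : ℝ) : Prop :=
  ρ * (s ^ 3 - 2 * s - 1) - (ρ - 1) * s ^ 2 =
    (s - 1) * √((ρ - 1) * ((2 * ρ - 1) * s + ρ))

def EqvStm : Prop := ∀ ρ s : ℝ, 1 < ρ → ρ ≤ 7 / 4 → 1 < s →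
  (ExpEq ρ s ↔ ∃ β : ℝ, Val ρ s β)

def GreatStm : Prop := ∀ ρ s β : ℝ, 1 < ρ → ρ < 7 / 4 → Val ρ s β →
  ∃ r : ℝ, IsGreatest {x : ℝ | ρ * x ^ 3 - 2 * (ρ - 1) * x ^ 2 - 2 * ρ * x - 1 = 0} r ∧ r < s

/-- The two halves together. -/
def MainStm : Prop := ∀ ρ s β : ℝ, 1 < ρ → ρ ≤ 7 / 4 → Val ρ s β →
  (∀ t : ℝ, 0 < t → t < s → Admits ρ 0 t) ∧ (∀ t : ℝ, s < t → ¬ Admits ρ 0 t)

end Pool.Agent.W789.TH
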