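import Mathlib
import Pool.Agent.W789.TH.Defs
import Pool.Agent.W789.TH.StmA
import Pool.Agent.W789.TH.DefsB
import Pool.Agent.W789.TH.StmC

namespace Pool.Agent.W789.TH.C07

open Pool.Agent.W789.TH

theorem phi_gt : (3 : ℝ) / 2 < (1 + √5) / 2 := by
  have : (2 : ℝ) < √5 := by
    rw [Real.lt_sqrt (by norm_num)]; norm_num
  linarith

theorem pf (hLow : LowStm) (hUp : UpConStm) (hPar : ParStm) (hCub : CubicStm) (hMono : MonoStm)
    (hBeta : BetaStm) (hKap : KapStm) : MainStm := by
  intro ρ s β hρ hρ2 hV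
  obtain ⟨v1, v2, v3, v4, v5, v6⟩ := hV
  have hphi := phi_gt
  have hB : BEq s β := ⟨v1, v2, v3, v4, v5⟩
  have hX : 0 < (s + 1) * s + (s - 1) * β := by
    have h1 : 0 < s - 1 := by linarith
    have h2 : 0 < s := by linarith
    positivity
  have hρ0 : 0 < ρ := by linarith
  constructor
  · intro t ht hts
    -- an exponent between
    obtain ⟨t', ht1, ht2⟩ : ∃ t', max t ((1 + √5) / 2) < t' ∧ t' < s :=
      exists_between (max_lt hts v1)
    have h1 : t < t' := (le_max_left _ _).trans_lt ht1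
    have h2 : (1 + √5) / 2 < t' := (le_max_right _ _).trans_lt ht1
    obtain ⟨β', hB'⟩ := hBeta t' h2 (by linarith)
    obtain ⟨_, hk⟩ := hKap t' β' s β hB' hB ht2
    obtain ⟨_, _, b3, b4, b5⟩ := hB'
    have hadm : Admits ρ 0 t' := by
      refine hLow t' β' ρ (by linarith) (by linarith) b3 b4 hρ b5 ?_
      have h3 : (ρ * (t' + 1) * (t' - 1) * β' ^ 2) * ((s + 1) * s + (s - 1) * β) <
          ((ρ - 1) * ((t' + 1) * t' + (t' - 1) * β')) * ((s + 1) * s + (s - 1) * β) := by
        calc (ρ * (t' + 1) * (t' - 1) * β' ^ 2) * ((s + 1) * s + (s - 1) * β)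
            = ρ * (((t' + 1) * (t' - 1) * β' ^ 2) * ((s + 1) * s + (s - 1) * β)) := by ring
          _ < ρ * (((s + 1) * (s - 1) * β ^ 2) * ((t' + 1) * t' + (t' - 1) * β')) :=
              mul_lt_mul_of_pos_left hk hρ0
          _ = (ρ * (s + 1) * (s - 1) * β ^ 2) * ((t' + 1) * t' + (t' - 1) * β') := by ring
          _ = ((ρ - 1) * ((s + 1) * s + (s - 1) * β)) * ((t' + 1) * t' + (t' - 1) * β') := by
              rw [v6]
          _ = _ := by ring
      exact lt_of_mul_lt_mul_right h3 hX.le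
    exact hMono ρ t' t ht h1.le hadm
  · intro t hst hadm
    rcases lt_or_eq_of_le v2 with hlt | heq
    · obtain ⟨t', ht1, ht2⟩ : ∃ t', s < t' ∧ t' < min t 2 := exists_between (lt_min hst hlt)
      have h1 : t' < t := ht2.trans_le (min_le_left _ _)
      have h2 : t' < 2 := ht2.trans_le (min_le_right _ _)
      obtain ⟨β', hB'⟩ := hBeta t' (by linarith) h2.le
      obtain ⟨_, hk⟩ := hKap s β t' β' hB hB' ht1
      obtain ⟨_, _, b3, b4, b5⟩ := hB'
      obtain ⟨lam, al, mu, hcon⟩ := hPar t' β' ρ (by linarith) h2 b3 b4 hρ b5 (by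
        have h3 : ((ρ - 1) * ((t' + 1) * t' + (t' - 1) * β')) * ((s + 1) * s + (s - 1) * β) <
            (ρ * (t' + 1) * (t' - 1) * β' ^ 2) * ((s + 1) * s + (s - 1) * β) := by
          calc ((ρ - 1) * ((t' + 1) * t' + (t' - 1) * β')) * ((s + 1) * s + (s - 1) * β)
              = ((ρ - 1) * ((s + 1) * s + (s - 1) * β)) * ((t' + 1) * t' + (t' - 1) * β') := by
                ring
            _ = (ρ * (s + 1) * (s - 1) * β ^ 2) * ((t' + 1) * t' + (t' - 1) * β') := by rw [v6]
            _ = ρ * (((s + 1) * (s - 1) * β ^ 2) * ((t' + 1) * t' + (t' - 1) * β')) := by ring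
            _ < ρ * (((t' + 1) * (t' - 1) * β' ^ 2) * ((s + 1) * s + (s - 1) * β)) :=
                mul_lt_mul_of_pos_left hk hρ0
            _ = _ := by ring
        exact lt_of_mul_lt_mul_right h3 hX.le)
      exact hUp t' ρ lam al mu hcon (hMono ρ t t' (by linarith) h1.le hadm)
    · rw [heq] at hst
      exact hCub ρ t hρ hst hadm

end Pool.Agent.W789.TH.C07
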