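import Mathlib
import Pool.Agent.W789.TH.Defs
import Pool.Agent.W789.TH.StmA
import Pool.Agent.W789.TH.DefsB
import Pool.Agent.W789.TH.StmC
import Pool.Agent.W789.TH.A01
import Pool.Agent.W789.TH.A02
import Pool.Agent.W789.TH.A03
import Pool.Agent.W789.TH.A04
import Pool.Agent.W789.TH.A05
import Pool.Agent.W789.TH.A06
import Pool.Agent.W789.TH.A07
import Pool.Agent.W789.TH.A08
import Pool.Agent.W789.TH.A09
import Pool.Agent.W789.TH.A10
import Pool.Agent.W789.TH.A11
import Pool.Agent.W789.TH.A12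
import Pool.Agent.W789.TH.A13
import Pool.Agent.W789.TH.A14
import Pool.Agent.W789.TH.A15
import Pool.Agent.W789.TH.A16
import Pool.Agent.W789.TH.A17
import Pool.Agent.W789.TH.B01
import Pool.Agent.W789.TH.B02
import Pool.Agent.W789.TH.B03
import Pool.Agent.W789.TH.B04
import Pool.Agent.W789.TH.B05
import Pool.Agent.W789.TH.B06
import Pool.Agent.W789.TH.B06a
import Pool.Agent.W789.TH.B07
import Pool.Agent.W789.TH.B08
import Pool.Agent.W789.TH.B09
import Pool.Agent.W789.TH.B10
import Pool.Agent.W789.TH.B11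
import Pool.Agent.W789.TH.B12
import Pool.Agent.W789.TH.B13
import Pool.Agent.W789.TH.B14
import Pool.Agent.W789.TH.B15
import Pool.Agent.W789.TH.B16
import Pool.Agent.W789.TH.B17
import Pool.Agent.W789.TH.B17a
import Pool.Agent.W789.TH.B17b
import Pool.Agent.W789.TH.B17c
import Pool.Agent.W789.TH.B18
import Pool.Agent.W789.TH.B19
import Pool.Agent.W789.TH.B20
import Pool.Agent.W789.TH.B21
import Pool.Agent.W789.TH.B22
import Pool.Agent.W789.TH.B23
import Pool.Agent.W789.TH.C01
import Pool.Agent.W789.TH.C02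
import Pool.Agent.W789.TH.C03
import Pool.Agent.W789.TH.C04
import Pool.Agent.W789.TH.C07

namespace Pool.Agent.W789.TH.All

open Pool.Agent.W789.TH

theorem main : MainStm := by
  have basis := A05.pf
  have plane := A06.pf basis
  have a8 := A08.pf
  have dl := A10.pf a8
  have two := A11.pf dl
  have low : LowStm := A17.pf (A02.pf A01.pf) (A04.pf A03.pf) (A07.pf plane) a8 A09.pf dl
    (A12.pf dl) (A13.pf plane two) (A14.pf plane two) A15.pf A16.pf
  have raw : RawStm := B08.pf (B06.pf B05.pf B04.pf (B03.pf B01.pf B02.pf) B06a.pf) B07.pf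
  have lev : LevelStm := B19.pf B11.pf B12.pf B14.pf B16.pf (B17.pf B17a.pf B17b.pf B17c.pf) B18.pf
  have up : UpConStm := B20.pf raw B09.pf B10.pf B13.pf B15.pf lev
  exact C07.pf low up B21.pf B22.pf B23.pf C01.pf C02.pf

end Pool.Agent.W789.TH.All
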