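import Mathlib
import Pool.Agent.W789.TH.Defs
import Pool.Agent.W789.TH.StmA
import Pool.Agent.W789.TH.DefsB
import Pool.Agent.W789.TH.StmC

/-!
Closed form of the exponent: proof of `EqvStm`.
-/

namespace Pool.Agent.W789.TH.C05

theorem pf : EqvStm := by
  intro ρ s hρ hρ2 hs
  set P : ℝ := ρ * (s ^ 3 - 2 * s - 1) - (ρ - 1) * s ^ 2 with hP
  set T : ℝ := (2 * ρ - 1) * s + ρ with hT
  have hTpos : 0 < T := by rw [hT]; nlinarith
  have hs1 : 0 < s - 1 := by linarith
  have hρ1 : 0 < ρ - 1 := by linarith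
  have hid : s * (s + 1) * P ^ 2 + (s - 1) * T * P - (s ^ 2 - s - 1) * (s - 1) * T ^ 2
      = s * (s + 1) * (P ^ 2 - (ρ - 1) * (s - 1) ^ 2 * T) := by
    rw [hP, hT]; ring
  have hexp : ExpEq ρ s ↔ (0 < P ∧ P ^ 2 = (ρ - 1) * (s - 1) ^ 2 * T) := by
    unfold ExpEq
    rw [← hP, ← hT]
    constructor
    · intro h
      have hq : 0 < √((ρ - 1) * T) := Real.sqrt_pos.mpr (by positivity)
      refine ⟨by rw [h]; positivity, ?_⟩
      rw [h, mul_pow, Real.sq_sqrt (by positivity)]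
      ring
    · rintro ⟨h1, h2⟩
      have : P = √(P ^ 2) := (Real.sqrt_sq h1.le).symm
      rw [this, h2]
      have : (ρ - 1) * (s - 1) ^ 2 * T = (s - 1) ^ 2 * ((ρ - 1) * T) := by ring
      rw [this, Real.sqrt_mul (by positivity), Real.sqrt_sq hs1.le]
  rw [hexp]
  have hgold : ∀ x : ℝ, 1 < x → 0 < x ^ 2 - x - 1 → (1 + √5) / 2 < x := by
    intro x hx h
    have h5 : √5 < 2 * x - 1 := by
      rw [Real.sqrt_lt' (by linarith)]
      nlinarith
    linarith
  have hgold' : ∀ x : ℝ, (1 + √5) / 2 < x → 0 < x ^ 2 - x - 1 := by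
    intro x h
    have h5 : √5 < 2 * x - 1 := by linarith
    have h0 : (0 : ℝ) ≤ √5 := Real.sqrt_nonneg 5
    have h6 : (√5) ^ 2 = 5 := Real.sq_sqrt (by norm_num)
    nlinarith
  have hPfac : P = ρ * ((s + 1) * (s ^ 2 - s - 1)) - (ρ - 1) * s ^ 2 := by
    rw [hP]; ring
  constructor
  · rintro ⟨hPpos, hsq⟩
    have hq : 0 < s ^ 2 - s - 1 := by
      by_contra hcon
      push Not at hcon
      have h1 : ρ * ((s + 1) * (s ^ 2 - s - 1)) ≤ 0 := by
        have : (s + 1) * (s ^ 2 - s - 1) ≤ 0 := by nlinarith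
        nlinarith
      have h2 : 0 ≤ (ρ - 1) * s ^ 2 := by positivity
      linarith
    have hs2 : s ≤ 2 := by
      by_contra hcon
      push Not at hcon
      -- P > (9/14) ρ s (s-1)
      have h1 : ρ * (9 / 14) * (s * (s - 1)) < P := by
        have h3 : (ρ - 1) ≤ (3 / 7) * ρ := by linarith
        have h4 : (ρ - 1) * s ^ 2 ≤ (3 / 7) * ρ * s ^ 2 := by
          apply mul_le_mul_of_nonneg_right h3 (by positivity)
        have h5 : 0 < (s - 2) * (s ^ 2 + (13 / 14) * s + 1 / 2) := by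
          apply mul_pos (by linarith)
          nlinarith
        have h6 : 0 < ρ * ((s - 2) * (s ^ 2 + (13 / 14) * s + 1 / 2)) := by
          apply mul_pos (by linarith) h5
        rw [hP]
        nlinarith
      have h2 : 0 < ρ * (9 / 14) * (s * (s - 1)) := by positivity
      have h3 : (ρ * (9 / 14) * (s * (s - 1))) ^ 2 < P ^ 2 := by
        apply pow_lt_pow_left₀ h1 h2.le (by norm_num)
      -- (ρ-1) T ≤ (81/196) ρ^2 s^2
      have h4 : (ρ - 1) * T ≤ (81 / 196) * ρ ^ 2 * s ^ 2 := by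
        have ha : (ρ - 1) ≤ (3 / 7) * ρ := by linarith
        have hb : T ≤ ρ * ((10 / 7) * s + 1) := by
          rw [hT]; nlinarith
        have hc : (ρ - 1) * T ≤ ((3 / 7) * ρ) * (ρ * ((10 / 7) * s + 1)) := by
          apply mul_le_mul ha hb hTpos.le (by positivity)
        have hd : ((3 : ℝ) / 7) * ((10 / 7) * s + 1) ≤ (81 / 196) * s ^ 2 := by nlinarith
        have he : ρ ^ 2 * (((3 : ℝ) / 7) * ((10 / 7) * s + 1)) ≤ ρ ^ 2 * ((81 / 196) * s ^ 2) :=
          mul_le_mul_of_nonneg_left hd (by positivity)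
        nlinarith
      have h5 : (s - 1) ^ 2 * ((ρ - 1) * T) ≤ (s - 1) ^ 2 * ((81 / 196) * ρ ^ 2 * s ^ 2) :=
        mul_le_mul_of_nonneg_left h4 (by positivity)
      have h6 : (ρ * (9 / 14) * (s * (s - 1))) ^ 2 = (s - 1) ^ 2 * ((81 / 196) * ρ ^ 2 * s ^ 2) := by
        ring
      rw [hsq, h6] at h3
      nlinarith
    refine ⟨(s + 1) * P / ((s - 1) * T), hgold s hs hq, hs2, by positivity, ?_⟩
    set β : ℝ := (s + 1) * P / ((s - 1) * T) with hβ
    have hβpos : 0 < β := by rw [hβ]; positivity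
    have hβe : β * ((s - 1) * T) = (s + 1) * P := by
      rw [hβ]; field_simp
    have hid' : s * (s + 1) * P ^ 2 + (s - 1) * T * P - (s ^ 2 - s - 1) * (s - 1) * T ^ 2 = 0 := by
      rw [hid, hsq]; ring
    have e1 : β * (1 + s * β) * (s - 1) = (s + 1) * (s ^ 2 - s - 1) := by
      have hne : ((s - 1) * T ^ 2) ≠ 0 := by positivity
      apply mul_right_cancel₀ hne
      have : β * (1 + s * β) * (s - 1) * ((s - 1) * T ^ 2)
          = (β * ((s - 1) * T)) * ((s - 1) * T) + s * (β * ((s - 1) * T)) ^ 2 := by ring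
      rw [this, hβe]
      have h7 : (s + 1) * (s * (s + 1) * P ^ 2 + (s - 1) * T * P
          - (s ^ 2 - s - 1) * (s - 1) * T ^ 2) = 0 := by rw [hid']; ring
      nlinarith
    have e2 : (ρ - 1) * ((s + 1) * s + (s - 1) * β) = ρ * (s + 1) * (s - 1) * β ^ 2 := by
      have hne : s ≠ 0 := by linarith
      apply mul_left_cancel₀ hne
      have h8 : ρ * (s + 1) * (β * (1 + s * β) * (s - 1))
          = ρ * (s + 1) * ((s + 1) * (s ^ 2 - s - 1)) := by rw [e1]
      have h9 : β * ((s - 1) * ((2 * ρ - 1) * s + ρ)) =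
          (s + 1) * (ρ * (s ^ 3 - 2 * s - 1) - (ρ - 1) * s ^ 2) := by
        rw [← hP, ← hT]; exact hβe
      linear_combination -h8 + h9
    refine ⟨?_, e1, e2⟩
    by_contra hcon
    push Not at hcon
    have h100 : (1 + s) < 1 + s * β := by nlinarith
    have h10 : (1 + s) < β * (1 + s * β) := by
      have h101 : 1 * (1 + s * β) < β * (1 + s * β) :=
        mul_lt_mul_of_pos_right hcon (by positivity)
      linarith
    have h11 : (1 + s) * (s - 1) < β * (1 + s * β) * (s - 1) :=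
      mul_lt_mul_of_pos_right h10 hs1
    have h12 : (s + 1) * (s ^ 2 - s - 1) ≤ (s + 1) * (s - 1) := by
      apply mul_le_mul_of_nonneg_left _ (by linarith)
      nlinarith
    linarith
  · rintro ⟨β, hg, hs2, hβ0, hβ1, e1, e2⟩
    have hβe : β * ((s - 1) * T) = (s + 1) * P := by
      rw [hP, hT]
      linear_combination (ρ * (s + 1)) * e1 + s * e2
    have hPpos : 0 < P := by
      have h1 : 0 < (s + 1) * P := by rw [← hβe]; positivity
      by_contra hcon
      push Not at hcon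
      nlinarith
    refine ⟨hPpos, ?_⟩
    have h2 : β * (1 + s * β) * (s - 1) * ((s - 1) * T ^ 2)
        = (β * ((s - 1) * T)) * ((s - 1) * T) + s * (β * ((s - 1) * T)) ^ 2 := by ring
    rw [e1, hβe] at h2
    have h3 : (s + 1) * (s * (s + 1) * P ^ 2 + (s - 1) * T * P
        - (s ^ 2 - s - 1) * (s - 1) * T ^ 2) = 0 := by nlinarith
    rw [hid] at h3
    have h4 : (s + 1) * (s * (s + 1)) ≠ 0 := by positivity
    have h5 : P ^ 2 - (ρ - 1) * (s - 1) ^ 2 * T = 0 := by
      apply mul_left_cancel₀ h4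
      rw [mul_zero]
      linarith
    linarith

end Pool.Agent.W789.TH.C05
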