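import Mathlib
import Pool.Agent.W789.TH.Defs
import Pool.Agent.W789.TH.StmA
import Pool.Agent.W789.TH.DefsB
import Pool.Agent.W789.TH.StmC

namespace Pool.Agent.W789.TH.C06

theorem pf (hC : CmpStm) : GreatStm := by
  intro ρ s β h1 h2 hV
  obtain ⟨-, hpos⟩ := hC ρ s β h1 h2 hV
  have hφs : (1 + √5) / 2 < s := hV.1
  obtain ⟨φ, hφ⟩ : ∃ φ : ℝ, φ = (1 + √5) / 2 := ⟨_, rfl⟩
  rw [← hφ] at hφs
  have h5 : √5 ^ 2 = 5 := Real.sq_sqrt (by norm_num)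
  have h50 : 0 ≤ √5 := Real.sqrt_nonneg 5
  have hφ2 : φ ^ 2 = φ + 1 := by
    rw [hφ]
    nlinarith
  have hφ3 : φ ^ 3 = 2 * φ + 1 := by
    calc φ ^ 3 = φ * φ ^ 2 := by ring
      _ = φ * (φ + 1) := by rw [hφ2]
      _ = φ ^ 2 + φ := by ring
      _ = φ + 1 + φ := by rw [hφ2]
      _ = 2 * φ + 1 := by ring
  have hφ0 : 0 < φ := by rw [hφ]; linarith
  have hcont : Continuous (fun x : ℝ => ρ * x ^ 3 - 2 * (ρ - 1) * x ^ 2 - 2 * ρ * x - 1) := by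
    fun_prop
  have hneg : ρ * φ ^ 3 - 2 * (ρ - 1) * φ ^ 2 - 2 * ρ * φ - 1 < 0 := by
    rw [hφ3, hφ2]
    nlinarith [mul_pos (sub_pos.2 h1) hφ0]
  have hsp := hpos s le_rfl
  have hne : ∃ x ∈ Set.Icc φ s, ρ * x ^ 3 - 2 * (ρ - 1) * x ^ 2 - 2 * ρ * x - 1 = 0 := by
    have := intermediate_value_Icc hφs.le hcont.continuousOn
    obtain ⟨x, hx, hx0⟩ := this ⟨hneg.le, hsp.le⟩
    exact ⟨x, hx, hx0⟩
  have hclosed : IsClosed {x : ℝ | ρ * x ^ 3 - 2 * (ρ - 1) * x ^ 2 - 2 * ρ * x - 1 = 0} :=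
    isClosed_eq hcont continuous_const
  have hcomp : IsCompact (Set.Icc φ s ∩
      {x : ℝ | ρ * x ^ 3 - 2 * (ρ - 1) * x ^ 2 - 2 * ρ * x - 1 = 0}) :=
    isCompact_Icc.inter_right hclosed
  obtain ⟨x0, hx0, hx00⟩ := hne
  obtain ⟨r, ⟨hr1, hr2⟩, hr3⟩ := hcomp.exists_isGreatest ⟨x0, hx0, hx00⟩
  refine ⟨r, ⟨hr2, ?_⟩, ?_⟩
  · intro x hx
    by_cases hxs : s ≤ x
    · have := hpos x hxs
      have hx' : ρ * x ^ 3 - 2 * (ρ - 1) * x ^ 2 - 2 * ρ * x - 1 = 0 := hx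
      linarith
    · push Not at hxs
      by_cases hxφ : φ ≤ x
      · exact hr3 ⟨⟨hxφ, hxs.le⟩, hx⟩
      · push Not at hxφ
        exact hxφ.le.trans hr1.1
  · rcases lt_or_eq_of_le hr1.2 with h | h
    · exact h
    · exfalso
      have hr2' : ρ * r ^ 3 - 2 * (ρ - 1) * r ^ 2 - 2 * ρ * r - 1 = 0 := hr2
      rw [h] at hr2'
      linarith

end Pool.Agent.W789.TH.C06
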