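import Mathlib
import Pool.Agent.W789.TH.Defs
import Pool.Agent.W789.TH.StmA

/-!
The difference vector at a new plane.
-/

namespace Pool.Agent.W789.TH.A12

open Pool.Agent.W789.TH

/-- the reduced vector -/
lemma red (x1 y1 x2 y2 l1 l2 b b' D : ℝ) (hb : 0 < b) (hy1 : |y1| = b) (hy2 : |y2| = b')
    (hx1 : |x1| < b) (hD : |x1 * y2 - x2 * y1| = D) (hD2 : 2 * b ^ 2 ≤ D) (hbb : b ≤ b')
    (hl : |l2| ≤ |l1|) :
    ∃ n : ℤ, |y2 - n * y1| ≤ b / 2 ∧ D / (2 * b) ≤ |x2 - n * x1| ∧ |x2 - n * x1| ≤ 2 * D / b ∧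
      |l2 - n * l1| ≤ 3 * (b' / b) * |l1| := by
  have hy0 : y1 ≠ 0 := by
    intro h
    rw [h, abs_zero] at hy1
    linarith
  have hn := abs_sub_round (y2 / y1)
  set n := round (y2 / y1) with hnd
  have e1 : y2 - n * y1 = (y2 / y1 - n) * y1 := by
    field_simp
  have h1 : |y2 - n * y1| ≤ b / 2 := by
    rw [e1, abs_mul, hy1]
    have := mul_le_mul_of_nonneg_right hn hb.le
    linarith
  have e2 : (x2 - n * x1) * y1 = -(x1 * y2 - x2 * y1) + x1 * (y2 - n * y1) := by ring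
  have h2 : |x1 * (y2 - n * y1)| ≤ D / 4 := by
    rw [abs_mul]
    have := mul_le_mul hx1.le h1 (abs_nonneg _) hb.le
    nlinarith
  have h3 : |x2 - n * x1| * b ≤ 5 / 4 * D := by
    rw [← hy1, ← abs_mul, e2]
    refine (abs_add_le _ _).trans ?_
    rw [abs_neg, hD]
    linarith
  have h4 : 3 / 4 * D ≤ |x2 - n * x1| * b := by
    rw [← hy1, ← abs_mul, e2]
    have h5 := abs_sub_abs_le_abs_sub (-(x1 * y2 - x2 * y1)) (-(x1 * (y2 - n * y1)))
    rw [abs_neg, abs_neg, hD, sub_neg_eq_add] at h5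
    linarith
  have hD0 : 0 ≤ D := by rw [← hD]; exact abs_nonneg _
  refine ⟨n, h1, ?_, ?_, ?_⟩
  · rw [div_le_iff₀ (by positivity)]
    linarith
  · rw [le_div_iff₀ hb]
    linarith
  · have ht : |y2 / y1| = b' / b := by rw [abs_div, hy1, hy2]
    have h6 : |(n : ℝ)| ≤ b' / b + 1 / 2 := by
      have h7 := abs_sub_abs_le_abs_sub (n : ℝ) (y2 / y1)
      rw [abs_sub_comm (n : ℝ), ht] at h7
      linarith
    have h8 : 1 ≤ b' / b := by rw [le_div_iff₀ hb]; linarith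
    have h9 : |l2 - n * l1| ≤ |l2| + |(n : ℝ)| * |l1| := by
      rw [← abs_mul]
      exact abs_sub _ _
    have h10 := mul_le_mul_of_nonneg_right h6 (abs_nonneg l1)
    have h11 := mul_le_mul_of_nonneg_right h8 (abs_nonneg l1)
    have h12 := abs_nonneg l1
    linarith

theorem pf (hD : DlowStm) : IIIStm := by
  intro S m ρ s E C hC
  obtain ⟨k1, h1⟩ := hD S m ρ s E 2 (by norm_num)
  obtain ⟨R, hR⟩ := E.bad (3 * 2 ^ s * C) (by positivity)
  obtain ⟨k2, h2⟩ := E.btop R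
  refine ⟨max k1 k2, fun j hj hN => ?_⟩
  have hj1 : k1 ≤ j := le_trans (le_max_left _ _) hj
  have hj2 : k2 ≤ j + 1 := (le_trans (le_max_right _ _) hj).trans (Nat.le_succ _)
  have hDl := h1 j hj1 hN
  have hbR : R ≤ m.b (j + 1) := h2 (j + 1) hj2
  have e2 : j + 2 = (j + 1) + 1 := rfl
  rw [e2]
  generalize j + 1 = k at hDl hbR ⊢
  have hs := E.hs
  have hs2 := E.hs2
  have hb1 : 1 < m.b k := (E.a1 k).trans (E.ab k)
  have hb0 : 0 < m.b k := by linarith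
  have hsg : 2 ≤ s / (s - 1) := by
    rw [le_div_iff₀ (by linarith)]
    linarith
  have hD2 : 2 * m.b k ^ 2 ≤ m.D k := by
    have h3 : m.b k ^ (2 : ℝ) ≤ m.b k ^ (s / (s - 1)) :=
      Real.rpow_le_rpow_of_exponent_le hb1.le hsg
    rw [Real.rpow_two] at h3
    linarith
  obtain ⟨n, hy, hx1, hx2, hl⟩ := red (S.x (m.r k)) (S.y (m.r k)) (S.x (m.r (k + 1)))
    (S.y (m.r (k + 1))) (S.l (m.r k)) (S.l (m.r (k + 1))) (m.b k) (m.b (k + 1)) (m.D k) hb0 rfl rfl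
    (E.ab k) rfl hD2 (E.bmono (Nat.lt_succ_self k)).le (m.Lanti k).le
  set q := m.r (k + 1) - n • m.r k with hq
  have hlq : S.l q = S.l (m.r (k + 1)) - n * S.l (m.r k) := by
    rw [hq, map_sub, map_zsmul, zsmul_eq_mul]
  have hxq : S.x q = S.x (m.r (k + 1)) - n * S.x (m.r k) := by
    rw [hq, map_sub, map_zsmul, zsmul_eq_mul]
  have hyq : S.y q = S.y (m.r (k + 1)) - n * S.y (m.r k) := by
    rw [hq, map_sub, map_zsmul, zsmul_eq_mul]
  rw [← hlq] at hl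
  rw [← hxq] at hx1 hx2
  rw [← hyq] at hy
  have hbx : m.b k ≤ |S.x q| := by
    refine le_trans ?_ hx1
    rw [le_div_iff₀ (by positivity)]
    nlinarith
  have hyx : |S.y q| ≤ |S.x q| := by linarith
  have hNq : S.N q = |S.x q| := max_eq_left hyx
  have hx1' : 1 ≤ |S.x q| := by linarith
  have hdom : |S.y q| ≤ |S.x q| ^ ρ := by
    refine hyx.trans ?_
    have := Real.rpow_le_rpow_of_exponent_le hx1' E.hρ.le
    rwa [Real.rpow_one] at this
  have key := hR q (by rw [hNq]; linarith) (Or.inl hdom)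
  rw [hNq] at key
  have hDp : 0 < m.D k := by nlinarith
  have hDb : 0 < m.D k / m.b k := by positivity
  have h5 : (2 * (m.D k / m.b k)) ^ (-s) ≤ |S.x q| ^ (-s) := by
    apply Real.rpow_le_rpow_of_nonpos (by linarith) _ (by linarith)
    rw [← mul_div_assoc]
    exact hx2
  have h6 : (2 * (m.D k / m.b k)) ^ (-s) = (2 ^ s)⁻¹ * ((m.D k / m.b k) ^ s)⁻¹ := by
    rw [Real.rpow_neg (by positivity), Real.mul_rpow (by norm_num) hDb.le, mul_inv]
  have h7 : 3 * 2 ^ s * C * ((2 ^ s)⁻¹ * ((m.D k / m.b k) ^ s)⁻¹) ≤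
      3 * (m.b (k + 1) / m.b k) * |S.l (m.r k)| := by
    rw [← h6]
    exact ((mul_le_mul_of_nonneg_left h5 (by positivity)).trans key.le).trans hl
  have hp : 0 < (m.D k / m.b k) ^ s := Real.rpow_pos_of_pos hDb _
  have h8 : 3 * 2 ^ s * C * ((2 ^ s)⁻¹ * ((m.D k / m.b k) ^ s)⁻¹) =
      3 * (C / (m.D k / m.b k) ^ s) := by
    have : (2 : ℝ) ^ s ≠ 0 := by positivity
    field_simp
  rw [h8] at h7
  have h9 : C / (m.D k / m.b k) ^ s ≤ m.b (k + 1) / m.b k * |S.l (m.r k)| := by linarith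
  rw [div_le_iff₀ hp] at h9
  have h10 := mul_le_mul_of_nonneg_right h9 hb0.le
  have h11 : m.b (k + 1) / m.b k * |S.l (m.r k)| * (m.D k / m.b k) ^ s * m.b k =
      m.L k * m.b (k + 1) * (m.D k / m.b k) ^ s := by
    have : m.b k ≠ 0 := hb0.ne'
    unfold Seq.L
    field_simp
  rw [h11] at h10
  exact h10

end Pool.Agent.W789.TH.A12
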