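import Mathlib
import Pool.Agent.W789.TH.Defs
import Pool.Agent.W789.TH.DefsB

/-!
Project TH, part B11: lower bound on the lattice of level `k` (adapted from the starting file).
-/

set_option autoImplicit false

namespace Pool.Agent.W789.TH.B11

open Pool.Agent.W789.TH

theorem Tc_int (d : Raw) (c : ℕ → ℕ)
    (h : ∀ k, ∃ z : ℤ, (c k : ℝ) * d.ρ k - c (k + 1) * d.ρ' k = z) (k : ℕ) :
    ∃ z : ℤ, d.Tc c k = c k * (d.ρ k : ℝ) + z := by
  induction k with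
  | zero => exact ⟨0, by simp [Raw.Tc]⟩
  | succ k ih =>
    obtain ⟨z, hz⟩ := ih
    obtain ⟨z', hz'⟩ := h k
    refine ⟨z + z', ?_⟩
    have : d.Tc c (k + 1) = d.Tc c k + c (k + 1) * ((d.ρ (k + 1) : ℝ) - d.ρ' k) := rfl
    rw [this, hz]
    push_cast
    linarith

theorem D_one (d : Raw) (k : ℕ) : (1 : ℝ) ≤ d.D k := by exact_mod_cast (d.ρ k).den_pos

theorem Q_pos (d : Raw) (k : ℕ) : 0 < d.Q k := by
  have h1 : (2 : ℝ) ≤ d.A k := by exact_mod_cast d.A_two k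
  have h2 := D_one d k
  unfold Raw.Q
  positivity

variable {d : Raw} (t : Lim d)

/-- The remainder. -/
noncomputable def er (k : ℕ) (x y : ℤ) : ℝ :=
  -(t.θb - d.Tc d.b k) * x + (t.θa - d.Tc d.a k) * y

theorem form_eq (k : ℕ) (x y : ℤ) : ∃ z : ℤ,
    t.Lf x y = d.jz k x y * (d.ρ k : ℝ) - z + er t k x y := by
  obtain ⟨z1, h1⟩ := Tc_int d d.b d.int_b k
  obtain ⟨z2, h2⟩ := Tc_int d d.a d.int_a k
  refine ⟨z1 * x - z2 * y, ?_⟩
  unfold Lim.Lf er Raw.jz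
  rw [h1, h2]
  push_cast
  ring

theorem er_bound (k : ℕ) (x y : ℤ) : |er t k x y| ≤ 4 * d.Jn (k + 1) x y / (d.Q k * d.D k) := by
  unfold er
  have h1 := t.hb k
  have h2 := t.ha k
  have h3 := Q_pos d k
  have h4 := D_one d k
  refine (abs_add_le _ _).trans ?_
  rw [abs_mul, abs_mul, abs_neg]
  have e : 4 * d.Jn (k + 1) x y / (d.Q k * d.D k)
      = 2 * d.Ec d.b k * |(x : ℝ)| + 2 * d.Ec d.a k * |(y : ℝ)| := by
    unfold Raw.Jn Raw.Ec; field_simp; ring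
  rw [e]
  exact add_le_add (mul_le_mul_of_nonneg_right h1 (abs_nonneg _))
    (mul_le_mul_of_nonneg_right h2 (abs_nonneg _))

theorem er_succ (k : ℕ) (x y : ℤ) :
    er t k x y = d.jz (k + 1) x y * ((d.ρ (k + 1) : ℝ) - d.ρ' k) + er t (k + 1) x y := by
  unfold er Raw.jz
  have h1 : d.Tc d.b (k + 1) = d.Tc d.b k + d.b (k + 1) * ((d.ρ (k + 1) : ℝ) - d.ρ' k) := rfl
  have h2 : d.Tc d.a (k + 1) = d.Tc d.a k + d.a (k + 1) * ((d.ρ (k + 1) : ℝ) - d.ρ' k) := rfl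
  rw [h1, h2]
  push_cast
  ring

theorem dvd_int (ρ : ℚ) (j : ℤ) (h : (ρ.den : ℤ) ∣ j) : ∃ z : ℤ, j * (ρ : ℝ) = z := by
  obtain ⟨c, rfl⟩ := h
  refine ⟨c * ρ.num, ?_⟩
  have h2 : (ρ.den : ℝ) * (ρ : ℝ) = ρ.num := by
    have := Rat.den_mul_eq_num ρ
    exact_mod_cast this
  push_cast
  linear_combination (c : ℝ) * h2

theorem Jn_le (hg : d.Grow) (k : ℕ) (x y : ℤ) : d.Jn k x y ≤ 2 * d.b k * tt x y := by
  unfold Raw.Jn
  have h1 : |(x : ℝ)| ≤ tt x y := le_max_left _ _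
  have h2 : |(y : ℝ)| ≤ tt x y := le_max_right _ _
  have h3 := hg.g3 k
  have h5 : (d.b k : ℝ) * |(x : ℝ)| ≤ d.b k * tt x y := by gcongr
  have h6 : (d.a k : ℝ) * |(y : ℝ)| ≤ d.b k * tt x y := by gcongr
  linarith

theorem tt_le_Jn (k : ℕ) (x y : ℤ) : tt x y ≤ d.Jn k x y := by
  unfold Raw.Jn tt
  have h3 : (1 : ℝ) ≤ d.a k := by exact_mod_cast d.a_pos k
  have h4 : (1 : ℝ) ≤ d.b k := by exact_mod_cast d.b_pos k
  have h5 : |(x : ℝ)| ≤ d.b k * |(x : ℝ)| := le_mul_of_one_le_left (abs_nonneg _) h4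
  have h6 : |(y : ℝ)| ≤ d.a k * |(y : ℝ)| := le_mul_of_one_le_left (abs_nonneg _) h3
  have h7 : 0 ≤ (d.b k : ℝ) * |(x : ℝ)| := by positivity
  have h8 : 0 ≤ (d.a k : ℝ) * |(y : ℝ)| := by positivity
  exact max_le (by linarith) (by linarith)

theorem er_small (k : ℕ) (x y : ℤ) (h : d.Jn (k + 1) x y ≤ d.Q k / 16) :
    |er t k x y| ≤ 1 / (4 * d.D k) := by
  have hQ := Q_pos d k
  have hD := D_one d k
  refine (er_bound t k x y).trans ?_
  rw [div_le_div_iff₀ (by positivity) (by positivity)]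
  nlinarith

theorem er_next (hg : d.Grow) (k : ℕ) (x y : ℤ) (h : d.Jn (k + 1) x y ≤ d.Q k / 16) :
    |er t (k + 1) x y| ≤ 1 / (16 * d.Q k) := by
  have hQ := Q_pos d k
  have hQ1 := Q_pos d (k + 1)
  have hD1 := D_one d (k + 1)
  refine (er_bound t (k + 1) x y).trans ?_
  rw [div_le_div_iff₀ (by positivity) (by positivity)]
  have e1 : k + 1 + 1 = k + 2 := rfl
  rw [e1]
  have h1 := Jn_le hg (k + 2) x y
  have h2 := tt_le_Jn (d := d) (k + 1) x y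
  have h3 := hg.g4 k
  have h4 : d.Jn (k + 2) x y ≤ 2 * d.b (k + 2) * (d.Q k / 16) := by
    refine h1.trans ?_
    gcongr
    linarith
  calc 4 * d.Jn (k + 2) x y * (16 * d.Q k)
      ≤ 4 * (2 * d.b (k + 2) * (d.Q k / 16)) * (16 * d.Q k) := by gcongr
    _ = 8 * d.b (k + 2) * d.Q k ^ 2 := by ring
    _ ≤ 1 * (d.Q (k + 1) * d.D (k + 1)) := by rw [one_mul]; exact h3

theorem pf : LatStm := by
  intro d t hg k u v hu h p
  set x : ℤ := u * d.a k + v * d.a (k + 1) with hx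
  set y : ℤ := u * d.b k + v * d.b (k + 1) with hy
  have hQ := Q_pos d k
  have hD := D_one d k
  have hw : (d.a k : ℤ) * d.b (k + 1) = (d.ρ k).den + d.b k * d.a (k + 1) := by
    exact_mod_cast d.wedge k
  have hj : d.jz k x y = (d.ρ k).den * v := by
    unfold Raw.jz; rw [hx, hy]; linear_combination v * hw
  have hj1 : d.jz (k + 1) x y = -(u * d.D k) := by
    unfold Raw.jz Raw.D; rw [hx, hy]; linear_combination (-u) * hw
  obtain ⟨z, hz⟩ := form_eq t k x y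
  obtain ⟨z', hz'⟩ := dvd_int (d.ρ k) (d.jz k x y) ⟨v, hj⟩
  have hu1 : (1 : ℝ) ≤ |(u : ℝ)| := by exact_mod_cast Int.one_le_abs hu
  have he1 := er_small t k x y h
  have he2 := er_next t hg k x y h
  have hE : |(u : ℝ)| / (16 * d.Q k) ≤ |er t k x y| := by
    rw [er_succ, hj1]
    have h1 := d.dist_low k
    have h2 : |(u : ℝ)| / (8 * d.Q k) ≤
        |((-(u * (d.D k : ℤ)) : ℤ) : ℝ) * ((d.ρ (k + 1) : ℝ) - d.ρ' k)| := by
      rw [abs_mul]
      push_cast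
      rw [abs_neg, abs_mul, abs_of_nonneg (by positivity : (0 : ℝ) ≤ d.D k)]
      have hA : (2 : ℝ) ≤ d.A k := by exact_mod_cast d.A_two k
      calc |(u : ℝ)| / (8 * d.Q k) = (|(u : ℝ)| * d.D k) * (1 / (8 * d.A k * (d.D k : ℝ) ^ 2)) := by
            unfold Raw.Q; field_simp
        _ ≤ _ := by
            apply mul_le_mul_of_nonneg_left _ (by positivity)
            exact h1
    have h3 : 1 / (16 * d.Q k) ≤ |(u : ℝ)| / (16 * d.Q k) := by gcongr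
    have h4 := abs_sub_abs_le_abs_add
      (((-(u * (d.D k : ℤ)) : ℤ) : ℝ) * ((d.ρ (k + 1) : ℝ) - d.ρ' k)) (er t (k + 1) x y)
    have h5 : |(u : ℝ)| / (8 * d.Q k) = |(u : ℝ)| / (16 * d.Q k) + |(u : ℝ)| / (16 * d.Q k) := by
      field_simp; ring
    linarith
  have hS : t.Lf x y - p = ((z' - z - p : ℤ) : ℝ) + er t k x y := by
    rw [hz, hz']; push_cast; ring
  rw [hS]
  have h14 : 1 / (4 * (d.D k : ℝ)) ≤ 1 / 4 := by
    apply one_div_le_one_div_of_le (by norm_num); linarith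
  by_cases ha : z' - z - p = 0
  · rw [ha, Int.cast_zero, zero_add]
    exact hE
  · have h3 : (1 : ℝ) ≤ |((z' - z - p : ℤ) : ℝ)| := by exact_mod_cast Int.one_le_abs ha
    have h4 := abs_sub_abs_le_abs_add ((z' - z - p : ℤ) : ℝ) (er t k x y)
    have h6 : |(u : ℝ)| / (16 * d.Q k) ≤ 1 / 4 := hE.trans (he1.trans h14)
    linarith

end Pool.Agent.W789.TH.B11
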