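import Mathlib
import Pool.Agent.W789.TH.Defs
import Pool.Agent.W789.TH.DefsB

set_option autoImplicit false

/-! Project TH (owner helper789), part C02: monotonicity of beta and kappa. -/

namespace Pool.Agent.W789.TH.C02

open Pool.Agent.W789.TH

theorem pf : KapStm := by
  rintro s β s' β' ⟨hs1, hs2, hb0, hb1, hb⟩ ⟨hs1', hs2', hb0', hb1', hb'⟩ hss
  have h5 : (1 : ℝ) < √5 := by
    rw [Real.lt_sqrt zero_le_one]
    norm_num
  have hs : 1 < s := by linarith
  have hs' : 1 < s' := by linarith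
  have p1 : 0 < s - 1 := by linarith
  have p2 : 0 < s + 1 := by linarith
  have p1' : 0 < s' - 1 := by linarith
  have p2' : 0 < s' + 1 := by linarith
  have hbb : β < β' := by
    by_contra hc
    push Not at hc
    have e1 : β' * (1 + s' * β') ≤ β * (1 + s' * β) := by
      have : s' * β' ≤ s' * β := mul_le_mul_of_nonneg_left hc (by linarith)
      exact mul_le_mul hc (by linarith) (by positivity) hb0.le
    have e2 : (1 + s' * β) * (s + 1) ≤ (1 + s * β) * (s' + 1) := by
      nlinarith [mul_nonneg (sub_nonneg.2 hss.le) (sub_nonneg.2 hb1)]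
    have e3 : (β * (1 + s' * β)) * (s + 1) ≤ (β * (1 + s * β)) * (s' + 1) := by
      have := mul_le_mul_of_nonneg_left e2 hb0.le
      nlinarith
    have e4 : (s ^ 2 - s - 1) * (s' - 1) < (s' ^ 2 - s' - 1) * (s - 1) := by
      have : 0 < (s' - s) * ((s - 1) * (s' - 1) + 1) :=
        mul_pos (sub_pos.2 hss) (by positivity)
      nlinarith
    have e5 : ((s' + 1) * (s' ^ 2 - s' - 1)) * ((s - 1) * (s + 1)) ≤
        ((s + 1) * (s ^ 2 - s - 1)) * ((s' + 1) * (s' - 1)) := by
      rw [← hb, ← hb']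
      calc β' * (1 + s' * β') * (s' - 1) * ((s - 1) * (s + 1))
          = (β' * (1 + s' * β')) * ((s' - 1) * (s - 1) * (s + 1)) := by ring
        _ ≤ (β * (1 + s' * β)) * ((s' - 1) * (s - 1) * (s + 1)) :=
            mul_le_mul_of_nonneg_right e1 (by positivity)
        _ = ((β * (1 + s' * β)) * (s + 1)) * ((s' - 1) * (s - 1)) := by ring
        _ ≤ ((β * (1 + s * β)) * (s' + 1)) * ((s' - 1) * (s - 1)) :=
            mul_le_mul_of_nonneg_right e3 (by positivity)
        _ = β * (1 + s * β) * (s - 1) * ((s' + 1) * (s' - 1)) := by ring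
    have e6 : 0 < (s + 1) * (s' + 1) *
        ((s' ^ 2 - s' - 1) * (s - 1) - (s ^ 2 - s - 1) * (s' - 1)) :=
      mul_pos (by positivity) (by linarith)
    nlinarith
  refine ⟨hbb, ?_⟩
  have q0 : β ^ 2 < β' ^ 2 := by nlinarith
  have q1 : (s - 1) * s' * β ^ 2 < (s' - 1) * s * β' ^ 2 := by
    have r1 : (s - 1) * s' ≤ (s' - 1) * s := by nlinarith
    calc (s - 1) * s' * β ^ 2 ≤ (s' - 1) * s * β ^ 2 :=
          mul_le_mul_of_nonneg_right r1 (by positivity)
      _ < (s' - 1) * s * β' ^ 2 := mul_lt_mul_of_pos_left q0 (by positivity)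
  have q2 : (s + 1) * β < (s' + 1) * β' := by
    calc (s + 1) * β ≤ (s' + 1) * β := mul_le_mul_of_nonneg_right (by linarith) hb0.le
      _ < (s' + 1) * β' := mul_lt_mul_of_pos_left hbb p2'
  have r1 : (s + 1) * (s' + 1) * ((s - 1) * s' * β ^ 2) <
      (s + 1) * (s' + 1) * ((s' - 1) * s * β' ^ 2) := mul_lt_mul_of_pos_left q1 (by positivity)
  have r2 : ((s - 1) * (s' - 1) * (β * β')) * ((s + 1) * β) <
      ((s - 1) * (s' - 1) * (β * β')) * ((s' + 1) * β') :=
    mul_lt_mul_of_pos_left q2 (by positivity)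
  calc ((s + 1) * (s - 1) * β ^ 2) * ((s' + 1) * s' + (s' - 1) * β')
      = (s + 1) * (s' + 1) * ((s - 1) * s' * β ^ 2) +
        ((s - 1) * (s' - 1) * (β * β')) * ((s + 1) * β) := by ring
    _ < (s + 1) * (s' + 1) * ((s' - 1) * s * β' ^ 2) +
        ((s - 1) * (s' - 1) * (β * β')) * ((s' + 1) * β') := add_lt_add r1 r2
    _ = ((s' + 1) * (s' - 1) * β' ^ 2) * ((s + 1) * s + (s - 1) * β) := by ring

end Pool.Agent.W789.TH.C02
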